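import Pool.Agent.H11.FX.Defs
import Pool.Agent.H45.FT.Approx

/-!
# Fixed dimensions: base of the induction, passage to measures, the value at a basis
-/

set_option autoImplicit false

namespace FX

open H45FT Real Finset MeasureTheory

/-- the integral against a finite nonnegative combination of Dirac measures -/
theorem base_integral_dirac {V : Type} [MeasurableSpace V] [MeasurableSingletonClass V]
    {ι : Type} (s : Finset ι) (x : ι → V) (w : ι → ℝ) (hw : ∀ i ∈ s, 0 ≤ w i) (f : V → ℝ) :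
    ∫ v, f v ∂(∑ i ∈ s, ENNReal.ofReal (w i) • Measure.dirac (x i)) = ∑ i ∈ s, w i * f (x i) := by
  rw [integral_finsetSum_measure]
  · refine Finset.sum_congr rfl fun i hi => ?_
    rw [integral_smul_measure, integral_dirac, ENNReal.toReal_ofReal (hw i hi), smul_eq_mul]
  · intro i _
    exact (integrable_dirac (by simp)).smul_measure ENNReal.ofReal_ne_top

/-- the finite inequality from the integral inequality -/
theorem ft_of_integral {n : ℕ}
    (H : ∀ μ : Measure (EuclideanSpace ℝ (Fin n)), IsProbabilityMeasure μ →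
      μ (Metric.sphere (0 : EuclideanSpace ℝ (Fin n)) 1)ᶜ = 0 →
      ∫ x, ∫ y, Real.arccos |@inner ℝ _ _ x y| ∂μ ∂μ ≤ π / 2 * (1 - 1 / (n : ℝ))) : FT n := by
  intro ι s x w hx hw
  rcases (Finset.sum_nonneg hw).eq_or_lt with h0 | hpos
  · have hz : ∀ i ∈ s, w i = 0 := (Finset.sum_eq_zero_iff_of_nonneg hw).1 h0.symm
    rw [← h0]
    have : ∑ i ∈ s, ∑ j ∈ s, w i * w j * ang (inner ℝ (x i) (x j)) = 0 := by
      refine Finset.sum_eq_zero fun i hi => Finset.sum_eq_zero fun j _ => ?_
      rw [hz i hi]; ring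
    rw [this]
    norm_num
  · set T : ℝ := ∑ i ∈ s, w i with hT
    have hw' : ∀ i ∈ s, 0 ≤ w i / T := fun i hi => div_nonneg (hw i hi) hpos.le
    let μ : Measure (EuclideanSpace ℝ (Fin n)) :=
      ∑ i ∈ s, ENNReal.ofReal (w i / T) • Measure.dirac (x i)
    have hμ : IsProbabilityMeasure μ := by
      constructor
      show (∑ i ∈ s, ENNReal.ofReal (w i / T) • Measure.dirac (x i)) Set.univ = 1
      rw [Measure.finsetSum_apply]
      simp only [Measure.smul_apply, measure_univ, smul_eq_mul, mul_one]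
      rw [← ENNReal.ofReal_sum_of_nonneg hw', ← Finset.sum_div, ← hT, div_self hpos.ne',
        ENNReal.ofReal_one]
    have hS : μ (Metric.sphere (0 : EuclideanSpace ℝ (Fin n)) 1)ᶜ = 0 := by
      show (∑ i ∈ s, ENNReal.ofReal (w i / T) • Measure.dirac (x i)) _ = 0
      rw [Measure.finsetSum_apply]
      refine Finset.sum_eq_zero fun i hi => ?_
      rw [Measure.smul_apply, Measure.dirac_apply, Set.indicator_of_notMem, smul_zero]
      simp [hx i hi]
    have h := H μ hμ hS
    have key : ∀ f : EuclideanSpace ℝ (Fin n) → ℝ,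
        ∫ v, f v ∂μ = ∑ i ∈ s, w i / T * f (x i) := fun f => base_integral_dirac s x _ hw' f
    rw [key] at h
    simp only [key] at h
    have e : ∑ i ∈ s, w i / T * ∑ j ∈ s, w j / T * Real.arccos |@inner ℝ _ _ (x i) (x j)| =
        π / 2 * ((∑ i ∈ s, ∑ j ∈ s, w i * w j * ang (inner ℝ (x i) (x j))) / T ^ 2) := by
      rw [Finset.sum_div, Finset.mul_sum]
      refine Finset.sum_congr rfl fun i _ => ?_
      rw [Finset.sum_div, Finset.mul_sum, Finset.mul_sum]
      refine Finset.sum_congr rfl fun j _ => ?_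
      rw [← half_pi_ang]
      field_simp
    rw [e] at h
    have h2 := le_of_mul_le_mul_left h (by positivity : (0 : ℝ) < π / 2)
    rwa [div_le_iff₀ (by positivity)] at h2

theorem ft_three (h : Cert3) : FT 3 := by
  apply ft_of_integral
  intro μ hμ hS
  have h1 := d2_of_cert3 h μ hμ hS
  refine h1.trans (le_of_eq ?_)
  norm_num

theorem integral_of_ft {d : ℕ} (hd : 0 < d) (h : FT (d + 1))
    (μ : MeasureTheory.Measure (EuclideanSpace ℝ (Fin (d + 1))))
    (hμ : MeasureTheory.IsProbabilityMeasure μ)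
    (hS : μ (Metric.sphere (0 : EuclideanSpace ℝ (Fin (d + 1))) 1)ᶜ = 0) :
    ∫ x, ∫ y, Real.arccos |@inner ℝ _ _ x y| ∂μ ∂μ ≤ π / 2 * ((d : ℝ) / (d + 1)) := by
  refine integral_integral_le_of_finite μ hS (fun x y => Real.arccos |@inner ℝ _ _ x y|)
    (by fun_prop) (B := Real.pi) ?_ ?_
  · intro x y
    rw [abs_of_nonneg (Real.arccos_nonneg _)]
    exact Real.arccos_le_pi _
  intro t w ht hw hw1
  have h1 := h _ t (fun v => v) w (fun v hv => mem_sphere_zero_iff_norm.mp (ht v hv)) hw
  rw [hw1] at h1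
  have e : ∑ x ∈ t, ∑ y ∈ t, w x * w y * Real.arccos |@inner ℝ _ _ x y| =
      π / 2 * ∑ x ∈ t, ∑ y ∈ t, w x * w y * ang (inner ℝ x y) := by
    rw [Finset.mul_sum]
    refine Finset.sum_congr rfl fun x _ => ?_
    rw [Finset.mul_sum]
    refine Finset.sum_congr rfl fun y _ => ?_
    rw [← half_pi_ang]; ring
  rw [e]
  have h2 := mul_le_mul_of_nonneg_left h1 (by positivity : (0 : ℝ) ≤ π / 2)
  refine h2.trans (le_of_eq ?_)
  push_cast
  have hd' : ((d : ℝ) + 1) ≠ 0 := by positivity
  field_simp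
  ring

theorem onb_value {d : ℕ} (b : OrthonormalBasis (Fin (d + 1)) ℝ (EuclideanSpace ℝ (Fin (d + 1)))) :
    ∫ x, ∫ y, Real.arccos |@inner ℝ _ _ x y|
      ∂(((d + 1 : ℕ) : ENNReal)⁻¹ • ∑ i, MeasureTheory.Measure.dirac (b i))
      ∂(((d + 1 : ℕ) : ENNReal)⁻¹ • ∑ i, MeasureTheory.Measure.dirac (b i)) =
      π / 2 * ((d : ℝ) / (d + 1)) := by
  have key : ∀ f : EuclideanSpace ℝ (Fin (d + 1)) → ℝ,
      ∫ x, f x ∂(((d + 1 : ℕ) : ENNReal)⁻¹ • ∑ i, Measure.dirac (b i)) =
        (1 / ((d : ℝ) + 1)) * ∑ i, f (b i) := by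
    intro f
    rw [integral_smul_measure, integral_finsetSum_measure]
    · simp only [integral_dirac]
      rw [ENNReal.toReal_inv, ENNReal.toReal_natCast, smul_eq_mul]
      push_cast
      rw [one_div]
    · intro i _
      exact integrable_dirac (by simp)
  rw [key]
  simp only [key]
  have h : ∀ i j : Fin (d + 1), (@inner ℝ _ _ (b i) (b j) : ℝ) = if i = j then 1 else 0 :=
    fun i j => orthonormal_iff_ite.1 b.orthonormal i j
  have h2 : ∀ i : Fin (d + 1), ∑ j, Real.arccos |@inner ℝ _ _ (b i) (b j)| = d * (π / 2) := by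
    intro i
    have h3 : ∀ j : Fin (d + 1), Real.arccos |@inner ℝ _ _ (b i) (b j)| =
        π / 2 - if i = j then π / 2 else 0 := by
      intro j
      rw [h]
      split_ifs
      · rw [abs_one, Real.arccos_one, sub_self]
      · rw [abs_zero, Real.arccos_zero, sub_zero]
    simp only [h3]
    rw [Finset.sum_sub_distrib, Finset.sum_const, Finset.card_univ, Fintype.card_fin,
      Finset.sum_ite_eq, if_pos (Finset.mem_univ i), nsmul_eq_mul]
    push_cast
    ring
  simp only [h2]
  rw [Finset.sum_const, Finset.card_univ, Fintype.card_fin, nsmul_eq_mul]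
  have hd' : ((d : ℝ) + 1) ≠ 0 := by positivity
  push_cast
  field_simp

end FX
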