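import Pool.Agent.H11.FX.Cp

set_option autoImplicit false

/-!
# The induction step on the dimension (row FD-2)
-/

namespace FX

open H45FT Real Finset

theorem zonal_sq {d : ℕ} (hd : 0 < d) : Zonal d (fun t => t ^ 2 - 1 / (d : ℝ)) := by
  classical
  have hd0 : (d : ℝ) ≠ 0 := by exact_mod_cast hd.ne'
  have h := PSD.sum (X := Metric.sphere (0 : EuclideanSpace ℝ (Fin d)) 1)
    (K := fun (p : Fin d × Fin d) x y =>
      ((x : EuclideanSpace ℝ (Fin d)) p.1 * (x : EuclideanSpace ℝ (Fin d)) p.2 -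
        (if p.1 = p.2 then 1 / (d : ℝ) else 0)) *
      ((y : EuclideanSpace ℝ (Fin d)) p.1 * (y : EuclideanSpace ℝ (Fin d)) p.2 -
        (if p.1 = p.2 then 1 / (d : ℝ) else 0))) Finset.univ
    (fun p _ => PSD.rankOne (fun x : Metric.sphere (0 : EuclideanSpace ℝ (Fin d)) 1 =>
      (x : EuclideanSpace ℝ (Fin d)) p.1 * (x : EuclideanSpace ℝ (Fin d)) p.2 -
        (if p.1 = p.2 then 1 / (d : ℝ) else 0)))
  refine h.congr fun x y => ?_
  have hn : ∀ x : Metric.sphere (0 : EuclideanSpace ℝ (Fin d)) 1,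
      ∑ i, (x : EuclideanSpace ℝ (Fin d)) i ^ 2 = 1 := by
    intro x
    have h1 := mem_sphere_zero_iff_norm.mp x.2
    rw [EuclideanSpace.norm_eq, Real.sqrt_eq_one] at h1
    simpa using h1
  have hx := hn x
  have hy := hn y
  have hin : inner ℝ (x : EuclideanSpace ℝ (Fin d)) (y : EuclideanSpace ℝ (Fin d)) =
      ∑ i, (x : EuclideanSpace ℝ (Fin d)) i * (y : EuclideanSpace ℝ (Fin d)) i := by
    simp only [PiLp.inner_apply, RCLike.inner_apply, conj_trivial]
    exact Finset.sum_congr rfl fun i _ => mul_comm _ _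
  rw [Fintype.sum_prod_type, hin]
  set X : Fin d → ℝ := fun i => (x : EuclideanSpace ℝ (Fin d)) i
  set Y : Fin d → ℝ := fun i => (y : EuclideanSpace ℝ (Fin d)) i
  have e1 : ∀ i j : Fin d, (X i * X j - (if i = j then 1 / (d : ℝ) else 0)) *
      (Y i * Y j - (if i = j then 1 / (d : ℝ) else 0)) =
      (X i * Y i) * (X j * Y j) + (if i = j then
        (1 / (d : ℝ)) ^ 2 - 1 / (d : ℝ) * (X i * X j) - 1 / (d : ℝ) * (Y i * Y j) else 0) := by
    intro i j
    split_ifs <;> ring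
  have e2 : ∑ i, ∑ j, (X i * X j - (if i = j then 1 / (d : ℝ) else 0)) *
      (Y i * Y j - (if i = j then 1 / (d : ℝ) else 0)) =
      (∑ i, X i * Y i) ^ 2 + ∑ i, ((1 / (d : ℝ)) ^ 2 - 1 / (d : ℝ) * (X i * X i) -
        1 / (d : ℝ) * (Y i * Y i)) := by
    simp only [e1, Finset.sum_add_distrib]
    congr 1
    · rw [sq, Finset.sum_mul_sum]
    · refine Finset.sum_congr rfl fun i _ => ?_
      rw [Finset.sum_ite_eq]
      simp
  show (∑ i, X i * Y i) ^ 2 - 1 / (d : ℝ) = ∑ i, ∑ j,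
    (X i * X j - (if i = j then 1 / (d : ℝ) else 0)) *
      (Y i * Y j - (if i = j then 1 / (d : ℝ) else 0))
  rw [e2, Finset.sum_sub_distrib, Finset.sum_sub_distrib, ← Finset.mul_sum, ← Finset.mul_sum]
  have hx' : ∑ i, X i * X i = 1 := by
    rw [← hx]
    exact Finset.sum_congr rfl fun i _ => (sq _).symm
  have hy' : ∑ i, Y i * Y i = 1 := by
    rw [← hy]
    exact Finset.sum_congr rfl fun i _ => (sq _).symm
  rw [hx', hy']
  simp only [Finset.sum_const, Finset.card_univ, Fintype.card_fin, nsmul_eq_mul]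
  field_simp
  ring

/-- indexed form of `PSD.on` -/
theorem psd_onFam {X : Type*} {S : Set X} {K : X → X → ℝ} (h : PSD (fun x y : S => K x y))
    {ι : Type*} (s : Finset ι) (p : ι → X) (hs : ∀ i ∈ s, p i ∈ S) (w : ι → ℝ) :
    0 ≤ ∑ i ∈ s, ∑ j ∈ s, w i * w j * K (p i) (p j) := by
  have h1 := h.family s.attach (fun i => (⟨p i.1, hs i.1 i.2⟩ : S)) (fun i => w i.1)
  simp only at h1
  have h2 : ∀ i ∈ s.attach, ∑ j ∈ s.attach, w i.1 * w j.1 * K (p i.1) (p j.1)
      = ∑ j ∈ s, w i.1 * w j * K (p i.1) (p j) := fun i _ =>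
    Finset.sum_attach s (fun j => w i.1 * w j * K (p i.1) (p j))
  rw [Finset.sum_congr rfl h2,
    Finset.sum_attach s (fun i => ∑ j ∈ s, w i * w j * K (p i) (p j))] at h1
  exact h1

/-- identification of the directions at `z` with unit vectors of `ℝ^d` -/
theorem exists_dirs {d : ℕ} (hd : 0 < d) {z : EuclideanSpace ℝ (Fin (d + 1))} (hz : ‖z‖ = 1) :
    ∃ E : EuclideanSpace ℝ (Fin (d + 1)) → EuclideanSpace ℝ (Fin d), (∀ x, ‖E x‖ = 1) ∧
      ∀ x y, tng z x ≠ 0 → tng z y ≠ 0 →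
        (inner ℝ (E x) (E y) : ℝ) = inner ℝ (dir z x) (dir z y) := by
  classical
  have hfr : Fact (Module.finrank ℝ (EuclideanSpace ℝ (Fin (d + 1))) = d + 1) := ⟨by simp⟩
  have hz0 : z ≠ 0 := by
    intro h; rw [h, norm_zero] at hz; exact zero_ne_one hz
  let b := OrthonormalBasis.fromOrthogonalSpanSingleton (𝕜 := ℝ) d hz0
  have hmem : ∀ x, tng z x ∈ (ℝ ∙ z)ᗮ := by
    intro x
    rw [Submodule.mem_orthogonal_singleton_iff_inner_right]
    exact inner_z_tng hz
  have hdmem : ∀ x, dir z x ∈ (ℝ ∙ z)ᗮ := fun x => Submodule.smul_mem _ _ (hmem x)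
  let e0 : EuclideanSpace ℝ (Fin d) := EuclideanSpace.single ⟨0, hd⟩ 1
  have hnd : ∀ x, tng z x ≠ 0 → ‖dir z x‖ = 1 := by
    intro x hx
    unfold dir
    rw [norm_smul, norm_mul, norm_inv, norm_norm]
    have h1 : ‖sg (inner ℝ z x : ℝ)‖ = 1 := by
      rcases sg_eq (inner ℝ z x : ℝ) with h | h <;> simp [h]
    rw [h1, one_mul, inv_mul_cancel₀ (norm_ne_zero_iff.mpr hx)]
  refine ⟨fun x => if tng z x = 0 then e0 else b.repr ⟨dir z x, hdmem x⟩, fun x => ?_,
    fun x y hx hy => ?_⟩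
  · by_cases hx : tng z x = 0
    · simp [hx, e0]
    · simp only [hx, if_false]
      rw [LinearIsometryEquiv.norm_map, Submodule.coe_norm]
      exact hnd x hx
  · simp only [hx, hy, if_false]
    rw [LinearIsometryEquiv.inner_map_map]
    rfl

/-- the summation over triples -/
theorem sum_three {ι : Type*} (s : Finset ι) (w : ι → ℝ) (hw : ∀ i ∈ s, 0 ≤ w i)
    (K : ι → ι → ι → ℝ) (g : ι → ι → ℝ) (C : ℝ)
    (hK : ∀ l ∈ s, 0 ≤ ∑ i ∈ s, ∑ j ∈ s, w i * w j * K l i j)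
    (hpt : ∀ i ∈ s, ∀ j ∈ s, ∀ l ∈ s,
      K l i j + K i j l + K j l i ≤ 3 * C - (g i l + g j l + g i j)) :
    ∑ i ∈ s, ∑ j ∈ s, w i * w j * g i j ≤ C * (∑ i ∈ s, w i) ^ 2 := by
  set T : ℝ := ∑ i ∈ s, w i with hT
  set E : ℝ := ∑ i ∈ s, ∑ j ∈ s, w i * w j * g i j with hE
  have hT0 : 0 ≤ T := Finset.sum_nonneg hw
  have hmulT : ∀ r : ℝ, ∑ l ∈ s, r * w l = r * T := fun r => by rw [← Finset.mul_sum]
  have hsum : ∑ i ∈ s, ∑ j ∈ s, ∑ l ∈ s, w i * w j * w l * (K l i j + K i j l + K j l i) ≤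
      ∑ i ∈ s, ∑ j ∈ s, ∑ l ∈ s, w i * w j * w l * (3 * C - (g i l + g j l + g i j)) := by
    refine Finset.sum_le_sum fun i hi => Finset.sum_le_sum fun j hj =>
      Finset.sum_le_sum fun l hl => ?_
    exact mul_le_mul_of_nonneg_left (hpt i hi j hj l hl)
      (mul_nonneg (mul_nonneg (hw i hi) (hw j hj)) (hw l hl))
  have hleft : 0 ≤ ∑ i ∈ s, ∑ j ∈ s, ∑ l ∈ s, w i * w j * w l * (K l i j + K i j l + K j l i) := by
    have hsplit : ∑ i ∈ s, ∑ j ∈ s, ∑ l ∈ s, w i * w j * w l * (K l i j + K i j l + K j l i)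
        = ∑ i ∈ s, ∑ j ∈ s, ∑ l ∈ s, w i * w j * w l * K l i j
        + ∑ i ∈ s, ∑ j ∈ s, ∑ l ∈ s, w i * w j * w l * K i j l
        + ∑ i ∈ s, ∑ j ∈ s, ∑ l ∈ s, w i * w j * w l * K j l i := by
      simp only [← Finset.sum_add_distrib]
      exact Finset.sum_congr rfl fun i _ => Finset.sum_congr rfl fun j _ =>
        Finset.sum_congr rfl fun l _ => by ring
    rw [hsplit]
    have p1 : 0 ≤ ∑ i ∈ s, ∑ j ∈ s, ∑ l ∈ s, w i * w j * w l * K l i j := by
      have : ∑ i ∈ s, ∑ j ∈ s, ∑ l ∈ s, w i * w j * w l * K l i j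
          = ∑ l ∈ s, w l * ∑ i ∈ s, ∑ j ∈ s, w i * w j * K l i j := by
        calc ∑ i ∈ s, ∑ j ∈ s, ∑ l ∈ s, w i * w j * w l * K l i j
            = ∑ i ∈ s, ∑ l ∈ s, ∑ j ∈ s, w i * w j * w l * K l i j :=
              Finset.sum_congr rfl fun i _ => Finset.sum_comm
          _ = ∑ l ∈ s, ∑ i ∈ s, ∑ j ∈ s, w i * w j * w l * K l i j := Finset.sum_comm
          _ = _ := by
              refine Finset.sum_congr rfl fun l _ => ?_
              rw [Finset.mul_sum]
              refine Finset.sum_congr rfl fun i _ => ?_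
              rw [Finset.mul_sum]
              exact Finset.sum_congr rfl fun j _ => by ring
      rw [this]
      exact Finset.sum_nonneg fun l hl => mul_nonneg (hw l hl) (hK l hl)
    have p2 : 0 ≤ ∑ i ∈ s, ∑ j ∈ s, ∑ l ∈ s, w i * w j * w l * K i j l := by
      have : ∑ i ∈ s, ∑ j ∈ s, ∑ l ∈ s, w i * w j * w l * K i j l
          = ∑ i ∈ s, w i * ∑ j ∈ s, ∑ l ∈ s, w j * w l * K i j l := by
        refine Finset.sum_congr rfl fun i _ => ?_
        rw [Finset.mul_sum]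
        refine Finset.sum_congr rfl fun j _ => ?_
        rw [Finset.mul_sum]
        exact Finset.sum_congr rfl fun l _ => by ring
      rw [this]
      exact Finset.sum_nonneg fun i hi => mul_nonneg (hw i hi) (hK i hi)
    have p3 : 0 ≤ ∑ i ∈ s, ∑ j ∈ s, ∑ l ∈ s, w i * w j * w l * K j l i := by
      have : ∑ i ∈ s, ∑ j ∈ s, ∑ l ∈ s, w i * w j * w l * K j l i
          = ∑ j ∈ s, w j * ∑ l ∈ s, ∑ i ∈ s, w l * w i * K j l i := by
        rw [Finset.sum_comm]
        refine Finset.sum_congr rfl fun j _ => ?_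
        rw [Finset.sum_comm, Finset.mul_sum]
        refine Finset.sum_congr rfl fun l _ => ?_
        rw [Finset.mul_sum]
        exact Finset.sum_congr rfl fun i _ => by ring
      rw [this]
      exact Finset.sum_nonneg fun j hj => mul_nonneg (hw j hj) (hK j hj)
    linarith
  have hright : ∑ i ∈ s, ∑ j ∈ s, ∑ l ∈ s, w i * w j * w l *
        (3 * C - (g i l + g j l + g i j)) = 3 * C * T ^ 3 - 3 * (E * T) := by
    have q0 : ∑ i ∈ s, ∑ j ∈ s, ∑ l ∈ s, w i * w j * w l * (3 * C) = 3 * C * T ^ 3 := by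
      calc ∑ i ∈ s, ∑ j ∈ s, ∑ l ∈ s, w i * w j * w l * (3 * C)
          = ∑ i ∈ s, ∑ j ∈ s, (3 * C * T * w i) * w j := by
            refine Finset.sum_congr rfl fun i _ => Finset.sum_congr rfl fun j _ => ?_
            rw [show 3 * C * T * w i * w j = (3 * C * w i * w j) * T by ring, ← hmulT]
            exact Finset.sum_congr rfl fun l _ => by ring
        _ = ∑ i ∈ s, (3 * C * T * T) * w i := by
            refine Finset.sum_congr rfl fun i _ => ?_
            rw [hmulT]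
            ring
        _ = 3 * C * T ^ 3 := by
            rw [hmulT]
            ring
    have q1 : ∑ i ∈ s, ∑ j ∈ s, ∑ l ∈ s, w i * w j * w l * g i j = E * T := by
      rw [hE, Finset.sum_mul]
      refine Finset.sum_congr rfl fun i _ => ?_
      rw [Finset.sum_mul]
      refine Finset.sum_congr rfl fun j _ => ?_
      rw [← hmulT]
      exact Finset.sum_congr rfl fun l _ => by ring
    have q2 : ∑ i ∈ s, ∑ j ∈ s, ∑ l ∈ s, w i * w j * w l * g i l = E * T := by
      rw [← q1]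
      refine Finset.sum_congr rfl fun i _ => ?_
      rw [Finset.sum_comm]
      exact Finset.sum_congr rfl fun j _ => Finset.sum_congr rfl fun l _ => by ring
    have q3 : ∑ i ∈ s, ∑ j ∈ s, ∑ l ∈ s, w i * w j * w l * g j l = E * T := by
      rw [← q2, Finset.sum_comm]
      refine Finset.sum_congr rfl fun i _ => ?_
      exact Finset.sum_congr rfl fun j _ => Finset.sum_congr rfl fun l _ => by ring
    calc _ = ∑ i ∈ s, ∑ j ∈ s, ∑ l ∈ s, w i * w j * w l * (3 * C)
          - (∑ i ∈ s, ∑ j ∈ s, ∑ l ∈ s, w i * w j * w l * g i l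
          + ∑ i ∈ s, ∑ j ∈ s, ∑ l ∈ s, w i * w j * w l * g j l
          + ∑ i ∈ s, ∑ j ∈ s, ∑ l ∈ s, w i * w j * w l * g i j) := by
          simp only [← Finset.sum_add_distrib, ← Finset.sum_sub_distrib]
          exact Finset.sum_congr rfl fun i _ => Finset.sum_congr rfl fun j _ =>
            Finset.sum_congr rfl fun l _ => by ring
      _ = 3 * C * T ^ 3 - 3 * (E * T) := by rw [q0, q1, q2, q3]; ring
  have hmain : E * T ≤ C * T ^ 3 := by
    have := hleft.trans (hsum.trans_eq hright)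
    linarith
  rcases hT0.eq_or_lt with h0 | h0
  · have hw0 : ∀ i ∈ s, w i = 0 := (Finset.sum_eq_zero_iff_of_nonneg hw).1 h0.symm
    have hE0 : E = 0 := by
      rw [hE]
      refine Finset.sum_eq_zero fun i hi => Finset.sum_eq_zero fun j _ => ?_
      rw [hw0 i hi]
      ring
    rw [hE0, ← h0]
    simp
  · have : E * T ≤ (C * T ^ 2) * T := by linarith [hmain, show C * T ^ 3 = C * T ^ 2 * T by ring]
    exact le_of_mul_le_mul_right this h0

theorem W_zero_left (X : Cr) {b : ℝ} (hb : b ∈ Set.Icc (0 : ℝ) 1) : W X 0 b = 0 := by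
  have h1 : min 0 b = 0 := min_eq_left hb.1
  have h2 : max (0 + b - 1) 0 = 0 := max_eq_right (by linarith [hb.2])
  unfold W wmn
  rw [h1, h2]
  simp [sf, sh]

theorem W_zero_right (X : Cr) {b : ℝ} (hb : b ∈ Set.Icc (0 : ℝ) 1) : W X b 0 = 0 := by
  have h1 : min b 0 = 0 := min_eq_right hb.1
  have h2 : max (b + 0 - 1) 0 = 0 := max_eq_right (by linarith [hb.2])
  unfold W wmn
  rw [h1, h2]
  simp [sf, sh]

theorem V_zero_left (X : Cr) {b : ℝ} (hb : b ∈ Set.Icc (0 : ℝ) 1) : V X 0 b = 0 := by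
  unfold V
  rw [bridge_zero_left hb]
  simp [sf, sh]

theorem V1_zero_left (k x : ℝ) (b : ℝ) : V1 k x 0 b = 0 := by
  unfold V1; simp

theorem VP_zero_left (k x : ℝ) {b : ℝ} (hb : b ∈ Set.Icc (0 : ℝ) 1) : VP k x 0 b = 0 := by
  unfold VP
  rw [min_eq_left hb.1, min_eq_left (le_min (by norm_num) (by linarith [hb.2]))]
  simp

/-- the kernel at a vertex -/
noncomputable def Kt (X : Cr) (d : ℕ) (a b t : ℝ) : ℝ :=
  U X d a b + W X a b * ((1 - 1 / (d : ℝ)) - ang t) + V X a b * (t ^ 2 - 1 / (d : ℝ)) +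
    V1 X.k X.x a b * t + VP X.k X.x a b * (1 - 2 / π * arccos t)

theorem Kt_eq (X : Cr) (d : ℕ) (a b t : ℝ) :
    Kt X d a b t = (d : ℝ) / (d + 1) - 1 / 2 - Vt X a b t := by
  unfold Kt U Vt ang
  ring

/-- positivity of the kernel at a vertex -/
theorem Kt_nonneg {d : ℕ} (hd : 0 < d) (X : Cr) (hW : CPI (W X)) (hV : PSDI (V X))
    (hV1 : PSDI (V1 X.k X.x)) (hVP : PSDI (VP X.k X.x)) (hU : PSDI (U X d)) (IH : FT d)
    {z : EuclideanSpace ℝ (Fin (d + 1))} (hz : ‖z‖ = 1) {ι : Type} (s : Finset ι)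
    (x : ι → EuclideanSpace ℝ (Fin (d + 1))) (w : ι → ℝ) (hx : ∀ i ∈ s, ‖x i‖ = 1)
    (hw : ∀ i ∈ s, 0 ≤ w i) :
    0 ≤ ∑ i ∈ s, ∑ j ∈ s, w i * w j * Kt X d (ang (inner ℝ (x i) z)) (ang (inner ℝ (x j) z))
      (inner ℝ (dir z (x i)) (dir z (x j))) := by
  have hs : ∀ i ∈ s, x i ∈ Metric.sphere (0 : EuclideanSpace ℝ (Fin (d + 1))) 1 := fun i hi =>
    mem_sphere_zero_iff_norm.mpr (hx i hi)
  -- the four positive semidefinite parts
  have k1 : PSD (fun x y : Metric.sphere (0 : EuclideanSpace ℝ (Fin (d + 1))) 1 =>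
      U X d (ang (inner ℝ (x : EuclideanSpace ℝ (Fin (d + 1))) z))
        (ang (inner ℝ (y : EuclideanSpace ℝ (Fin (d + 1))) z))) :=
    PSD.comp hU (fun x : Metric.sphere (0 : EuclideanSpace ℝ (Fin (d + 1))) 1 =>
      (⟨ang (inner ℝ (x : EuclideanSpace ℝ (Fin (d + 1))) z), ang_mem _⟩ : Set.Icc (0 : ℝ) 1))
  have k2 := psd_three_point_term hd hz hV (fun b hb => V_zero_left X hb) (zonal_sq hd)
  have k3 := psd_three_point_term hd hz hV1 (fun b _ => V1_zero_left X.k X.x b) (zonal_id d)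
  have k4 := psd_three_point_term hd hz hVP (fun b hb => VP_zero_left X.k X.x hb)
    (zonal_one_sub_Gamma d)
  have hpsd := psd_onFam (S := Metric.sphere (0 : EuclideanSpace ℝ (Fin (d + 1))) 1)
    (K := fun x y => U X d (ang (inner ℝ x z)) (ang (inner ℝ y z)) +
      V X (ang (inner ℝ x z)) (ang (inner ℝ y z)) *
        ((inner ℝ (dir z x) (dir z y)) ^ 2 - 1 / (d : ℝ)) +
      V1 X.k X.x (ang (inner ℝ x z)) (ang (inner ℝ y z)) * (inner ℝ (dir z x) (dir z y)) +
      VP X.k X.x (ang (inner ℝ x z)) (ang (inner ℝ y z)) *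
        (1 - 2 / π * arccos (inner ℝ (dir z x) (dir z y))))
    (((k1.add k2).add k3).add k4) s x hs w
  -- the completely positive part
  obtain ⟨E, hE1, hE2⟩ := exists_dirs hd hz
  have hcp := hW ι s (fun i => ang (inner ℝ (x i) z))
    (fun i j => (1 - 1 / (d : ℝ)) - ang (inner ℝ (E (x i)) (E (x j)))) w
    (fun i _ => ang_mem _) (by
      intro u hu
      have h := IH ι s (fun i => E (x i)) u (fun i _ => hE1 _) hu
      have e : ∑ i ∈ s, ∑ j ∈ s, u i * u j *
          ((1 - 1 / (d : ℝ)) - ang (inner ℝ (E (x i)) (E (x j)))) =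
          (1 - 1 / (d : ℝ)) * (∑ i ∈ s, u i) ^ 2 -
            ∑ i ∈ s, ∑ j ∈ s, u i * u j * ang (inner ℝ (E (x i)) (E (x j))) := by
        rw [sq, Finset.sum_mul_sum, Finset.mul_sum, ← Finset.sum_sub_distrib]
        refine Finset.sum_congr rfl fun i _ => ?_
        rw [Finset.mul_sum, ← Finset.sum_sub_distrib]
        exact Finset.sum_congr rfl fun j _ => by ring
      rw [e]
      linarith) hw
  have hang : ∀ i ∈ s, tng z (x i) = 0 → ang (inner ℝ (x i) z) = 0 := by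
    intro i hi h
    apply ang_eq_zero
    rw [real_inner_comm, ← norm_tng hz (hx i hi), h, norm_zero]
  have hcp' : 0 ≤ ∑ i ∈ s, ∑ j ∈ s, w i * w j * (W X (ang (inner ℝ (x i) z))
      (ang (inner ℝ (x j) z)) * ((1 - 1 / (d : ℝ)) - ang (inner ℝ (dir z (x i)) (dir z (x j))))) := by
    refine hcp.trans (le_of_eq ?_)
    refine Finset.sum_congr rfl fun i hi => Finset.sum_congr rfl fun j hj => ?_
    by_cases h1 : tng z (x i) = 0
    · simp only [hang i hi h1, W_zero_left X (ang_mem _)]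
      ring
    by_cases h2 : tng z (x j) = 0
    · simp only [hang j hj h2, W_zero_right X (ang_mem _)]
      ring
    simp only [hE2 _ _ h1 h2]
  refine (add_nonneg hpsd hcp').trans (le_of_eq ?_)
  simp only [← Finset.sum_add_distrib]
  refine Finset.sum_congr rfl fun i _ => Finset.sum_congr rfl fun j _ => ?_
  unfold Kt
  ring

theorem ft_step {d : ℕ} (hd : 2 ≤ d) (X : Cr) (hW : CPI (W X)) (hV : PSDI (V X))
    (hV1 : PSDI (V1 X.k X.x)) (hVP : PSDI (VP X.k X.x)) (hU : PSDI (U X d)) (hPW : PW X)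
    (IH : FT d) : FT (d + 1) := by
  intro ι s x w hx hw
  have hd0 : 0 < d := by omega
  have hC : 1 - 1 / ((d + 1 : ℕ) : ℝ) = (d : ℝ) / (d + 1) := by
    have : ((d : ℝ) + 1) ≠ 0 := by positivity
    push_cast
    field_simp
    ring
  rw [hC]
  refine sum_three s w hw (fun l i j => Kt X d (ang (inner ℝ (x i) (x l)))
    (ang (inner ℝ (x j) (x l))) (inner ℝ (dir (x l) (x i)) (dir (x l) (x j))))
    (fun i j => ang (inner ℝ (x i) (x j))) ((d : ℝ) / (d + 1)) ?_ ?_
  · intro l hl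
    exact Kt_nonneg hd0 X hW hV hV1 hVP hU IH (hx l hl) s x w hx hw
  · intro i hi j hj l hl
    have hx1 := hx i hi
    have hy1 := hx j hj
    have hz1 := hx l hl
    have h := hPW (ang (inner ℝ (x i) (x l))) (ang_mem _) (ang (inner ℝ (x j) (x l))) (ang_mem _)
      (ang (inner ℝ (x i) (x j))) (ang_mem _)
      (sg (inner ℝ (x i) (x j)) * sg (inner ℝ (x j) (x l)) * sg (inner ℝ (x i) (x l))) ?_
      (gram3_nonneg hz1 hx1 hy1)
    · have e1 := inner_dir_dir hz1 hx1 hy1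
      have e2 := inner_dir_dir hx1 hy1 hz1
      have e3 := inner_dir_dir hy1 hz1 hx1
      rw [real_inner_comm (x i) (x j), real_inner_comm (x i) (x l)] at e2
      rw [real_inner_comm (x i) (x l), real_inner_comm (x j) (x l)] at e3
      simp only [Kt_eq]
      rw [real_inner_comm (x i) (x j), real_inner_comm (x i) (x l), real_inner_comm (x j) (x l),
        e1, e2, e3]
      rw [show sg (inner ℝ (x j) (x l)) * sg (inner ℝ (x i) (x l)) * sg (inner ℝ (x i) (x j))
        = sg (inner ℝ (x i) (x j)) * sg (inner ℝ (x j) (x l)) * sg (inner ℝ (x i) (x l)) by ring]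
      rw [show sg (inner ℝ (x i) (x l)) * sg (inner ℝ (x i) (x j)) * sg (inner ℝ (x j) (x l))
        = sg (inner ℝ (x i) (x j)) * sg (inner ℝ (x j) (x l)) * sg (inner ℝ (x i) (x l)) by ring]
      unfold F at h
      linarith
    · rcases sg_eq (inner ℝ (x i) (x j) : ℝ) with h1 | h1 <;>
        rcases sg_eq (inner ℝ (x j) (x l) : ℝ) with h2 | h2 <;>
        rcases sg_eq (inner ℝ (x i) (x l) : ℝ) with h3 | h3 <;> rw [h1, h2, h3] <;> norm_num

end FX
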