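import Pool.Agent.H11.FX.Psd

set_option autoImplicit false

/-!
# Positive semidefiniteness of the kernels of `XD d`, `3 ≤ d ≤ 26`
-/

namespace FX

open H45FT Real

theorem ud_pi : 3.141592 < π ∧ π < 3.141593 ∧ 9.8696 < π ^ 2 ∧ π ^ 2 < 9.86961 := by
  have h1 := Real.pi_gt_d6
  have h2 := Real.pi_lt_d6
  refine ⟨h1, h2, ?_, ?_⟩ <;> nlinarith

theorem ud_det : 0.22655 < detH ∧ detH < 0.2266 := by
  obtain ⟨h1, h2, h3, h4⟩ := ud_pi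
  unfold detH
  constructor <;> nlinarith

theorem psdi_V_XA : PSDI (V XA) := by
  obtain ⟨h1, h2, h3, h4⟩ := ud_pi
  obtain ⟨h5, h6⟩ := ud_det
  refine psdi_V (X := XA) ?_ ?_ ?_ ?_
  · norm_num [XA]
  · norm_num [XA]
  · norm_num [XA, trH]
    linarith
  · norm_num [XA, trH]
    linarith

theorem psdi_V_XB : PSDI (V XB) := by
  obtain ⟨h1, h2, h3, h4⟩ := ud_pi
  obtain ⟨h5, h6⟩ := ud_det
  refine psdi_V (X := XB) ?_ ?_ ?_ ?_
  · norm_num [XB]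
  · norm_num [XB]
  · norm_num [XB, trH]
    linarith
  · norm_num [XB, trH]
    linarith

theorem ud_thA {d : ℕ} (h3 : 3 ≤ d) : thA d = (52 - 2 * (d : ℝ)) / (37 + 3 * d) := by
  have hd : (3 : ℝ) ≤ d := by exact_mod_cast h3
  have h1 : (d : ℝ) - 1 ≠ 0 := by intro h; linarith
  have h2 : (37 : ℝ) + 3 * d ≠ 0 := by positivity
  have h4 : 1 / 10 * (1 / 2 - 1 / ((d : ℝ) - 1)) + 1 / 2 * (1 / ((d : ℝ) - 1) - 1 / 25) ≠ 0 := by
    have : 1 / 10 * (1 / 2 - 1 / ((d : ℝ) - 1)) + 1 / 2 * (1 / ((d : ℝ) - 1) - 1 / 25) =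
        (37 + 3 * d) / (100 * ((d : ℝ) - 1)) := by
      field_simp
      ring
    rw [this]
    exact div_ne_zero h2 (mul_ne_zero (by norm_num) h1)
  unfold thA
  rw [div_eq_div_iff h4 h2]
  field_simp
  ring

theorem ud_th0 {d : ℕ} (h3 : 3 ≤ d) (h : d ≤ 26) : 0 ≤ thA d := by
  have hd : (3 : ℝ) ≤ d := by exact_mod_cast h3
  have hd' : (d : ℝ) ≤ 26 := by exact_mod_cast h
  rw [ud_thA h3]
  apply div_nonneg <;> linarith

theorem ud_th1 {d : ℕ} (h3 : 3 ≤ d) : thA d ≤ 1 := by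
  have hd : (3 : ℝ) ≤ d := by exact_mod_cast h3
  rw [ud_thA h3, div_le_one (by linarith)]
  linarith

theorem psdi_V_mix {X Y : Cr} (hX : PSDI (V X)) (hY : PSDI (V Y)) {θ : ℝ} (h0 : 0 ≤ θ)
    (h1 : θ ≤ 1) : PSDI (V (X.mix Y θ)) := by
  refine ((hX.smul (c := θ) h0).add (hY.smul (c := 1 - θ) (by linarith))).congr
    fun a _ b _ => ?_
  simp only [V, Cr.mix]
  ring

theorem psdi_V_XD {d : ℕ} (h3 : 3 ≤ d) (h : d ≤ 26) : PSDI (V (XD d)) :=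
  psdi_V_mix psdi_V_XA psdi_V_XB (ud_th0 h3 h) (ud_th1 h3)

theorem psdi_V1_XD {d : ℕ} (h3 : 3 ≤ d) (h : d ≤ 26) : PSDI (V1 (XD d).k (XD d).x) := by
  have h0 := ud_th0 h3 h
  have h1 := ud_th1 h3
  refine psdi_V1 ?_
  simp only [XD, Cr.mix, XA, XB]
  linarith

theorem psdi_VP_XD {d : ℕ} (h3 : 3 ≤ d) (h : d ≤ 26) : PSDI (VP (XD d).k (XD d).x) := by
  have h0 := ud_th0 h3 h
  have h1 := ud_th1 h3
  obtain ⟨_, _, _, h4⟩ := ud_pi
  have hpi : (4 : ℝ) / 10 ≤ 4 / π ^ 2 := by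
    rw [div_le_div_iff₀ (by norm_num) (by positivity)]
    linarith
  refine psdi_VP ?_ ?_
  · simp only [XD, Cr.mix, XA, XB]
    linarith
  · refine le_trans ?_ (mul_le_mul_of_nonneg_left hpi ?_)
    · simp only [XD, Cr.mix, XA, XB]
      linarith
    · simp only [XD, Cr.mix, XA, XB]
      linarith

/-- the kernel `U` in terms of the bridge kernel -/
theorem ud_U_eq {X : Cr} {d : ℕ} (hd : 2 ≤ d) (p : ℝ) (hp : p = 1 / ((d : ℝ) - 1))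
    (h1 : X.bW + X.bV = 1 + 2 * X.k) (h2 : 2 * X.bW + X.G1 + X.G2 = 1 - 4 * p * X.k)
    (h3 : X.aa + 2 * X.af + X.ff = 4 * p * X.k)
    (h4 : X.af + X.ff + X.G1 + X.G2 = -(3 + 2 * p) * X.k)
    (h5 : X.ah + X.fh + X.G2 = 0) (a b : ℝ) :
    U X d a b = 1 / ((d : ℝ) * (d + 1)) *
      (((d : ℝ) - (d + 1) * a + (d + 1) * X.k / 2 * Dfun a) *
        ((d : ℝ) - (d + 1) * b + (d + 1) * X.k / 2 * Dfun b)) +
      ((1 + 2 * X.k) / d * bridge a b -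
        ((X.k + (1 - 1 / (d : ℝ)) * (X.ff + X.G1 + X.G2) / 4 + (d + 1) * X.k ^ 2 / (4 * d)) *
            (Dfun a * Dfun b) +
          (1 - 1 / (d : ℝ)) * (X.fh + X.G2) / 8 * (Dfun a * (4 * sh b) + 4 * sh a * Dfun b) +
          (1 - 1 / (d : ℝ)) * (X.hh + X.G2) / 16 * (4 * sh a * (4 * sh b)))) := by
  have hd2 : (2 : ℝ) ≤ d := by exact_mod_cast hd
  have hd0 : (d : ℝ) ≠ 0 := by intro h; linarith
  have hd1 : (d : ℝ) - 1 ≠ 0 := by intro h; linarith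
  have hd3 : (d : ℝ) + 1 ≠ 0 := by intro h; linarith
  have hc : ∀ t, cos (π * t) = 1 - 2 * t - Dfun t := by
    intro t; unfold Dfun; ring
  have hf : ∀ t, sf t = t + Dfun t / 2 := by
    intro t
    unfold sf
    rw [Real.sin_sq_eq_half_sub, show 2 * (π / 2 * t) = π * t by ring, hc]
    ring
  have hw : wmn a b = bridge a b + 2 * a * b := by
    unfold wmn bridge; ring
  have e1 : X.bV = 1 + 2 * X.k - X.bW := by linarith
  have e2 : X.G1 = 1 - 4 * p * X.k - X.G2 - 2 * X.bW := by linarith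
  have e5 : X.ah = -X.fh - X.G2 := by linarith
  have e4 : X.af = -(3 + 2 * p) * X.k - X.G1 - X.G2 - X.ff := by linarith
  have e3 : X.aa = 4 * p * X.k - 2 * X.af - X.ff := by linarith
  have hWV : W X a b + V X a b = (1 + 2 * X.k) * bridge a b + a * b -
      (3 + 2 * p) * X.k / 2 * (a * Dfun b + b * Dfun a) +
      (X.ff + X.G1 + X.G2) / 4 * (Dfun a * Dfun b) +
      (X.fh + X.G2) / 2 * (Dfun a * sh b + sh a * Dfun b) +
      (X.hh + X.G2) * (sh a * sh b) := by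
    unfold W V
    rw [hf, hf, hw, e3, e4, e5, e2, e1]
    ring
  unfold U
  rw [hWV]
  unfold Ustar
  rw [max_eq_bridge, hc, hc, hp]
  field_simp
  ring

theorem psdi_U_of {X : Cr} {d : ℕ} (hd : 2 ≤ d)
    (h1 : X.bW + X.bV = 1 + 2 * X.k)
    (h2 : 2 * X.bW + X.G1 + X.G2 = 1 - 4 * (1 / ((d : ℝ) - 1)) * X.k)
    (h3 : X.aa + 2 * X.af + X.ff = 4 * (1 / ((d : ℝ) - 1)) * X.k)
    (h4 : X.af + X.ff + X.G1 + X.G2 = -(3 + 2 * (1 / ((d : ℝ) - 1))) * X.k)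
    (h5 : X.ah + X.fh + X.G2 = 0)
    {c T11 T12 T22 : ℝ} (ec : (1 + 2 * X.k) / d = c)
    (e11 : X.k + (1 - 1 / (d : ℝ)) * (X.ff + X.G1 + X.G2) / 4 + (d + 1) * X.k ^ 2 / (4 * d) = T11)
    (e12 : (1 - 1 / (d : ℝ)) * (X.fh + X.G2) / 8 = T12)
    (e22 : (1 - 1 / (d : ℝ)) * (X.hh + X.G2) / 16 = T22) (hc : 0 ≤ c)
    (h6 : trH T11 T12 T22 ≤ 2 * c)
    (h7 : 0 ≤ c ^ 2 - c * trH T11 T12 T22 + detH * (T11 * T22 - T12 ^ 2)) :
    PSDI (U X d) := by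
  have hr : PSDI (fun a b => (((d : ℝ) - (d + 1) * a + (d + 1) * X.k / 2 * Dfun a) *
        ((d : ℝ) - (d + 1) * b + (d + 1) * X.k / 2 * Dfun b))) :=
    PSDI.rankOne (fun a => (d : ℝ) - (d + 1) * a + (d + 1) * X.k / 2 * Dfun a)
  refine ((hr.smul (c := 1 / ((d : ℝ) * (d + 1))) (by positivity)).add
    (psdi_bridge_DS hc h6 h7)).congr fun a _ b _ => ?_
  rw [ud_U_eq hd _ rfl h1 h2 h3 h4 h5, ec, e11, e12, e22]

theorem psdi_U_XD {d : ℕ} (h3 : 3 ≤ d) (h : d ≤ 26) : PSDI (U (XD d) d) := by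
  obtain ⟨h1, h2, h4, h5⟩ := ud_pi
  obtain ⟨h6, h7⟩ := ud_det
  interval_cases d <;>
  (refine psdi_U_of (by norm_num) ?_ ?_ ?_ ?_ ?_ rfl rfl rfl rfl ?_ ?_ ?_ <;>
    norm_num [XD, Cr.mix, XA, XB, thA, trH] <;> linarith)

end FX
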