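import Pool.Agent.H11.FX.Cp
import Pool.Agent.H11.FX.Step
import Pool.Agent.H11.FX.Base
import Pool.Agent.H11.FX.Ud

/-!
# Fixed dimensions: assembly (project FX, row FD-6)

The three-point function is affine in the certificate, so the pointwise inequality passes to
convex combinations; induction on the dimension.
-/

set_option autoImplicit false

namespace FX

open H45FT Real Finset

theorem asm_Vt (X Y : Cr) (θ a b t : ℝ) :
    Vt (X.mix Y θ) a b t = θ * Vt X a b t + (1 - θ) * Vt Y a b t := by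
  unfold Vt W V Ustar V1 VP Cr.mix
  generalize max (1 / 2 - max a b) (min a b - 1 / 2) = m1
  generalize min (min a b) (min (1 - a) (1 - b)) = m2
  generalize 2 / π * arccos |t| = m3
  generalize 2 / π * arccos t = m4
  generalize wmn a b = m5
  generalize bridge a b = m6
  simp only
  ring

theorem asm_F (X Y : Cr) (θ σ a b c : ℝ) :
    F (X.mix Y θ) σ a b c = θ * F X σ a b c + (1 - θ) * F Y σ a b c := by
  unfold F
  rw [asm_Vt, asm_Vt, asm_Vt]
  ring

theorem pw_mix {X Y : Cr} (hX : PW X) (hY : PW Y) {θ : ℝ} (h0 : 0 ≤ θ) (h1 : θ ≤ 1) :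
    PW (X.mix Y θ) := by
  intro a ha b hb c hc σ hσ hg
  rw [asm_F]
  have e1 := hX a ha b hb c hc σ hσ hg
  have e2 := hY a ha b hb c hc σ hσ hg
  have h2 : 0 ≤ 1 - θ := by linarith
  positivity

theorem asm_thA {d : ℕ} (h3 : 3 ≤ d) (h : d ≤ 26) : 0 ≤ thA d ∧ thA d ≤ 1 := by
  have e3 : (3 : ℝ) ≤ d := by exact_mod_cast h3
  have e26 : (d : ℝ) ≤ 26 := by exact_mod_cast h
  have hd : 0 < (d : ℝ) - 1 := by linarith
  have hp1 : 1 / ((d : ℝ) - 1) ≤ 1 / 2 := one_div_le_one_div_of_le (by norm_num) (by linarith)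
  have hp2 : 1 / 25 ≤ 1 / ((d : ℝ) - 1) := one_div_le_one_div_of_le hd (by linarith)
  unfold thA
  generalize 1 / ((d : ℝ) - 1) = p at hp1 hp2
  have hB : 0 ≤ 1 / 2 * (p - 1 / 25) := by linarith
  have hA : 0 ≤ 1 / 10 * (1 / 2 - p) := by linarith
  exact ⟨div_nonneg hB (by linarith), div_le_one_of_le₀ (by linarith) (by linarith)⟩

theorem asm_cpi {d : ℕ} (h3 : 3 ≤ d) (h : d ≤ 26) : CPI (W (XD d)) := by
  obtain ⟨h0, h1⟩ := asm_thA h3 h
  have h2 : 0 ≤ 1 - thA d := by linarith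
  apply cpi_W
  · show 0 ≤ thA d * (3615 / 10000) + (1 - thA d) * (1316 / 10000)
    positivity
  · show 0 ≤ thA d * (770 / 10000) + (1 - thA d) * (1160 / 10000)
    positivity
  · show 0 ≤ thA d * 0 + (1 - thA d) * (5408 / 10000)
    positivity

theorem ft_main (h2 : Cert3) (hA : PW XA) (hB : PW XB) : ∀ n : ℕ, 3 ≤ n → n ≤ 27 → FT n := by
  intro n h3
  induction n, h3 using Nat.le_induction with
  | base =>
    intro _
    exact ft_three h2
  | succ d h3 ih =>
    intro h27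
    have h : d ≤ 26 := by omega
    obtain ⟨t0, t1⟩ := asm_thA h3 h
    exact ft_step (by omega) (XD d) (asm_cpi h3 h) (psdi_V_XD h3 h) (psdi_V1_XD h3 h)
      (psdi_VP_XD h3 h) (psdi_U_XD h3 h) (pw_mix hA hB t0 t1) (ih (by omega))

end FX
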