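import Pool.Agent.H11.FX.TD
import Pool.Agent.H41.FT.L1

set_option autoImplicit false

/-!
# Basic facts for the region arguments (after helper41's `L4`, `L7`, `L8`, `Fin`, which import data)
-/

namespace FX

open H41FT H45FT Real Function

section upd

variable (p : P) (t : ℝ)

theorem u00 : update p 0 t 0 = t := update_self ..
theorem u01 : update p 0 t 1 = p 1 := update_of_ne (by decide) ..
theorem u02 : update p 0 t 2 = p 2 := update_of_ne (by decide) ..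
theorem u10 : update p 1 t 0 = p 0 := update_of_ne (by decide) ..
theorem u11 : update p 1 t 1 = t := update_self ..
theorem u12 : update p 1 t 2 = p 2 := update_of_ne (by decide) ..
theorem u20 : update p 2 t 0 = p 0 := update_of_ne (by decide) ..
theorem u21 : update p 2 t 1 = p 1 := update_of_ne (by decide) ..
theorem u22 : update p 2 t 2 = t := update_self ..

end upd

/-- a box -/
structure B3 (a0 b0 a1 b1 a2 b2 : ℝ) (p : P) : Prop where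
  l0 : a0 ≤ p 0
  r0 : p 0 ≤ b0
  l1 : a1 ≤ p 1
  r1 : p 1 ≤ b1
  l2 : a2 ≤ p 2
  r2 : p 2 ≤ b2

section

variable {a0 b0 a1 b1 a2 b2 : ℝ} {p : P} {t : ℝ} (h : B3 a0 b0 a1 b1 a2 b2 p)
include h

theorem B3.u0 (h1 : a0 ≤ t) (h2 : t ≤ b0) : B3 a0 b0 a1 b1 a2 b2 (update p 0 t) := by
  refine ⟨?_, ?_, ?_, ?_, ?_, ?_⟩
  · rw [u00]; exact h1
  · rw [u00]; exact h2
  · rw [u01]; exact h.l1
  · rw [u01]; exact h.r1
  · rw [u02]; exact h.l2
  · rw [u02]; exact h.r2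

theorem B3.u1 (h1 : a1 ≤ t) (h2 : t ≤ b1) : B3 a0 b0 a1 b1 a2 b2 (update p 1 t) := by
  refine ⟨?_, ?_, ?_, ?_, ?_, ?_⟩
  · rw [u10]; exact h.l0
  · rw [u10]; exact h.r0
  · rw [u11]; exact h1
  · rw [u11]; exact h2
  · rw [u12]; exact h.l2
  · rw [u12]; exact h.r2

theorem B3.u2 (h1 : a2 ≤ t) (h2 : t ≤ b2) : B3 a0 b0 a1 b1 a2 b2 (update p 2 t) := by
  refine ⟨?_, ?_, ?_, ?_, ?_, ?_⟩
  · rw [u20]; exact h.l0
  · rw [u20]; exact h.r0
  · rw [u21]; exact h.l1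
  · rw [u21]; exact h.r1
  · rw [u22]; exact h1
  · rw [u22]; exact h2

theorem B3.lo0 : a0 ≤ p 0 ∧ ∀ t, a0 ≤ t → t ≤ p 0 → B3 a0 b0 a1 b1 a2 b2 (update p 0 t) :=
  ⟨h.l0, fun _ h1 h2 => h.u0 h1 (h2.trans h.r0)⟩
theorem B3.lo1 : a1 ≤ p 1 ∧ ∀ t, a1 ≤ t → t ≤ p 1 → B3 a0 b0 a1 b1 a2 b2 (update p 1 t) :=
  ⟨h.l1, fun _ h1 h2 => h.u1 h1 (h2.trans h.r1)⟩
theorem B3.lo2 : a2 ≤ p 2 ∧ ∀ t, a2 ≤ t → t ≤ p 2 → B3 a0 b0 a1 b1 a2 b2 (update p 2 t) :=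
  ⟨h.l2, fun _ h1 h2 => h.u2 h1 (h2.trans h.r2)⟩
theorem B3.hi0 : p 0 ≤ b0 ∧ ∀ t, p 0 ≤ t → t ≤ b0 → B3 a0 b0 a1 b1 a2 b2 (update p 0 t) :=
  ⟨h.r0, fun _ h1 h2 => h.u0 (h.l0.trans h1) h2⟩
theorem B3.hi1 : p 1 ≤ b1 ∧ ∀ t, p 1 ≤ t → t ≤ b1 → B3 a0 b0 a1 b1 a2 b2 (update p 1 t) :=
  ⟨h.r1, fun _ h1 h2 => h.u1 (h.l1.trans h1) h2⟩
theorem B3.hi2 : p 2 ≤ b2 ∧ ∀ t, p 2 ≤ t → t ≤ b2 → B3 a0 b0 a1 b1 a2 b2 (update p 2 t) :=
  ⟨h.r2, fun _ h1 h2 => h.u2 (h.l2.trans h1) h2⟩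

end

variable {a b c : ℝ}

/-- `w ≥ 0` -/
def GW (p : P) : Prop := sin (π / 2 * p 0) * sin (π / 2 * p 1) * cos (π / 2 * p 2) -
      cos (π / 2 * p 0) * cos (π / 2 * p 1) ≤ 0

theorem cs_nonneg {x : ℝ} (h0 : 0 ≤ x) (h1 : x ≤ 1) : 0 ≤ cos (π / 2 * x) :=
  cos_nonneg_of_mem_Icc ⟨by nlinarith [Real.pi_pos], by nlinarith [Real.pi_pos]⟩

theorem sn_nonneg {x : ℝ} (h0 : 0 ≤ x) (h1 : x ≤ 1) : 0 ≤ sin (π / 2 * x) :=
  sin_nonneg_of_nonneg_of_le_pi (by nlinarith [Real.pi_pos]) (by nlinarith [Real.pi_pos])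

theorem sn_mono {x y : ℝ} (h0 : 0 ≤ x) (h1 : x ≤ y) (h2 : y ≤ 1) :
    sin (π / 2 * x) ≤ sin (π / 2 * y) :=
  sin_le_sin_of_le_of_le_pi_div_two (by nlinarith [Real.pi_pos]) (by nlinarith [Real.pi_pos])
    (by nlinarith [Real.pi_pos])

theorem cs_anti {x y : ℝ} (h0 : 0 ≤ x) (h1 : x ≤ y) (h2 : y ≤ 1) :
    cos (π / 2 * y) ≤ cos (π / 2 * x) :=
  cos_le_cos_of_nonneg_of_le_pi (by nlinarith [Real.pi_pos]) (by nlinarith [Real.pi_pos])
    (by nlinarith [Real.pi_pos])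

theorem GW.lo0 {p : P} {t : ℝ} (h : GW p) (h0 : 0 ≤ t) (h1 : t ≤ p 0) (h1' : p 0 ≤ 1)
    (h2 : 0 ≤ p 1) (h2' : p 1 ≤ 1) (h3 : 0 ≤ p 2) (h3' : p 2 ≤ 1) : GW (update p 0 t) := by
  unfold GW at *
  rw [u00, u01, u02]
  have k1 := sn_mono h0 h1 h1'
  have k2 := cs_anti h0 h1 h1'
  have k3 := sn_nonneg h2 h2'
  have k4 := cs_nonneg h2 h2'
  have k5 := cs_nonneg h3 h3'
  have k6 := mul_le_mul_of_nonneg_right (mul_le_mul_of_nonneg_right k1 k3) k5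
  have k7 := mul_le_mul_of_nonneg_right k2 k4
  linarith

theorem GW.hi2 {p : P} {t : ℝ} (h : GW p) (h1 : 0 ≤ p 0) (h1' : p 0 ≤ 1)
    (h2 : 0 ≤ p 1) (h2' : p 1 ≤ 1) (h3 : 0 ≤ p 2) (h3' : p 2 ≤ t) (h4 : t ≤ 1) :
    GW (update p 2 t) := by
  unfold GW at *
  rw [u20, u21, u22]
  have k5 := cs_anti h3 h3' h4
  have k6 := mul_le_mul_of_nonneg_left k5 (mul_nonneg (sn_nonneg h1 h1') (sn_nonneg h2 h2'))
  linarith

theorem upd_line (a b s t : ℝ) : update ![a, b, s] 2 t = (![a, b, t] : P) := by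
  ext i
  fin_cases i
  · exact u20 _ _
  · exact u21 _ _
  · exact u22 _ _

theorem gw_mono {a b g0 g : ℝ} (a0 : 0 ≤ a) (a1 : a ≤ 1) (b0 : 0 ≤ b) (b1 : b ≤ 1) (h0 : 0 ≤ g0)
    (h1 : g0 ≤ g) (h2 : g ≤ 1) (hw : sin (π / 2 * a) * sin (π / 2 * b) * cos (π / 2 * g0) -
      cos (π / 2 * a) * cos (π / 2 * b) ≤ 0) :
    sin (π / 2 * a) * sin (π / 2 * b) * cos (π / 2 * g) -
      cos (π / 2 * a) * cos (π / 2 * b) ≤ 0 := by
  have k5 := cs_anti h0 h1 h2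
  have k6 := mul_le_mul_of_nonneg_left k5 (mul_nonneg (sn_nonneg a0 a1) (sn_nonneg b0 b1))
  linarith

theorem tan_quarter {x X : ℝ} (hx0 : 0 ≤ x) (hx1 : x ≤ 1) (hX : X ≤ π / 4 * (1 - x)) (hX0 : 0 ≤ X) :
    tan (π / 4 * x) * (1 + X) ≤ 1 - X := by
  have hp := Real.pi_pos
  have h1 : X ≤ tan (π / 4 * (1 - x)) := by
    rcases (show 0 ≤ 1 - x by linarith).eq_or_lt with h | h
    · rw [← h] at hX ⊢
      simp at hX ⊢; linarith
    · exact hX.trans (lt_tan (by positivity) (by nlinarith)).le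
  have hc1 : 0 < cos (π / 4 * x) := cos_pos_of_mem_Ioo ⟨by nlinarith, by nlinarith⟩
  have hc2 : 0 < cos (π / 4 * (1 - x)) := cos_pos_of_mem_Ioo ⟨by nlinarith, by nlinarith⟩
  have hs1 : 0 ≤ sin (π / 4 * x) := sin_nonneg_of_nonneg_of_le_pi (by positivity) (by nlinarith)
  have hc3 : 0 < cos (π / 4) := cos_pos_of_mem_Ioo ⟨by linarith, by linarith⟩
  have hT : 0 ≤ tan (π / 4 * x) := by rw [tan_eq_sin_div_cos]; positivity
  -- `tan(π/4 (1-x)) (1 + T) = 1 - T`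
  have e : tan (π / 4 * (1 - x)) * (1 + tan (π / 4 * x)) = 1 - tan (π / 4 * x) := by
    have e1 : sin (π / 4 * (1 - x)) = √2 / 2 * (cos (π / 4 * x) - sin (π / 4 * x)) := by
      rw [mul_sub, mul_one, sin_sub, sin_pi_div_four, cos_pi_div_four]; ring
    have e2 : cos (π / 4 * (1 - x)) = √2 / 2 * (cos (π / 4 * x) + sin (π / 4 * x)) := by
      rw [mul_sub, mul_one, cos_sub, sin_pi_div_four, cos_pi_div_four]; ring
    have h2 : (0 : ℝ) < √2 := by positivity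
    have h3 : 0 < cos (π / 4 * x) + sin (π / 4 * x) := by linarith
    rw [tan_eq_sin_div_cos, tan_eq_sin_div_cos (π / 4 * x), e1, e2]
    generalize cos (π / 4 * x) = C at *
    generalize sin (π / 4 * x) = S at *
    field_simp
  have h2 := mul_le_mul_of_nonneg_right h1 (show 0 ≤ 1 + tan (π / 4 * x) by linarith)
  rw [e] at h2
  linarith

theorem tan_q_nonneg {x : ℝ} (h0 : 0 ≤ x) (h1 : x ≤ 1) : 0 ≤ tan (π / 4 * x) :=
  tan_nonneg_of_nonneg_of_le_pi_div_two (by have := Real.pi_pos; positivity)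
    (by nlinarith [Real.pi_pos])

theorem tan_q_pos {x : ℝ} (h0 : 0 < x) (h1 : x ≤ 1) : 0 < tan (π / 4 * x) :=
  tan_pos_of_pos_of_lt_pi_div_two (by have := Real.pi_pos; positivity)
    (by nlinarith [Real.pi_pos])

theorem tan_q_mono {x y : ℝ} (h0 : 0 ≤ x) (h1 : x ≤ y) (h2 : y ≤ 1) :
    tan (π / 4 * x) ≤ tan (π / 4 * y) := by
  rcases h1.eq_or_lt with h | h
  · rw [h]
  · exact (tan_lt_tan_of_lt_of_lt_pi_div_two (by nlinarith [Real.pi_pos])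
      (by nlinarith [Real.pi_pos]) (by nlinarith [Real.pi_pos])).le

theorem tan_q_le_one {x : ℝ} (h0 : 0 ≤ x) (h1 : x ≤ 1) : tan (π / 4 * x) ≤ 1 := by
  have := tan_q_mono h0 h1 le_rfl
  rwa [mul_one, tan_pi_div_four] at this

theorem ang_zero' : ang 0 = 1 := by
  unfold ang; rw [abs_zero, arccos_zero]
  have := Real.pi_pos; field_simp

theorem ang_anti {s t : ℝ} (h : |s| ≤ |t|) : ang t ≤ ang s := by
  unfold ang
  have := arccos_le_arccos h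
  have hp := Real.pi_pos
  exact mul_le_mul_of_nonneg_left this (by positivity)

theorem sn_pos {x : ℝ} (h0 : 0 < x) (h1 : x ≤ 1) : 0 < sin (π / 2 * x) :=
  sin_pos_of_pos_of_lt_pi (by have := Real.pi_pos; positivity) (by nlinarith [Real.pi_pos])

theorem dih_one_nonpos (h0 : 0 < a) (ha1 : a ≤ 1) (hb0 : 0 < b) (hb1 : b ≤ 1) :
    dih 1 a b 1 ≤ 0 := by
  unfold dih
  have hc : cos (π / 2 * 1) = 0 := by rw [mul_one, cos_pi_div_two]
  rw [hc]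
  have h1 := cs_nonneg h0.le ha1
  have h2 := cs_nonneg hb0.le hb1
  have h3 := sn_pos h0 ha1
  have h4 := sn_pos hb0 hb1
  apply div_nonpos_of_nonpos_of_nonneg
  · nlinarith
  · positivity

/-- the third side of the right-angled triangle with legs `a ≤ b` -/
theorem exists_right (h0 : 0 < a) (hab : a ≤ b) (hb : b ≤ 1) :
    ∃ c, b ≤ c ∧ c ≤ 1 ∧ c ≤ a + b ∧ dih 1 a b c = 0 ∧
      cos (π / 2 * c) = cos (π / 2 * a) * cos (π / 2 * b) := by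
  have hp := Real.pi_pos
  have hA := cs_nonneg h0.le (hab.trans hb)
  have hB := cs_nonneg (h0.le.trans hab) hb
  have hA1 := cos_le_one (π / 2 * a)
  have hm0 : 0 ≤ cos (π / 2 * a) * cos (π / 2 * b) := mul_nonneg hA hB
  have hm1 : cos (π / 2 * a) * cos (π / 2 * b) ≤ cos (π / 2 * b) := by nlinarith
  obtain ⟨c, hc⟩ : ∃ c, c = 2 / π * arccos (cos (π / 2 * a) * cos (π / 2 * b)) := ⟨_, rfl⟩
  have hc' : π / 2 * c = arccos (cos (π / 2 * a) * cos (π / 2 * b)) := by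
    rw [hc]; field_simp
  have hcc : cos (π / 2 * c) = cos (π / 2 * a) * cos (π / 2 * b) := by
    rw [hc', cos_arccos (by linarith) (by linarith [cos_le_one (π / 2 * b)])]
  have hbc : b ≤ c := by
    have h1 := arccos_le_arccos hm1
    rw [arccos_cos (mul_nonneg (by positivity) (h0.le.trans hab)) (by nlinarith), ← hc'] at h1
    nlinarith
  have hc1 : c ≤ 1 := by
    have h1 := arccos_le_arccos hm0
    rw [arccos_zero, ← hc'] at h1
    nlinarith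
  have hcab : c ≤ a + b := by
    have h2 : cos (π / 2 * (a + b)) ≤ cos (π / 2 * a) * cos (π / 2 * b) := by
      rw [mul_add, cos_add]
      have := mul_nonneg (sn_nonneg h0.le (hab.trans hb)) (sn_nonneg (h0.le.trans hab) hb)
      linarith
    have h1 := arccos_le_arccos h2
    rw [arccos_cos (by nlinarith) (by nlinarith), ← hc'] at h1
    nlinarith
  refine ⟨c, hbc, hc1, hcab, ?_, hcc⟩
  unfold dih; rw [hcc]; simp

end FX
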