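import Pool.Agent.H11.FX.TD
import Pool.Agent.H41.FT.Chg

set_option autoImplicit false

/-!
# The charts `G`, `S`, `R`, `E` on true data

`K` is an arbitrary final function (the closed form, or a guard).
-/

namespace FX

open H41FT H45FT Real

variable {a b c : ℝ}

theorem chf2_lt {A B : Type} (e : A) (f : A → B) : H41FT.lt e f = f e :=
  Eq.trans (Eq.refl _) (Eq.refl _)

theorem chf2_mul (x y : ℝ) : rO.mul x y = x * y := rfl

theorem chf2_inv (x : ℝ) : rO.inv x = x⁻¹ := rfl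

theorem chf2_sqrt (x : ℝ) : rO.sqrt x = √x := rfl

theorem chf2_sub (x y : ℝ) : rO.sub x y = x - y := rfl

/-- the chart `gSK` with names for the intermediate values -/
theorem chf2_gSK (K : Dat ℝ → ℝ) {a b ka si g u sa v sb sav sbu w p q p2 q2 sc X Y c Dr : ℝ}
    (hu : cos (π / 2 * a) = u) (hsa : sin (π / 2 * a) = sa) (hv : cos (π / 2 * b) = v)
    (hsb : sin (π / 2 * b) = sb)
    (hsav : sa * v = sav) (hsbu : sb * u = sbu) (hw : u * v - sa * sb * ka = w)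
    (hp : sa * si = p) (hq : sbu + sav * ka = q) (hp2 : sb * si = p2) (hq2 : sav + sbu * ka = q2)
    (hsc : √(p * p + q * q) = sc)
    (hX : ((2 : ℕ) : ℝ) * (2 / π * arctan (p * (sc + q)⁻¹)) = X)
    (hY : ((2 : ℕ) : ℝ) * (2 / π * arctan (p2 * (sc + q2)⁻¹)) = Y)
    (hc : ((2 : ℕ) : ℝ) * (2 / π * arctan (sc * (((1 : ℕ) : ℝ) + w)⁻¹)) = c)
    (hDr : sa * p2 = Dr) : gSK rO K a b ka si g =
      K ⟨a, b, c, u, v, w, sa, sb, sc, Dr * Dr, X, q * sc⁻¹, Y, q2 * sc⁻¹, g, ka⟩ := by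
  have f1 : rO.cs a = u := hu
  have f2 : rO.sn a = sa := hsa
  have f3 : rO.cs b = v := hv
  have f4 : rO.sn b = sb := hsb
  have f5 : rO.mul sa v = sav := hsav
  have f6 : rO.mul sb u = sbu := hsbu
  have f7 : rO.sub (rO.mul u v) (rO.mul (rO.mul sa sb) ka) = w := hw
  have f8 : rO.mul sa si = p := hp
  have f9 : rO.add sbu (rO.mul sav ka) = q := hq
  have f10 : rO.mul sb si = p2 := hp2
  have f11 : rO.add sav (rO.mul sbu ka) = q2 := hq2
  have f12 : rO.sqrt (rO.add (rO.mul p p) (rO.mul q q)) = sc := hsc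
  have f13 : rO.inv sc = sc⁻¹ := chf2_inv sc
  have f14 : rO.smul 2 (rO.at_ (rO.mul p (rO.inv (rO.add sc q)))) = X := hX
  have f15 : rO.smul 2 (rO.at_ (rO.mul p2 (rO.inv (rO.add sc q2)))) = Y := hY
  have f16 : rO.smul 2 (rO.at_ (rO.mul sc (rO.inv (rO.add (rO.nat 1) w)))) = c := hc
  have f17 : rO.mul sa p2 = Dr := hDr
  have f18 : rO.mul Dr Dr = Dr * Dr := chf2_mul Dr Dr
  have f19 : rO.mul q sc⁻¹ = q * sc⁻¹ := chf2_mul q _
  have f20 : rO.mul q2 sc⁻¹ = q2 * sc⁻¹ := chf2_mul q2 _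
  unfold gSK
  rw [chf2_lt, f1, chf2_lt, f2, chf2_lt, f3, chf2_lt, f4, chf2_lt, f5, chf2_lt, f6, chf2_lt, f7, chf2_lt, f8, chf2_lt,
    f9, chf2_lt, f10, chf2_lt, f11, chf2_lt, f12, chf2_lt, f13, chf2_lt, f14, chf2_lt, f15, chf2_lt, f16, chf2_lt,
    f17, f18, f19, f20]

/-- the chart `gSK` on true data, obtuse at the vertex `z` -/
theorem chf2_true (K : Dat ℝ → ℝ) (h0 : 0 < a) (hab : a ≤ b) (hbc : b ≤ c)
    (hc : c ≤ 1) (hs : c ≤ a + b) (ht : dih 1 a b c ≤ 0) :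
    gSK rO K a b |dih 1 a b c| (sin (π / 2 * ang (dih 1 a b c))) (ang (dih 1 a b c)) =
      K (tdat 1 a b c) := by
  have hpi := Real.pi_pos
  have ha1 : a ≤ 1 := by linarith
  have hb0 : 0 < b := by linarith
  have hb1 : b ≤ 1 := by linarith
  have hc0 : 0 < c := by linarith
  have hg : 0 ≤ gram3 1 a b c := (gram3_one_nonneg_iff h0 hab hbc hc).2 hs
  have hgx : gram3 1 b c a = gram3 1 a b c := by unfold gram3; ring
  have hgy : gram3 1 c a b = gram3 1 a b c := by unfold gram3; ring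
  have hx0 := dih_x_nonneg h0 hab hbc hc
  have hy0 := dih_y_nonneg h0 hab hbc hc
  have z2 := abs_dih_obt ht
  obtain ⟨-, x2⟩ := ang_pos hb0 hb1 hc0 hc hx0 (hgx ▸ hg)
  obtain ⟨-, y2⟩ := ang_pos hc0 hc h0 ha1 hy0 (hgy ▸ hg)
  have hd1 := dih_abs_le (σ := 1) (Or.inl rfl) h0 ha1 hb0 hb1 hg
  have hv := csn hb0.le hb1
  have hu := csn h0.le ha1
  have hw := csn hc0.le hc
  have hsa := snp h0 ha1
  have hsb := snp hb0 hb1
  have hsc := snp hc0 hc
  have pa := sin_sq_add_cos_sq (π / 2 * a)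
  have pb := sin_sq_add_cos_sq (π / 2 * b)
  have pc := sin_sq_add_cos_sq (π / 2 * c)
  have gz := gram_id (σ := 1) (by norm_num) a b c
  have gx := gram_id (σ := 1) (by norm_num) b c a
  have gy := gram_id (σ := 1) (by norm_num) c a b
  rw [hgx] at gx
  rw [hgy] at gy
  have hch := at_half (x := c) (by linarith) (by linarith)
  have mx := dih_mul (c := a) 1 hb0 hb1 hc0 hc
  have my := dih_mul (c := b) 1 hc0 hc h0 ha1
  have hQx : 0 ≤ cos (π / 2 * a) - cos (π / 2 * b) * cos (π / 2 * c) := by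
    have h6 : 0 ≤ dih 1 b c a * (sin (π / 2 * b) * sin (π / 2 * c)) := by positivity
    rw [mx] at h6; linarith
  have hQy : 0 ≤ cos (π / 2 * b) - cos (π / 2 * c) * cos (π / 2 * a) := by
    have h6 : 0 ≤ dih 1 c a b * (sin (π / 2 * c) * sin (π / 2 * a)) := by positivity
    rw [my] at h6; linarith
  have hsi : (sin (π / 2 * ang (dih 1 a b c)) * (sin (π / 2 * a) * sin (π / 2 * b))) ^ 2 =
      gram3 1 a b c := by
    have m := dih_mul (c := c) 1 h0 ha1 hb0 hb1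
    have hd2 : 0 ≤ 1 - dih 1 a b c ^ 2 := by
      have := (sq_le_one_iff_abs_le_one (dih 1 a b c)).2 hd1
      linarith
    rw [sin_ang, mul_pow, Real.sq_sqrt hd2]
    rw [← m] at gz
    linarith [gz]
  have hsi0 : 0 ≤ sin (π / 2 * ang (dih 1 a b c)) := by
    rw [sin_ang]; exact Real.sqrt_nonneg _
  unfold tdat
  generalize dih 1 a b c = tz at *
  generalize dih 1 b c a = tx at *
  generalize dih 1 c a b = ty at *
  generalize hzz : ang tz = g at *
  generalize hsie : sin (π / 2 * g) = si at *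
  generalize hua : cos (π / 2 * a) = u at *
  generalize hub : cos (π / 2 * b) = v at *
  generalize huc : cos (π / 2 * c) = w at *
  generalize hsa' : sin (π / 2 * a) = sa at *
  generalize hsb' : sin (π / 2 * b) = sb at *
  generalize hsc' : sin (π / 2 * c) = sc at *
  generalize gram3 1 a b c = G at *
  generalize |tz| = ka at *
  have ex := ga_x (u := u) (v := v) (w := w) (sc := sc) hsb hsi (by linarith [gx])
  have ey := ga_x (u := v) (v := w) (w := u) (sc := sc) (si := si) (sa := sb) (G := G) hsa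
    (by rw [← hsi]; ring) (by linarith [gy])
  have eX := ang_half (t := tx) (P := sa * si) (Q := (u - v * w) / sb) (S := sc) hsc (by positivity)
    (div_nonneg hQx hsb.le) ex (by rw [x2]; field_simp)
  have eY := ang_half (t := ty) (P := sb * si) (Q := (v - w * u) / sa) (S := sc) hsc (by positivity)
    (div_nonneg hQy hsa.le) ey (by rw [y2]; field_simp)
  rw [chf2_gSK K (a := a) (b := b) (ka := ka) (si := si) (g := g) hua hsa' hub hsb' rfl rfl
    (ga_w hsa hsb z2) rfl (ga_q hsa hsb pb z2) rfl (ga_q2 hsa hsb pa z2) (sc := sc) (by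
      rw [← sq, ← sq, ex]; exact Real.sqrt_sq hsc.le)
    (X := ang tx) (by rw [Nat.cast_ofNat]; exact eX) (Y := ang ty)
    (by rw [Nat.cast_ofNat]; exact eY) (c := c)
    (by rw [Nat.cast_one, Nat.cast_ofNat, hch]) rfl]
  have e1 : |tx| = (u - v * w) / sb * sc⁻¹ := by rw [x2]; field_simp
  have e2 : |ty| = (v - w * u) / sa * sc⁻¹ := by rw [y2]; field_simp
  have e3 : sa * (sb * si) * (sa * (sb * si)) = G := by rw [← hsi]; ring
  rw [← e1, ← e2, e3]

theorem chf2_G (K : Dat ℝ → ℝ) {a b g ka si : ℝ} (hka : cos (π / 2 * g) = ka)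
    (hsi : sin (π / 2 * g) = si) : chart .G rO K a b g = gSK rO K a b ka si g := by
  have f1 : rO.cs g = ka := hka
  have f2 : rO.sn g = si := hsi
  have f3 : chart .G rO K a b g = gG rO K a b g := rfl
  rw [f3]
  unfold gG
  rw [f1, f2]

theorem ch_G (K : Dat ℝ → ℝ) (h0 : 0 < a) (hab : a ≤ b) (hbc : b ≤ c) (hc : c ≤ 1)
    (hs : c ≤ a + b) (ht : dih 1 a b c ≤ 0) :
    K (tdat 1 a b c) = chart .G rO K a b (ang (dih 1 a b c)) := by
  have ha1 : a ≤ 1 := by linarith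
  have hb0 : 0 < b := by linarith
  have hb1 : b ≤ 1 := by linarith
  have hg : 0 ≤ gram3 1 a b c := (gram3_one_nonneg_iff h0 hab hbc hc).2 hs
  have hd1 := dih_abs_le (σ := 1) (Or.inl rfl) h0 ha1 hb0 hb1 hg
  rw [chf2_G K (cos_ang hd1) rfl, chf2_true K h0 hab hbc hc hs ht]

theorem chf2_b (h0 : 0 < a) : 1 - a * ((1 - b) / a) = b := by
  rw [mul_div_cancel₀ _ h0.ne']
  ring

theorem chf2_S (K : Dat ℝ → ℝ) {a b s g : ℝ} (hb : ((1 : ℕ) : ℝ) - a * s = b) :
    chart .S rO K a s g = chart .G rO K a b g := by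
  have f1 : rO.sub (rO.nat 1) (rO.mul a s) = b := hb
  have f2 : chart .S rO K a s g = gS rO K a s g := rfl
  have f3 : chart .G rO K a b g = gG rO K a b g := rfl
  rw [f2, f3]
  unfold gS gG
  rw [chf2_lt, f1]

theorem ch_S (K : Dat ℝ → ℝ) (h0 : 0 < a) (hab : a ≤ b) (hbc : b ≤ c) (hc : c ≤ 1)
    (hs : c ≤ a + b) (ht : dih 1 a b c ≤ 0) :
    K (tdat 1 a b c) = chart .S rO K a ((1 - b) / a) (ang (dih 1 a b c)) := by
  rw [chf2_S K (b := b) (by rw [Nat.cast_one, chf2_b h0])]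
  exact ch_G K h0 hab hbc hc hs ht

/-- the complementary angle from the half-angle formula -/
theorem chf2_ang {t k : ℝ} (hk : |t| = k) (h1 : |t| ≤ 1) :
    1 - 2 * (2 / π * arctan (k * (1 + √(1 - k * k))⁻¹)) = ang t := by
  subst hk
  have hp := Real.pi_pos
  have h2 := abs_nonneg t
  have e1 : sin (arcsin |t|) = |t| := sin_arcsin (by linarith) h1
  have e2 : cos (arcsin |t|) = √(1 - |t| * |t|) := by rw [cos_arcsin, sq]
  have h3 := arcsin_nonneg.2 h2
  have h4 := arcsin_le_pi_div_two |t|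
  rw [at_two (θ := arcsin |t|) (by linarith) (by linarith) e1.symm e2.symm]
  unfold ang
  rw [arccos_eq_pi_div_two_sub_arcsin]
  field_simp

/-- the chart `R` with names for the values -/
theorem chf2_R (K : Dat ℝ → ℝ) {a s r ka si g b : ℝ} (hka : s * r = ka)
    (hsi : √(((1 : ℕ) : ℝ) - ka * ka) = si)
    (hg : ((1 : ℕ) : ℝ) - ((2 : ℕ) : ℝ) * (2 / π * arctan (ka * (((1 : ℕ) : ℝ) + si)⁻¹)) = g)
    (hb : ((1 : ℕ) : ℝ) - a * s = b) : chart .R rO K a s r = gSK rO K a b ka si g := by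
  have f1 : rO.mul s r = ka := hka
  have f2 : rO.sqrt (rO.sub (rO.nat 1) (rO.mul ka ka)) = si := hsi
  have f3 : rO.sub (rO.nat 1) (rO.smul 2 (rO.at_ (rO.mul ka (rO.inv (rO.add (rO.nat 1) si))))) =
      g := hg
  have f4 : rO.sub (rO.nat 1) (rO.mul a s) = b := hb
  have f5 : chart .R rO K a s r = gR rO K a s r := rfl
  rw [f5]
  unfold gR
  rw [chf2_lt, f1, chf2_lt, f2, chf2_lt, f3, chf2_lt, f4]

/-- the chart `R`, `κ = s r` with `s = (1 - b)/a > 0` -/
theorem ch_R (K : Dat ℝ → ℝ) (h0 : 0 < a) (hab : a ≤ b) (hbc : b ≤ c) (hc : c ≤ 1) (hb : b < 1)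
    (hs : c ≤ a + b) (ht : dih 1 a b c ≤ 0) : K (tdat 1 a b c) =
      chart .R rO K a ((1 - b) / a) (|dih 1 a b c| / ((1 - b) / a)) := by
  have ha1 : a ≤ 1 := by linarith
  have hb0 : 0 < b := by linarith
  have hg : 0 ≤ gram3 1 a b c := (gram3_one_nonneg_iff h0 hab hbc hc).2 hs
  have hd1 := dih_abs_le (σ := 1) (Or.inl rfl) h0 ha1 hb0 hb.le hg
  have hsp : (0 : ℝ) < (1 - b) / a := div_pos (by linarith) h0
  have ek : (1 - b) / a * (|dih 1 a b c| / ((1 - b) / a)) = |dih 1 a b c| :=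
    mul_div_cancel₀ _ hsp.ne'
  have es : √(1 - |dih 1 a b c| * |dih 1 a b c|) = sin (π / 2 * ang (dih 1 a b c)) := by
    rw [sin_ang, ← sq, sq_abs]
  have ea := chf2_ang (t := dih 1 a b c) rfl hd1
  rw [es] at ea
  rw [chf2_R K (b := b) ek (by rw [Nat.cast_one, es])
    (by rw [Nat.cast_one, Nat.cast_ofNat, ea]) (by rw [Nat.cast_one, chf2_b h0]),
    chf2_true K h0 hab hbc hc hs ht]

/-- the end of the charts of the sides, with names for the values -/
theorem chf2_gsdE (K : Dat ℝ → ℝ) {a b c u v w sa sb sc D2 nx ny nz X Y Z cx cy cz : ℝ}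
    (hX : ((2 : ℕ) : ℝ) * (2 / π * arctan (√D2 * (sb * sc + nx)⁻¹)) = X)
    (hY : ((2 : ℕ) : ℝ) * (2 / π * arctan (√D2 * (sc * sa + ny)⁻¹)) = Y)
    (hZ : ((2 : ℕ) : ℝ) * (2 / π * arctan (√D2 * (sa * sb + nz)⁻¹)) = Z)
    (hcx : nx * (sb * sc)⁻¹ = cx) (hcy : ny * (sc * sa)⁻¹ = cy) (hcz : nz * (sa * sb)⁻¹ = cz) :
    gsdE rO K a b c u v w sa sb sc D2 nx ny nz =
      K ⟨a, b, c, u, v, w, sa, sb, sc, D2, X, cx, Y, cy, Z, cz⟩ := by
  have f1 : rO.mul sa sb = sa * sb := chf2_mul _ _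
  have f2 : rO.mul sb sc = sb * sc := chf2_mul _ _
  have f3 : rO.mul sc sa = sc * sa := chf2_mul _ _
  have f4 : rO.sqrt D2 = √D2 := chf2_sqrt _
  have f5 : rO.smul 2 (rO.at_ (rO.mul √D2 (rO.inv (rO.add (sb * sc) nx)))) = X := hX
  have f6 : rO.smul 2 (rO.at_ (rO.mul √D2 (rO.inv (rO.add (sc * sa) ny)))) = Y := hY
  have f7 : rO.smul 2 (rO.at_ (rO.mul √D2 (rO.inv (rO.add (sa * sb) nz)))) = Z := hZ
  have f8 : rO.mul nx (rO.inv (sb * sc)) = cx := hcx
  have f9 : rO.mul ny (rO.inv (sc * sa)) = cy := hcy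
  have f10 : rO.mul nz (rO.inv (sa * sb)) = cz := hcz
  unfold gsdE
  rw [chf2_lt, f4, chf2_lt, f1, chf2_lt, f2, chf2_lt, f3, chf2_lt, f5, chf2_lt, f6, chf2_lt, f7, f8, f9, f10]

/-- the chart `E` with names for the values -/
theorem chf2_gE (K : Dat ℝ → ℝ) {a s ta u sa be v sb de w sc b c : ℝ}
    (hu : cos (π / 2 * a) = u) (hsa : sin (π / 2 * a) = sa) (hbe : a * s = be)
    (hv : sin (π / 2 * be) = v) (hsb : cos (π / 2 * be) = sb) (hde : be * (u * ta) = de)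
    (hw : sin (π / 2 * de) = w) (hsc : cos (π / 2 * de) = sc)
    (hb : ((1 : ℕ) : ℝ) - be = b) (hc : ((1 : ℕ) : ℝ) - de = c) {G : ℝ}
    (hG : sa * sa - v * v - w * w + ((2 : ℕ) : ℝ) * (u * v * w) = G) :
    chart .E rO K a s ta =
      gsdE rO K a b c u v w sa sb sc G (u - v * w) (v - w * u) (u * v - w) := by
  have f1 : rO.cs a = u := hu
  have f2 : rO.sn a = sa := hsa
  have f3 : rO.mul a s = be := hbe
  have f4 : rO.sn be = v := hv
  have f5 : rO.cs be = sb := hsb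
  have f6 : rO.mul be (rO.mul u ta) = de := hde
  have f7 : rO.sn de = w := hw
  have f8 : rO.cs de = sc := hsc
  have f9 : rO.sub (rO.nat 1) be = b := hb
  have f10 : rO.sub (rO.nat 1) de = c := hc
  have f11 : rO.mul u v = u * v := chf2_mul _ _
  have f12 : rO.mul v w = v * w := chf2_mul _ _
  have f13 : rO.mul w u = w * u := chf2_mul _ _
  have f14 : rO.add (rO.sub (rO.sub (rO.mul sa sa) (rO.mul v v)) (rO.mul w w))
      (rO.smul 2 (rO.mul (u * v) w)) = G := hG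
  have f15 : rO.sub u (v * w) = u - v * w := chf2_sub _ _
  have f16 : rO.sub v (w * u) = v - w * u := chf2_sub _ _
  have f17 : rO.sub (u * v) w = u * v - w := chf2_sub _ _
  have f18 : chart .E rO K a s ta = gE rO K a s ta := rfl
  rw [f18]
  unfold gE
  rw [chf2_lt, f1, chf2_lt, f2, chf2_lt, f3, chf2_lt, f4, chf2_lt, f5, chf2_lt, f6, chf2_lt, f7, chf2_lt, f8, chf2_lt,
    f11, chf2_lt, f12, chf2_lt, f13, f9, f10, f14, f15, f16, f17]

/-- the chart `E` -/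
theorem ch_E (K : Dat ℝ → ℝ) (h0 : 0 < a) (ha : a < 1) (hab : a ≤ b) (hbc : b ≤ c) (hc : c ≤ 1)
    (hb : b < 1) (hs : c ≤ a + b) (ht : dih 1 a b c ≤ 0) : K (tdat 1 a b c) =
      chart .E rO K a ((1 - b) / a) ((1 - c) / ((1 - b) * cos (π / 2 * a))) := by
  have hp := Real.pi_pos
  have hb0 : 0 < b := by linarith
  have hc0 : 0 < c := by linarith
  have hg : 0 ≤ gram3 1 a b c := (gram3_one_nonneg_iff h0 hab hbc hc).2 hs
  have hgx : gram3 1 b c a = gram3 1 a b c := by unfold gram3; ring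
  have hgy : gram3 1 c a b = gram3 1 a b c := by unfold gram3; ring
  obtain ⟨x1, x2⟩ := ang_pos hb0 hb.le hc0 hc (dih_x_nonneg h0 hab hbc hc) (hgx ▸ hg)
  obtain ⟨y1, y2⟩ := ang_pos hc0 hc h0 ha.le (dih_y_nonneg h0 hab hbc hc) (hgy ▸ hg)
  rw [hgx] at x1
  rw [hgy] at y1
  have hsa := snp h0 ha.le
  have hsb := snp hb0 hb.le
  have hu : 0 < cos (π / 2 * a) := cos_pos_of_mem_Ioo ⟨by nlinarith, by nlinarith⟩
  have hQ : 0 ≤ cos (π / 2 * a) * cos (π / 2 * b) - cos (π / 2 * c) := by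
    have m := dih_mul (c := c) 1 h0 ha.le hb0 hb.le
    have h6 : dih 1 a b c * (sin (π / 2 * a) * sin (π / 2 * b)) ≤ 0 :=
      mul_nonpos_of_nonpos_of_nonneg ht (by positivity)
    rw [m] at h6; linarith
  have z2 := abs_dih_obt ht
  have z1 : 2 * (2 / π * arctan (√(gram3 1 a b c) * (sin (π / 2 * a) * sin (π / 2 * b) +
      (cos (π / 2 * a) * cos (π / 2 * b) - cos (π / 2 * c)))⁻¹)) = ang (dih 1 a b c) := by
    refine ang_half (by positivity) (Real.sqrt_nonneg _) hQ ?_ (by rw [z2]; exact (div_eq_mul_inv _ _).symm)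
    rw [Real.sq_sqrt hg, ← gram_id (σ := 1) (by norm_num) a b c]
    ring
  have e1 : a * ((1 - b) / a) = 1 - b := mul_div_cancel₀ _ h0.ne'
  have e2 : (1 - b) * (cos (π / 2 * a) * ((1 - c) / ((1 - b) * cos (π / 2 * a)))) = 1 - c := by
    have h1 : 1 - b ≠ 0 := by
      have : 0 < 1 - b := by linarith
      exact this.ne'
    have h2 : cos (π / 2 * a) ≠ 0 := hu.ne'
    rw [← mul_assoc, mul_div_cancel₀ _ (mul_ne_zero h1 h2)]
  have e3 : sin (π / 2 * a) * sin (π / 2 * a) - cos (π / 2 * b) * cos (π / 2 * b) -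
      cos (π / 2 * c) * cos (π / 2 * c) + ((2 : ℕ) : ℝ) * (cos (π / 2 * a) * cos (π / 2 * b) *
      cos (π / 2 * c)) = gram3 1 a b c := by
    have h5 := sin_sq_add_cos_sq (π / 2 * a)
    unfold gram3
    rw [Nat.cast_ofNat]
    linear_combination h5
  rw [chf2_gE K (a := a) rfl rfl e1 (sin_comp b) (cos_comp b) e2 (sin_comp c) (cos_comp c)
    (b := b) (c := c) (by rw [Nat.cast_one]; ring) (by rw [Nat.cast_one]; ring) e3,
    chf2_gsdE K (X := ang (dih 1 b c a)) (Y := ang (dih 1 c a b)) (Z := ang (dih 1 a b c))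
    (cx := |dih 1 b c a|) (cy := |dih 1 c a b|) (cz := |dih 1 a b c|)
    (by rw [Nat.cast_ofNat]; exact x1.symm) (by rw [Nat.cast_ofNat]; exact y1.symm)
    (by rw [Nat.cast_ofNat]; exact z1) x2.symm y2.symm z2.symm]
  rfl

end FX
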