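import Pool.Agent.H11.FX.Bs
import Pool.Agent.H41.FT.Chc

set_option autoImplicit false

/-!
# The charts `c3`, `sd`, `on` on true data, for any final function `K`
-/

namespace FX

open H41FT H45FT Real Function

variable {a b c : ℝ}

theorem gsdf_eq (K : Dat ℝ → ℝ) {x y z u v w sa sb sc : ℝ} (hu : sin (π / 2 * x) = u)
    (hv : sin (π / 2 * y) = v) (hw : sin (π / 2 * z) = w) (hsa : cos (π / 2 * x) = sa)
    (hsb : cos (π / 2 * y) = sb) (hsc : cos (π / 2 * z) = sc) {G : ℝ}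
    (hG : ((1 : ℕ) : ℝ) - u * u - v * v - w * w - ((2 : ℕ) : ℝ) * (u * v * w) = G) :
    gsd rO K false x y z = K ⟨((1 : ℕ) : ℝ) - x, ((1 : ℕ) : ℝ) - y, ((1 : ℕ) : ℝ) - z,
      u, v, w, sa, sb, sc, G,
      ((2 : ℕ) : ℝ) * (2 / π * arctan (√G * (sb * sc + (u + v * w))⁻¹)), (u + v * w) * (sb * sc)⁻¹,
      ((2 : ℕ) : ℝ) * (2 / π * arctan (√G * (sc * sa + (v + w * u))⁻¹)), (v + w * u) * (sc * sa)⁻¹,
      ((2 : ℕ) : ℝ) * (2 / π * arctan (√G * (sa * sb + (w + u * v))⁻¹)),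
      (w + u * v) * (sa * sb)⁻¹⟩ := by
  subst hu; subst hv; subst hw; subst hsa; subst hsb; subst hsc; subst hG
  rfl

theorem gsdt_eq (K : Dat ℝ → ℝ) {x y z u v w sa sb sc : ℝ} (hu : sin (π / 2 * x) = u)
    (hv : sin (π / 2 * y) = v) (hw : sin (π / 2 * z) = w) (hsa : cos (π / 2 * x) = sa)
    (hsb : cos (π / 2 * y) = sb) (hsc : cos (π / 2 * z) = sc) {G : ℝ}
    (hG : ((1 : ℕ) : ℝ) - u * u - v * v - w * w + ((2 : ℕ) : ℝ) * (u * v * w) = G) :
    gsd rO K true x y z = K ⟨((1 : ℕ) : ℝ) - x, ((1 : ℕ) : ℝ) - y, ((1 : ℕ) : ℝ) - z,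
      u, v, w, sa, sb, sc, G,
      ((2 : ℕ) : ℝ) * (2 / π * arctan (√G * (sb * sc + (u - v * w))⁻¹)), (u - v * w) * (sb * sc)⁻¹,
      ((2 : ℕ) : ℝ) * (2 / π * arctan (√G * (sc * sa + (v - w * u))⁻¹)), (v - w * u) * (sc * sa)⁻¹,
      ((2 : ℕ) : ℝ) * (2 / π * arctan (√G * (sa * sb + (w - u * v))⁻¹)),
      (w - u * v) * (sa * sb)⁻¹⟩ := by
  subst hu; subst hv; subst hw; subst hsa; subst hsb; subst hsc; subst hG
  rfl

theorem ch_sd (K : Dat ℝ → ℝ) (h0 : 0 < a) (hab : a ≤ b) (hbc : b ≤ c) (hc : c ≤ 1)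
    (hs : 2 ≤ a + b + c) : K (tdat (-1) a b c) = chart .sd rO K (1 - a) (1 - b) (1 - c) := by
  have ha1 : a ≤ 1 := by linarith
  have hb0 : 0 < b := by linarith
  have hb1 : b ≤ 1 := by linarith
  have hc0 : 0 < c := by linarith
  have hg : 0 ≤ gram3 (-1) a b c := (gram3_neg_nonneg_iff h0 hab hbc hc).2 hs
  have hgx : gram3 (-1) b c a = gram3 (-1) a b c := by unfold gram3; ring
  have hgy : gram3 (-1) c a b = gram3 (-1) a b c := by unfold gram3; ring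
  obtain ⟨z1, z2⟩ := ang_neg h0 ha1 hb0 hb1 hc0.le hc hg
  obtain ⟨x1, x2⟩ := ang_neg hb0 hb1 hc0 hc h0.le ha1 (hgx ▸ hg)
  obtain ⟨y1, y2⟩ := ang_neg hc0 hc h0 ha1 hb0.le hb1 (hgy ▸ hg)
  rw [hgx] at x1
  rw [hgy] at y1
  have hG : ((1 : ℕ) : ℝ) - cos (π / 2 * a) * cos (π / 2 * a) - cos (π / 2 * b) * cos (π / 2 * b) -
      cos (π / 2 * c) * cos (π / 2 * c) - ((2 : ℕ) : ℝ) * (cos (π / 2 * a) * cos (π / 2 * b) *
      cos (π / 2 * c)) = gram3 (-1) a b c := by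
    unfold gram3; push_cast; ring
  show _ = gsd rO K false (1 - a) (1 - b) (1 - c)
  rw [gsdf_eq K (sin_comp a) (sin_comp b) (sin_comp c) (cos_comp a) (cos_comp b) (cos_comp c) hG]
  unfold tdat
  rw [x1, x2, y1, y2, z1, z2]
  simp only [Nat.cast_one, Nat.cast_ofNat, sub_sub_cancel]

theorem ch_sa (K : Dat ℝ → ℝ) (h0 : 0 < a) (hab : a ≤ b) (hbc : b ≤ c) (hc : c ≤ 1)
    (hs : c ≤ a + b) (ht : 0 ≤ dih 1 a b c) :
    K (tdat 1 a b c) = gsd rO K true (1 - a) (1 - b) (1 - c) := by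
  have ha1 : a ≤ 1 := by linarith
  have hb0 : 0 < b := by linarith
  have hb1 : b ≤ 1 := by linarith
  have hc0 : 0 < c := by linarith
  have hg : 0 ≤ gram3 1 a b c := (gram3_one_nonneg_iff h0 hab hbc hc).2 hs
  have hgx : gram3 1 b c a = gram3 1 a b c := by unfold gram3; ring
  have hgy : gram3 1 c a b = gram3 1 a b c := by unfold gram3; ring
  obtain ⟨z1, z2⟩ := ang_pos h0 ha1 hb0 hb1 ht hg
  obtain ⟨x1, x2⟩ := ang_pos hb0 hb1 hc0 hc (dih_x_nonneg h0 hab hbc hc) (hgx ▸ hg)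
  obtain ⟨y1, y2⟩ := ang_pos hc0 hc h0 ha1 (dih_y_nonneg h0 hab hbc hc) (hgy ▸ hg)
  rw [hgx] at x1
  rw [hgy] at y1
  have hG : ((1 : ℕ) : ℝ) - cos (π / 2 * a) * cos (π / 2 * a) - cos (π / 2 * b) * cos (π / 2 * b) -
      cos (π / 2 * c) * cos (π / 2 * c) + ((2 : ℕ) : ℝ) * (cos (π / 2 * a) * cos (π / 2 * b) *
      cos (π / 2 * c)) = gram3 1 a b c := by
    unfold gram3; push_cast; ring
  rw [gsdt_eq K (sin_comp a) (sin_comp b) (sin_comp c) (cos_comp a) (cos_comp b) (cos_comp c) hG]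
  unfold tdat
  rw [x1, x2, y1, y2, z1, z2]
  simp only [Nat.cast_one, Nat.cast_ofNat, sub_sub_cancel]

theorem gon_eq (K : Dat ℝ → ℝ) (x be th : ℝ) :
    chart .on rO K x be th = gsd rO K true (x + be) be (be * th) := rfl

/-- `α = x + β`, `δ = β θ` -/
theorem ch_on (K : Dat ℝ → ℝ) (h0 : 0 < a) (hab : a ≤ b) (hbc : b ≤ c) (hc : c ≤ 1)
    (hs : c ≤ a + b) (ht : 0 ≤ dih 1 a b c) :
    ∃ θ, 0 ≤ θ ∧ θ ≤ 1 ∧ K (tdat 1 a b c) = chart .on rO K (b - a) (1 - b) θ := by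
  rw [ch_sa K h0 hab hbc hc hs ht]
  have e : b - a + (1 - b) = 1 - a := by ring
  rcases eq_or_lt_of_le (show b ≤ 1 by linarith) with hb | hb
  · refine ⟨0, le_rfl, zero_le_one, ?_⟩
    rw [gon_eq, e, mul_zero, show 1 - c = 0 by linarith]
  · have h1 : 0 < 1 - b := by linarith
    refine ⟨(1 - c) / (1 - b), div_nonneg (by linarith) h1.le, ?_, ?_⟩
    · rw [div_le_one h1]; linarith
    · rw [gon_eq, e, mul_div_cancel₀ _ h1.ne']

theorem gc3_eq (K : Dat ℝ → ℝ) {a g n u sa ka si y un R v sb b w p q p2 q2 sc X Y c Dr : ℝ}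
    (hu : cos (π / 2 * a) = u) (hsa : sin (π / 2 * a) = sa) (hka : cos (π / 2 * g) = ka)
    (hsi : sin (π / 2 * g) = si) (hy : ka * sa = y) (hun : u + n = un) (hR : √(un * un + y * y) = R)
    (hv : y * R⁻¹ = v) (hsb : un * R⁻¹ = sb)
    (hb : ((1 : ℕ) : ℝ) - 2 * (2 / π * arctan (y * (un + R)⁻¹)) = b) (hw : n * v = w)
    (hp : sa * si = p) (hq : u * sb + y * v = q) (hp2 : sb * si = p2)
    (hq2 : v * sa + u * sb * ka = q2) (hsc : √(((1 : ℕ) : ℝ) - w * w) = sc)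
    (hX : 2 * (2 / π * arctan (p * (sc + q)⁻¹)) = X)
    (hY : 2 * (2 / π * arctan (p2 * (sc + q2)⁻¹)) = Y)
    (hc : ((1 : ℕ) : ℝ) - 2 * (2 / π * arctan (w * (((1 : ℕ) : ℝ) + sc)⁻¹)) = c)
    (hDr : sa * p2 = Dr) : gc3 rO K a g n =
      K ⟨a, b, c, u, v, w, sa, sb, sc, Dr * Dr, X, q * sc⁻¹, Y, q2 * sc⁻¹, g, ka⟩ := by
  subst hu; subst hsa; subst hka; subst hsi; subst hy; subst hun; subst hR; subst hv; subst hsb
  subst hb; subst hw; subst hp; subst hq; subst hp2; subst hq2; subst hsc; subst hX; subst hY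
  subst hc; subst hDr
  rfl

theorem ch_c3 (K : Dat ℝ → ℝ) (h0 : 0 < a) (hab : a ≤ b) (hbc : b ≤ c) (hc : c ≤ 1) (hb : b < 1)
    (hs : 2 ≤ a + b + c) : K (tdat (-1) a b c) =
      chart .c3 rO K a (ang (dih (-1) a b c)) (cos (π / 2 * c) / cos (π / 2 * b)) := by
  have hpi := Real.pi_pos
  have ha1 : a ≤ 1 := by linarith
  have hb0 : 0 < b := by linarith
  have hc0 : 0 < c := by linarith
  have hg : 0 ≤ gram3 (-1) a b c := (gram3_neg_nonneg_iff h0 hab hbc hc).2 hs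
  have hgx : gram3 (-1) b c a = gram3 (-1) a b c := by unfold gram3; ring
  have hgy : gram3 (-1) c a b = gram3 (-1) a b c := by unfold gram3; ring
  obtain ⟨-, z2⟩ := ang_neg h0 ha1 hb0 hb.le hc0.le hc hg
  obtain ⟨-, x2⟩ := ang_neg hb0 hb.le hc0 hc h0.le ha1 (hgx ▸ hg)
  obtain ⟨-, y2⟩ := ang_neg hc0 hc h0 ha1 hb0.le hb.le (hgy ▸ hg)
  have hd1 := dih_abs_le (σ := -1) (Or.inr rfl) h0 ha1 hb0 hb.le hg
  have hv : 0 < cos (π / 2 * b) := cos_pos_of_mem_Ioo ⟨by nlinarith, by nlinarith⟩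
  have hu : 0 < cos (π / 2 * a) := cos_pos_of_mem_Ioo ⟨by nlinarith, by nlinarith⟩
  have hw := csn hc0.le hc
  have hsa := snp h0 ha1
  have hsb := snp hb0 hb.le
  have hsc := snp hc0 hc
  have pa := sin_sq_add_cos_sq (π / 2 * a)
  have pb := sin_sq_add_cos_sq (π / 2 * b)
  have pc := sin_sq_add_cos_sq (π / 2 * c)
  have gz := gram_id (σ := -1) (by norm_num) a b c
  have gx := gram_id (σ := -1) (by norm_num) b c a
  have gy := gram_id (σ := -1) (by norm_num) c a b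
  rw [hgx] at gx
  rw [hgy] at gy
  have hbh := at_half (x := 1 - b) (by linarith) (by linarith)
  have hch := at_half (x := 1 - c) (by linarith) (by linarith)
  rw [sin_comp, cos_comp] at hbh hch
  have hsi : (sin (π / 2 * ang (dih (-1) a b c)) * (sin (π / 2 * a) * sin (π / 2 * b))) ^ 2 =
      gram3 (-1) a b c := by
    have m := dih_mul (c := c) (-1) h0 ha1 hb0 hb.le
    have hd2 : 0 ≤ 1 - dih (-1) a b c ^ 2 := by
      have := abs_le_one_iff_mul_self_le_one.1 hd1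
      nlinarith
    rw [sin_ang, mul_pow, Real.sq_sqrt hd2]
    rw [← m] at gz
    linarith [gz]
  have hsi0 : 0 ≤ sin (π / 2 * ang (dih (-1) a b c)) := by
    rw [sin_ang]; exact Real.sqrt_nonneg _
  have hka := cos_ang hd1
  show _ = gc3 rO K a (ang (dih (-1) a b c)) (cos (π / 2 * c) / cos (π / 2 * b))
  unfold tdat
  generalize dih (-1) a b c = tz at *
  generalize dih (-1) b c a = tx at *
  generalize dih (-1) c a b = ty at *
  generalize hzz : ang tz = g at *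
  generalize hsie : sin (π / 2 * g) = si at *
  generalize hua : cos (π / 2 * a) = u at *
  generalize hub : cos (π / 2 * b) = v at *
  generalize huc : cos (π / 2 * c) = w at *
  generalize hsa' : sin (π / 2 * a) = sa at *
  generalize hsb' : sin (π / 2 * b) = sb at *
  generalize hsc' : sin (π / 2 * c) = sc at *
  generalize gram3 (-1) a b c = G at *
  have eX := ang_half (t := tx) (P := sa * si) (Q := (u + v * w) / sb) (S := sc) hsc (by positivity)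
    (by positivity) (fa_x hsb hsi (by linarith [gx])) (by rw [x2]; field_simp)
  have eY := ang_half (t := ty) (P := sb * si) (Q := (v + w * u) / sa) (S := sc) hsc (by positivity)
    (by positivity) (fa_x (G := G) hsa (by rw [← hsi]; ring) (by linarith [gy])) (by rw [y2]; field_simp)
  rw [gc3_eq K (a := a) (g := g) (n := w / v) hua hsa' hka hsie rfl rfl (fa_R hu hv hw hsa hsb pb z2)
    (fa_v hu hv hw hsa hsb z2) (fa_sb hu hv hw hsb) (b := b) (by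
      rw [fa_b hu hv hw hsa hsb z2, hbh, Nat.cast_one]; ring) (div_mul_cancel₀ w hv.ne') rfl
    (fa_q hsa hsb pb z2) rfl (fa_q2 hsa hsb pa z2) (sc := sc) (by
      rw [Nat.cast_one, show 1 - w * w = sc ^ 2 by linarith]; exact Real.sqrt_sq hsc.le) eX eY
    (c := c) (by rw [Nat.cast_one, hch]; ring) rfl]
  have e1 : |tx| = (u + v * w) / sb * sc⁻¹ := by rw [x2]; field_simp
  have e2 : |ty| = (v + w * u) / sa * sc⁻¹ := by rw [y2]; field_simp
  have e3 : sa * (sb * si) * (sa * (sb * si)) = G := by rw [← hsi]; ring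
  rw [← e1, ← e2, e3]

theorem c3_guard (h0 : 0 < a) (hab : a ≤ b) (hbc : b ≤ c) (hc : c ≤ 1) (hb : b < 1)
    (hs : 2 ≤ a + b + c) : |dih (-1) a b c| * sin (π / 2 * a) ^ 2 ≤
      cos (π / 2 * a) * (cos (π / 2 * a) + cos (π / 2 * c) / cos (π / 2 * b)) :=
  CH_Fc3_guard h0 hab hbc hc hb hs

end FX
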