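import Pool.Agent.H11.FX.Par

set_option autoImplicit false

/-!
# Charts, guards and enclosures
-/

namespace FX

open H41FT

/-- names of the charts -/
inductive Ch where
  | c3 : Ch
  | sd : Ch
  | f1 : Ch
  | f0 : Ch
  | on : Ch
  | G : Ch
  | S : Ch
  | R : Ch
  | E : Ch

/-- the charts -/
def chart (h : Ch) {T : Type} (o : Ops T) (K : Dat T → T) (x y z : T) : T :=
  match h with
  | .c3 => gc3 o K x y z
  | .sd => gsd o K false x y z
  | .f1 => g1 o K x y z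
  | .f0 => g0 o K x y z
  | .on => gon o K x y z
  | .G => gG o K x y z
  | .S => gS o K x y z
  | .R => gR o K x y z
  | .E => gE o K x y z

/-- `10000 F` in a chart -/
def CF (h : Ch) (C : Co) (pc : Pc) {T : Type} (o : Ops T) (x y z : T) : T :=
  chart h o (FG o C pc) x y z

/-- the guards which depend on a chart -/
inductive KG where
  | hx : KG
  | hy : KG
  | hz : KG
  | nx : KG
  | ny : KG
  | nz : KG
  | ab : KG
  | ba : KG

def KGf (k : KG) {T : Type} (o : Ops T) : Dat T → T :=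
  match k with
  | .hx => Khx o
  | .hy => Khy o
  | .hz => Khz o
  | .nx => Knx o
  | .ny => Kny o
  | .nz => Knz o
  | .ab => Kab o
  | .ba => Kba o

def CG (h : Ch) (k : KG) {T : Type} (o : Ops T) (x y z : T) : T := chart h o (KGf k o) x y z

/-! ### simple guards -/

def gO6 {T : Type} (o : Ops T) (x y _ : T) : T := o.sub (o.smul 50 (o.add x y)) (o.nat 3)
def gSp {T : Type} (o : Ops T) (a b _ : T) : T := o.sub (o.add a b) (o.nat 1)
def gGb {T : Type} (o : Ops T) (a b _ : T) : T := o.sub (o.add (o.smul 10 b) a) (o.nat 10)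
def gKs {T : Type} (o : Ops T) (_ s g : T) : T := o.sub (o.cs g) s
def gK1 {T : Type} (o : Ops T) (_ s g : T) : T :=
  o.sub (o.smul 200 (o.sub s (o.cs g))) (o.nat 213)

section

variable {T : Type} {K : Set P} {o : Ops T} {ok : T → Prop} {SE : T → (P → ℝ) → Prop}

theorem chart_R (S : Sound K o ok SE) (h : Ch) {KK : Dat T → T} {KK' : Dat (P → ℝ) → (P → ℝ)}
    (hK : KR ok SE KK KK') {a b g : T} {a' b' g' : P → ℝ} (h1 : R ok SE a a') (h2 : R ok SE b b')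
    (h3 : R ok SE g g') : R ok SE (chart h o KK a b g) (chart h fO KK' a' b' g') := by
  cases h
  · exact gc3_R S hK h1 h2 h3
  · exact gsd_R S hK false h1 h2 h3
  · exact g1_R S hK h1 h2 h3
  · exact g0_R S hK h1 h2 h3
  · exact gon_R S hK h1 h2 h3
  · exact gG_R S hK h1 h2 h3
  · exact gS_R S hK h1 h2 h3
  · exact gR_R S hK h1 h2 h3
  · exact gE_R S hK h1 h2 h3

theorem KGf_R (S : Sound K o ok SE) (k : KG) : KR ok SE (KGf k o) (KGf k fO) := by
  cases k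
  · exact Khx_R S
  · exact Khy_R S
  · exact Khz_R S
  · exact Knx_R S
  · exact Kny_R S
  · exact Knz_R S
  · exact Kab_R S
  · exact Kba_R S

theorem gO6_R (S : Sound K o ok SE) {a b g : T} {a' b' g' : P → ℝ} (h1 : R ok SE a a')
    (h2 : R ok SE b b') (_ : R ok SE g g') : R ok SE (gO6 o a b g) (gO6 fO a' b' g') :=
  S.rsub (S.rsmul 50 (S.radd h1 h2)) (S.rnat 3)
theorem gSp_R (S : Sound K o ok SE) {a b g : T} {a' b' g' : P → ℝ} (h1 : R ok SE a a')
    (h2 : R ok SE b b') (_ : R ok SE g g') : R ok SE (gSp o a b g) (gSp fO a' b' g') :=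
  S.rsub (S.radd h1 h2) (S.rnat 1)
theorem gGb_R (S : Sound K o ok SE) {a b g : T} {a' b' g' : P → ℝ} (h1 : R ok SE a a')
    (h2 : R ok SE b b') (_ : R ok SE g g') : R ok SE (gGb o a b g) (gGb fO a' b' g') :=
  S.rsub (S.radd (S.rsmul 10 h2) h1) (S.rnat 10)
theorem gKs_R (S : Sound K o ok SE) {a b g : T} {a' b' g' : P → ℝ} (_ : R ok SE a a')
    (h2 : R ok SE b b') (h3 : R ok SE g g') : R ok SE (gKs o a b g) (gKs fO a' b' g') :=
  S.rsub (S.rcs h3) h2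
theorem gK1_R (S : Sound K o ok SE) {a b g : T} {a' b' g' : P → ℝ} (_ : R ok SE a a')
    (h2 : R ok SE b b') (h3 : R ok SE g g') : R ok SE (gK1 o a b g) (gK1 fO a' b' g') :=
  S.rsub (S.rsmul 200 (S.rsub h2 (S.rcs h3))) (S.rnat 213)

end

theorem enc_CF (h : Ch) (C : Co) (pc : Pc) :
    Enc3 (CF h C pc) (ev (CF h C pc)) (Sm (ev (CF h C pc))) :=
  Enc3.of_R fun S _ _ _ _ _ _ h1 h2 h3 => chart_R S h (FG_R S C pc) h1 h2 h3
theorem enc_CG (h : Ch) (k : KG) : Enc3 (CG h k) (ev (CG h k)) (Sm (ev (CG h k))) :=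
  Enc3.of_R fun S _ _ _ _ _ _ h1 h2 h3 => chart_R S h (KGf_R S k) h1 h2 h3

theorem enc_gO6 : Enc3 gO6 (ev gO6) (Sm (ev gO6)) :=
  Enc3.of_R fun S _ _ _ _ _ _ h1 h2 h3 => gO6_R S h1 h2 h3
theorem enc_gSp : Enc3 gSp (ev gSp) (Sm (ev gSp)) :=
  Enc3.of_R fun S _ _ _ _ _ _ h1 h2 h3 => gSp_R S h1 h2 h3
theorem enc_gGb : Enc3 gGb (ev gGb) (Sm (ev gGb)) :=
  Enc3.of_R fun S _ _ _ _ _ _ h1 h2 h3 => gGb_R S h1 h2 h3
theorem enc_gKs : Enc3 gKs (ev gKs) (Sm (ev gKs)) :=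
  Enc3.of_R fun S _ _ _ _ _ _ h1 h2 h3 => gKs_R S h1 h2 h3
theorem enc_gK1 : Enc3 gK1 (ev gK1) (Sm (ev gK1)) :=
  Enc3.of_R fun S _ _ _ _ _ _ h1 h2 h3 => gK1_R S h1 h2 h3

/-! ### evaluation at a point -/

/-- the data at a point -/
def Dat.pt (d : Dat (P → ℝ)) (p : P) : Dat ℝ :=
  ⟨d.a p, d.b p, d.c p, d.u p, d.v p, d.w p, d.sa p, d.sb p, d.sc p, d.D2 p, d.gx p, d.cx p,
    d.gy p, d.cy p, d.gz p, d.cz p⟩

theorem sg_pt (c : Sg) (x y : P → ℝ) (p : P) : sg fO c x y p = sg rO c (x p) (y p) := by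
  cases c <;> rfl
theorem sg0_pt (c : Sg) (y : P → ℝ) (p : P) : sg0 fO c y p = sg0 rO c (y p) := by
  cases c <;> rfl
theorem lin3_pt (c1 c2 c3 : Sg) (x y z : P → ℝ) (p : P) :
    lin3 fO c1 c2 c3 x y z p = lin3 rO c1 c2 c3 (x p) (y p) (z p) := by
  unfold lin3; rw [sg_pt, sg_pt, sg0_pt]
theorem gl_pt (C : Co) (ob hf : Bool) (s k : P → ℝ) (p : P) :
    gl fO C ob hf s k p = gl rO C ob hf (s p) (k p) := by
  cases ob <;> cases hf <;> rfl
theorem vl_pt (C : Co) (hf : Bool) (s k : P → ℝ) (p : P) :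
    vl_ fO C hf s k p = vl_ rO C hf (s p) (k p) := by
  cases hf <;> rfl
theorem hzt_pt (C : Co) (ob : Bool) (r su sv g c : P → ℝ) (p : P) :
    hzt fO C ob r su sv g c p = hzt rO C ob (r p) (su p) (sv p) (g p) (c p) := by
  cases ob <;> rfl
theorem linP_pt (C : Co) (ty : Ty) (hz : Bool) (a b c : P → ℝ) (p : P) :
    linP fO C ty hz a b c p = linP rO C ty hz (a p) (b p) (c p) := by
  cases ty <;> cases hz <;> rfl

theorem add_pt (x y : P → ℝ) (p : P) : fO.add x y p = rO.add (x p) (y p) := rfl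
theorem sub_pt (x y : P → ℝ) (p : P) : fO.sub x y p = rO.sub (x p) (y p) := rfl
theorem mul_pt (x y : P → ℝ) (p : P) : fO.mul x y p = rO.mul (x p) (y p) := rfl
theorem smul_pt (n : Nat) (y : P → ℝ) (p : P) : fO.smul n y p = rO.smul n (y p) := rfl
theorem nat_pt (n : Nat) (p : P) : fO.nat n p = rO.nat n := rfl

theorem vertK_pt (C : Co) (ob hf : Bool) (s f h q su f' p' sv e1 e2 e3 g c k : P → ℝ) (p : P) :
    vertK fO C ob hf s f h q su f' p' sv e1 e2 e3 g c k p =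
      vertK rO C ob hf (s p) (f p) (h p) (q p) (su p) (f' p) (p' p) (sv p) (e1 p) (e2 p) (e3 p)
        (g p) (c p) (k p) := by
  unfold vertK
  rw [hzt_pt]
  simp only [add_pt, mul_pt, sub_pt, nat_pt, sg_pt, gl_pt, vl_pt]

theorem vert_pt (C : Co) (ob hf : Bool) (s f h q su l f' p' sv e1 e2 e3 g c : P → ℝ) (p : P) :
    vert fO C ob hf s f h q su l f' p' sv e1 e2 e3 g c p =
      vert rO C ob hf (s p) (f p) (h p) (q p) (su p) (l p) (f' p) (p' p) (sv p) (e1 p) (e2 p)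
        (e3 p) (g p) (c p) :=
  vertK_pt C ob hf s f h q su f' p' sv e1 e2 e3 g c (fO.sub (fO.add s l) (fO.nat 1)) p

theorem FG3_pt (C : Co) (pc : Pc)
    (a b c fa fb fc ha hb hc su sv sw pa pb pc' D2 gx cx gy cy gz cz : P → ℝ) (p : P) :
    FG3 fO C pc a b c fa fb fc ha hb hc su sv sw pa pb pc' D2 gx cx gy cy gz cz p =
      FG3 rO C pc (a p) (b p) (c p) (fa p) (fb p) (fc p) (ha p) (hb p) (hc p) (su p) (sv p) (sw p)
        (pa p) (pb p) (pc' p) (D2 p) (gx p) (cx p) (gy p) (cy p) (gz p) (cz p) := by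
  unfold FG3 lt
  simp only [add_pt, vert_pt, linP_pt, smul_pt, lin3_pt]

theorem FG_pt (C : Co) (pc : Pc) (d : Dat (P → ℝ)) (p : P) :
    FG fO C pc d p = FG rO C pc (d.pt p) := by
  unfold FG lt
  exact FG3_pt C pc _ _ _ _ _ _ _ _ _ _ _ _ _ _ _ _ _ _ _ _ _ _ p

theorem KGf_pt (k : KG) (d : Dat (P → ℝ)) (p : P) : KGf k fO d p = KGf k rO (d.pt p) := by
  cases k <;> rfl

theorem chart_pt (h : Ch) {K' : Dat (P → ℝ) → (P → ℝ)} {K : Dat ℝ → ℝ} {p : P}
    (hK : ∀ d : Dat (P → ℝ), K' d p = K (d.pt p)) (x y z : P → ℝ) :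
    chart h fO K' x y z p = chart h rO K (x p) (y p) (z p) := by
  cases h
  · exact hK _
  · exact hK _
  · exact hK _
  · exact hK _
  · exact hK _
  · exact hK _
  · exact hK _
  · exact hK _
  · exact hK _

theorem ev_CF (h : Ch) (C : Co) (pc : Pc) (p : P) :
    ev (CF h C pc) p = CF h C pc rO (p 0) (p 1) (p 2) :=
  chart_pt h (fun d => FG_pt C pc d p) (H41FT.co 0) (H41FT.co 1) (H41FT.co 2)
theorem ev_CG (h : Ch) (k : KG) (p : P) :
    ev (CG h k) p = CG h k rO (p 0) (p 1) (p 2) :=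
  chart_pt h (fun d => KGf_pt k d p) (H41FT.co 0) (H41FT.co 1) (H41FT.co 2)

end FX
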