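import Pool.Agent.H11.FX.Cl

set_option autoImplicit false

/-!
# The claims
-/

namespace FX

open H41FT

def pM : Pc := ⟨.tm, true, true, true⟩
def pO000 : Pc := ⟨.ob, false, false, false⟩
def pO100 : Pc := ⟨.ob, true, false, false⟩
def pO110 : Pc := ⟨.ob, true, true, false⟩
def pO111 : Pc := ⟨.ob, true, true, true⟩
def pA000 : Pc := ⟨.ac, false, false, false⟩
def pA100 : Pc := ⟨.ac, true, false, false⟩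
def pA110 : Pc := ⟨.ac, true, true, false⟩
def pA111 : Pc := ⟨.ac, true, true, true⟩

/-- claim MA -/
def QMA (C : Co) : P → Prop :=
  QQ (D 1 (D 0 (ev (CF .c3 C pM)))) (Sm (ev (CF .c3 C pM))) (ev gN) (ev gN) (ev gN)
theorem okMA (C : Co) (t : Tr) (b : Bx)
    (h : chk (LT (dd (dd (CF .c3 C pM) 0) 1)) (SK gN gN gN) t b.c0 b.w0 b.c1 b.w1 b.c2 b.w2 = true) :
    ∀ p, b.In p → QMA C p :=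
  chkQ (enc_dd (enc_dd (enc_CF .c3 C pM) 0) 1) enc_gN enc_gN enc_gN t b h

/-- claim MB -/
def QMB (C : Co) : P → Prop :=
  QQ (fO.sub (fO.nat 0) (D 1 (D 0 (ev (CF .c3 C pM))))) (Sm (ev (CF .c3 C pM))) (ev gN) (ev gN) (ev gN)
theorem okMB (C : Co) (t : Tr) (b : Bx)
    (h : chk (LT (ngF (dd (dd (CF .c3 C pM) 0) 1))) (SK gN gN gN) t b.c0 b.w0 b.c1 b.w1 b.c2 b.w2 = true) :
    ∀ p, b.In p → QMB C p :=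
  chkQ (enc_ng (enc_dd (enc_dd (enc_CF .c3 C pM) 0) 1)) enc_gN enc_gN enc_gN t b h

/-- claim MC -/
def QMC (C : Co) : P → Prop :=
  QQ (D 0 (ev (CF .c3 C pM))) (Sm (ev (CF .c3 C pM))) (ev gN) (ev gN) (ev gN)
theorem okMC (C : Co) (t : Tr) (b : Bx)
    (h : chk (LT (dd (CF .c3 C pM) 0)) (SK gN gN gN) t b.c0 b.w0 b.c1 b.w1 b.c2 b.w2 = true) :
    ∀ p, b.In p → QMC C p :=
  chkQ (enc_dd (enc_CF .c3 C pM) 0) enc_gN enc_gN enc_gN t b h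

/-- claim MD -/
def QMD (C : Co) : P → Prop :=
  QQ (D 1 (ev (CF .c3 C pM))) (Sm (ev (CF .c3 C pM))) (ev gN) (ev gN) (ev gN)
theorem okMD (C : Co) (t : Tr) (b : Bx)
    (h : chk (LT (dd (CF .c3 C pM) 1)) (SK gN gN gN) t b.c0 b.w0 b.c1 b.w1 b.c2 b.w2 = true) :
    ∀ p, b.In p → QMD C p :=
  chkQ (enc_dd (enc_CF .c3 C pM) 1) enc_gN enc_gN enc_gN t b h

/-- claim ME -/
def QME (C : Co) : P → Prop :=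
  QQ (fO.sub (fO.nat 0) (D 1 (ev (CF .c3 C pM)))) (Sm (ev (CF .c3 C pM))) (ev gC3) (ev gN) (ev gN)
theorem okME (C : Co) (t : Tr) (b : Bx)
    (h : chk (LT (ngF (dd (CF .c3 C pM) 1))) (SK gC3 gN gN) t b.c0 b.w0 b.c1 b.w1 b.c2 b.w2 = true) :
    ∀ p, b.In p → QME C p :=
  chkQ (enc_ng (enc_dd (enc_CF .c3 C pM) 1)) enc_gC3 enc_gN enc_gN t b h

/-- claim MG -/
def QMG (C : Co) : P → Prop :=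
  QQ (ev (CF .c3 C pM)) (Sm (ev (CF .c3 C pM))) (ev gC3) (ev gN) (ev gN)
theorem okMG (C : Co) (t : Tr) (b : Bx)
    (h : chk (LT (CF .c3 C pM)) (SK gC3 gN gN) t b.c0 b.w0 b.c1 b.w1 b.c2 b.w2 = true) :
    ∀ p, b.In p → QMG C p :=
  chkQ (enc_CF .c3 C pM) enc_gC3 enc_gN enc_gN t b h

/-- claim SA -/
def QSA (C : Co) : P → Prop :=
  QQ (D 1 (D 0 (ev (CF .sd C pM)))) (Sm (ev (CF .sd C pM))) (ev gN) (ev gN) (ev gN)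
theorem okSA (C : Co) (t : Tr) (b : Bx)
    (h : chk (LT (dd (dd (CF .sd C pM) 0) 1)) (SK gN gN gN) t b.c0 b.w0 b.c1 b.w1 b.c2 b.w2 = true) :
    ∀ p, b.In p → QSA C p :=
  chkQ (enc_dd (enc_dd (enc_CF .sd C pM) 0) 1) enc_gN enc_gN enc_gN t b h

/-- claim SB -/
def QSB (C : Co) : P → Prop :=
  QQ (D 2 (D 0 (ev (CF .sd C pM)))) (Sm (ev (CF .sd C pM))) (ev gN) (ev gN) (ev gN)
theorem okSB (C : Co) (t : Tr) (b : Bx)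
    (h : chk (LT (dd (dd (CF .sd C pM) 0) 2)) (SK gN gN gN) t b.c0 b.w0 b.c1 b.w1 b.c2 b.w2 = true) :
    ∀ p, b.In p → QSB C p :=
  chkQ (enc_dd (enc_dd (enc_CF .sd C pM) 0) 2) enc_gN enc_gN enc_gN t b h

/-- claim SC -/
def QSC (C : Co) : P → Prop :=
  QQ (D 2 (D 1 (ev (CF .sd C pM)))) (Sm (ev (CF .sd C pM))) (ev gN) (ev gN) (ev gN)
theorem okSC (C : Co) (t : Tr) (b : Bx)
    (h : chk (LT (dd (dd (CF .sd C pM) 1) 2)) (SK gN gN gN) t b.c0 b.w0 b.c1 b.w1 b.c2 b.w2 = true) :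
    ∀ p, b.In p → QSC C p :=
  chkQ (enc_dd (enc_dd (enc_CF .sd C pM) 1) 2) enc_gN enc_gN enc_gN t b h

/-- claim SE -/
def QSE (C : Co) : P → Prop :=
  QQ (D 1 (ev (CF .sd C pM))) (Sm (ev (CF .sd C pM))) (ev gN) (ev gN) (ev gN)
theorem okSE (C : Co) (t : Tr) (b : Bx)
    (h : chk (LT (dd (CF .sd C pM) 1)) (SK gN gN gN) t b.c0 b.w0 b.c1 b.w1 b.c2 b.w2 = true) :
    ∀ p, b.In p → QSE C p :=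
  chkQ (enc_dd (enc_CF .sd C pM) 1) enc_gN enc_gN enc_gN t b h

/-- claim SF -/
def QSF (C : Co) : P → Prop :=
  QQ (D 2 (ev (CF .sd C pM))) (Sm (ev (CF .sd C pM))) (ev gN) (ev gN) (ev gN)
theorem okSF (C : Co) (t : Tr) (b : Bx)
    (h : chk (LT (dd (CF .sd C pM) 2)) (SK gN gN gN) t b.c0 b.w0 b.c1 b.w1 b.c2 b.w2 = true) :
    ∀ p, b.In p → QSF C p :=
  chkQ (enc_dd (enc_CF .sd C pM) 2) enc_gN enc_gN enc_gN t b h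

/-- claim S0 -/
def QS0 (C : Co) : P → Prop :=
  QQ (ev (CF .sd C pM)) (Sm (ev (CF .sd C pM))) (ev gXY) (ev gYZ) (ev gN)
theorem okS0 (C : Co) (t : Tr) (b : Bx)
    (h : chk (LT (CF .sd C pM)) (SK gXY gYZ gN) t b.c0 b.w0 b.c1 b.w1 b.c2 b.w2 = true) :
    ∀ p, b.In p → QS0 C p :=
  chkQ (enc_CF .sd C pM) enc_gXY enc_gYZ enc_gN t b h

/-- claim PA -/
def QPA (C : Co) : P → Prop :=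
  QQ (D 2 (D 0 (D 1 (ev (CF .f1 C pO000))))) (Sm (ev (CF .f1 C pO000))) (ev gN) (ev gN) (ev gN)
theorem okPA (C : Co) (t : Tr) (b : Bx)
    (h : chk (LT (dd (dd (dd (CF .f1 C pO000) 1) 0) 2)) (SK gN gN gN) t b.c0 b.w0 b.c1 b.w1 b.c2 b.w2 = true) :
    ∀ p, b.In p → QPA C p :=
  chkQ (enc_dd (enc_dd (enc_dd (enc_CF .f1 C pO000) 1) 0) 2) enc_gN enc_gN enc_gN t b h

/-- claim PB -/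
def QPB (C : Co) : P → Prop :=
  QQ (D 0 (D 1 (ev (CF .f1 C pO000)))) (Sm (ev (CF .f1 C pO000))) (ev gN) (ev gN) (ev gN)
theorem okPB (C : Co) (t : Tr) (b : Bx)
    (h : chk (LT (dd (dd (CF .f1 C pO000) 1) 0)) (SK gN gN gN) t b.c0 b.w0 b.c1 b.w1 b.c2 b.w2 = true) :
    ∀ p, b.In p → QPB C p :=
  chkQ (enc_dd (enc_dd (enc_CF .f1 C pO000) 1) 0) enc_gN enc_gN enc_gN t b h

/-- claim PC -/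
def QPC (C : Co) : P → Prop :=
  QQ (D 2 (D 1 (ev (CF .f1 C pO000)))) (Sm (ev (CF .f1 C pO000))) (ev gN) (ev gN) (ev gN)
theorem okPC (C : Co) (t : Tr) (b : Bx)
    (h : chk (LT (dd (dd (CF .f1 C pO000) 1) 2)) (SK gN gN gN) t b.c0 b.w0 b.c1 b.w1 b.c2 b.w2 = true) :
    ∀ p, b.In p → QPC C p :=
  chkQ (enc_dd (enc_dd (enc_CF .f1 C pO000) 1) 2) enc_gN enc_gN enc_gN t b h

/-- claim PD -/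
def QPD (C : Co) : P → Prop :=
  QQ (D 1 (ev (CF .f1 C pO000))) (Sm (ev (CF .f1 C pO000))) (ev gN) (ev gN) (ev gN)
theorem okPD (C : Co) (t : Tr) (b : Bx)
    (h : chk (LT (dd (CF .f1 C pO000) 1)) (SK gN gN gN) t b.c0 b.w0 b.c1 b.w1 b.c2 b.w2 = true) :
    ∀ p, b.In p → QPD C p :=
  chkQ (enc_dd (enc_CF .f1 C pO000) 1) enc_gN enc_gN enc_gN t b h

/-- claim PE0 -/
def QPE0 (C : Co) : P → Prop :=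
  QQ (D 2 (D 0 (ev (CF .f1 C pO000)))) (Sm (ev (CF .f1 C pO000))) (ev gT1) (ev gN) (ev gN)
theorem okPE0 (C : Co) (t : Tr) (b : Bx)
    (h : chk (LT (dd (dd (CF .f1 C pO000) 0) 2)) (SK gT1 gN gN) t b.c0 b.w0 b.c1 b.w1 b.c2 b.w2 = true) :
    ∀ p, b.In p → QPE0 C p :=
  chkQ (enc_dd (enc_dd (enc_CF .f1 C pO000) 0) 2) enc_gT1 enc_gN enc_gN t b h

/-- claim PE1 -/
def QPE1 (C : Co) : P → Prop :=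
  QQ (D 2 (D 0 (ev (CF .f1 C pO100)))) (Sm (ev (CF .f1 C pO100))) (ev gT1) (ev gN) (ev gN)
theorem okPE1 (C : Co) (t : Tr) (b : Bx)
    (h : chk (LT (dd (dd (CF .f1 C pO100) 0) 2)) (SK gT1 gN gN) t b.c0 b.w0 b.c1 b.w1 b.c2 b.w2 = true) :
    ∀ p, b.In p → QPE1 C p :=
  chkQ (enc_dd (enc_dd (enc_CF .f1 C pO100) 0) 2) enc_gT1 enc_gN enc_gN t b h

/-- claim PF0 -/
def QPF0 (C : Co) : P → Prop :=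
  QQ (D 0 (ev (CF .f1 C pO000))) (Sm (ev (CF .f1 C pO000))) (ev gT1) (ev gN) (ev gN)
theorem okPF0 (C : Co) (t : Tr) (b : Bx)
    (h : chk (LT (dd (CF .f1 C pO000) 0)) (SK gT1 gN gN) t b.c0 b.w0 b.c1 b.w1 b.c2 b.w2 = true) :
    ∀ p, b.In p → QPF0 C p :=
  chkQ (enc_dd (enc_CF .f1 C pO000) 0) enc_gT1 enc_gN enc_gN t b h

/-- claim PF1 -/
def QPF1 (C : Co) : P → Prop :=
  QQ (D 0 (ev (CF .f1 C pO100))) (Sm (ev (CF .f1 C pO100))) (ev gT1) (ev gN) (ev gN)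
theorem okPF1 (C : Co) (t : Tr) (b : Bx)
    (h : chk (LT (dd (CF .f1 C pO100) 0)) (SK gT1 gN gN) t b.c0 b.w0 b.c1 b.w1 b.c2 b.w2 = true) :
    ∀ p, b.In p → QPF1 C p :=
  chkQ (enc_dd (enc_CF .f1 C pO100) 0) enc_gT1 enc_gN enc_gN t b h

/-- claim PG0 -/
def QPG0 (C : Co) : P → Prop :=
  QQ (D 2 (ev (CF .f1 C pO000))) (Sm (ev (CF .f1 C pO000))) (ev gT1) (ev gN) (ev gN)
theorem okPG0 (C : Co) (t : Tr) (b : Bx)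
    (h : chk (LT (dd (CF .f1 C pO000) 2)) (SK gT1 gN gN) t b.c0 b.w0 b.c1 b.w1 b.c2 b.w2 = true) :
    ∀ p, b.In p → QPG0 C p :=
  chkQ (enc_dd (enc_CF .f1 C pO000) 2) enc_gT1 enc_gN enc_gN t b h

/-- claim PG1 -/
def QPG1 (C : Co) : P → Prop :=
  QQ (D 2 (ev (CF .f1 C pO100))) (Sm (ev (CF .f1 C pO100))) (ev gT1) (ev (CG .f1 .ab)) (ev gN)
theorem okPG1 (C : Co) (t : Tr) (b : Bx)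
    (h : chk (LT (dd (CF .f1 C pO100) 2)) (SK gT1 (CG .f1 .ab) gN) t b.c0 b.w0 b.c1 b.w1 b.c2 b.w2 = true) :
    ∀ p, b.In p → QPG1 C p :=
  chkQ (enc_dd (enc_CF .f1 C pO100) 2) enc_gT1 (enc_CG .f1 .ab) enc_gN t b h

/-- claim PG2 -/
def QPG2 (C : Co) : P → Prop :=
  QQ (D 2 (ev (CF .f1 C pO110))) (Sm (ev (CF .f1 C pO110))) (ev gT1) (ev (CG .f1 .ba)) (ev gN)
theorem okPG2 (C : Co) (t : Tr) (b : Bx)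
    (h : chk (LT (dd (CF .f1 C pO110) 2)) (SK gT1 (CG .f1 .ba) gN) t b.c0 b.w0 b.c1 b.w1 b.c2 b.w2 = true) :
    ∀ p, b.In p → QPG2 C p :=
  chkQ (enc_dd (enc_CF .f1 C pO110) 2) enc_gT1 (enc_CG .f1 .ba) enc_gN t b h

/-- claim PH0 -/
def QPH0 (C : Co) : P → Prop :=
  QQ (ev (CF .f1 C pO000)) (Sm (ev (CF .f1 C pO000))) (ev gT1) (ev (CG .f1 .hx)) (ev gN)
theorem okPH0 (C : Co) (t : Tr) (b : Bx)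
    (h : chk (LT (CF .f1 C pO000)) (SK gT1 (CG .f1 .hx) gN) t b.c0 b.w0 b.c1 b.w1 b.c2 b.w2 = true) :
    ∀ p, b.In p → QPH0 C p :=
  chkQ (enc_CF .f1 C pO000) enc_gT1 (enc_CG .f1 .hx) enc_gN t b h

/-- claim PH1 -/
def QPH1 (C : Co) : P → Prop :=
  QQ (ev (CF .f1 C pO100)) (Sm (ev (CF .f1 C pO100))) (ev gT1) (ev (CG .f1 .nx)) (ev (CG .f1 .hy))
theorem okPH1 (C : Co) (t : Tr) (b : Bx)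
    (h : chk (LT (CF .f1 C pO100)) (SK gT1 (CG .f1 .nx) (CG .f1 .hy)) t b.c0 b.w0 b.c1 b.w1 b.c2 b.w2 = true) :
    ∀ p, b.In p → QPH1 C p :=
  chkQ (enc_CF .f1 C pO100) enc_gT1 (enc_CG .f1 .nx) (enc_CG .f1 .hy) t b h

/-- claim PH2 -/
def QPH2 (C : Co) : P → Prop :=
  QQ (ev (CF .f1 C pO110)) (Sm (ev (CF .f1 C pO110))) (ev gT1) (ev (CG .f1 .ny)) (ev gN)
theorem okPH2 (C : Co) (t : Tr) (b : Bx)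
    (h : chk (LT (CF .f1 C pO110)) (SK gT1 (CG .f1 .ny) gN) t b.c0 b.w0 b.c1 b.w1 b.c2 b.w2 = true) :
    ∀ p, b.In p → QPH2 C p :=
  chkQ (enc_CF .f1 C pO110) enc_gT1 (enc_CG .f1 .ny) enc_gN t b h

/-- claim ZA -/
def QZA (C : Co) : P → Prop :=
  QQ (D 0 (D 1 (ev (CF .f0 C pA000)))) (Sm (ev (CF .f0 C pA000))) (ev gN) (ev gN) (ev gN)
theorem okZA (C : Co) (t : Tr) (b : Bx)
    (h : chk (LT (dd (dd (CF .f0 C pA000) 1) 0)) (SK gN gN gN) t b.c0 b.w0 b.c1 b.w1 b.c2 b.w2 = true) :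
    ∀ p, b.In p → QZA C p :=
  chkQ (enc_dd (enc_dd (enc_CF .f0 C pA000) 1) 0) enc_gN enc_gN enc_gN t b h

/-- claim ZB -/
def QZB (C : Co) : P → Prop :=
  QQ (D 1 (ev (CF .f0 C pA000))) (Sm (ev (CF .f0 C pA000))) (ev gN) (ev gN) (ev gN)
theorem okZB (C : Co) (t : Tr) (b : Bx)
    (h : chk (LT (dd (CF .f0 C pA000) 1)) (SK gN gN gN) t b.c0 b.w0 b.c1 b.w1 b.c2 b.w2 = true) :
    ∀ p, b.In p → QZB C p :=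
  chkQ (enc_dd (enc_CF .f0 C pA000) 1) enc_gN enc_gN enc_gN t b h

/-- claim ZC0 -/
def QZC0 (C : Co) : P → Prop :=
  QQ (D 0 (ev (CF .f0 C pA000))) (Sm (ev (CF .f0 C pA000))) (ev gN) (ev gN) (ev gN)
theorem okZC0 (C : Co) (t : Tr) (b : Bx)
    (h : chk (LT (dd (CF .f0 C pA000) 0)) (SK gN gN gN) t b.c0 b.w0 b.c1 b.w1 b.c2 b.w2 = true) :
    ∀ p, b.In p → QZC0 C p :=
  chkQ (enc_dd (enc_CF .f0 C pA000) 0) enc_gN enc_gN enc_gN t b h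

/-- claim ZC1 -/
def QZC1 (C : Co) : P → Prop :=
  QQ (D 0 (ev (CF .f0 C pA100))) (Sm (ev (CF .f0 C pA100))) (ev gN) (ev gN) (ev gN)
theorem okZC1 (C : Co) (t : Tr) (b : Bx)
    (h : chk (LT (dd (CF .f0 C pA100) 0)) (SK gN gN gN) t b.c0 b.w0 b.c1 b.w1 b.c2 b.w2 = true) :
    ∀ p, b.In p → QZC1 C p :=
  chkQ (enc_dd (enc_CF .f0 C pA100) 0) enc_gN enc_gN enc_gN t b h

/-- claim ZD0 -/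
def QZD0 (C : Co) : P → Prop :=
  QQ (ev (CF .f0 C pA000)) (Sm (ev (CF .f0 C pA000))) (ev (CG .f0 .hx)) (ev gN) (ev gN)
theorem okZD0 (C : Co) (t : Tr) (b : Bx)
    (h : chk (LT (CF .f0 C pA000)) (SK (CG .f0 .hx) gN gN) t b.c0 b.w0 b.c1 b.w1 b.c2 b.w2 = true) :
    ∀ p, b.In p → QZD0 C p :=
  chkQ (enc_CF .f0 C pA000) (enc_CG .f0 .hx) enc_gN enc_gN t b h

/-- claim ZD1 -/
def QZD1 (C : Co) : P → Prop :=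
  QQ (ev (CF .f0 C pA100)) (Sm (ev (CF .f0 C pA100))) (ev (CG .f0 .nx)) (ev (CG .f0 .hy)) (ev gN)
theorem okZD1 (C : Co) (t : Tr) (b : Bx)
    (h : chk (LT (CF .f0 C pA100)) (SK (CG .f0 .nx) (CG .f0 .hy) gN) t b.c0 b.w0 b.c1 b.w1 b.c2 b.w2 = true) :
    ∀ p, b.In p → QZD1 C p :=
  chkQ (enc_CF .f0 C pA100) (enc_CG .f0 .nx) (enc_CG .f0 .hy) enc_gN t b h

/-- claim ZD2 -/
def QZD2 (C : Co) : P → Prop :=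
  QQ (ev (CF .f0 C pA110)) (Sm (ev (CF .f0 C pA110))) (ev (CG .f0 .ny)) (ev (CG .f0 .hz)) (ev gN)
theorem okZD2 (C : Co) (t : Tr) (b : Bx)
    (h : chk (LT (CF .f0 C pA110)) (SK (CG .f0 .ny) (CG .f0 .hz) gN) t b.c0 b.w0 b.c1 b.w1 b.c2 b.w2 = true) :
    ∀ p, b.In p → QZD2 C p :=
  chkQ (enc_CF .f0 C pA110) (enc_CG .f0 .ny) (enc_CG .f0 .hz) enc_gN t b h

/-- claim ZD3 -/
def QZD3 (C : Co) : P → Prop :=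
  QQ (ev (CF .f0 C pA111)) (Sm (ev (CF .f0 C pA111))) (ev (CG .f0 .nz)) (ev gN) (ev gN)
theorem okZD3 (C : Co) (t : Tr) (b : Bx)
    (h : chk (LT (CF .f0 C pA111)) (SK (CG .f0 .nz) gN gN) t b.c0 b.w0 b.c1 b.w1 b.c2 b.w2 = true) :
    ∀ p, b.In p → QZD3 C p :=
  chkQ (enc_CF .f0 C pA111) (enc_CG .f0 .nz) enc_gN enc_gN t b h

/-- claim ZE -/
def QZE (C : Co) : P → Prop :=
  QQ (fO.sub (fO.nat 0) (D 0 (D 1 (ev (CF .f0 C pA100))))) (Sm (ev (CF .f0 C pA100))) (ev gN) (ev gN) (ev gN)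
theorem okZE (C : Co) (t : Tr) (b : Bx)
    (h : chk (LT (ngF (dd (dd (CF .f0 C pA100) 1) 0))) (SK gN gN gN) t b.c0 b.w0 b.c1 b.w1 b.c2 b.w2 = true) :
    ∀ p, b.In p → QZE C p :=
  chkQ (enc_ng (enc_dd (enc_dd (enc_CF .f0 C pA100) 1) 0)) enc_gN enc_gN enc_gN t b h

/-- claim ZF -/
def QZF (C : Co) : P → Prop :=
  QQ (fO.sub (fO.nat 0) (D 1 (ev (CF .f0 C pA111)))) (Sm (ev (CF .f0 C pA111))) (ev gN) (ev gN) (ev gN)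
theorem okZF (C : Co) (t : Tr) (b : Bx)
    (h : chk (LT (ngF (dd (CF .f0 C pA111) 1))) (SK gN gN gN) t b.c0 b.w0 b.c1 b.w1 b.c2 b.w2 = true) :
    ∀ p, b.In p → QZF C p :=
  chkQ (enc_ng (enc_dd (enc_CF .f0 C pA111) 1)) enc_gN enc_gN enc_gN t b h

/-- claim OA -/
def QOA (C : Co) : P → Prop :=
  QQ (D 1 (D 0 (ev (CF .on C pA111)))) (Sm (ev (CF .on C pA111))) (ev gO6) (ev gN) (ev gN)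
theorem okOA (C : Co) (t : Tr) (b : Bx)
    (h : chk (LT (dd (dd (CF .on C pA111) 0) 1)) (SK gO6 gN gN) t b.c0 b.w0 b.c1 b.w1 b.c2 b.w2 = true) :
    ∀ p, b.In p → QOA C p :=
  chkQ (enc_dd (enc_dd (enc_CF .on C pA111) 0) 1) enc_gO6 enc_gN enc_gN t b h

/-- claim OB -/
def QOB (C : Co) : P → Prop :=
  QQ (D 1 (D 1 (ev (CF .on C pA111)))) (Sm (ev (CF .on C pA111))) (ev gO6) (ev gN) (ev gN)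
theorem okOB (C : Co) (t : Tr) (b : Bx)
    (h : chk (LT (dd (dd (CF .on C pA111) 1) 1)) (SK gO6 gN gN) t b.c0 b.w0 b.c1 b.w1 b.c2 b.w2 = true) :
    ∀ p, b.In p → QOB C p :=
  chkQ (enc_dd (enc_dd (enc_CF .on C pA111) 1) 1) enc_gO6 enc_gN enc_gN t b h

/-- claim QD -/
def QQD (C : Co) : P → Prop :=
  QQ (D 2 (ev (CF .G C pO111))) (Sm (ev (CF .G C pO111))) (ev gW) (ev gYX) (ev gN)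
theorem okQD (C : Co) (t : Tr) (b : Bx)
    (h : chk (LT (dd (CF .G C pO111) 2)) (SK gW gYX gN) t b.c0 b.w0 b.c1 b.w1 b.c2 b.w2 = true) :
    ∀ p, b.In p → QQD C p :=
  chkQ (enc_dd (enc_CF .G C pO111) 2) enc_gW enc_gYX enc_gN t b h

/-- claim U1 -/
def QU1 (C : Co) : P → Prop :=
  QQ (D 0 (D 1 (ev (CF .R C pO111)))) (Sm (ev (CF .R C pO111))) (ev gN) (ev gN) (ev gN)
theorem okU1 (C : Co) (t : Tr) (b : Bx)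
    (h : chk (LT (dd (dd (CF .R C pO111) 1) 0)) (SK gN gN gN) t b.c0 b.w0 b.c1 b.w1 b.c2 b.w2 = true) :
    ∀ p, b.In p → QU1 C p :=
  chkQ (enc_dd (enc_dd (enc_CF .R C pO111) 1) 0) enc_gN enc_gN enc_gN t b h

/-- claim U3 -/
def QU3 (C : Co) : P → Prop :=
  QQ (D 0 (ev (CF .R C pO111))) (Sm (ev (CF .R C pO111))) (ev gN) (ev gN) (ev gN)
theorem okU3 (C : Co) (t : Tr) (b : Bx)
    (h : chk (LT (dd (CF .R C pO111) 0)) (SK gN gN gN) t b.c0 b.w0 b.c1 b.w1 b.c2 b.w2 = true) :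
    ∀ p, b.In p → QU3 C p :=
  chkQ (enc_dd (enc_CF .R C pO111) 0) enc_gN enc_gN enc_gN t b h

/-- claim U2 -/
def QU2 (C : Co) : P → Prop :=
  QQ (D 0 (D 1 (D 2 (ev (CF .R C pO111))))) (Sm (ev (CF .R C pO111))) (ev gN) (ev gN) (ev gN)
theorem okU2 (C : Co) (t : Tr) (b : Bx)
    (h : chk (LT (dd (dd (dd (CF .R C pO111) 2) 1) 0)) (SK gN gN gN) t b.c0 b.w0 b.c1 b.w1 b.c2 b.w2 = true) :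
    ∀ p, b.In p → QU2 C p :=
  chkQ (enc_dd (enc_dd (enc_dd (enc_CF .R C pO111) 2) 1) 0) enc_gN enc_gN enc_gN t b h

/-- claim E1 -/
def QE1 (C : Co) : P → Prop :=
  QQ (D 1 (ev (CF .E C pO111))) (Sm (ev (CF .E C pO111))) (ev gN) (ev gN) (ev gN)
theorem okE1 (C : Co) (t : Tr) (b : Bx)
    (h : chk (LT (dd (CF .E C pO111) 1)) (SK gN gN gN) t b.c0 b.w0 b.c1 b.w1 b.c2 b.w2 = true) :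
    ∀ p, b.In p → QE1 C p :=
  chkQ (enc_dd (enc_CF .E C pO111) 1) enc_gN enc_gN enc_gN t b h

/-- claim R2a -/
def QR2a (C : Co) : P → Prop :=
  QQ (D 2 (ev (CF .G C pO111))) (Sm (ev (CF .G C pO111))) (ev gW) (ev gS1) (ev gGb)
theorem okR2a (C : Co) (t : Tr) (b : Bx)
    (h : chk (LT (dd (CF .G C pO111) 2)) (SK gW gS1 gGb) t b.c0 b.w0 b.c1 b.w1 b.c2 b.w2 = true) :
    ∀ p, b.In p → QR2a C p :=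
  chkQ (enc_dd (enc_CF .G C pO111) 2) enc_gW enc_gS1 enc_gGb t b h

/-- claim R2b -/
def QR2b (C : Co) : P → Prop :=
  QQ (ev (CF .G C pO111)) (Sm (ev (CF .G C pO111))) (ev gW) (ev gS1) (ev gGb)
theorem okR2b (C : Co) (t : Tr) (b : Bx)
    (h : chk (LT (CF .G C pO111)) (SK gW gS1 gGb) t b.c0 b.w0 b.c1 b.w1 b.c2 b.w2 = true) :
    ∀ p, b.In p → QR2b C p :=
  chkQ (enc_CF .G C pO111) enc_gW enc_gS1 enc_gGb t b h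

/-- claim C1 -/
def QC1 (C : Co) : P → Prop :=
  QQ (D 0 (D 2 (ev (CF .G C pO100)))) (Sm (ev (CF .G C pO100))) (ev gSp) (ev gN) (ev gN)
theorem okC1 (C : Co) (t : Tr) (b : Bx)
    (h : chk (LT (dd (dd (CF .G C pO100) 2) 0)) (SK gSp gN gN) t b.c0 b.w0 b.c1 b.w1 b.c2 b.w2 = true) :
    ∀ p, b.In p → QC1 C p :=
  chkQ (enc_dd (enc_dd (enc_CF .G C pO100) 2) 0) enc_gSp enc_gN enc_gN t b h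

/-- claim C2 -/
def QC2 (C : Co) : P → Prop :=
  QQ (D 0 (ev (CF .G C pO100))) (Sm (ev (CF .G C pO100))) (ev gSp) (ev gN) (ev gN)
theorem okC2 (C : Co) (t : Tr) (b : Bx)
    (h : chk (LT (dd (CF .G C pO100) 0)) (SK gSp gN gN) t b.c0 b.w0 b.c1 b.w1 b.c2 b.w2 = true) :
    ∀ p, b.In p → QC2 C p :=
  chkQ (enc_dd (enc_CF .G C pO100) 0) enc_gSp enc_gN enc_gN t b h

/-- claim C3 -/
def QC3 (C : Co) : P → Prop :=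
  QQ (fO.sub (fO.nat 0) (D 0 (D 2 (ev (CF .G C pO100))))) (Sm (ev (CF .G C pO100))) (ev gSp) (ev gN) (ev gN)
theorem okC3 (C : Co) (t : Tr) (b : Bx)
    (h : chk (LT (ngF (dd (dd (CF .G C pO100) 2) 0))) (SK gSp gN gN) t b.c0 b.w0 b.c1 b.w1 b.c2 b.w2 = true) :
    ∀ p, b.In p → QC3 C p :=
  chkQ (enc_ng (enc_dd (enc_dd (enc_CF .G C pO100) 2) 0)) enc_gSp enc_gN enc_gN t b h

/-- claim SZ1 -/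
def QSZ1 (C : Co) : P → Prop :=
  QQ (D 0 (D 2 (ev (CF .S C pO111)))) (Sm (ev (CF .S C pO111))) (ev gKs) (ev gN) (ev gN)
theorem okSZ1 (C : Co) (t : Tr) (b : Bx)
    (h : chk (LT (dd (dd (CF .S C pO111) 2) 0)) (SK gKs gN gN) t b.c0 b.w0 b.c1 b.w1 b.c2 b.w2 = true) :
    ∀ p, b.In p → QSZ1 C p :=
  chkQ (enc_dd (enc_dd (enc_CF .S C pO111) 2) 0) enc_gKs enc_gN enc_gN t b h

/-- claim SZ2 -/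
def QSZ2 (C : Co) : P → Prop :=
  QQ (D 0 (ev (CF .S C pO111))) (Sm (ev (CF .S C pO111))) (ev gKs) (ev gN) (ev gN)
theorem okSZ2 (C : Co) (t : Tr) (b : Bx)
    (h : chk (LT (dd (CF .S C pO111) 0)) (SK gKs gN gN) t b.c0 b.w0 b.c1 b.w1 b.c2 b.w2 = true) :
    ∀ p, b.In p → QSZ2 C p :=
  chkQ (enc_dd (enc_CF .S C pO111) 0) enc_gKs enc_gN enc_gN t b h

/-- claim SZ3 -/
def QSZ3 (C : Co) : P → Prop :=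
  QQ (fO.sub (fO.nat 0) (D 0 (D 2 (ev (CF .S C pO111))))) (Sm (ev (CF .S C pO111))) (ev gKs) (ev gN) (ev gN)
theorem okSZ3 (C : Co) (t : Tr) (b : Bx)
    (h : chk (LT (ngF (dd (dd (CF .S C pO111) 2) 0))) (SK gKs gN gN) t b.c0 b.w0 b.c1 b.w1 b.c2 b.w2 = true) :
    ∀ p, b.In p → QSZ3 C p :=
  chkQ (enc_ng (enc_dd (enc_dd (enc_CF .S C pO111) 2) 0)) enc_gKs enc_gN enc_gN t b h

/-- claim SY1 -/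
def QSY1 (C : Co) : P → Prop :=
  QQ (D 0 (D 2 (ev (CF .S C pO110)))) (Sm (ev (CF .S C pO110))) (ev gK1) (ev gN) (ev gN)
theorem okSY1 (C : Co) (t : Tr) (b : Bx)
    (h : chk (LT (dd (dd (CF .S C pO110) 2) 0)) (SK gK1 gN gN) t b.c0 b.w0 b.c1 b.w1 b.c2 b.w2 = true) :
    ∀ p, b.In p → QSY1 C p :=
  chkQ (enc_dd (enc_dd (enc_CF .S C pO110) 2) 0) enc_gK1 enc_gN enc_gN t b h

/-- claim SY2 -/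
def QSY2 (C : Co) : P → Prop :=
  QQ (D 0 (ev (CF .S C pO110))) (Sm (ev (CF .S C pO110))) (ev gK1) (ev gN) (ev gN)
theorem okSY2 (C : Co) (t : Tr) (b : Bx)
    (h : chk (LT (dd (CF .S C pO110) 0)) (SK gK1 gN gN) t b.c0 b.w0 b.c1 b.w1 b.c2 b.w2 = true) :
    ∀ p, b.In p → QSY2 C p :=
  chkQ (enc_dd (enc_CF .S C pO110) 0) enc_gK1 enc_gN enc_gN t b h

/-- claim SY3 -/
def QSY3 (C : Co) : P → Prop :=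
  QQ (fO.sub (fO.nat 0) (D 0 (D 2 (ev (CF .S C pO110))))) (Sm (ev (CF .S C pO110))) (ev gN) (ev gN) (ev gN)
theorem okSY3 (C : Co) (t : Tr) (b : Bx)
    (h : chk (LT (ngF (dd (dd (CF .S C pO110) 2) 0))) (SK gN gN gN) t b.c0 b.w0 b.c1 b.w1 b.c2 b.w2 = true) :
    ∀ p, b.In p → QSY3 C p :=
  chkQ (enc_ng (enc_dd (enc_dd (enc_CF .S C pO110) 2) 0)) enc_gN enc_gN enc_gN t b h

/-- all claims on real boxes -/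
structure Claims (C : Co) : Prop where
  MA : ∀ p : P, 0 ≤ p 0 → p 0 ≤ 1/10 → 0 ≤ p 1 → p 1 ≤ 1/10 → 0 ≤ p 2 → p 2 ≤ 1 →
    0 < D 1 (D 0 (ev (CF .c3 C pM))) p ∧ Sm (ev (CF .c3 C pM)) p
  MB : ∀ p : P, 0 ≤ p 0 → p 0 ≤ 1/10 → 9/10 ≤ p 1 → p 1 ≤ 1 → 0 ≤ p 2 → p 2 ≤ 1 →
    D 1 (D 0 (ev (CF .c3 C pM))) p < 0 ∧ Sm (ev (CF .c3 C pM)) p
  MC : ∀ p : P, 0 ≤ p 0 → p 0 ≤ 1/10 → 1/10 ≤ p 1 → p 1 ≤ 9/10 → 0 ≤ p 2 → p 2 ≤ 1 →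
    0 < D 0 (ev (CF .c3 C pM)) p ∧ Sm (ev (CF .c3 C pM)) p
  MD : ∀ p : P, 1/10 ≤ p 0 → p 0 ≤ 67/100 → 0 ≤ p 1 → p 1 ≤ 1/10 → 0 ≤ p 2 → p 2 ≤ 1 →
    0 < D 1 (ev (CF .c3 C pM)) p ∧ Sm (ev (CF .c3 C pM)) p
  ME : ∀ p : P, 1/10 ≤ p 0 → p 0 ≤ 67/100 → 9/10 ≤ p 1 → p 1 ≤ 1 → 0 ≤ p 2 → p 2 ≤ 1 →
    Real.cos (Real.pi / 2 * p 1) * (Real.sin (Real.pi / 2 * p 0) * Real.sin (Real.pi / 2 * p 0)) -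
      Real.cos (Real.pi / 2 * p 0) * (Real.cos (Real.pi / 2 * p 0) + p 2) ≤ 0 →
    D 1 (ev (CF .c3 C pM)) p < 0 ∧ Sm (ev (CF .c3 C pM)) p
  MG : ∀ p : P, 1/10 ≤ p 0 → p 0 ≤ 67/100 → 1/10 ≤ p 1 → p 1 ≤ 9/10 → 0 ≤ p 2 → p 2 ≤ 1 →
    Real.cos (Real.pi / 2 * p 1) * (Real.sin (Real.pi / 2 * p 0) * Real.sin (Real.pi / 2 * p 0)) -
      Real.cos (Real.pi / 2 * p 0) * (Real.cos (Real.pi / 2 * p 0) + p 2) ≤ 0 →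
    0 < ev (CF .c3 C pM) p ∧ Sm (ev (CF .c3 C pM)) p
  SA : ∀ p : P, 0 ≤ p 0 → p 0 ≤ 1/25 → 0 ≤ p 1 → p 1 ≤ 1/25 → 0 ≤ p 2 → p 2 ≤ 0 →
    0 < D 1 (D 0 (ev (CF .sd C pM))) p ∧ Sm (ev (CF .sd C pM)) p
  SB : ∀ p : P, 0 ≤ p 0 → p 0 ≤ 1/25 → 0 ≤ p 1 → p 1 ≤ 1/25 → 0 ≤ p 2 → p 2 ≤ 1/25 →
    0 < D 2 (D 0 (ev (CF .sd C pM))) p ∧ Sm (ev (CF .sd C pM)) p
  SC : ∀ p : P, 0 ≤ p 0 → p 0 ≤ 0 → 0 ≤ p 1 → p 1 ≤ 1/25 → 0 ≤ p 2 → p 2 ≤ 1/25 →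
    0 < D 2 (D 1 (ev (CF .sd C pM))) p ∧ Sm (ev (CF .sd C pM)) p
  SE : ∀ p : P, 1/25 ≤ p 0 → p 0 ≤ 33/100 → 0 ≤ p 1 → p 1 ≤ 3/100 → 0 ≤ p 2 → p 2 ≤ 3/100 →
    0 < D 1 (ev (CF .sd C pM)) p ∧ Sm (ev (CF .sd C pM)) p
  SF : ∀ p : P, 1/25 ≤ p 0 → p 0 ≤ 33/100 → 0 ≤ p 1 → p 1 ≤ 3/100 → 0 ≤ p 2 → p 2 ≤ 3/100 →
    0 < D 2 (ev (CF .sd C pM)) p ∧ Sm (ev (CF .sd C pM)) p
  S0 : ∀ p : P, 0 ≤ p 0 → p 0 ≤ 33/100 → 3/100 ≤ p 1 → p 1 ≤ 33/100 → 0 ≤ p 2 → p 2 ≤ 33/100 →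
    p 1 - p 0 ≤ 0 →
    p 2 - p 1 ≤ 0 →
    0 < ev (CF .sd C pM) p ∧ Sm (ev (CF .sd C pM)) p
  PA : ∀ p : P, 0 ≤ p 0 → p 0 ≤ 1/10 → 0 ≤ p 1 → p 1 ≤ 1/10 → 0 ≤ p 2 → p 2 ≤ 3/20 →
    0 < D 2 (D 0 (D 1 (ev (CF .f1 C pO000)))) p ∧ Sm (ev (CF .f1 C pO000)) p
  PB : ∀ p : P, 0 ≤ p 0 → p 0 ≤ 1/10 → 0 ≤ p 1 → p 1 ≤ 1/10 → 3/20 ≤ p 2 → p 2 ≤ 1 →
    0 < D 0 (D 1 (ev (CF .f1 C pO000))) p ∧ Sm (ev (CF .f1 C pO000)) p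
  PC : ∀ p : P, 1/10 ≤ p 0 → p 0 ≤ 1 → 0 ≤ p 1 → p 1 ≤ 1/10 → 0 ≤ p 2 → p 2 ≤ 3/20 →
    0 < D 2 (D 1 (ev (CF .f1 C pO000))) p ∧ Sm (ev (CF .f1 C pO000)) p
  PD : ∀ p : P, 1/10 ≤ p 0 → p 0 ≤ 1 → 0 ≤ p 1 → p 1 ≤ 1/10 → 3/20 ≤ p 2 → p 2 ≤ 1 →
    0 < D 1 (ev (CF .f1 C pO000)) p ∧ Sm (ev (CF .f1 C pO000)) p
  PE0 : ∀ p : P, 0 ≤ p 0 → p 0 ≤ 1/10 → 1/10 ≤ p 1 → p 1 ≤ 4143/10000 → 0 ≤ p 2 → p 2 ≤ 3/20 →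
    p 0 * p 1 + p 1 + p 0 * p 1 * p 1 - 1 ≤ 0 →
    0 < D 2 (D 0 (ev (CF .f1 C pO000))) p ∧ Sm (ev (CF .f1 C pO000)) p
  PE1 : ∀ p : P, 0 ≤ p 0 → p 0 ≤ 1/10 → 9/25 ≤ p 1 → p 1 ≤ 534/625 → 0 ≤ p 2 → p 2 ≤ 3/20 →
    p 0 * p 1 + p 1 + p 0 * p 1 * p 1 - 1 ≤ 0 →
    0 < D 2 (D 0 (ev (CF .f1 C pO100))) p ∧ Sm (ev (CF .f1 C pO100)) p
  PF0 : ∀ p : P, 0 ≤ p 0 → p 0 ≤ 1/10 → 1/10 ≤ p 1 → p 1 ≤ 4143/10000 → 3/20 ≤ p 2 → p 2 ≤ 1 →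
    p 0 * p 1 + p 1 + p 0 * p 1 * p 1 - 1 ≤ 0 →
    0 < D 0 (ev (CF .f1 C pO000)) p ∧ Sm (ev (CF .f1 C pO000)) p
  PF1 : ∀ p : P, 0 ≤ p 0 → p 0 ≤ 1/10 → 9/25 ≤ p 1 → p 1 ≤ 534/625 → 3/20 ≤ p 2 → p 2 ≤ 1 →
    p 0 * p 1 + p 1 + p 0 * p 1 * p 1 - 1 ≤ 0 →
    0 < D 0 (ev (CF .f1 C pO100)) p ∧ Sm (ev (CF .f1 C pO100)) p
  PG0 : ∀ p : P, 1/10 ≤ p 0 → p 0 ≤ 1 → 1/10 ≤ p 1 → p 1 ≤ 4143/10000 → 0 ≤ p 2 → p 2 ≤ 3/20 →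
    p 0 * p 1 + p 1 + p 0 * p 1 * p 1 - 1 ≤ 0 →
    0 < D 2 (ev (CF .f1 C pO000)) p ∧ Sm (ev (CF .f1 C pO000)) p
  PG1 : ∀ p : P, 1/10 ≤ p 0 → p 0 ≤ 1 → 6/25 ≤ p 1 → p 1 ≤ 534/625 → 0 ≤ p 2 → p 2 ≤ 3/20 →
    p 0 * p 1 + p 1 + p 0 * p 1 * p 1 - 1 ≤ 0 →
    CG .f1 .ab rO (p 0) (p 1) (p 2) ≤ 0 →
    0 < D 2 (ev (CF .f1 C pO100)) p ∧ Sm (ev (CF .f1 C pO100)) p
  PG2 : ∀ p : P, 1/10 ≤ p 0 → p 0 ≤ 1 → 6/25 ≤ p 1 → p 1 ≤ 534/625 → 0 ≤ p 2 → p 2 ≤ 3/20 →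
    p 0 * p 1 + p 1 + p 0 * p 1 * p 1 - 1 ≤ 0 →
    CG .f1 .ba rO (p 0) (p 1) (p 2) ≤ 0 →
    0 < D 2 (ev (CF .f1 C pO110)) p ∧ Sm (ev (CF .f1 C pO110)) p
  PH0 : ∀ p : P, 1/10 ≤ p 0 → p 0 ≤ 1 → 1/10 ≤ p 1 → p 1 ≤ 4143/10000 → 3/20 ≤ p 2 → p 2 ≤ 1 →
    p 0 * p 1 + p 1 + p 0 * p 1 * p 1 - 1 ≤ 0 →
    CG .f1 .hx rO (p 0) (p 1) (p 2) ≤ 0 →
    0 < ev (CF .f1 C pO000) p ∧ Sm (ev (CF .f1 C pO000)) p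
  PH1 : ∀ p : P, 1/10 ≤ p 0 → p 0 ≤ 1 → 1/5 ≤ p 1 → p 1 ≤ 534/625 → 3/20 ≤ p 2 → p 2 ≤ 1 →
    p 0 * p 1 + p 1 + p 0 * p 1 * p 1 - 1 ≤ 0 →
    CG .f1 .nx rO (p 0) (p 1) (p 2) ≤ 0 →
    CG .f1 .hy rO (p 0) (p 1) (p 2) ≤ 0 →
    0 < ev (CF .f1 C pO100) p ∧ Sm (ev (CF .f1 C pO100)) p
  PH2 : ∀ p : P, 1/10 ≤ p 0 → p 0 ≤ 1 → 1/5 ≤ p 1 → p 1 ≤ 534/625 → 3/20 ≤ p 2 → p 2 ≤ 1 →
    p 0 * p 1 + p 1 + p 0 * p 1 * p 1 - 1 ≤ 0 →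
    CG .f1 .ny rO (p 0) (p 1) (p 2) ≤ 0 →
    0 < ev (CF .f1 C pO110) p ∧ Sm (ev (CF .f1 C pO110)) p
  ZA : ∀ p : P, 0 ≤ p 0 → p 0 ≤ 1/10 → 0 ≤ p 1 → p 1 ≤ 1/10 → 0 ≤ p 2 → p 2 ≤ 1 →
    0 < D 0 (D 1 (ev (CF .f0 C pA000))) p ∧ Sm (ev (CF .f0 C pA000)) p
  ZB : ∀ p : P, 1/10 ≤ p 0 → p 0 ≤ 1 → 0 ≤ p 1 → p 1 ≤ 1/10 → 0 ≤ p 2 → p 2 ≤ 1 →
    0 < D 1 (ev (CF .f0 C pA000)) p ∧ Sm (ev (CF .f0 C pA000)) p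
  ZC0 : ∀ p : P, 0 ≤ p 0 → p 0 ≤ 1/10 → 1/10 ≤ p 1 → p 1 ≤ 4143/10000 → 0 ≤ p 2 → p 2 ≤ 1 →
    0 < D 0 (ev (CF .f0 C pA000)) p ∧ Sm (ev (CF .f0 C pA000)) p
  ZC1 : ∀ p : P, 0 ≤ p 0 → p 0 ≤ 1/10 → 9/25 ≤ p 1 → p 1 ≤ 191/200 → 0 ≤ p 2 → p 2 ≤ 1 →
    0 < D 0 (ev (CF .f0 C pA100)) p ∧ Sm (ev (CF .f0 C pA100)) p
  ZD0 : ∀ p : P, 1/10 ≤ p 0 → p 0 ≤ 1 → 1/10 ≤ p 1 → p 1 ≤ 4143/10000 → 0 ≤ p 2 → p 2 ≤ 1 →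
    CG .f0 .hx rO (p 0) (p 1) (p 2) ≤ 0 →
    0 < ev (CF .f0 C pA000) p ∧ Sm (ev (CF .f0 C pA000)) p
  ZD1 : ∀ p : P, 1/10 ≤ p 0 → p 0 ≤ 1 → 1/5 ≤ p 1 → p 1 ≤ 191/200 → 0 ≤ p 2 → p 2 ≤ 1 →
    CG .f0 .nx rO (p 0) (p 1) (p 2) ≤ 0 →
    CG .f0 .hy rO (p 0) (p 1) (p 2) ≤ 0 →
    0 < ev (CF .f0 C pA100) p ∧ Sm (ev (CF .f0 C pA100)) p
  ZD2 : ∀ p : P, 1/10 ≤ p 0 → p 0 ≤ 1 → 1/5 ≤ p 1 → p 1 ≤ 191/200 → 0 ≤ p 2 → p 2 ≤ 1 →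
    CG .f0 .ny rO (p 0) (p 1) (p 2) ≤ 0 →
    CG .f0 .hz rO (p 0) (p 1) (p 2) ≤ 0 →
    0 < ev (CF .f0 C pA110) p ∧ Sm (ev (CF .f0 C pA110)) p
  ZD3 : ∀ p : P, 1/10 ≤ p 0 → p 0 ≤ 1 → 2/5 ≤ p 1 → p 1 ≤ 191/200 → 0 ≤ p 2 → p 2 ≤ 1 →
    CG .f0 .nz rO (p 0) (p 1) (p 2) ≤ 0 →
    0 < ev (CF .f0 C pA111) p ∧ Sm (ev (CF .f0 C pA111)) p
  ZE : ∀ p : P, 0 ≤ p 0 → p 0 ≤ 1/10 → 191/200 ≤ p 1 → p 1 ≤ 1 → 0 ≤ p 2 → p 2 ≤ 1 →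
    D 0 (D 1 (ev (CF .f0 C pA100))) p < 0 ∧ Sm (ev (CF .f0 C pA100)) p
  ZF : ∀ p : P, 1/10 ≤ p 0 → p 0 ≤ 191/200 → 191/200 ≤ p 1 → p 1 ≤ 1 → 0 ≤ p 2 → p 2 ≤ 1 →
    D 1 (ev (CF .f0 C pA111)) p < 0 ∧ Sm (ev (CF .f0 C pA111)) p
  OA : ∀ p : P, 0 ≤ p 0 → p 0 ≤ 3/50 → 0 ≤ p 1 → p 1 ≤ 3/50 → 0 ≤ p 2 → p 2 ≤ 1 →
    50 * (p 0 + p 1) - 3 ≤ 0 →
    0 < D 1 (D 0 (ev (CF .on C pA111))) p ∧ Sm (ev (CF .on C pA111)) p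
  OB : ∀ p : P, 0 ≤ p 0 → p 0 ≤ 3/50 → 0 ≤ p 1 → p 1 ≤ 3/50 → 0 ≤ p 2 → p 2 ≤ 1 →
    50 * (p 0 + p 1) - 3 ≤ 0 →
    0 < D 1 (D 1 (ev (CF .on C pA111))) p ∧ Sm (ev (CF .on C pA111)) p
  QD : ∀ p : P, 13/20 ≤ p 0 → p 0 ≤ 1 → 13/20 ≤ p 1 → p 1 ≤ 1 → 0 ≤ p 2 → p 2 ≤ 1 →
    Real.sin (Real.pi / 2 * p 0) * Real.sin (Real.pi / 2 * p 1) * Real.cos (Real.pi / 2 * p 2) -
      Real.cos (Real.pi / 2 * p 0) * Real.cos (Real.pi / 2 * p 1) ≤ 0 →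
    p 0 - p 1 ≤ 0 →
    0 < D 2 (ev (CF .G C pO111)) p ∧ Sm (ev (CF .G C pO111)) p
  U1 : ∀ p : P, 0 ≤ p 0 → p 0 ≤ 7/100 → 0 ≤ p 1 → p 1 ≤ 3/20 → 3/10 ≤ p 2 → p 2 ≤ 1 →
    0 < D 0 (D 1 (ev (CF .R C pO111))) p ∧ Sm (ev (CF .R C pO111)) p
  U3 : ∀ p : P, 0 ≤ p 0 → p 0 ≤ 7/100 → 3/20 ≤ p 1 → p 1 ≤ 3/10 → 3/10 ≤ p 2 → p 2 ≤ 1 →
    0 < D 0 (ev (CF .R C pO111)) p ∧ Sm (ev (CF .R C pO111)) p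
  U2 : ∀ p : P, 0 ≤ p 0 → p 0 ≤ 7/100 → 0 ≤ p 1 → p 1 ≤ 3/10 → 0 ≤ p 2 → p 2 ≤ 3/10 →
    0 < D 0 (D 1 (D 2 (ev (CF .R C pO111)))) p ∧ Sm (ev (CF .R C pO111)) p
  E1 : ∀ p : P, 7/100 ≤ p 0 → p 0 ≤ 13/20 → 0 ≤ p 1 → p 1 ≤ 1/10 → 0 ≤ p 2 → p 2 ≤ 1 →
    0 < D 1 (ev (CF .E C pO111)) p ∧ Sm (ev (CF .E C pO111)) p
  R2a : ∀ p : P, 7/100 ≤ p 0 → p 0 ≤ 13/20 → 47/100 ≤ p 1 → p 1 ≤ 1 → 0 ≤ p 2 → p 2 ≤ 3/10 →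
    Real.sin (Real.pi / 2 * p 0) * Real.sin (Real.pi / 2 * p 1) * Real.cos (Real.pi / 2 * p 2) -
      Real.cos (Real.pi / 2 * p 0) * Real.cos (Real.pi / 2 * p 1) ≤ 0 →
    1 - (p 0 + p 1) ≤ 0 →
    10 * p 1 + p 0 - 10 ≤ 0 →
    0 < D 2 (ev (CF .G C pO111)) p ∧ Sm (ev (CF .G C pO111)) p
  R2b : ∀ p : P, 7/100 ≤ p 0 → p 0 ≤ 13/20 → 47/100 ≤ p 1 → p 1 ≤ 1 → 3/10 ≤ p 2 → p 2 ≤ 1 →
    Real.sin (Real.pi / 2 * p 0) * Real.sin (Real.pi / 2 * p 1) * Real.cos (Real.pi / 2 * p 2) -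
      Real.cos (Real.pi / 2 * p 0) * Real.cos (Real.pi / 2 * p 1) ≤ 0 →
    1 - (p 0 + p 1) ≤ 0 →
    10 * p 1 + p 0 - 10 ≤ 0 →
    0 < ev (CF .G C pO111) p ∧ Sm (ev (CF .G C pO111)) p
  C1 : ∀ p : P, 0 ≤ p 0 → p 0 ≤ 1/10 → 9/10 ≤ p 1 → p 1 ≤ 1 → 0 ≤ p 2 → p 2 ≤ 3/10 →
    p 0 + p 1 - 1 ≤ 0 →
    0 < D 0 (D 2 (ev (CF .G C pO100))) p ∧ Sm (ev (CF .G C pO100)) p
  C2 : ∀ p : P, 0 ≤ p 0 → p 0 ≤ 1/10 → 9/10 ≤ p 1 → p 1 ≤ 1 → 3/10 ≤ p 2 → p 2 ≤ 93/100 →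
    p 0 + p 1 - 1 ≤ 0 →
    0 < D 0 (ev (CF .G C pO100)) p ∧ Sm (ev (CF .G C pO100)) p
  C3 : ∀ p : P, 0 ≤ p 0 → p 0 ≤ 1/10 → 9/10 ≤ p 1 → p 1 ≤ 1 → 93/100 ≤ p 2 → p 2 ≤ 1 →
    p 0 + p 1 - 1 ≤ 0 →
    D 0 (D 2 (ev (CF .G C pO100))) p < 0 ∧ Sm (ev (CF .G C pO100)) p
  SZ1 : ∀ p : P, 0 ≤ p 0 → p 0 ≤ 7/100 → 3/10 ≤ p 1 → p 1 ≤ 1 → 0 ≤ p 2 → p 2 ≤ 3/10 →
    Real.cos (Real.pi / 2 * p 2) - p 1 ≤ 0 →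
    0 < D 0 (D 2 (ev (CF .S C pO111))) p ∧ Sm (ev (CF .S C pO111)) p
  SZ2 : ∀ p : P, 0 ≤ p 0 → p 0 ≤ 7/100 → 3/10 ≤ p 1 → p 1 ≤ 1 → 3/10 ≤ p 2 → p 2 ≤ 93/100 →
    Real.cos (Real.pi / 2 * p 2) - p 1 ≤ 0 →
    0 < D 0 (ev (CF .S C pO111)) p ∧ Sm (ev (CF .S C pO111)) p
  SZ3 : ∀ p : P, 0 ≤ p 0 → p 0 ≤ 7/100 → 3/10 ≤ p 1 → p 1 ≤ 1 → 93/100 ≤ p 2 → p 2 ≤ 1 →
    Real.cos (Real.pi / 2 * p 2) - p 1 ≤ 0 →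
    D 0 (D 2 (ev (CF .S C pO111))) p < 0 ∧ Sm (ev (CF .S C pO111)) p
  SY1 : ∀ p : P, 0 ≤ p 0 → p 0 ≤ 11/100 → 1 ≤ p 1 → p 1 ≤ 2 → 0 ≤ p 2 → p 2 ≤ 3/10 →
    200 * (p 1 - Real.cos (Real.pi / 2 * p 2)) - 213 ≤ 0 →
    0 < D 0 (D 2 (ev (CF .S C pO110))) p ∧ Sm (ev (CF .S C pO110)) p
  SY2 : ∀ p : P, 0 ≤ p 0 → p 0 ≤ 11/100 → 1 ≤ p 1 → p 1 ≤ 2 → 3/10 ≤ p 2 → p 2 ≤ 93/100 →
    200 * (p 1 - Real.cos (Real.pi / 2 * p 2)) - 213 ≤ 0 →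
    0 < D 0 (ev (CF .S C pO110)) p ∧ Sm (ev (CF .S C pO110)) p
  SY3 : ∀ p : P, 0 ≤ p 0 → p 0 ≤ 1/10 → 1 ≤ p 1 → p 1 ≤ 53/50 → 93/100 ≤ p 2 → p 2 ≤ 1 →
    D 0 (D 2 (ev (CF .S C pO110))) p < 0 ∧ Sm (ev (CF .S C pO110)) p

end FX
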