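import Pool.Agent.H11.FX.Bs
import Pool.Agent.H41.FT.Kid

set_option autoImplicit false

/-!
# The closed forms of a certificate, the reduction to sorted sides
-/

namespace FX

open H41FT H45FT Real Function

variable {C : Co} {a b c : ℝ}

/-! ### the operations on real numbers -/

theorem clo_sg (c : Sg) (x y : ℝ) : sg rO c x y = x + c.r * y := by
  cases c with
  | z => show x = x + 0 * y; ring
  | p n => rfl
  | m n => show x - (n : ℝ) * y = x + (-(n : ℝ)) * y; ring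

theorem clo_sg0 (c : Sg) (y : ℝ) : sg0 rO c y = c.r * y := by
  cases c with
  | z => show ((0 : ℕ) : ℝ) = 0 * y; push_cast; ring
  | p n => rfl
  | m n => show ((0 : ℕ) : ℝ) - (n : ℝ) * y = (-(n : ℝ)) * y; push_cast; ring

theorem clo_lin3 (c1 c2 c3 : Sg) (l f h : ℝ) :
    lin3 rO c1 c2 c3 l f h = c1.r * l + c2.r * f + c3.r * h := by
  unfold lin3; rw [clo_sg, clo_sg, clo_sg0]

theorem clo_gl_ff (s k : ℝ) : gl rO C false false s k = (2 * C.bW + C.bV) * s := by
  show ((Nat.add C.bW (Nat.add C.bW C.bV) : ℕ) : ℝ) * s = _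
  simp only [Nat.add_eq]; push_cast; ring
theorem clo_gl_ft (s k : ℝ) : gl rO C false true s k = (2 * C.bW + C.bV) * s - C.bV * k := by
  show ((Nat.add C.bW (Nat.add C.bW C.bV) : ℕ) : ℝ) * s - (C.bV : ℝ) * k = _
  simp only [Nat.add_eq]; push_cast; ring
theorem clo_gl_tf (s k : ℝ) : gl rO C true false s k = -(C.bV * s) := by
  show ((0 : ℕ) : ℝ) - (C.bV : ℝ) * s = _
  push_cast; ring
theorem clo_gl_tt (s k : ℝ) : gl rO C true true s k = (2 * C.bW + C.bV) * k - C.bV * s := by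
  show ((Nat.add C.bW (Nat.add C.bW C.bV) : ℕ) : ℝ) * k - (C.bV : ℝ) * s = _
  simp only [Nat.add_eq]; push_cast; ring
theorem clo_vl_f (s k : ℝ) : vl_ rO C false s k = C.bV * s := rfl
theorem clo_vl_t (s k : ℝ) : vl_ rO C true s k = C.bV * (s + k) := rfl
theorem clo_hzt_f (r su sv g c : ℝ) :
    hzt rO C false r su sv g c = r + 4 * C.x * (su * sv * (1 - g - c)) := by
  show r + ((Nat.mul 4 C.x : ℕ) : ℝ) * (su * sv * (((1 : ℕ) : ℝ) - g - c)) = _
  simp only [Nat.mul_eq]; push_cast; ring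
theorem clo_hzt_t (r su sv g c : ℝ) :
    hzt rO C true r su sv g c = r - 4 * C.x * (su * sv * (1 - g - c)) := by
  show r - ((Nat.mul 4 C.x : ℕ) : ℝ) * (su * sv * (((1 : ℕ) : ℝ) - g - c)) = _
  simp only [Nat.mul_eq]; push_cast; ring

/-- a vertex in real form, before the product term -/
theorem clo_vert (ob hf : Bool) (s f h p su l f' p' sv e1 e2 e3 g c : ℝ) :
    vert rO C ob hf s f h p su l f' p' sv e1 e2 e3 g c = hzt rO C ob
      (g * (gl rO C ob hf s (s + l - 1) + C.G1.r * (f * f') + C.G2.r * (p * p')) +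
        (1 - c * c) * (vl_ rO C hf s (s + l - 1) + (s * e1 + (f * e2 + h * e3)))) su sv g c := by
  unfold vert vertK H41FT.lt
  simp only [clo_sg]
  simp only [rO, Nat.cast_one]

/-- the kernels of a vertex -/
theorem clo_Vt {s l t w0 M0 m0 θ : ℝ} (hw : wmn s l = w0)
    (hM : max (1 / 2 - max s l) (min s l - 1 / 2) = M0)
    (hm : min (min s l) (min (1 - s) (1 - l)) = m0) (hθ : 2 / π * arccos t = θ) :
    10000 * Vt C.toCr s l t =
      -((10000 + 2 * C.k) * M0) -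
      C.k * (s + l - 1 + (2 * cos (π / 2 * s) ^ 2 - 1 + (2 * cos (π / 2 * l) ^ 2 - 1)) / 2 -
        (2 * cos (π / 2 * s) ^ 2 - 1) * (2 * cos (π / 2 * l) ^ 2 - 1)) +
      ang t * (C.bW * w0 + C.G1.r * (sf s * sf l) + C.G2.r * ((sf s + sh s) * (sf l + sh l))) +
      (1 - t ^ 2) * (C.bV * w0 + C.ta.r * (s * l) + C.af.r * (s * sf l + sf s * l) +
        C.ah.r * (s * sh l + sh s * l) + C.ff.r * (sf s * sf l) +
        C.fh.r * (sf s * sh l + sh s * sf l) + C.hh.r * (sh s * sh l)) -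
      t * (4 * (C.x - C.k) * (sin (π / 2 * s) * cos (π / 2 * s) *
        (sin (π / 2 * l) * cos (π / 2 * l)))) -
      (1 - θ) * ((10000 + 2 * C.k) * m0 - 4 * C.x * (sin (π / 2 * s) * cos (π / 2 * s) *
        (sin (π / 2 * l) * cos (π / 2 * l)))) := by
  have hb : bridge s l = w0 - 2 * s * l := by rw [← hw]; rfl
  have e1 : 2 / π * arccos |t| = ang t := rfl
  unfold Vt Ustar W V V1 VP
  rw [hw, hb, hM, hm, hθ, e1, sin_pi_mul, sin_pi_mul, cos_pi_mul, cos_pi_mul]
  simp only [Co.toCr]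
  ring

theorem clo_nofl {s l : ℝ} (hsl : s ≤ l) (h : s + l ≤ 1) :
    wmn s l = s ∧ max (1 / 2 - max s l) (min s l - 1 / 2) = 1 / 2 - l ∧
      min (min s l) (min (1 - s) (1 - l)) = s := by
  refine ⟨?_, ?_, ?_⟩
  · unfold wmn
    rw [min_eq_left hsl, max_eq_right (by linarith), add_zero]
  · rw [max_eq_right hsl, min_eq_left hsl, max_eq_left (by linarith)]
  · rw [min_eq_left hsl, min_eq_right (by linarith : 1 - l ≤ 1 - s), min_eq_left (by linarith)]

theorem clo_fl {s l : ℝ} (hsl : s ≤ l) (h : 1 ≤ s + l) :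
    wmn s l = s + (s + l - 1) ∧ max (1 / 2 - max s l) (min s l - 1 / 2) = s - 1 / 2 ∧
      min (min s l) (min (1 - s) (1 - l)) = 1 - l := by
  refine ⟨?_, ?_, ?_⟩
  · unfold wmn
    rw [min_eq_left hsl, max_eq_left (by linarith)]
  · rw [max_eq_right hsl, min_eq_left hsl, max_eq_right (by linarith)]
  · rw [min_eq_left hsl, min_eq_right (by linarith : 1 - l ≤ 1 - s), min_eq_right (by linarith)]

/-- the Gram part of a vertex -/
noncomputable def clo_g (C : Co) (s l t : ℝ) : ℝ :=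
  -(C.k * (s + l - 1 + (2 * cos (π / 2 * s) ^ 2 - 1 + (2 * cos (π / 2 * l) ^ 2 - 1)) / 2 -
        (2 * cos (π / 2 * s) ^ 2 - 1) * (2 * cos (π / 2 * l) ^ 2 - 1))) +
    4 * C.k * (cos (π / 2 * s) * cos (π / 2 * l) * (t * (sin (π / 2 * s) * sin (π / 2 * l))))

/-- the vertex function on true data -/
noncomputable def clo_v (C : Co) (ob hf : Bool) (s l t : ℝ) : ℝ :=
  vert rO C ob hf s (sf s) (sh s) (sf s + sh s) (sin (π / 2 * s) * cos (π / 2 * s)) l
    (sf l) (sf l + sh l) (sin (π / 2 * l) * cos (π / 2 * l))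
    (C.ta.r * l + C.af.r * sf l + C.ah.r * sh l)
    (C.af.r * l + C.ff.r * sf l + C.fh.r * sh l)
    (C.ah.r * l + C.fh.r * sf l + C.hh.r * sh l) (ang t) |t|

/-- acute vertex -/
theorem clo_acute (hG : Good C) {s l t : ℝ} {x : Bool} (hsl : s ≤ l) (ht : 0 ≤ t)
    (hx : Fl x (s + l)) : 10000 * Vt C.toCr s l t =
      clo_v C false x s l t + (C.bW + C.bV) * (l - s - 1 / 2) + clo_g C s l t := by
  have hθ : 2 / π * arccos t = ang t := by unfold ang; rw [abs_of_nonneg ht]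
  have hk := hG.e1
  unfold clo_v clo_g
  rw [clo_vert, clo_hzt_f, abs_of_nonneg ht]
  cases x with
  | false =>
    obtain ⟨h1, h2, h3⟩ := clo_nofl hsl hx
    rw [clo_Vt h1 h2 h3 hθ, clo_gl_ff, clo_vl_f, hk]
    ring
  | true =>
    obtain ⟨h1, h2, h3⟩ := clo_fl hsl hx
    rw [clo_Vt h1 h2 h3 hθ, clo_gl_ft, clo_vl_t, hk]
    ring

/-- obtuse vertex, short sides -/
theorem clo_obf (hG : Good C) {s l t : ℝ} (hsl : s ≤ l) (ht : t ≤ 0)
    (hx : s + l ≤ 1) : 10000 * Vt C.toCr s l t =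
      clo_v C true false s l t + (C.bW + C.bV) * (s + l - 1 / 2) + clo_g C s l t := by
  have hθ := arccos_neg_ang ht
  have hk := hG.e1
  unfold clo_v clo_g
  rw [clo_vert, clo_hzt_t, abs_of_nonpos ht]
  obtain ⟨h1, h2, h3⟩ := clo_nofl hsl hx
  rw [clo_Vt h1 h2 h3 hθ, clo_gl_tf, clo_vl_f, hk]
  ring

/-- obtuse vertex, long sides -/
theorem clo_obt (hG : Good C) {s l t : ℝ} (hsl : s ≤ l) (ht : t ≤ 0)
    (hx : 1 ≤ s + l) : 10000 * Vt C.toCr s l t =
      clo_v C true true s l t + (C.bW + C.bV) * (3 / 2 - s - l) + clo_g C s l t := by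
  have hθ := arccos_neg_ang ht
  have hk := hG.e1
  unfold clo_v clo_g
  rw [clo_vert, clo_hzt_t, abs_of_nonpos ht]
  obtain ⟨h1, h2, h3⟩ := clo_fl hsl hx
  rw [clo_Vt h1 h2 h3 hθ, clo_gl_tt, clo_vl_t, hk]
  ring

/-! ### symmetry -/

theorem wmn_comm (a b : ℝ) : wmn a b = wmn b a := by
  unfold wmn; rw [min_comm, add_comm a b]

theorem Vt_comm (X : Cr) (a b t : ℝ) : Vt X a b t = Vt X b a t := by
  have e1 : W X a b = W X b a := by unfold W; rw [wmn_comm]; ring
  have e2 : V X a b = V X b a := by unfold V; rw [bridge_comm]; ring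
  have e3 : V1 X.k X.x a b = V1 X.k X.x b a := by unfold V1; ring
  have e4 : VP X.k X.x a b = VP X.k X.x b a := by
    unfold VP; rw [min_comm a b, min_comm (1 - a) (1 - b)]; ring
  unfold Vt
  rw [Ustar_comm, e1, e2, e3, e4]

theorem F_rot (X : Cr) (σ a b c : ℝ) : F X σ a b c = F X σ b c a := by
  unfold F; ring

theorem F_swap (X : Cr) (σ a b c : ℝ) : F X σ a b c = F X σ b a c := by
  unfold F
  rw [Vt_comm X a b, Vt_comm X b c, Vt_comm X c a, dih_comm σ a b, dih_comm σ b c, dih_comm σ c a]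
  ring

/-! ### closed forms -/

/-- the Gram parts sum up to the Gram determinant -/
theorem clo_gram {σ : ℝ} (h0 : 0 < a) (ha : a ≤ 1) (hb0 : 0 < b) (hb : b ≤ 1) (hc0 : 0 < c)
    (hc : c ≤ 1) : clo_g C a b (dih σ a b c) + clo_g C b c (dih σ b c a) +
      clo_g C a c (dih σ c a b) =
      6 * C.k * gram3 σ a b c + 3 * C.k - 2 * C.k * (a + b + c) := by
  have m1 := dih_mul (c := c) σ h0 ha hb0 hb
  have m2 := dih_mul (c := a) σ hb0 hb hc0 hc
  have m3 := dih_mul (c := b) σ hc0 hc h0 ha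
  rw [mul_comm (sin (π / 2 * c))] at m3
  unfold clo_g
  rw [m1, m2, m3]
  unfold gram3
  ring

/-- `Tt` in terms of the vertices -/
theorem clo_Tt (pc : Pc) (σ a b c : ℝ) : Tt C pc σ a b c =
    linP rO C pc.ty pc.hz a b c + 6 * C.k * gram3 σ a b c +
      (clo_v C pc.ty.oz pc.hz a b (dih σ a b c) + (clo_v C pc.ty.oxy pc.hx b c (dih σ b c a) +
        clo_v C pc.ty.oxy pc.hy a c (dih σ c a b))) := by
  have hs : ∀ x : ℝ, sin (π / 2 * x) * sin (π / 2 * x) = sf x := fun x => by unfold sf; ring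
  have hh : ∀ x : ℝ, sin (π / 2 * x) * cos (π / 2 * x) *
      (((1 : ℕ) : ℝ) - ((2 : ℕ) : ℝ) * sf x) = sh x := fun x => by
    unfold sh sf; push_cast; ring
  unfold Tt FG tdat FG3 hF
  simp only [H41FT.lt, clo_lin3]
  simp only [rO, Nat.mul_eq, hs, hh]
  unfold clo_v
  push_cast
  simp only [rO]

theorem clo_lin_ac (z : Bool) (a b c : ℝ) :
    linP rO C .ac z a b c = (C.bW + C.bV) * (c - (3 * a + b)) := by
  show ((Nat.add C.bW C.bV : ℕ) : ℝ) * (c - (((3 : ℕ) : ℝ) * a + b)) = _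
  simp only [Nat.add_eq]; push_cast; ring
theorem clo_lin_obf (a b c : ℝ) :
    linP rO C .ob false a b c = (C.bW + C.bV) * (c - (a + b)) := by
  show ((Nat.add C.bW C.bV : ℕ) : ℝ) * (c - (a + b)) = _
  simp only [Nat.add_eq]; push_cast; ring
theorem clo_lin_obt (a b c : ℝ) :
    linP rO C .ob true a b c = (C.bW + C.bV) * (c + 2 - 3 * (a + b)) := by
  show ((Nat.add C.bW C.bV : ℕ) : ℝ) * (c + ((2 : ℕ) : ℝ) - ((3 : ℕ) : ℝ) * (a + b)) = _
  simp only [Nat.add_eq]; push_cast; ring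
theorem clo_lin_tm (z : Bool) (a b c : ℝ) :
    linP rO C .tm z a b c = (C.bW + C.bV) * (6 - 3 * (a + b + c)) := by
  show ((Nat.add C.bW C.bV : ℕ) : ℝ) * (((6 : ℕ) : ℝ) - ((3 : ℕ) : ℝ) * (a + b + c)) = _
  simp only [Nat.add_eq]; push_cast; ring

theorem closed_ac (hG : Good C) {x y z : Bool} (h0 : 0 < a) (hab : a ≤ b) (hbc : b ≤ c)
    (hc : c ≤ 1) (ht : 0 ≤ dih 1 a b c) (hx : Fl x (b + c)) (hy : Fl y (a + c))
    (hz : Fl z (a + b)) : 10000 * F C.toCr 1 a b c = Tt C ⟨.ac, x, y, z⟩ 1 a b c := by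
  have hb0 : 0 < b := by linarith
  have hb1 : b ≤ 1 := by linarith
  have hc0 : 0 < c := by linarith
  have e1 := clo_acute hG hab ht hz
  have e2 := clo_acute hG hbc (dih_x_nonneg h0 hab hbc hc) hx
  have e3 := clo_acute hG (hab.trans hbc) (dih_y_nonneg h0 hab hbc hc) hy
  have e4 := clo_gram (C := C) (σ := 1) h0 (hab.trans hb1) hb0 hb1 hc0 hc
  have hk := hG.e1
  rw [clo_Tt]
  unfold F
  rw [Vt_comm _ c a, clo_lin_ac]
  simp only [Ty.oz, Ty.oxy]
  linear_combination e1 + e2 + e3 + e4 + (3 / 2 - (a + b + c)) * hk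

theorem closed_ob (hG : Good C) {x y z : Bool} (h0 : 0 < a) (hab : a ≤ b) (hbc : b ≤ c)
    (hc : c ≤ 1) (ht : dih 1 a b c ≤ 0) (hx : Fl x (b + c)) (hy : Fl y (a + c))
    (hz : Fl z (a + b)) : 10000 * F C.toCr 1 a b c = Tt C ⟨.ob, x, y, z⟩ 1 a b c := by
  have hb0 : 0 < b := by linarith
  have hb1 : b ≤ 1 := by linarith
  have hc0 : 0 < c := by linarith
  have e2 := clo_acute hG hbc (dih_x_nonneg h0 hab hbc hc) hx
  have e3 := clo_acute hG (hab.trans hbc) (dih_y_nonneg h0 hab hbc hc) hy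
  have e4 := clo_gram (C := C) (σ := 1) h0 (hab.trans hb1) hb0 hb1 hc0 hc
  have hk := hG.e1
  rw [clo_Tt]
  unfold F
  rw [Vt_comm _ c a]
  simp only [Ty.oz, Ty.oxy]
  cases z with
  | false =>
    have e1 := clo_obf hG hab ht hz
    rw [clo_lin_obf]
    linear_combination e1 + e2 + e3 + e4 + (3 / 2 - (a + b + c)) * hk
  | true =>
    have e1 := clo_obt hG hab ht hz
    rw [clo_lin_obt]
    linear_combination e1 + e2 + e3 + e4 + (3 / 2 - (a + b + c)) * hk

theorem closed_tm (hG : Good C) (h0 : 0 < a) (hab : a ≤ b) (hbc : b ≤ c)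
    (hc : c ≤ 1) (hs : 2 ≤ a + b + c) :
    10000 * F C.toCr (-1) a b c = Tt C pM (-1) a b c := by
  have hb0 : 0 < b := by linarith
  have hb1 : b ≤ 1 := by linarith
  have hc0 : 0 < c := by linarith
  have ha1 : a ≤ 1 := hab.trans hb1
  have e1 := clo_obt (C := C) hG hab (dih_neg (c := c) h0 ha1 hb0 hb1 hc0.le hc) (by linarith)
  have e2 := clo_obt (C := C) hG hbc (dih_neg (c := a) hb0 hb1 hc0 hc h0.le ha1) (by linarith)
  have e3 := clo_obt (C := C) hG (hab.trans hbc) (dih_neg (c := b) hc0 hc h0 ha1 hb0.le hb1)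
    (by linarith)
  have e4 := clo_gram (C := C) (σ := -1) h0 ha1 hb0 hb1 hc0 hc
  have hk := hG.e1
  rw [clo_Tt]
  unfold F
  rw [Vt_comm _ c a]
  simp only [pM, Ty.oz, Ty.oxy]
  rw [clo_lin_tm]
  linear_combination e1 + e2 + e3 + e4 + (3 / 2 - (a + b + c)) * hk

/-! ### `c = 1` -/

theorem clo_side_one (X : Cr) {b : ℝ} (hb0 : 0 ≤ b) (hb1 : b ≤ 1) (t : ℝ) :
    Vt X b 1 (-t) = Vt X b 1 t := by
  have e1 : V1 X.k X.x b 1 = 0 := by unfold V1; rw [mul_one, sin_pi]; ring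
  have e2 : VP X.k X.x b 1 = 0 := by
    unfold VP
    rw [mul_one, sin_pi, min_eq_left hb1, sub_self, min_eq_right (by linarith : (0 : ℝ) ≤ 1 - b),
      min_eq_right hb0]
    ring
  unfold Vt
  rw [e1, e2, abs_neg]
  ring

/-- `c = 1`: the two signs agree -/
theorem F_one (X : Cr) (ha0 : 0 ≤ a) (ha1 : a ≤ 1) (hb0 : 0 ≤ b) (hb1 : b ≤ 1) :
    F X 1 a b 1 = F X (-1) a b 1 := by
  have hc : cos (π / 2 * 1) = 0 := by rw [mul_one, cos_pi_div_two]
  have e1 : dih (-1) a b 1 = dih 1 a b 1 := by unfold dih; rw [hc]; ring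
  have e2 : dih (-1) b 1 a = -dih 1 b 1 a := by unfold dih; rw [hc]; ring
  have e3 : dih (-1) 1 a b = -dih 1 1 a b := by unfold dih; rw [hc]; ring
  unfold F
  rw [e1, e2, e3, clo_side_one X hb0 hb1, Vt_comm X 1 a, Vt_comm X 1 a, clo_side_one X ha0 ha1]

/-! ### `a = 0`, sorted sides -/

theorem clo_Vt_zero (X : Cr) {b : ℝ} (hb : b ∈ Set.Icc (0 : ℝ) 1) (t : ℝ) :
    Vt X 0 b t = -((1 + 2 * X.k) * (1 / 2 - b) + X.k * (b - 1 / 2 - cos (π * b) / 2)) := by
  have e0 : wmn 0 b = 0 := by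
    unfold wmn; rw [min_eq_left hb.1, max_eq_right (by linarith [hb.2]), add_zero]
  have e1 : sf 0 = 0 := by unfold sf; simp
  have e2 : sh 0 = 0 := by unfold sh; simp
  have e3 : W X 0 b = 0 := by unfold W; rw [e0, e1, e2]; ring
  have e4 : V X 0 b = 0 := by unfold V; rw [bridge_zero_left hb, e1, e2]; ring
  have e5 : V1 X.k X.x 0 b = 0 := by unfold V1; simp
  have e6 : VP X.k X.x 0 b = 0 := by
    unfold VP
    rw [min_eq_left hb.1, min_eq_left (le_min (by norm_num) (by linarith [hb.2]))]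
    simp
  unfold Vt
  rw [e3, e4, e5, e6]
  unfold Ustar
  rw [min_eq_left hb.1, max_eq_right hb.1, max_eq_left (by linarith [hb.2]), mul_zero, cos_zero]
  ring

theorem clo_Vt_diag (X : Cr) {b t : ℝ} (ht : t = 1 ∨ (t = -1 ∧ b = 1)) :
    Vt X b b t = -Ustar X.k b b - t * (V1 X.k X.x b b + VP X.k X.x b b) := by
  unfold Vt
  rcases ht with rfl | ⟨rfl, rfl⟩
  · rw [abs_one, arccos_one]; ring
  · rw [abs_neg, abs_one, arccos_one, arccos_neg_one]
    have hpi := Real.pi_ne_zero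
    field_simp
    ring

/-- The case `a = 0` of the pointwise inequality (an equality). -/
theorem clo_F_zero (X : Cr) {b c σ : ℝ} (hb : b ∈ Set.Icc (0 : ℝ) 1) (hc : c ∈ Set.Icc (0 : ℝ) 1)
    (hσ : σ = 1 ∨ σ = -1) (hg : 0 ≤ gram3 σ 0 b c) : 0 ≤ F X σ 0 b c := by
  have hs2 : σ * σ = 1 := by rcases hσ with rfl | rfl <;> norm_num
  have hsq : (cos (π / 2 * b) - σ * cos (π / 2 * c)) ^ 2 ≤ 0 := by
    unfold gram3 at hg
    rw [mul_zero, cos_zero] at hg
    nlinarith [hg, hs2, congrArg (· * cos (π / 2 * c) ^ 2) hs2]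
  have hB : cos (π / 2 * b) = σ * cos (π / 2 * c) := by
    have : (cos (π / 2 * b) - σ * cos (π / 2 * c)) ^ 2 = 0 :=
      le_antisymm hsq (sq_nonneg _)
    have := pow_eq_zero_iff (two_ne_zero) |>.mp this
    linarith
  rcases hσ with rfl | rfl
  · have hbc : b = c := cos_half_inj hb hc (by rw [hB, one_mul])
    subst hbc
    unfold F
    rw [clo_Vt_zero X hb, Vt_comm X b 0, clo_Vt_zero X hb]
    rcases hb.1.eq_or_lt with h0 | h0
    · subst h0
      rw [clo_Vt_zero X (by simp), mul_zero, cos_zero]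
      apply le_of_eq
      ring
    · have hd : dih 1 b b 0 = 1 := by
        unfold dih
        have hs := (sin_half_pos h0 hb.2).ne'
        rw [mul_zero, cos_zero, div_eq_one_iff_eq (mul_ne_zero hs hs)]
        nlinarith [sin_sq_add_cos_sq (π / 2 * b)]
      rw [hd, clo_Vt_diag X (Or.inl rfl)]
      unfold Ustar V1 VP
      have h1 := sin_sq_add_cos_sq (π * b)
      have h2 : max (1 / 2 - max b b) (min b b - 1 / 2) + min (min b b) (min (1 - b) (1 - b))
          = 1 / 2 := by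
        rw [max_self, min_self, min_self]
        rcases le_total b (1 / 2) with h | h
        · rw [max_eq_left (by linarith), min_eq_left (by linarith)]; ring
        · rw [max_eq_right (by linarith), min_eq_right (by linarith)]; ring
      apply le_of_eq
      linear_combination (1 + 2 * X.k) * h2 - X.k * h1
  · have hB0 := cos_half_nonneg hb
    have hC0 := cos_half_nonneg hc
    have e1 : cos (π / 2 * 1) = 0 := by rw [mul_one, cos_pi_div_two]
    have hb1 : b = 1 := cos_half_inj hb (by simp) (by rw [e1]; linarith)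
    have hc1 : c = 1 := cos_half_inj hc (by simp) (by rw [e1]; linarith)
    subst hb1
    subst hc1
    unfold F
    have hd : dih (-1) 1 1 0 = -1 := by
      unfold dih
      rw [mul_zero, cos_zero, mul_one, mul_one, cos_pi_div_two, sin_pi_div_two]
      norm_num
    rw [clo_Vt_zero X hb, Vt_comm X 1 0, clo_Vt_zero X hb, hd, clo_Vt_diag X (Or.inr ⟨rfl, rfl⟩)]
    unfold Ustar V1 VP
    rw [mul_one, cos_pi, sin_pi, max_self, min_self, max_eq_right (by norm_num)]
    apply le_of_eq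
    norm_num
    ring

theorem pw_of_ranges (X : Cr)
    (h1 : ∀ a b c : ℝ, 0 < a → a ≤ b → b ≤ c → c ≤ 1 → c ≤ a + b → 0 ≤ F X 1 a b c)
    (h2 : ∀ a b c : ℝ, 0 < a → a ≤ b → b ≤ c → c ≤ 1 → 2 ≤ a + b + c → 0 ≤ F X (-1) a b c) :
    PW X := by
  -- the sorted case including `a = 0`
  have key : ∀ a ∈ Set.Icc (0 : ℝ) 1, ∀ b ∈ Set.Icc (0 : ℝ) 1, ∀ c ∈ Set.Icc (0 : ℝ) 1,
      a ≤ b → b ≤ c → ∀ σ : ℝ, (σ = 1 ∨ σ = -1) → 0 ≤ gram3 σ a b c → 0 ≤ F X σ a b c := by
    intro a ha b hb c hc hab hbc σ hσ hg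
    rcases ha.1.eq_or_lt with h0 | h0
    · subst h0; exact clo_F_zero X hb hc hσ hg
    · rcases hσ with rfl | rfl
      · exact h1 a b c h0 hab hbc hc.2 ((gram3_one_nonneg_iff h0 hab hbc hc.2).mp hg)
      · exact h2 a b c h0 hab hbc hc.2 ((gram3_neg_nonneg_iff h0 hab hbc hc.2).mp hg)
  intro a ha b hb c hc σ hσ hg
  have g1 : gram3 σ a c b = gram3 σ a b c := by unfold gram3; ring
  have g2 : gram3 σ b a c = gram3 σ a b c := by unfold gram3; ring
  have g3 : gram3 σ b c a = gram3 σ a b c := by unfold gram3; ring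
  have g4 : gram3 σ c a b = gram3 σ a b c := by unfold gram3; ring
  have g5 : gram3 σ c b a = gram3 σ a b c := by unfold gram3; ring
  have s1 : F X σ a b c = F X σ a c b := (F_swap X σ a b c).trans (F_rot X σ b a c)
  have s2 : F X σ a b c = F X σ b a c := F_swap X σ a b c
  have s3 : F X σ a b c = F X σ b c a := F_rot X σ a b c
  have s4 : F X σ a b c = F X σ c a b := (F_rot X σ a b c).trans (F_rot X σ b c a)
  have s5 : F X σ a b c = F X σ c b a := (F_rot X σ a b c).trans (F_swap X σ b c a)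
  rcases le_total a b with h1 | h1
  · rcases le_total b c with h2 | h2
    · exact key a ha b hb c hc h1 h2 σ hσ hg
    · rcases le_total a c with h3 | h3
      · rw [s1]; exact key a ha c hc b hb h3 h2 σ hσ (by rw [g1]; exact hg)
      · rw [s4]; exact key c hc a ha b hb h3 h1 σ hσ (by rw [g4]; exact hg)
  · rcases le_total a c with h2 | h2
    · rw [s2]; exact key b hb a ha c hc h1 h2 σ hσ (by rw [g2]; exact hg)
    · rcases le_total b c with h3 | h3
      · rw [s3]; exact key b hb c hc a ha h3 h2 σ hσ (by rw [g3]; exact hg)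
      · rw [s5]; exact key c hc b hb a ha h3 h1 σ hσ (by rw [g5]; exact hg)

end FX
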