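import Pool.Agent.H11.FX.Bs

set_option autoImplicit false

/-!
# Comparison of the pieces: dropping flags (FE-5, first part)
-/

namespace FX

open H41FT H45FT Real Function

variable {C : Co} {a b c : ℝ}

/-! ### auxiliary lemmas -/

theorem cmp1_half {t : ℝ} (h : 2 * t ^ 2 ≤ 1) : 1 / 2 ≤ ang t := by
  have hp := Real.pi_pos
  have h2 : (0 : ℝ) < √2 := by positivity
  have h22 : √2 * √2 = (2 : ℝ) := Real.mul_self_sqrt (by norm_num)
  have h1 : |t| ≤ √2 / 2 := by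
    apply abs_le_of_sq_le_sq _ (by positivity)
    have : (√2 / 2) ^ 2 = (1 : ℝ) / 2 := by
      rw [div_pow, Real.sq_sqrt (by norm_num)]; norm_num
    rw [this]; linarith
  have h3 := arccos_le_arccos h1
  rw [← cos_pi_div_four, arccos_cos (by positivity) (by linarith)] at h3
  unfold ang
  calc (1 : ℝ) / 2 = 2 / π * (π / 4) := by field_simp; norm_num
    _ ≤ 2 / π * arccos |t| := mul_le_mul_of_nonneg_left h3 (by positivity)

theorem cmp1_abs {t : ℝ} (h : 1 / 2 ≤ ang t) : |t| ≤ 1 := by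
  by_contra hc
  push Not at hc
  unfold ang at h
  rw [arccos_of_one_le hc.le, mul_zero] at h
  norm_num at h

theorem cmp1_sq {t : ℝ} (h : 1 / 2 ≤ ang t) : ang t ≤ 1 - |t| * |t| := by
  have hp := Real.pi_pos
  have h1 := cmp1_abs h
  have h2 := cos_ang h1
  have h3 := ang_le_one t
  have h4 : 2 / π * (π * ang t - π / 2) ≤ sin (π * ang t - π / 2) :=
    mul_le_sin (by nlinarith) (by nlinarith)
  have h5 : sin (π * ang t - π / 2) = 1 - 2 * (|t| * |t|) := by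
    rw [sin_sub_pi_div_two, ← h2, show π * ang t = 2 * (π / 2 * ang t) by ring, cos_two_mul]
    ring
  have h6 : 2 / π * (π * ang t - π / 2) = 2 * ang t - 1 := by field_simp
  rw [h5, h6] at h4
  linarith

theorem cmp1_alg {u v : ℝ} (hv : 0 ≤ v) (huv : v ≤ u) (hu : u ≤ 1) :
    2 * v ^ 2 * (1 - u) ≤ (1 + u) * (1 - v ^ 2) := by
  have h1 : v ^ 2 ≤ 1 := by nlinarith
  have h2 : v ^ 2 * (1 - u) ≤ v ^ 2 * (1 - v) := mul_le_mul_of_nonneg_left (by linarith) (sq_nonneg v)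
  have h3 : (1 + v) * (1 - v ^ 2) ≤ (1 + u) * (1 - v ^ 2) :=
    mul_le_mul_of_nonneg_right (by linarith) (by linarith)
  have h4 : 0 ≤ (1 - v) * (1 + 2 * v - v ^ 2) := mul_nonneg (by linarith) (by nlinarith)
  nlinarith

theorem cmp1_w (h0 : 0 < a) (ha1 : a ≤ 1) (hb0 : 0 < b) (hb1 : b ≤ 1) (ht : 0 ≤ dih 1 a b c) :
    cos (π / 2 * a) * cos (π / 2 * b) ≤ cos (π / 2 * c) := by
  have h1 := mul_pos (sn_pos h0 ha1) (sn_pos hb0 hb1)
  unfold dih at ht
  rw [le_div_iff₀ h1] at ht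
  linarith

/-- acute: the angles at `y` and `z` are at least one half -/
theorem half_le_y (h0 : 0 < a) (hab : a ≤ b) (hbc : b ≤ c) (hc : c ≤ 1) (hs : c ≤ a + b)
    (ht : 0 ≤ dih 1 a b c) : 1 / 2 ≤ ang (dih 1 c a b) := by
  have ha1 : a ≤ 1 := by linarith
  have hb0 : 0 < b := by linarith
  have hb1 : b ≤ 1 := by linarith
  have hw := cmp1_w h0 ha1 hb0 hb1 ht
  have h1 := sn_pos h0 ha1
  have h2 := sn_pos (x := c) (by linarith) hc
  have hv0 := cs_nonneg hb0.le hb1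
  have hvu := cs_anti h0.le hab hb1
  have hwv := cs_anti hb0.le hbc hc
  have hu1 := cos_le_one (π / 2 * a)
  have e1 := sin_sq_add_cos_sq (π / 2 * a)
  have e2 := sin_sq_add_cos_sq (π / 2 * c)
  apply cmp1_half
  unfold dih
  rw [div_pow, mul_div_assoc', div_le_one (by positivity), mul_pow]
  have e3 : sin (π / 2 * a) ^ 2 = 1 - cos (π / 2 * a) ^ 2 := by linarith
  have e4 : sin (π / 2 * c) ^ 2 = 1 - cos (π / 2 * c) ^ 2 := by linarith
  rw [e3, e4]
  generalize cos (π / 2 * a) = u at *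
  generalize cos (π / 2 * b) = v at *
  generalize cos (π / 2 * c) = w at *
  have k1 := cmp1_alg hv0 hvu hu1
  have g2 : 0 ≤ (1 - v ^ 2) * (1 - u ^ 2) - 2 * (v * (1 - u)) ^ 2 := by
    have : (1 - v ^ 2) * (1 - u ^ 2) - 2 * (v * (1 - u)) ^ 2 =
      (1 - u) * ((1 + u) * (1 - v ^ 2) - 2 * v ^ 2 * (1 - u)) := by ring
    rw [this]
    exact mul_nonneg (by linarith) (by linarith)
  have g1 : 0 ≤ (1 - (u * v) ^ 2) * (1 - u ^ 2) - 2 * (v - u * v * u) ^ 2 := by
    have : (1 - (u * v) ^ 2) * (1 - u ^ 2) - 2 * (v - u * v * u) ^ 2 =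
      (1 - u ^ 2) * ((1 - v ^ 2) ^ 2 + v ^ 2 * (u ^ 2 - v ^ 2)) := by ring
    rw [this]
    have k2 : u ^ 2 ≤ 1 := by nlinarith
    have k3 : v ^ 2 ≤ u ^ 2 := by nlinarith
    have k4 := mul_nonneg (sq_nonneg v) (sub_nonneg.2 k3)
    exact mul_nonneg (by linarith) (by nlinarith [sq_nonneg (1 - v ^ 2)])
  rcases (show 0 ≤ v - u * v by nlinarith).eq_or_lt with h | h
  · have hwe : w = v := le_antisymm hwv (by linarith)
    rw [hwe]
    nlinarith
  · have key : (v - u * v) * ((1 - w ^ 2) * (1 - u ^ 2) - 2 * (v - w * u) ^ 2) =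
        (v - w) * ((1 - (u * v) ^ 2) * (1 - u ^ 2) - 2 * (v - u * v * u) ^ 2) +
        (w - u * v) * ((1 - v ^ 2) * (1 - u ^ 2) - 2 * (v * (1 - u)) ^ 2) +
        (1 + u ^ 2) * ((w - u * v) * (v - w) * (v - u * v)) := by ring
    have k5 : 0 ≤ (v - u * v) * ((1 - w ^ 2) * (1 - u ^ 2) - 2 * (v - w * u) ^ 2) := by
      rw [key]
      have j1 := mul_nonneg (sub_nonneg.2 hwv) g1
      have j2 := mul_nonneg (sub_nonneg.2 hw) g2
      have j3 := mul_nonneg (show (0 : ℝ) ≤ 1 + u ^ 2 by positivity)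
        (mul_nonneg (mul_nonneg (sub_nonneg.2 hw) (sub_nonneg.2 hwv)) h.le)
      linarith
    have k6 := nonneg_of_mul_nonneg_right k5 h
    linarith

theorem half_le_z (h0 : 0 < a) (hab : a ≤ b) (hbc : b ≤ c) (hc : c ≤ 1) (hs : c ≤ a + b)
    (ht : 0 ≤ dih 1 a b c) : 1 / 2 ≤ ang (dih 1 a b c) := by
  have ha1 : a ≤ 1 := by linarith
  have hb0 : 0 < b := by linarith
  have hb1 : b ≤ 1 := by linarith
  have hw := cmp1_w h0 ha1 hb0 hb1 ht
  have h1 := sn_pos h0 ha1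
  have h2 := sn_pos hb0 hb1
  have hv0 := cs_nonneg hb0.le hb1
  have hvu := cs_anti h0.le hab hb1
  have hwv := cs_anti hb0.le hbc hc
  have hu1 := cos_le_one (π / 2 * a)
  have e1 := sin_sq_add_cos_sq (π / 2 * a)
  have e2 := sin_sq_add_cos_sq (π / 2 * b)
  apply cmp1_half
  unfold dih
  rw [div_pow, mul_div_assoc', div_le_one (by positivity), mul_pow]
  have e3 : sin (π / 2 * a) ^ 2 = 1 - cos (π / 2 * a) ^ 2 := by linarith
  have e4 : sin (π / 2 * b) ^ 2 = 1 - cos (π / 2 * b) ^ 2 := by linarith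
  rw [e3, e4, one_mul]
  generalize cos (π / 2 * a) = u at *
  generalize cos (π / 2 * b) = v at *
  generalize cos (π / 2 * c) = w at *
  have k1 := cmp1_alg hv0 hvu hu1
  have k2 : (w - u * v) ^ 2 ≤ (v * (1 - u)) ^ 2 :=
    pow_le_pow_left₀ (by linarith) (by linarith) 2
  have g2 : 0 ≤ (1 - u ^ 2) * (1 - v ^ 2) - 2 * (v * (1 - u)) ^ 2 := by
    have : (1 - u ^ 2) * (1 - v ^ 2) - 2 * (v * (1 - u)) ^ 2 =
      (1 - u) * ((1 + u) * (1 - v ^ 2) - 2 * v ^ 2 * (1 - u)) := by ring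
    rw [this]
    exact mul_nonneg (by linarith) (by linarith)
  linarith

/-! ### dropping a flag -/

theorem cmp1_sg (c : Sg) (x y : ℝ) : sg rO c x y = x + c.r * y := by
  cases c
  · show x = x + 0 * y
    ring
  · rfl
  · show x - _ * y = x + -_ * y
    ring

/-- a flag of an acute vertex -/
theorem cmp1_vert (C : Co) (s f h p su l f' p' sv e1 e2 e3 g k : ℝ) {hf : Bool} (hfl : Fl hf (s + l))
    (hg : g ≤ 1 - k * k) :
    vert rO C false false s f h p su l f' p' sv e1 e2 e3 g k ≤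
      vert rO C false hf s f h p su l f' p' sv e1 e2 e3 g k := by
  cases hf
  · exact le_rfl
  have hfl' : 1 ≤ s + l := hfl
  have h1 : 0 ≤ (C.bV : ℝ) * ((s + l - 1) * (1 - k * k - g)) :=
    mul_nonneg (Nat.cast_nonneg _) (mul_nonneg (by linarith) (by linarith))
  simp only [vert, vertK, hzt, gl, vl_, H41FT.lt, cmp1_sg]
  simp only [rO, Nat.cast_one]
  linarith

/-- acute: dropping the flags at `y` and `z` decreases -/
theorem cmp_ac (hG : Good C) {x y z : Bool} (h0 : 0 < a) (hab : a ≤ b) (hbc : b ≤ c)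
    (hc : c ≤ 1) (hs : c ≤ a + b) (ht : 0 ≤ dih 1 a b c) (hx : Fl x (b + c)) (hy : Fl y (a + c))
    (hz : Fl z (a + b)) : Tt C ⟨.ac, x, false, false⟩ 1 a b c ≤ Tt C ⟨.ac, x, y, z⟩ 1 a b c := by
  have k1 := cmp1_sq (half_le_y h0 hab hbc hc hs ht)
  have k2 := cmp1_sq (half_le_z h0 hab hbc hc hs ht)
  unfold Tt FG FG3
  simp only [H41FT.lt]
  show _ + (_ + (_ + _)) ≤ _ + (_ + (_ + _))
  gcongr ?_ + (?_ + (?_ + ?_))
  · exact le_of_eq rfl
  · exact cmp1_vert C _ _ _ _ _ _ _ _ _ _ _ _ _ _ hz k2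
  · exact le_rfl
  · exact cmp1_vert C _ _ _ _ _ _ _ _ _ _ _ _ _ _ hy k1

/-- obtuse: dropping the flag at `y` decreases if the angle at `y` is at least one half -/
theorem cmp_ob (hG : Good C) (hy : 1 ≤ a + c) (h0 : 0 < a) (hab : a ≤ b) (hbc : b ≤ c)
    (hc : c ≤ 1) (hs : c ≤ a + b) (ht : dih 1 a b c ≤ 0) (hY : 1 / 2 ≤ ang (dih 1 c a b)) :
    Tt C pO100 1 a b c ≤ Tt C pO110 1 a b c := by
  have k1 := cmp1_sq hY
  unfold Tt FG FG3
  simp only [H41FT.lt]
  show _ + (_ + (_ + _)) ≤ _ + (_ + (_ + _))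
  gcongr ?_ + (?_ + (?_ + ?_))
  · exact le_of_eq rfl
  · exact le_of_eq rfl
  · exact le_rfl
  · exact cmp1_vert C _ _ _ _ _ _ _ _ _ _ _ _ _ _ (hf := true) hy k1

/-- obtuse, nearly right, `a` small, `b` not small: the angle at `y` is at least one half -/
theorem half_le_y_ob (h0 : 0 < a) (ha : a ≤ 11/100) (hb : 3/4 ≤ b) (hbc : b ≤ c) (hc : c ≤ 1)
    (hs : c ≤ a + b) (ht : dih 1 a b c ≤ 0) (hg : 93/100 ≤ ang (dih 1 a b c)) :
    1 / 2 ≤ ang (dih 1 c a b) := by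
  have hp := Real.pi_pos
  have hp2 := Real.pi_lt_d2
  have ha1 : a ≤ 1 := by linarith
  have hb0 : 0 < b := by linarith
  have hb1 : b ≤ 1 := by linarith
  have h1 := sn_pos h0 ha1
  have h2 := sn_pos hb0 hb1
  have h3 := sn_pos (x := c) (by linarith) hc
  have hu0 := cs_nonneg h0.le ha1
  have hu1 := cos_le_one (π / 2 * a)
  have hv0 := cs_nonneg hb0.le hb1
  -- κ
  have hk1 : |dih 1 a b c| ≤ 1 := cmp1_abs (by linarith)
  have hk : |dih 1 a b c| ≤ 1 / 5 := by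
    rw [← cos_ang hk1]
    have j1 := cs_anti (x := 93 / 100) (by norm_num) hg (ang_le_one _)
    have j2 : cos (π / 2 * (93 / 100)) = sin (π / 2 * (7 / 100)) := by
      rw [← cos_pi_div_two_sub]; congr 1; ring
    have j3 : sin (π / 2 * (7 / 100)) ≤ π / 2 * (7 / 100) := sin_le (by positivity)
    rw [j2] at j1
    linarith
  have hka : |dih 1 a b c| = -dih 1 a b c := abs_of_nonpos ht
  have hw : cos (π / 2 * c) = cos (π / 2 * a) * cos (π / 2 * b) -
      sin (π / 2 * a) * sin (π / 2 * b) * |dih 1 a b c| := by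
    rw [hka]
    have hd : dih 1 a b c * (sin (π / 2 * a) * sin (π / 2 * b)) =
        1 * cos (π / 2 * c) - cos (π / 2 * a) * cos (π / 2 * b) :=
      div_mul_cancel₀ _ (mul_pos h1 h2).ne'
    linear_combination -hd
  have hsa : sin (π / 2 * a) ≤ 1 / 5 := by
    have j3 : sin (π / 2 * a) ≤ π / 2 * a := sin_le (by positivity)
    nlinarith
  have hvb : cos (π / 2 * b) ≤ 1 / 2 := by
    rw [← cos_pi_div_three]
    exact cos_le_cos_of_nonneg_of_le_pi (by positivity) (by nlinarith) (by nlinarith)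
  have e1 := sin_sq_add_cos_sq (π / 2 * a)
  have e2 := sin_sq_add_cos_sq (π / 2 * b)
  have e3 := sin_sq_add_cos_sq (π / 2 * c)
  have hk0 := abs_nonneg (dih 1 a b c)
  apply cmp1_half
  unfold dih
  rw [div_pow, mul_div_assoc', div_le_one (by positivity), mul_pow]
  generalize |dih 1 a b c| = κ at *
  generalize cos (π / 2 * a) = u at *
  generalize cos (π / 2 * b) = v at *
  generalize cos (π / 2 * c) = w at *
  generalize sin (π / 2 * a) = sa at *
  generalize sin (π / 2 * b) = sb at *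
  generalize sin (π / 2 * c) = sc at *
  have hsb : 3 / 4 ≤ sb ^ 2 := by nlinarith
  have hsb' : 4 / 5 ≤ sb := by nlinarith
  have q1 : 1 * v - w * u = sa * (sa * v + u * sb * κ) := by
    rw [hw]; linear_combination (-v) * e1
  have q2 : sc ^ 2 = (sa * v + u * sb * κ) ^ 2 + sb ^ 2 * (1 - κ ^ 2) := by
    have : sc ^ 2 = 1 - w ^ 2 := by linarith
    rw [this, hw]
    linear_combination (-(v ^ 2) - sb ^ 2 * κ ^ 2) * e1 + (-1 : ℝ) * e2
  have q3 : (sa * v + u * sb * κ) ^ 2 ≤ sb ^ 2 * (1 - κ ^ 2) := by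
    have r1 : sa * v ≤ 1 / 10 := by nlinarith
    have r2 : u * sb * κ ≤ sb * (1 / 5) := by
      have : u * sb ≤ sb := by nlinarith
      have r3 := mul_le_mul this hk hk0 h2.le
      linarith
    have r4 : 0 ≤ sa * v + u * sb * κ := by positivity
    have r5 : sa * v + u * sb * κ ≤ sb * (2 / 5) := by linarith
    have r6 : (sa * v + u * sb * κ) ^ 2 ≤ (sb * (2 / 5)) ^ 2 := pow_le_pow_left₀ r4 r5 2
    have r7 : κ ^ 2 ≤ 1 / 25 := by nlinarith
    have r8 : sb ^ 2 * (4 / 25) ≤ sb ^ 2 * (1 - κ ^ 2) :=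
      mul_le_mul_of_nonneg_left (by linarith) (sq_nonneg sb)
    nlinarith
  rw [q1, q2]
  have : 2 * (sa * (sa * v + u * sb * κ)) ^ 2 =
    sa ^ 2 * ((sa * v + u * sb * κ) ^ 2 + (sa * v + u * sb * κ) ^ 2) := by ring
  rw [this, mul_comm (_ + _) (sa ^ 2)]
  exact mul_le_mul_of_nonneg_left (by linarith) (sq_nonneg sa)

end FX
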