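import Pool.Agent.H11.FX.Bs

set_option autoImplicit false

/-!
# FX, row 5b: elementary inequalities for the guards, values of tangents
-/

namespace FX

open H41FT H45FT Real Function

variable {a b c : ℝ}

theorem c2_tan_flip {x : ℝ} (hx0 : 0 ≤ x) (hx1 : x ≤ 1) :
    tan (π / 4 * (1 - x)) * (1 + tan (π / 4 * x)) = 1 - tan (π / 4 * x) := by
  have hp := Real.pi_pos
  have hc1 : 0 < cos (π / 4 * x) := cos_pos_of_mem_Ioo ⟨by nlinarith, by nlinarith⟩
  have hs1 : 0 ≤ sin (π / 4 * x) := sin_nonneg_of_nonneg_of_le_pi (by positivity) (by nlinarith)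
  have e1 : sin (π / 4 * (1 - x)) = √2 / 2 * (cos (π / 4 * x) - sin (π / 4 * x)) := by
    rw [mul_sub, mul_one, sin_sub, sin_pi_div_four, cos_pi_div_four]; ring
  have e2 : cos (π / 4 * (1 - x)) = √2 / 2 * (cos (π / 4 * x) + sin (π / 4 * x)) := by
    rw [mul_sub, mul_one, cos_sub, sin_pi_div_four, cos_pi_div_four]; ring
  have h2 : (0 : ℝ) < √2 := by positivity
  have h3 : 0 < cos (π / 4 * x) + sin (π / 4 * x) := by linarith
  rw [tan_eq_sin_div_cos, tan_eq_sin_div_cos (π / 4 * x), e1, e2]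
  generalize cos (π / 4 * x) = C at *
  generalize sin (π / 4 * x) = S at *
  field_simp

theorem c2_le_tan {x : ℝ} (h0 : 0 ≤ x) (h1 : x ≤ 1) : π / 4 * x ≤ tan (π / 4 * x) :=
  le_tan (by have := Real.pi_pos; positivity) (by nlinarith [Real.pi_pos])

theorem c2_tan_half : tan (π / 4 * (1 / 2)) ^ 2 + 2 * tan (π / 4 * (1 / 2)) = 1 := by
  have h := c2_tan_flip (x := 1 / 2) (by norm_num) (by norm_num)
  rw [show (1 : ℝ) - 1 / 2 = 1 / 2 by norm_num] at h
  linarith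

/-- numerical values of tangents -/
theorem tan_b (hb0 : 0 ≤ b) (hb : b ≤ 1/2) : tan (π / 4 * b) ≤ 4143/10000 := by
  refine (tan_q_mono hb0 hb (by norm_num)).trans ?_
  have h := c2_tan_half
  have h0 := tan_q_nonneg (x := 1 / 2) (by norm_num) (by norm_num)
  by_contra hcon
  push Not at hcon
  nlinarith

theorem tan_a94 (ha0 : 0 ≤ a) (ha : a ≤ 94/100) : tan (π / 4 * a) ≤ 911/1000 := by
  refine (tan_q_mono ha0 ha (by norm_num)).trans ?_
  have h := tan_quarter (x := 94 / 100) (X := 471 / 10000) (by norm_num) (by norm_num) (by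
    have := Real.pi_gt_d4; nlinarith) (by norm_num)
  linarith

theorem b_ge_of_tan (hb0 : 0 ≤ b) (hb : b ≤ 1) (h : 8544/10000 < tan (π / 4 * b)) :
    9/10 ≤ b := by
  by_contra hcon
  push Not at hcon
  have h1 := tan_quarter (x := b) (X := 785375/10000000) hb0 hb (by
    have := Real.pi_gt_d4; nlinarith) (by norm_num)
  nlinarith

theorem tan_ge (hb : 1/3 ≤ b) (hb1 : b ≤ 1) : 26/100 ≤ tan (π / 4 * b) := by
  have h := c2_le_tan (x := b) (by linarith) hb1
  have := Real.pi_gt_d4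
  nlinarith

theorem tan_ge2 (hb : 1/2 ≤ b) (hb1 : b ≤ 1) : 41/100 ≤ tan (π / 4 * b) := by
  refine le_trans ?_ (tan_q_mono (x := 1 / 2) (by norm_num) hb hb1)
  have h := c2_tan_half
  have h0 := tan_q_nonneg (x := 1 / 2) (by norm_num) (by norm_num)
  by_contra hcon
  push Not at hcon
  nlinarith

/-- `ρ ≤ 1/10` and `1 ≤ a + 2b` force `36/100 ≤ tan(πb/4)` -/
theorem tan_ge36 (ha0 : 0 ≤ a) (hb0 : 0 < b) (hb : b ≤ 1) (hab : a ≤ b)
    (hr : tan (π / 4 * a) / tan (π / 4 * b) ≤ 1/10) (h : 1 ≤ a + 2 * b) :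
    36/100 ≤ tan (π / 4 * b) := by
  have hb2 := c2_le_tan hb0.le hb
  have hp := Real.pi_gt_d4
  by_contra hcon
  push Not at hcon
  have hT := tan_q_pos hb0 hb
  rw [div_le_iff₀ hT] at hr
  have ha2 := c2_le_tan ha0 (hab.trans hb)
  nlinarith

theorem a_le_of_rho (ha0 : 0 ≤ a) (hb0 : 0 < b) (hb : b ≤ 1) (hab : a ≤ b)
    (hr : tan (π / 4 * a) / tan (π / 4 * b) ≤ 1/10) (ht : tan (π / 4 * b) ≤ 8544/10000) :
    a ≤ 11/100 := by
  have hp := Real.pi_gt_d4
  have hT := tan_q_pos hb0 hb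
  rw [div_le_iff₀ hT] at hr
  have ha2 := c2_le_tan ha0 (hab.trans hb)
  nlinarith

/-- `a + b ≤ 1` in the chart `f1` -/
theorem gT1_of (h0 : 0 < a) (hab : a ≤ b) (h : a + b ≤ 1) :
    tan (π / 4 * a) / tan (π / 4 * b) * tan (π / 4 * b) + tan (π / 4 * b) +
      tan (π / 4 * a) / tan (π / 4 * b) * tan (π / 4 * b) * tan (π / 4 * b) - 1 ≤ 0 := by
  have hT := tan_q_pos (x := b) (by linarith) (by linarith)
  rw [div_mul_cancel₀ _ hT.ne']
  have h1 : tan (π / 4 * a) ≤ tan (π / 4 * (1 - b)) :=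
    tan_q_mono h0.le (by linarith) (by linarith)
  have e := c2_tan_flip (x := b) (by linarith) (by linarith)
  have h2 := mul_le_mul_of_nonneg_right h1 (show 0 ≤ 1 + tan (π / 4 * b) by linarith)
  rw [e] at h2
  linarith

/-! ### sines -/

theorem c2_sin_flip (x : ℝ) : sin (π / 2 * (1 - x)) = cos (π / 2 * x) := by
  rw [mul_sub, mul_one, sin_pi_div_two_sub]

/-- the cosine rule -/
theorem c2_cos_c (h0 : 0 < a) (ha : a ≤ 1) (hb0 : 0 < b) (hb : b ≤ 1) (c : ℝ) :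
    cos (π / 2 * c) = cos (π / 2 * a) * cos (π / 2 * b) +
      sin (π / 2 * a) * sin (π / 2 * b) * dih 1 a b c := by
  have h3 := sn_pos h0 ha
  have h4 := sn_pos hb0 hb
  unfold dih
  generalize sin (π / 2 * a) = S at *
  generalize sin (π / 2 * b) = S' at *
  field_simp
  ring

/-- concavity of the sine -/
theorem c2_sin_conc {l x : ℝ} (hl0 : 0 ≤ l) (hl1 : l ≤ 1) (hx0 : 0 ≤ x) (hx1 : x ≤ π) :
    l * sin x ≤ sin (l * x) := by
  have h := strictConcaveOn_sin_Icc.concaveOn.2 (x := x) ⟨hx0, hx1⟩ (y := 0)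
    ⟨le_rfl, Real.pi_pos.le⟩ hl0 (show 0 ≤ 1 - l by linarith) (by ring)
  simpa using h

/-- the parameter of the chart `E` -/
theorem E_tau (h0 : 0 < a) (ha : a < 1) (hab : a ≤ b) (hbc : b ≤ c) (hc : c ≤ 1) (hb : b < 1)
    (ht : dih 1 a b c ≤ 0) : 0 ≤ (1 - c) / ((1 - b) * cos (π / 2 * a)) ∧
      (1 - c) / ((1 - b) * cos (π / 2 * a)) ≤ 1 := by
  have hp := Real.pi_pos
  have hb0 : 0 < b := by linarith
  have hca : 0 < cos (π / 2 * a) := cos_pos_of_mem_Ioo ⟨by nlinarith, by nlinarith⟩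
  have hca1 := cos_le_one (π / 2 * a)
  have hd : 0 < (1 - b) * cos (π / 2 * a) := mul_pos (by linarith) hca
  refine ⟨div_nonneg (by linarith) hd.le, ?_⟩
  rw [div_le_one hd]
  have h1 := c2_cos_c h0 ha.le hb0 hb.le c
  have h2 : sin (π / 2 * a) * sin (π / 2 * b) * dih 1 a b c ≤ 0 :=
    mul_nonpos_of_nonneg_of_nonpos (mul_nonneg (sn_pos h0 ha.le).le (sn_pos hb0 hb.le).le) ht
  have h3 := c2_sin_conc (l := cos (π / 2 * a)) (x := π / 2 * (1 - b)) hca.le hca1
    (by nlinarith) (by nlinarith)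
  rw [c2_sin_flip] at h3
  have h4 : sin (π / 2 * (1 - c)) ≤ sin (cos (π / 2 * a) * (π / 2 * (1 - b))) := by
    rw [c2_sin_flip]; linarith
  by_contra hcon
  push Not at hcon
  have h5 : sin (cos (π / 2 * a) * (π / 2 * (1 - b))) < sin (π / 2 * (1 - c)) := by
    refine sin_lt_sin_of_lt_of_le_pi_div_two ?_ ?_ ?_
    · have : 0 ≤ cos (π / 2 * a) * (π / 2 * (1 - b)) :=
        mul_nonneg hca.le (mul_nonneg (by positivity) (by linarith))
      linarith
    · nlinarith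
    · have := mul_lt_mul_of_pos_left hcon (show 0 < π / 2 by positivity)
      linarith
  linarith

/-- `c ≤ 1` and `1 ≤ a + b` force `κ ≤ (1-b)/a`; also at `c = 1` -/
theorem ka_le (h0 : 0 < a) (hab : a ≤ b) (hb : b ≤ 1) (hc0 : 0 ≤ c) (hc : c ≤ 1)
    (ht : dih 1 a b c ≤ 0) (h1 : 1 ≤ a + b) : |dih 1 a b c| ≤ (1 - b) / a := by
  have hp := Real.pi_pos
  have ha : a ≤ 1 := hab.trans hb
  have hb0 : 0 < b := by linarith
  have h2 := c2_cos_c h0 ha hb0 hb c
  have h3 := cs_nonneg hc0 hc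
  rw [abs_of_nonpos ht, le_div_iff₀ h0]
  generalize dih 1 a b c = d at *
  have h4 := sn_pos h0 ha
  have h5 := sn_pos hb0 hb
  -- `sin (α + β) / (α + β) ≤ sin (α - β) / (α - β)`
  have key : (a - (1 - b)) * sin (π / 2 * (a + (1 - b))) ≤
      (a + (1 - b)) * sin (π / 2 * (a - (1 - b))) := by
    have h6 : 0 < a + (1 - b) := by linarith
    have h7 := c2_sin_conc (l := (a - (1 - b)) / (a + (1 - b)))
      (x := π / 2 * (a + (1 - b))) (div_nonneg (by linarith) h6.le)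
      (by rw [div_le_one h6]; linarith) (by positivity) (by nlinarith)
    rw [show (a - (1 - b)) / (a + (1 - b)) * (π / 2 * (a + (1 - b))) = π / 2 * (a - (1 - b)) by
      field_simp] at h7
    rw [div_mul_eq_mul_div, div_le_iff₀ h6] at h7
    linarith
  have e1 : sin (π / 2 * (a + (1 - b))) = sin (π / 2 * a) * sin (π / 2 * b) +
      cos (π / 2 * a) * cos (π / 2 * b) := by
    rw [mul_add, sin_add, c2_sin_flip, mul_sub, mul_one, cos_pi_div_two_sub]
  have e2 : sin (π / 2 * (a - (1 - b))) = sin (π / 2 * a) * sin (π / 2 * b) -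
      cos (π / 2 * a) * cos (π / 2 * b) := by
    rw [mul_sub (π / 2) a, sin_sub, c2_sin_flip, mul_sub, mul_one, cos_pi_div_two_sub]
  rw [e1, e2] at key
  generalize sin (π / 2 * a) = S at *
  generalize sin (π / 2 * b) = S' at *
  generalize cos (π / 2 * a) = A at *
  generalize cos (π / 2 * b) = B at *
  -- `key : (a - (1-b)) (S S' + A B) ≤ (a + (1-b)) (S S' - A B)`, i.e. `a A B ≤ (1-b) S S'`
  have h8 : a * (A * B) ≤ (1 - b) * (S * S') := by nlinarith
  have h9 : 0 ≤ A * B + S * S' * d := by linarith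
  have h10 : S * S' * (-d * a) ≤ S * S' * (1 - b) := by nlinarith
  exact le_of_mul_le_mul_left h10 (mul_pos h4 h5)

/-- `sin α ≤ τ α cos α` -/
theorem c2_sin_le {x t : ℝ} (hx0 : 0 ≤ x) (hx1 : x ≤ 1)
    (ht : 1 - x ^ 2 / 6 + x ^ 4 / 100 ≤ t * (1 - x ^ 2 / 2)) (ht0 : 0 ≤ t) :
    sin x ≤ t * x * cos x := by
  have h1 := (abs_le.1 (Real.sin_bound (x := x) (by rw [abs_of_nonneg hx0]; exact hx1))).2
  rw [abs_of_nonneg hx0] at h1
  have h2 := Real.one_sub_sq_div_two_le_cos (x := x)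
  have h3 : t * x * (1 - x ^ 2 / 2) ≤ t * x * cos x :=
    mul_le_mul_of_nonneg_left h2 (mul_nonneg ht0 hx0)
  have h4 := mul_le_mul_of_nonneg_right ht hx0
  nlinarith

/-- if `sin β cos α ≤ sin α (1 + κ)` then `β ≤ α (κ + m)` -/
theorem c2_beta_le {A B k m t : ℝ} (hA0 : 0 < A) (hA1 : A ≤ 1) (hB1 : B ≤ π / 2)
    (hk : 0 ≤ k) (hm : 0 ≤ m) (ht0 : 0 ≤ t)
    (ht : 1 - A ^ 2 / 6 + A ^ 4 / 100 ≤ t * (1 - A ^ 2 / 2))
    (hX : t * (1 + k) < (k + m) * (1 - (A * (k + m)) ^ 2 / 6))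
    (h : sin B * cos A ≤ sin A * (1 + k)) : B ≤ A * (k + m) := by
  by_contra hcon
  push Not at hcon
  have hc : 0 < cos A := cos_pos_of_mem_Ioo ⟨by linarith [Real.pi_pos], by
    linarith [Real.pi_gt_three]⟩
  have h1 := c2_sin_le hA0.le hA1 ht ht0
  have hX0 : 0 ≤ A * (k + m) := by positivity
  have h2 : sin (A * (k + m)) ≤ sin B :=
    sin_le_sin_of_le_of_le_pi_div_two (by linarith [Real.pi_pos]) hB1 hcon.le
  have h3 := Real.sin_ge_sub_cube hX0
  have h4 : sin (A * (k + m)) * cos A ≤ t * A * cos A * (1 + k) :=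
    (mul_le_mul_of_nonneg_right h2 hc.le).trans
      (h.trans (mul_le_mul_of_nonneg_right h1 (by linarith)))
  have h5 : sin (A * (k + m)) ≤ t * A * (1 + k) := by
    refine le_of_mul_le_mul_right ?_ hc
    linarith
  have h6 := mul_lt_mul_of_pos_left hX hA0
  nlinarith

theorem c2_sin_cos (h0 : 0 < a) (ha : a ≤ 1) (hb0 : 0 < b) (hb : b ≤ 1) (hc : c ≤ 1)
    (ht : dih 1 a b c ≤ 0) (hy : 1 ≤ a + c) :
    sin (π / 2 * (1 - b)) * cos (π / 2 * a) ≤ sin (π / 2 * a) * (1 + |dih 1 a b c|) := by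
  have hp := Real.pi_pos
  have h1 := c2_cos_c h0 ha hb0 hb c
  have h2 : cos (π / 2 * c) ≤ sin (π / 2 * a) := by
    rw [← c2_sin_flip]
    exact sin_le_sin_of_le_of_le_pi_div_two (by nlinarith) (by nlinarith) (by nlinarith)
  rw [abs_of_nonpos ht, c2_sin_flip]
  have h3 := sn_pos h0 ha
  have h4 := sin_le_one (π / 2 * b)
  have h5 : sin (π / 2 * a) * sin (π / 2 * b) * -dih 1 a b c ≤ sin (π / 2 * a) * -dih 1 a b c := by
    refine mul_le_mul_of_nonneg_right ?_ (by linarith)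
    nlinarith
  nlinarith

/-- `1 ≤ a + c` forces `(1-b)/a ≤ κ + 213/200` -/
theorem sig_le (h0 : 0 < a) (ha : a ≤ 11/100) (hab : a ≤ b) (hbc : b ≤ c) (hc : c ≤ 1)
    (hs : c ≤ a + b) (ht : dih 1 a b c ≤ 0) (hy : 1 ≤ a + c) :
    200 * ((1 - b) / a - |dih 1 a b c|) - 213 ≤ 0 := by
  have hp := Real.pi_pos
  have hp2 := Real.pi_lt_d4
  have hb0 : 0 < b := by linarith
  have hb : b ≤ 1 := hbc.trans hc
  have hd1 := dih_abs_le (σ := 1) (Or.inl rfl) h0 (by linarith) hb0 hb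
    ((gram3_one_nonneg_iff h0 hab hbc hc).2 hs)
  have hk := abs_nonneg (dih 1 a b c)
  have h1 := c2_sin_cos h0 (by linarith) hb0 hb hc ht hy
  generalize |dih 1 a b c| = k at *
  have hA : π / 2 * a ≤ 1728 / 10000 := by nlinarith
  have hA0 : 0 < π / 2 * a := by positivity
  have h2 : π / 2 * (1 - b) ≤ π / 2 * a * (k + 213 / 200) := by
    refine c2_beta_le (t := 10105 / 10000) hA0 (by linarith) (by nlinarith) hk (by norm_num)
      (by norm_num) ?_ ?_ h1
    · generalize π / 2 * a = A at *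
      nlinarith [mul_nonneg hA0.le (show 0 ≤ 1728 / 10000 - A by linarith), sq_nonneg A,
        mul_nonneg (sq_nonneg A) (mul_nonneg hA0.le (show 0 ≤ 1728 / 10000 - A by linarith))]
    · generalize π / 2 * a = A at *
      have m3 : (k + 213 / 200) ^ 3 ≤ (413 / 200) ^ 3 :=
        pow_le_pow_left₀ (by linarith) (by linarith) 3
      have a2 : A ^ 2 ≤ (1728 / 10000) ^ 2 := pow_le_pow_left₀ hA0.le hA 2
      have h3 := mul_le_mul a2 m3 (by positivity) (by positivity)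
      have e : (A * (k + 213 / 200)) ^ 2 * (k + 213 / 200) = A ^ 2 * (k + 213 / 200) ^ 3 := by
        ring
      nlinarith
  have h3 : (1 - b) / a ≤ k + 213 / 200 := by
    rw [div_le_iff₀ h0]
    nlinarith
  linarith

/-- the same at a right angle: `(1-b)/a ≤ 106/100` -/
theorem sig_le_right (h0 : 0 < a) (ha : a ≤ 1/10) (hab : a ≤ b) (hbc : b ≤ c) (hc : c ≤ 1)
    (ht : dih 1 a b c = 0) (hy : 1 ≤ a + c) : (1 - b) / a ≤ 106/100 := by
  have hp := Real.pi_pos
  have hp2 := Real.pi_lt_d4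
  have hb0 : 0 < b := by linarith
  have hb : b ≤ 1 := hbc.trans hc
  have h1 := c2_sin_cos h0 (by linarith) hb0 hb hc ht.le hy
  rw [ht, abs_zero] at h1
  have hA : π / 2 * a ≤ 1571 / 10000 := by nlinarith
  have hA0 : 0 < π / 2 * a := by positivity
  have h2 : π / 2 * (1 - b) ≤ π / 2 * a * (0 + 106 / 100) := by
    refine c2_beta_le (t := 10105 / 10000) hA0 (by linarith) (by nlinarith) le_rfl (by norm_num)
      (by norm_num) ?_ ?_ h1
    · generalize π / 2 * a = A at *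
      nlinarith [mul_nonneg hA0.le (show 0 ≤ 1571 / 10000 - A by linarith), sq_nonneg A,
        mul_nonneg (sq_nonneg A) (mul_nonneg hA0.le (show 0 ≤ 1571 / 10000 - A by linarith))]
    · generalize π / 2 * a = A at *
      nlinarith [mul_nonneg hA0.le (show 0 ≤ 1571 / 10000 - A by linarith)]
  rw [div_le_iff₀ h0]
  nlinarith

end FX
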