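import Pool.Agent.H11.FX.Claims

set_option autoImplicit false

/-!
# The two certificates
-/

namespace FX

def coA : Co := ⟨1000, 4047, 3615, 8385, .p 770, .z, .p 8243, .m 18243, .m 4508, .p 13473, .p 4508,
  .p 2240⟩

def coB : Co := ⟨5000, 7770, 1316, 18684, .p 1160, .p 5408, .m 20897, .p 6297, .p 14248, .m 28265,
  .m 19656, .m 18176⟩

end FX
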