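import Pool.Agent.H11.FX.Defs

set_option autoImplicit false

/-!
# FD-1: completely positive kernels on the unit interval
-/

namespace FX

open H45FT Real Finset

/-- completely positive type kernels on `[0,1]` -/
def CPI (K : ℝ → ℝ → ℝ) : Prop :=
  ∀ (ι : Type) (s : Finset ι) (a : ι → ℝ) (M : ι → ι → ℝ) (w : ι → ℝ),
    (∀ i ∈ s, a i ∈ Set.Icc (0 : ℝ) 1) →
    (∀ u : ι → ℝ, (∀ i ∈ s, 0 ≤ u i) → 0 ≤ ∑ i ∈ s, ∑ j ∈ s, u i * u j * M i j) →
    (∀ i ∈ s, 0 ≤ w i) → 0 ≤ ∑ i ∈ s, ∑ j ∈ s, w i * w j * (K (a i) (a j) * M i j)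

theorem CPI.congr {K L : ℝ → ℝ → ℝ} (hK : CPI K)
    (h : ∀ a ∈ Set.Icc (0 : ℝ) 1, ∀ b ∈ Set.Icc (0 : ℝ) 1, K a b = L a b) : CPI L := by
  intro ι s a M w ha hM hw
  have h1 := hK ι s a M w ha hM hw
  have h2 : ∑ i ∈ s, ∑ j ∈ s, w i * w j * (L (a i) (a j) * M i j) =
      ∑ i ∈ s, ∑ j ∈ s, w i * w j * (K (a i) (a j) * M i j) :=
    sum_congr rfl fun i hi => sum_congr rfl fun j hj => by rw [h _ (ha i hi) _ (ha j hj)]
  rw [h2]
  exact h1

theorem CPI.add {K L : ℝ → ℝ → ℝ} (hK : CPI K) (hL : CPI L) :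
    CPI (fun a b => K a b + L a b) := by
  intro ι s a M w ha hM hw
  have h1 := hK ι s a M w ha hM hw
  have h2 := hL ι s a M w ha hM hw
  have h3 : ∑ i ∈ s, ∑ j ∈ s, w i * w j * ((K (a i) (a j) + L (a i) (a j)) * M i j) =
      ∑ i ∈ s, ∑ j ∈ s, w i * w j * (K (a i) (a j) * M i j) +
        ∑ i ∈ s, ∑ j ∈ s, w i * w j * (L (a i) (a j) * M i j) := by
    rw [← sum_add_distrib]
    refine sum_congr rfl fun i _ => ?_
    rw [← sum_add_distrib]
    exact sum_congr rfl fun j _ => by ring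
  rw [h3]
  exact add_nonneg h1 h2

theorem CPI.smul {K : ℝ → ℝ → ℝ} (hK : CPI K) {c : ℝ} (hc : 0 ≤ c) :
    CPI (fun a b => c * K a b) := by
  intro ι s a M w ha hM hw
  have h1 := hK ι s a M w ha hM hw
  have h3 : ∑ i ∈ s, ∑ j ∈ s, w i * w j * (c * K (a i) (a j) * M i j) =
      c * ∑ i ∈ s, ∑ j ∈ s, w i * w j * (K (a i) (a j) * M i j) := by
    rw [mul_sum]
    refine sum_congr rfl fun i _ => ?_
    rw [mul_sum]
    exact sum_congr rfl fun j _ => by ring
  rw [h3]
  exact mul_nonneg hc h1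

theorem CPI.rankOne {f : ℝ → ℝ} (hf : ∀ a ∈ Set.Icc (0 : ℝ) 1, 0 ≤ f a) :
    CPI (fun a b => f a * f b) := by
  intro ι s a M w ha hM hw
  have h1 := hM (fun i => w i * f (a i)) fun i hi => mul_nonneg (hw i hi) (hf _ (ha i hi))
  have h3 : ∑ i ∈ s, ∑ j ∈ s, w i * w j * (f (a i) * f (a j) * M i j) =
      ∑ i ∈ s, ∑ j ∈ s, w i * f (a i) * (w j * f (a j)) * M i j :=
    sum_congr rfl fun i _ => sum_congr rfl fun j _ => by ring
  rw [h3]
  exact h1

/-- the indicator of the interval `(l, u]` -/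
private noncomputable def cpI (l u θ : ℝ) : ℝ := (Set.Ioc l u).indicator (fun _ => (1 : ℝ)) θ

private theorem cpI_apply (l u θ : ℝ) : cpI l u θ = if l < θ ∧ θ ≤ u then 1 else 0 := by
  unfold cpI
  by_cases h : θ ∈ Set.Ioc l u
  · rw [Set.indicator_of_mem h, if_pos (Set.mem_Ioc.1 h)]
  · rw [Set.indicator_of_notMem h, if_neg fun h' => h (Set.mem_Ioc.2 h')]

private theorem cpI_integrable (l u : ℝ) :
    IntervalIntegrable (cpI l u) MeasureTheory.volume 0 (1 / 2) := by
  have h1 : IntervalIntegrable (fun _ : ℝ => (1 : ℝ)) MeasureTheory.volume 0 (1 / 2) :=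
    intervalIntegrable_const
  rw [intervalIntegrable_iff] at h1 ⊢
  exact h1.indicator measurableSet_Ioc

private theorem cpI_integral (l u : ℝ) :
    ∫ θ in (0 : ℝ)..(1 / 2), cpI l u θ = max (min u (1 / 2) - max l 0) 0 := by
  unfold cpI
  rw [intervalIntegral.integral_of_le (by norm_num),
    MeasureTheory.setIntegral_indicator measurableSet_Ioc, MeasureTheory.setIntegral_const,
    Set.Ioc_inter_Ioc, smul_eq_mul, mul_one, MeasureTheory.measureReal_def, Real.volume_Ioc,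
    ENNReal.toReal_ofReal']
  simp only [sup_comm, inf_comm]

/-- the factor of the kernel `wmn` at the level `θ` -/
private noncomputable def cpF (θ a : ℝ) : ℝ := (if θ ≤ a then 1 else 0) + if 1 - a < θ then 1 else 0

private theorem cpF_nonneg (θ a : ℝ) : 0 ≤ cpF θ a := by
  unfold cpF
  split_ifs <;> norm_num

private theorem cpF_mul {a b θ : ℝ} (hθ : 0 < θ) (hθ1 : θ ≤ 1) :
    cpF θ a * cpF θ b = cpI 0 (min a b) θ + cpI (1 - b) a θ + cpI (1 - a) b θ +
      cpI (max (1 - a) (1 - b)) 1 θ := by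
  simp only [cpI_apply, le_min_iff, max_lt_iff, hθ, hθ1, true_and, and_true]
  unfold cpF
  by_cases h1 : θ ≤ a <;> by_cases h2 : θ ≤ b <;> by_cases h3 : 1 - a < θ <;>
    by_cases h4 : 1 - b < θ <;> simp [h1, h2, h3, h4] <;> norm_num

private theorem wmn_eq {a b : ℝ} (ha : a ∈ Set.Icc (0 : ℝ) 1) (hb : b ∈ Set.Icc (0 : ℝ) 1) :
    wmn a b = ∫ θ in (0 : ℝ)..(1 / 2), cpF θ a * cpF θ b := by
  have h1 : ∫ θ in (0 : ℝ)..(1 / 2), cpF θ a * cpF θ b =
      ∫ θ in (0 : ℝ)..(1 / 2), (cpI 0 (min a b) θ + cpI (1 - b) a θ + cpI (1 - a) b θ +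
        cpI (max (1 - a) (1 - b)) 1 θ) := by
    refine intervalIntegral.integral_congr_ae (Filter.Eventually.of_forall fun θ hθ => ?_)
    rw [Set.uIoc_of_le (by norm_num)] at hθ
    exact cpF_mul hθ.1 (hθ.2.trans (by norm_num))
  rw [h1, intervalIntegral.integral_add (((cpI_integrable _ _).add (cpI_integrable _ _)).add
      (cpI_integrable _ _)) (cpI_integrable _ _),
    intervalIntegral.integral_add ((cpI_integrable _ _).add (cpI_integrable _ _))
      (cpI_integrable _ _),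
    intervalIntegral.integral_add (cpI_integrable _ _) (cpI_integrable _ _)]
  simp only [cpI_integral]
  unfold wmn
  obtain ⟨ha0, ha1⟩ := ha
  obtain ⟨hb0, hb1⟩ := hb
  have e1 : max (1 - b) 0 = 1 - b := max_eq_left (by linarith)
  have e2 : max (1 - a) 0 = 1 - a := max_eq_left (by linarith)
  have e3 : max (max (1 - a) (1 - b)) 0 = max (1 - a) (1 - b) :=
    max_eq_left (le_max_of_le_left (by linarith))
  have e4 : min (1 : ℝ) (1 / 2) = 1 / 2 := min_eq_right (by norm_num)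
  rw [e1, e2, e3, e4, max_self]
  rcases le_total a b with hab | hab
  · rw [min_eq_left hab, max_eq_left (show 1 - b ≤ 1 - a by linarith)]
    rcases le_total a (1 / 2) with h2 | h2
    · rw [min_eq_left h2, max_eq_right (show 1 / 2 - (1 - a) ≤ 0 by linarith)]
      have h3 : min b (1 / 2) - (1 - a) ≤ 0 := by
        have := min_le_right b (1 / 2)
        linarith
      rw [max_eq_right h3, max_eq_left (show (0 : ℝ) ≤ a - 0 by linarith)]
      have h4 : a - (1 - b) = a + b - 1 := by ring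
      rw [h4]
      ring
    · rw [min_eq_right h2, min_eq_right (show 1 / 2 ≤ b by linarith),
        max_eq_left (show (0 : ℝ) ≤ 1 / 2 - (1 - b) by linarith),
        max_eq_left (show (0 : ℝ) ≤ 1 / 2 - (1 - a) by linarith),
        max_eq_left (show (0 : ℝ) ≤ a + b - 1 by linarith),
        max_eq_left (show (0 : ℝ) ≤ 1 / 2 - 0 by norm_num)]
      ring
  · rw [min_eq_right hab, max_eq_right (show 1 - a ≤ 1 - b by linarith)]
    rcases le_total b (1 / 2) with h2 | h2
    · rw [min_eq_left h2, max_eq_right (show 1 / 2 - (1 - b) ≤ 0 by linarith)]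
      have h3 : min a (1 / 2) - (1 - b) ≤ 0 := by
        have := min_le_right a (1 / 2)
        linarith
      rw [max_eq_right h3, max_eq_left (show (0 : ℝ) ≤ b - 0 by linarith)]
      have h4 : b - (1 - a) = a + b - 1 := by ring
      rw [h4]
      ring
    · rw [min_eq_right h2, min_eq_right (show 1 / 2 ≤ a by linarith),
        max_eq_left (show (0 : ℝ) ≤ 1 / 2 - (1 - b) by linarith),
        max_eq_left (show (0 : ℝ) ≤ 1 / 2 - (1 - a) by linarith),
        max_eq_left (show (0 : ℝ) ≤ a + b - 1 by linarith),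
        max_eq_left (show (0 : ℝ) ≤ 1 / 2 - 0 by norm_num)]
      ring

private theorem cpFF_integrable (a b : ℝ) :
    IntervalIntegrable (fun θ => cpF θ a * cpF θ b) MeasureTheory.volume 0 (1 / 2) := by
  have h1 : IntervalIntegrable (fun θ => cpI 0 (min a b) θ + cpI (1 - b) a θ +
      cpI (1 - a) b θ + cpI (max (1 - a) (1 - b)) 1 θ) MeasureTheory.volume 0 (1 / 2) :=
    (((cpI_integrable _ _).add (cpI_integrable _ _)).add
      (cpI_integrable _ _)).add (cpI_integrable _ _)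
  refine h1.congr fun θ hθ => ?_
  rw [Set.uIoc_of_le (by norm_num)] at hθ
  exact (cpF_mul hθ.1 (hθ.2.trans (by norm_num))).symm

theorem cpi_wmn : CPI wmn := by
  intro ι s a M w ha hM hw
  have h1 : ∑ i ∈ s, ∑ j ∈ s, w i * w j * (wmn (a i) (a j) * M i j) =
      ∫ θ in (0 : ℝ)..(1 / 2), ∑ i ∈ s, ∑ j ∈ s,
        w i * w j * M i j * (cpF θ (a i) * cpF θ (a j)) := by
    have hint : ∀ i, IntervalIntegrable
        (fun θ => ∑ j ∈ s, w i * w j * M i j * (cpF θ (a i) * cpF θ (a j)))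
        MeasureTheory.volume 0 (1 / 2) := by
      intro i
      have h := IntervalIntegrable.sum s
        (f := fun j θ => w i * w j * M i j * (cpF θ (a i) * cpF θ (a j))) fun j _ =>
          (cpFF_integrable (a i) (a j)).const_mul _
      refine h.congr fun θ _ => ?_
      simp only [Finset.sum_apply]
    rw [intervalIntegral.integral_finsetSum fun i _ => hint i]
    refine sum_congr rfl fun i hi => ?_
    rw [intervalIntegral.integral_finsetSum fun j _ =>
      (cpFF_integrable (a i) (a j)).const_mul _]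
    refine sum_congr rfl fun j hj => ?_
    rw [intervalIntegral.integral_const_mul, ← wmn_eq (ha i hi) (ha j hj)]
    ring
  rw [h1]
  refine intervalIntegral.integral_nonneg (by norm_num) fun θ _ => ?_
  have h2 := hM (fun i => w i * cpF θ (a i)) fun i hi => mul_nonneg (hw i hi) (cpF_nonneg _ _)
  have h3 : ∑ i ∈ s, ∑ j ∈ s, w i * w j * M i j * (cpF θ (a i) * cpF θ (a j)) =
      ∑ i ∈ s, ∑ j ∈ s, w i * cpF θ (a i) * (w j * cpF θ (a j)) * M i j :=
    sum_congr rfl fun i _ => sum_congr rfl fun j _ => by ring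
  rw [h3]
  exact h2

theorem sf_nonneg (a : ℝ) : 0 ≤ sf a := sq_nonneg _

theorem sf_add_sh_nonneg {a : ℝ} (ha : a ∈ Set.Icc (0 : ℝ) 1) : 0 ≤ sf a + sh a := by
  unfold sf sh
  have hs : 0 ≤ sin (π / 2 * a) :=
    sin_nonneg_of_nonneg_of_le_pi (mul_nonneg (by positivity) ha.1)
      (by nlinarith [ha.2, pi_pos])
  have hc : 0 ≤ cos (π / 2 * a) :=
    cos_nonneg_of_neg_pi_div_two_le_of_le (by nlinarith [ha.1, pi_pos])
      (by nlinarith [ha.2, pi_pos])
  have h1 := sin_sq_add_cos_sq (π / 2 * a)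
  set s := sin (π / 2 * a) with hsd
  set c := cos (π / 2 * a) with hcd
  have hc1 : c ≤ 1 := cos_le_one _
  have hs1 : s ≤ 1 := sin_le_one _
  have h2 : s ^ 2 + s * c * (1 - 2 * s ^ 2) = s * (s * (1 - c * s) + c ^ 3) := by
    linear_combination (-s * c) * h1
  rw [h2]
  have h3 : c * s ≤ 1 := by nlinarith
  exact mul_nonneg hs (add_nonneg (mul_nonneg hs (by linarith)) (pow_nonneg hc 3))

theorem cpi_W {X : Cr} (h1 : 0 ≤ X.bW) (h2 : 0 ≤ X.G1) (h3 : 0 ≤ X.G2) : CPI (W X) := by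
  have e1 := cpi_wmn.smul h1
  have e2 := (CPI.rankOne (f := sf) fun a _ => sf_nonneg a).smul h2
  have e3 := (CPI.rankOne (f := fun a => sf a + sh a) fun a ha => sf_add_sh_nonneg ha).smul h3
  exact (e1.add e2).add e3

end FX
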