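import Pool.Agent.H45.FT.Range3

set_option autoImplicit false

/-!
# Fixed dimensions (MP_6c69a9_co): certificates and statements

Angles are normalised by `π/2`.  A certificate is a vector of twelve real coefficients; the
pointwise inequality `PW` does not depend on the dimension.
-/

namespace FX

open H45FT Real

/-- real coefficients of a certificate -/
structure Cr where
  k : ℝ
  x : ℝ
  bW : ℝ
  bV : ℝ
  G1 : ℝ
  G2 : ℝ
  aa : ℝ
  af : ℝ
  ah : ℝ
  ff : ℝ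
  fh : ℝ
  hh : ℝ

/-- `sin²(πa/2)` -/
noncomputable def sf (a : ℝ) : ℝ := sin (π / 2 * a) ^ 2

/-- `sin(2πa)/4` -/
noncomputable def sh (a : ℝ) : ℝ :=
  sin (π / 2 * a) * cos (π / 2 * a) * (1 - 2 * sin (π / 2 * a) ^ 2)

/-- the kernel `min(a,b) + max(a+b-1,0)` -/
noncomputable def wmn (a b : ℝ) : ℝ := min a b + max (a + b - 1) 0

/-- the kernel multiplying `(1 - 1/d) - γ` (completely positive) -/
noncomputable def W (X : Cr) (a b : ℝ) : ℝ :=
  X.bW * wmn a b + X.G1 * (sf a * sf b) + X.G2 * ((sf a + sh a) * (sf b + sh b))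

/-- the kernel multiplying `t² - 1/d` (positive semidefinite) -/
noncomputable def V (X : Cr) (a b : ℝ) : ℝ :=
  X.bV * bridge a b + X.aa * (a * b) + X.af * (a * sf b + sf a * b) +
    X.ah * (a * sh b + sh a * b) + X.ff * (sf a * sf b) + X.fh * (sf a * sh b + sh a * sf b) +
    X.hh * (sh a * sh b)

/-- the contribution of a vertex with sides `a, b` and dihedral cosine `t` -/
noncomputable def Vt (X : Cr) (a b t : ℝ) : ℝ :=
  -Ustar X.k a b + 2 / π * arccos |t| * W X a b + (1 - t ^ 2) * V X a b -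
    t * V1 X.k X.x a b - (1 - 2 / π * arccos t) * VP X.k X.x a b

/-- the three-point function -/
noncomputable def F (X : Cr) (σ a b c : ℝ) : ℝ :=
  3 / 2 - (a + b + c) +
    (Vt X a b (dih σ a b c) + Vt X b c (dih σ b c a) + Vt X c a (dih σ c a b))

/-- the pointwise inequality -/
def PW (X : Cr) : Prop :=
  ∀ a ∈ Set.Icc (0 : ℝ) 1, ∀ b ∈ Set.Icc (0 : ℝ) 1, ∀ c ∈ Set.Icc (0 : ℝ) 1,
    ∀ σ : ℝ, (σ = 1 ∨ σ = -1) → 0 ≤ gram3 σ a b c → 0 ≤ F X σ a b c

/-- the kernel multiplying `1` on `S^d` -/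
noncomputable def U (X : Cr) (d : ℕ) (a b : ℝ) : ℝ :=
  (d : ℝ) / (d + 1) - 1 / 2 + Ustar X.k a b - (1 - 1 / (d : ℝ)) * (W X a b + V X a b)

/-- the Fejes Tóth inequality for finite weighted families of unit vectors of `ℝⁿ`
(homogeneous form) -/
def FT (n : ℕ) : Prop :=
  ∀ (ι : Type) (s : Finset ι) (x : ι → EuclideanSpace ℝ (Fin n)) (w : ι → ℝ),
    (∀ i ∈ s, ‖x i‖ = 1) → (∀ i ∈ s, 0 ≤ w i) →
      ∑ i ∈ s, ∑ j ∈ s, w i * w j * ang (inner ℝ (x i) (x j)) ≤
        (1 - 1 / (n : ℝ)) * (∑ i ∈ s, w i) ^ 2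

/-- the certificate for `S³` -/
noncomputable def XA : Cr where
  k := 1000 / 10000
  x := 4047 / 10000
  bW := 3615 / 10000
  bV := 8385 / 10000
  G1 := 770 / 10000
  G2 := 0
  aa := 25013 / 10000
  af := -18243 / 10000
  ah := -4508 / 10000
  ff := 13473 / 10000
  fh := 4508 / 10000
  hh := 2240 / 10000

/-- the certificate for `S²⁶` -/
noncomputable def XB : Cr where
  k := 5000 / 10000
  x := 7770 / 10000
  bW := 1316 / 10000
  bV := 18684 / 10000
  G1 := 1160 / 10000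
  G2 := 5408 / 10000
  aa := 16471 / 10000
  af := 6297 / 10000
  ah := 14248 / 10000
  ff := -28265 / 10000
  fh := -19656 / 10000
  hh := -18176 / 10000

/-- convex combination -/
noncomputable def Cr.mix (X Y : Cr) (θ : ℝ) : Cr where
  k := θ * X.k + (1 - θ) * Y.k
  x := θ * X.x + (1 - θ) * Y.x
  bW := θ * X.bW + (1 - θ) * Y.bW
  bV := θ * X.bV + (1 - θ) * Y.bV
  G1 := θ * X.G1 + (1 - θ) * Y.G1
  G2 := θ * X.G2 + (1 - θ) * Y.G2
  aa := θ * X.aa + (1 - θ) * Y.aa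
  af := θ * X.af + (1 - θ) * Y.af
  ah := θ * X.ah + (1 - θ) * Y.ah
  ff := θ * X.ff + (1 - θ) * Y.ff
  fh := θ * X.fh + (1 - θ) * Y.fh
  hh := θ * X.hh + (1 - θ) * Y.hh

/-- the weight of `XA` in dimension `d`, with `p = 1/(d-1)`:
`θ = k_B (p - p_B) / (k_A (p_A - p) + k_B (p - p_B))` -/
noncomputable def thA (d : ℕ) : ℝ :=
  1 / 2 * (1 / ((d : ℝ) - 1) - 1 / 25) /
    (1 / 10 * (1 / 2 - 1 / ((d : ℝ) - 1)) + 1 / 2 * (1 / ((d : ℝ) - 1) - 1 / 25))

/-- the certificate for `S^d`, `3 ≤ d ≤ 26` -/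
noncomputable def XD (d : ℕ) : Cr := XA.mix XB (thA d)

end FX
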