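import Pool.Agent.H41.FT.Cl

set_option autoImplicit false

/-!
# The functions of the certificates, for arbitrary operations and coefficients

All coefficients are multiplied by `10000`; `S = sin 2πa` is replaced by `S/4`.
-/

namespace FX

open H41FT

/-- signed natural numbers -/
inductive Sg where
  | z : Sg
  | p : Nat → Sg
  | m : Nat → Sg

/-- The integral coefficients of a certificate (times `10000`); `ta = aa - 2 bV`. -/
structure Co where
  k : Nat
  x : Nat
  bW : Nat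
  bV : Nat
  G1 : Sg
  G2 : Sg
  ta : Sg
  af : Sg
  ah : Sg
  ff : Sg
  fh : Sg
  hh : Sg

/-- the data of a triangle: sides, their cosines and sines, Gram determinant, the three acute
angles and their cosines -/
structure Dat (T : Type) where
  a : T
  b : T
  c : T
  u : T
  v : T
  w : T
  sa : T
  sb : T
  sc : T
  D2 : T
  gx : T
  cx : T
  gy : T
  cy : T
  gz : T
  cz : T

/-- types of triangles: `T_+` acute, `T_+` obtuse, `T_-` -/
inductive Ty where
  | ac : Ty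
  | ob : Ty
  | tm : Ty

/-- a piece: the type, and for each vertex whether the sum of its sides is at least one -/
structure Pc where
  ty : Ty
  hx : Bool
  hy : Bool
  hz : Bool

variable {T : Type} (o : Ops T)

/-- `x + c y` -/
def sg (c : Sg) (x y : T) : T :=
  match c with
  | .z => x
  | .p n => o.add x (o.smul n y)
  | .m n => o.sub x (o.smul n y)

/-- `c y` -/
def sg0 (c : Sg) (y : T) : T :=
  match c with
  | .z => o.nat 0
  | .p n => o.smul n y
  | .m n => o.sub (o.nat 0) (o.smul n y)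

/-- `c1 l + c2 f + c3 h` -/
def lin3 (c1 c2 c3 : Sg) (l f h : T) : T := sg o c3 (sg o c2 (sg0 o c1 l) f) h

/-- the linear part of the factor of `γ` -/
def gl (co : Co) (ob hf : Bool) (s k : T) : T :=
  match ob with
  | false => match hf with
    | false => o.smul (Nat.add co.bW (Nat.add co.bW co.bV)) s
    | true => o.sub (o.smul (Nat.add co.bW (Nat.add co.bW co.bV)) s) (o.smul co.bV k)
  | true => match hf with
    | false => o.sub (o.nat 0) (o.smul co.bV s)
    | true => o.sub (o.smul (Nat.add co.bW (Nat.add co.bW co.bV)) k) (o.smul co.bV s)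

/-- `bV (s + k)` -/
def vl_ (co : Co) (hf : Bool) (s k : T) : T :=
  match hf with
  | false => o.smul co.bV s
  | true => o.smul co.bV (o.add s k)

/-- the product term -/
def hzt (co : Co) (ob : Bool) (r su sv g c : T) : T :=
  lt (o.mul (o.mul su sv) (o.sub (o.sub (o.nat 1) g) c)) fun q =>
  match ob with
  | false => o.add r (o.smul (Nat.mul 4 co.x) q)
  | true => o.sub r (o.smul (Nat.mul 4 co.x) q)

/-- the contribution of a vertex with sides `s ≤ l`; `f, h, p = f + h` the functions of the sides,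
`su, sv` the products sine times cosine, `e1, e2, e3` the three linear forms of the long side,
`g, c` the acute angle and its cosine; `k = s + l - 1` -/
def vertK (co : Co) (ob hf : Bool) (s f h p su f' p' sv e1 e2 e3 g c k : T) : T :=
  hzt o co ob
    (o.add
      (o.mul g (sg o co.G2 (sg o co.G1 (gl o co ob hf s k) (o.mul f f')) (o.mul p p')))
      (o.mul (o.sub (o.nat 1) (o.mul c c))
        (o.add (vl_ o co hf s k) (o.add (o.mul s e1) (o.add (o.mul f e2) (o.mul h e3))))))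
    su sv g c

def vert (co : Co) (ob hf : Bool) (s f h p su l f' p' sv e1 e2 e3 g c : T) : T :=
  lt (o.sub (o.add s l) (o.nat 1)) fun k => vertK o co ob hf s f h p su f' p' sv e1 e2 e3 g c k

/-- the linear part -/
def linP (co : Co) (ty : Ty) (hz : Bool) (a b c : T) : T :=
  match ty with
  | .ac => o.smul (Nat.add co.bW co.bV) (o.sub c (o.add (o.smul 3 a) b))
  | .ob => match hz with
    | false => o.smul (Nat.add co.bW co.bV) (o.sub c (o.add a b))
    | true => o.smul (Nat.add co.bW co.bV) (o.sub (o.add c (o.nat 2)) (o.smul 3 (o.add a b)))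
  | .tm => o.smul (Nat.add co.bW co.bV) (o.sub (o.nat 6) (o.smul 3 (o.add (o.add a b) c)))

/-- obtuse at `z` -/
def Ty.oz : Ty → Bool
  | .ac => false
  | .ob => true
  | .tm => true

/-- obtuse at `x` and `y` -/
def Ty.oxy : Ty → Bool
  | .ac => false
  | .ob => false
  | .tm => true

/-- `h = su (1 - 2 f)` -/
def hF (su f : T) : T := o.mul su (o.sub (o.nat 1) (o.smul 2 f))

/-- the sum over the vertices, from the functions of the sides -/
def FG3 (co : Co) (pc : Pc) (a b c fa fb fc ha hb hc su sv sw pa pb pc' D2 gx cx gy cy gz cz : T) :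
    T :=
  lt (lin3 o co.ta co.af co.ah b fb hb) fun eb1 =>
  lt (lin3 o co.af co.ff co.fh b fb hb) fun eb2 =>
  lt (lin3 o co.ah co.fh co.hh b fb hb) fun eb3 =>
  lt (lin3 o co.ta co.af co.ah c fc hc) fun ec1 =>
  lt (lin3 o co.af co.ff co.fh c fc hc) fun ec2 =>
  lt (lin3 o co.ah co.fh co.hh c fc hc) fun ec3 =>
  o.add (o.add (linP o co pc.ty pc.hz a b c) (o.smul (Nat.mul 6 co.k) D2))
    (o.add (vert o co pc.ty.oz pc.hz a fa ha pa su b fb pb sv eb1 eb2 eb3 gz cz)
      (o.add (vert o co pc.ty.oxy pc.hx b fb hb pb sv c fc pc' sw ec1 ec2 ec3 gx cx)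
        (vert o co pc.ty.oxy pc.hy a fa ha pa su c fc pc' sw ec1 ec2 ec3 gy cy)))

/-- `10000 F` on the piece `pc` -/
def FG (co : Co) (pc : Pc) (d : Dat T) : T :=
  lt (o.mul d.sa d.sa) fun fa => lt (o.mul d.sb d.sb) fun fb => lt (o.mul d.sc d.sc) fun fc =>
  lt (o.mul d.sa d.u) fun su => lt (o.mul d.sb d.v) fun sv => lt (o.mul d.sc d.w) fun sw =>
  lt (hF o su fa) fun ha => lt (hF o sv fb) fun hb => lt (hF o sw fc) fun hc =>
  lt (o.add fa ha) fun pa => lt (o.add fb hb) fun pb => lt (o.add fc hc) fun pc' =>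
  FG3 o co pc d.a d.b d.c fa fb fc ha hb hc su sv sw pa pb pc' d.D2 d.gx d.cx d.gy d.cy d.gz d.cz

/-! ### charts, with an arbitrary final function -/

/-- the chart `(a, b, κ, sin, γ)` for obtuse `Γ = 2 - γ` -/
def gSK (K : Dat T → T) (a b ka si g : T) : T :=
  lt (o.cs a) fun u => lt (o.sn a) fun sa => lt (o.cs b) fun v => lt (o.sn b) fun sb =>
  lt (o.mul sa v) fun sav => lt (o.mul sb u) fun sbu =>
  lt (o.sub (o.mul u v) (o.mul (o.mul sa sb) ka)) fun w =>
  lt (o.mul sa si) fun p => lt (o.add sbu (o.mul sav ka)) fun q =>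
  lt (o.mul sb si) fun p2 => lt (o.add sav (o.mul sbu ka)) fun q2 =>
  lt (o.sqrt (o.add (o.mul p p) (o.mul q q))) fun sc =>
  lt (o.inv sc) fun isc =>
  lt (o.smul 2 (o.at_ (o.mul p (o.inv (o.add sc q))))) fun X =>
  lt (o.smul 2 (o.at_ (o.mul p2 (o.inv (o.add sc q2))))) fun Y =>
  lt (o.smul 2 (o.at_ (o.mul sc (o.inv (o.add (o.nat 1) w))))) fun c =>
  lt (o.mul sa p2) fun Dr =>
  K ⟨a, b, c, u, v, w, sa, sb, sc, o.mul Dr Dr, X, o.mul q isc, Y, o.mul q2 isc, g, ka⟩

/-- the chart `(a, b, γ)` -/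
def gG (K : Dat T → T) (a b g : T) : T := gSK o K a b (o.cs g) (o.sn g) g

/-- the chart `(a, σ, γ)`, `b = 1 - a σ` -/
def gS (K : Dat T → T) (a s g : T) : T :=
  lt (o.sub (o.nat 1) (o.mul a s)) fun b => gSK o K a b (o.cs g) (o.sn g) g

/-- the chart `(a, σ, r)`, `b = 1 - a σ`, `κ = σ r` -/
def gR (K : Dat T → T) (a s r : T) : T :=
  lt (o.mul s r) fun ka =>
  lt (o.sqrt (o.sub (o.nat 1) (o.mul ka ka))) fun si =>
  lt (o.sub (o.nat 1) (o.smul 2 (o.at_ (o.mul ka (o.inv (o.add (o.nat 1) si)))))) fun g =>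
  lt (o.sub (o.nat 1) (o.mul a s)) fun b => gSK o K a b ka si g

/-- the scaled chart core: `s_a = t sap` etc. -/
def gcore (K : Dat T → T) (ac : Bool) (rho t ka si g : T) : T :=
  lt (o.mul t t) fun t2 => lt (o.mul (o.mul rho rho) t2) fun r2 =>
  lt (o.inv (o.add (o.nat 1) r2)) fun ia => lt (o.inv (o.add (o.nat 1) t2)) fun ib =>
  lt (o.mul (o.sub (o.nat 1) r2) ia) fun u => lt (o.mul (o.sub (o.nat 1) t2) ib) fun v =>
  lt (o.smul 2 (o.mul rho ia)) fun sap => lt (o.smul 2 ib) fun sbp =>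
  lt (o.mul sap v) fun sav => lt (o.mul sbp u) fun sbu =>
  lt (o.mul sap si) fun p => lt (o.add sbu (o.mul sav ka)) fun q =>
  lt (o.mul sbp si) fun p2 => lt (o.add sav (o.mul sbu ka)) fun q2 =>
  lt (o.sqrt (o.add (o.mul p p) (o.mul q q))) fun scp =>
  lt (o.inv scp) fun isc =>
  lt (o.smul 2 (o.at_ (o.mul p (o.inv (o.add scp q))))) fun X =>
  lt (o.smul 2 (o.at_ (o.mul p2 (o.inv (o.add scp q2))))) fun Y =>
  lt (o.sub (o.mul u v) (o.mul t2 (o.mul (o.mul sap sbp) ka))) fun w =>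
  lt (o.mul t scp) fun sc =>
  lt (o.smul 2 (o.at_ (o.mul sc (o.inv (o.add (o.nat 1) w))))) fun c =>
  lt (o.mul t sap) fun sa => lt (o.mul t sbp) fun sb =>
  lt (o.mul (o.mul sa sb) si) fun Dr =>
  lt (match ac with
    | true => o.sub (o.nat 0) ka
    | false => ka) fun cz =>
  lt (o.smul 2 (o.at_ (o.mul rho t))) fun a => lt (o.smul 2 (o.at_ t)) fun b =>
  K ⟨a, b, c, u, v, w, sa, sb, sc, o.mul Dr Dr, X, o.mul q isc, Y, o.mul q2 isc, g, cz⟩

/-- chart `(ρ, t, γ)`, obtuse `Γ` -/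
def g1 (K : Dat T → T) (rho t g : T) : T := gcore o K false rho t (o.cs g) (o.sn g) g

/-- chart `(ρ, t, τ)`, acute `Γ` -/
def g0 (K : Dat T → T) (rho t tau : T) : T :=
  lt (o.mul (o.mul tau rho) (o.sub (o.nat 1) (o.mul t t))) fun kz2 =>
  lt (o.sqrt (o.sub (o.nat 4) (o.mul kz2 kz2))) fun sz2 =>
  lt (o.sub (o.nat 1) (o.smul 2 (o.at_ (o.mul kz2 (o.inv (o.add (o.nat 2) sz2)))))) fun Z =>
  lt (o.inv (o.nat 2)) fun hf =>
  gcore o K true rho t (o.sub (o.nat 0) (o.mul hf kz2)) (o.mul hf sz2) Z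

/-- chart `(a, γ, n)` for `T_-`: `w = n v`, `tan β = κ s_a / (u + n)` -/
def gc3 (K : Dat T → T) (a g n : T) : T :=
  lt (o.cs a) fun u => lt (o.sn a) fun sa => lt (o.cs g) fun ka => lt (o.sn g) fun si =>
  lt (o.mul ka sa) fun y => lt (o.add u n) fun un =>
  lt (o.sqrt (o.add (o.mul un un) (o.mul y y))) fun R => lt (o.inv R) fun iR =>
  lt (o.mul y iR) fun v => lt (o.mul un iR) fun sb =>
  lt (o.sub (o.nat 1) (o.smul 2 (o.at_ (o.mul y (o.inv (o.add un R)))))) fun b =>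
  lt (o.mul n v) fun w =>
  lt (o.mul sa si) fun p => lt (o.add (o.mul u sb) (o.mul y v)) fun q =>
  lt (o.mul sb si) fun p2 => lt (o.add (o.mul v sa) (o.mul (o.mul u sb) ka)) fun q2 =>
  lt (o.sqrt (o.sub (o.nat 1) (o.mul w w))) fun sc => lt (o.inv sc) fun isc =>
  lt (o.smul 2 (o.at_ (o.mul p (o.inv (o.add sc q))))) fun X =>
  lt (o.smul 2 (o.at_ (o.mul p2 (o.inv (o.add sc q2))))) fun Y =>
  lt (o.sub (o.nat 1) (o.smul 2 (o.at_ (o.mul w (o.inv (o.add (o.nat 1) sc)))))) fun c =>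
  lt (o.mul sa p2) fun Dr =>
  K ⟨a, b, c, u, v, w, sa, sb, sc, o.mul Dr Dr, X, o.mul q isc, Y, o.mul q2 isc, g, ka⟩

/-- the end of the charts of the sides -/
def gsdE (K : Dat T → T) (a b c u v w sa sb sc D2 nx ny nz : T) : T :=
  lt (o.sqrt D2) fun Dr =>
  lt (o.mul sa sb) fun ab => lt (o.mul sb sc) fun bc => lt (o.mul sc sa) fun ca =>
  lt (o.smul 2 (o.at_ (o.mul Dr (o.inv (o.add bc nx))))) fun X =>
  lt (o.smul 2 (o.at_ (o.mul Dr (o.inv (o.add ca ny))))) fun Y =>
  lt (o.smul 2 (o.at_ (o.mul Dr (o.inv (o.add ab nz))))) fun Z =>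
  K ⟨a, b, c, u, v, w, sa, sb, sc, D2, X, o.mul nx (o.inv bc), Y, o.mul ny (o.inv ca), Z,
    o.mul nz (o.inv ab)⟩

/-- the chart of the complementary sides `(α, β, δ)`; `ac = false`: `T_-`, `true`: acute `T_+`. -/
def gsdK (K : Dat T → T) (ac : Bool) (al be de u v w sa sb sc : T) : T :=
  lt (o.mul u v) fun uv => lt (o.mul v w) fun vw => lt (o.mul w u) fun wu =>
  lt (o.sub (o.sub (o.sub (o.nat 1) (o.mul u u)) (o.mul v v)) (o.mul w w)) fun G0 =>
  lt (o.smul 2 (o.mul uv w)) fun e =>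
  match ac with
  | true => gsdE o K (o.sub (o.nat 1) al) (o.sub (o.nat 1) be) (o.sub (o.nat 1) de)
      u v w sa sb sc (o.add G0 e) (o.sub u vw) (o.sub v wu) (o.sub w uv)
  | false => gsdE o K (o.sub (o.nat 1) al) (o.sub (o.nat 1) be) (o.sub (o.nat 1) de)
      u v w sa sb sc (o.sub G0 e) (o.add u vw) (o.add v wu) (o.add w uv)

def gsd (K : Dat T → T) (ac : Bool) (al be de : T) : T :=
  gsdK o K ac al be de (o.sn al) (o.sn be) (o.sn de) (o.cs al) (o.cs be) (o.cs de)

/-- ONB chart for `T_+`: `α = x + β`, `δ = β θ` -/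
def gon (K : Dat T → T) (x be th : T) : T := gsd o K true (o.add x be) be (o.mul be th)

/-- chart `(a, σ, τ)`, obtuse: `b = 1 - a σ`, `c = 1 - a σ cos(πa/2) τ` -/
def gE (K : Dat T → T) (a s ta : T) : T :=
  lt (o.cs a) fun u => lt (o.sn a) fun sa => lt (o.mul a s) fun be =>
  lt (o.sn be) fun v => lt (o.cs be) fun sb =>
  lt (o.mul be (o.mul u ta)) fun de => lt (o.sn de) fun w => lt (o.cs de) fun sc =>
  lt (o.mul u v) fun uv => lt (o.mul v w) fun vw => lt (o.mul w u) fun wu =>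
  gsdE o K a (o.sub (o.nat 1) be) (o.sub (o.nat 1) de) u v w sa sb sc
    (o.add (o.sub (o.sub (o.mul sa sa) (o.mul v v)) (o.mul w w)) (o.smul 2 (o.mul uv w)))
    (o.sub u vw) (o.sub v wu) (o.sub uv w)

/-! ### final functions for the guards -/

/-- `b + c - 1` -/
def Khx (d : Dat T) : T := o.sub (o.add d.b d.c) (o.nat 1)
/-- `a + c - 1` -/
def Khy (d : Dat T) : T := o.sub (o.add d.a d.c) (o.nat 1)
/-- `a + b - 1` -/
def Khz (d : Dat T) : T := o.sub (o.add d.a d.b) (o.nat 1)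
/-- `1 - b - c` -/
def Knx (d : Dat T) : T := o.sub (o.nat 1) (o.add d.b d.c)
/-- `1 - a - c` -/
def Kny (d : Dat T) : T := o.sub (o.nat 1) (o.add d.a d.c)
/-- `1 - a - b` -/
def Knz (d : Dat T) : T := o.sub (o.nat 1) (o.add d.a d.b)
/-- `1 - (a + 2 b)` -/
def Kab (d : Dat T) : T := o.sub (o.nat 1) (o.add d.a (o.smul 2 d.b))
/-- `1 - (b + 2 a)` -/
def Kba (d : Dat T) : T := o.sub (o.nat 1) (o.add d.b (o.smul 2 d.a))

end FX
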