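import Pool.Agent.H11.FX.Claims
import Pool.Agent.H11.FX.Defs

set_option autoImplicit false

/-!
# True triangle data, real coefficients, the equalities of a certificate
-/

namespace FX

open H45FT Real

/-- the data of a true triangle with sides `a, b, c` -/
noncomputable def tdat (σ a b c : ℝ) : Dat ℝ :=
  ⟨a, b, c, cos (π / 2 * a), cos (π / 2 * b), cos (π / 2 * c), sin (π / 2 * a), sin (π / 2 * b),
    sin (π / 2 * c), gram3 σ a b c, ang (dih σ b c a), |dih σ b c a|, ang (dih σ c a b),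
    |dih σ c a b|, ang (dih σ a b c), |dih σ a b c|⟩

/-- the closed form of `10000 F` on true data, on the piece `pc` -/
noncomputable def Tt (C : Co) (pc : Pc) (σ a b c : ℝ) : ℝ := FG H41FT.rO C pc (tdat σ a b c)

/-- the value of a signed number -/
noncomputable def Sg.r : Sg → ℝ
  | .z => 0
  | .p n => n
  | .m n => -n

/-- the real certificate -/
noncomputable def Co.toCr (C : Co) : Cr where
  k := C.k / 10000
  x := C.x / 10000
  bW := C.bW / 10000
  bV := C.bV / 10000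
  G1 := C.G1.r / 10000
  G2 := C.G2.r / 10000
  aa := (C.ta.r + 2 * C.bV) / 10000
  af := C.af.r / 10000
  ah := C.ah.r / 10000
  ff := C.ff.r / 10000
  fh := C.fh.r / 10000
  hh := C.hh.r / 10000

/-- the equalities satisfied by a certificate -/
structure Good (C : Co) : Prop where
  e1 : 10000 + 2 * (C.k : ℝ) = C.bW + C.bV
  e2 : 2 * (C.bW : ℝ) + C.G1.r + C.G2.r + (C.ta.r + 2 * C.bV) + 2 * C.af.r + C.ff.r = 10000
  e4 : 2 * (C.af.r + C.ff.r + C.G1.r + C.G2.r) =
    -(6 * (C.k : ℝ) + (C.ta.r + 2 * C.bV) + 2 * C.af.r + C.ff.r)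
  e5 : C.ah.r + C.fh.r + C.G2.r = 0

/-- a flag is correct for the sum `s` of the two sides of its vertex -/
def Fl (b : Bool) (s : ℝ) : Prop :=
  match b with
  | true => 1 ≤ s
  | false => s ≤ 1

theorem Fl.ex (s : ℝ) : ∃ b, Fl b s := by
  rcases le_total 1 s with h | h
  · exact ⟨true, h⟩
  · exact ⟨false, h⟩

/-- the half-plane values of the chart guards on true data -/
theorem td_hx (σ a b c : ℝ) : KGf .hx H41FT.rO (tdat σ a b c) = b + c - 1 := by
  show b + c - ((1 : ℕ) : ℝ) = _; push_cast; ring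
theorem td_hy (σ a b c : ℝ) : KGf .hy H41FT.rO (tdat σ a b c) = a + c - 1 := by
  show a + c - ((1 : ℕ) : ℝ) = _; push_cast; ring
theorem td_hz (σ a b c : ℝ) : KGf .hz H41FT.rO (tdat σ a b c) = a + b - 1 := by
  show a + b - ((1 : ℕ) : ℝ) = _; push_cast; ring
theorem td_nx (σ a b c : ℝ) : KGf .nx H41FT.rO (tdat σ a b c) = 1 - (b + c) := by
  show ((1 : ℕ) : ℝ) - (b + c) = _; push_cast; ring
theorem td_ny (σ a b c : ℝ) : KGf .ny H41FT.rO (tdat σ a b c) = 1 - (a + c) := by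
  show ((1 : ℕ) : ℝ) - (a + c) = _; push_cast; ring
theorem td_nz (σ a b c : ℝ) : KGf .nz H41FT.rO (tdat σ a b c) = 1 - (a + b) := by
  show ((1 : ℕ) : ℝ) - (a + b) = _; push_cast; ring
theorem td_ab (σ a b c : ℝ) : KGf .ab H41FT.rO (tdat σ a b c) = 1 - (a + 2 * b) := by
  show ((1 : ℕ) : ℝ) - (a + ((2 : ℕ) : ℝ) * b) = _; push_cast; ring
theorem td_ba (σ a b c : ℝ) : KGf .ba H41FT.rO (tdat σ a b c) = 1 - (b + 2 * a) := by
  show ((1 : ℕ) : ℝ) - (b + ((2 : ℕ) : ℝ) * a) = _; push_cast; ring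

/-- on the chart `f1` the guards `ab`, `ba` do not depend on `γ` -/
theorem CG_f1_ab (r t g g' : ℝ) :
    CG .f1 .ab H41FT.rO r t g = CG .f1 .ab H41FT.rO r t g' := by
  simp only [CG, chart, g1, gcore, H41FT.lt, KGf, Kab]
theorem CG_f1_ba (r t g g' : ℝ) :
    CG .f1 .ba H41FT.rO r t g = CG .f1 .ba H41FT.rO r t g' := by
  simp only [CG, chart, g1, gcore, H41FT.lt, KGf, Kba]

theorem CF_def (h : Ch) (C : Co) (pc : Pc) (x y z : ℝ) :
    CF h C pc H41FT.rO x y z = chart h H41FT.rO (FG H41FT.rO C pc) x y z := rfl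
theorem CG_def (h : Ch) (k : KG) (x y z : ℝ) :
    CG h k H41FT.rO x y z = chart h H41FT.rO (KGf k H41FT.rO) x y z := rfl

end FX
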