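import Pool.Agent.H11.FX.CoAB
import Pool.Agent.H11.FX.TD

set_option autoImplicit false

/-!
# The equalities of the two certificates
-/

namespace FX

theorem goodA : Good coA where
  e1 := by simp only [coA]; norm_num
  e2 := by simp only [coA, Sg.r]; norm_num
  e4 := by simp only [coA, Sg.r]; norm_num
  e5 := by simp only [coA, Sg.r]; norm_num

theorem goodB : Good coB where
  e1 := by simp only [coB]; norm_num
  e2 := by simp only [coB, Sg.r]; norm_num
  e4 := by simp only [coB, Sg.r]; norm_num
  e5 := by simp only [coB, Sg.r]; norm_num

theorem toCrA : coA.toCr = XA := by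
  unfold Co.toCr XA
  simp only [coA, Sg.r]
  norm_num

theorem toCrB : coB.toCr = XB := by
  unfold Co.toCr XB
  simp only [coB, Sg.r]
  norm_num

end FX
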