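import Pool.Agent.H11.FX.Ld
import Pool.Agent.H11.FX.RootsA

set_option autoImplicit false

/-!
# The claims for the certificate A
-/

namespace FX.DA

open H41FT FX

theorem clMA : ∀ p : P, 0 ≤ p 0 → p 0 ≤ 1/10 → 0 ≤ p 1 → p 1 ≤ 1/10 → 0 ≤ p 2 → p 2 ≤ 1 →
    0 < D 1 (D 0 (ev (CF .c3 coA pM))) p ∧ Sm (ev (CF .c3 coA pM)) p := by
  intro p l0 r0 l1 r1 l2 r2
  refine root_MA p ⟨?_, ?_, ?_⟩ (gN0 p) (gN0 p) (gN0 p)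
  · exact in_of (by norm_num [vl, BB, SS]) (by norm_num [vl, BB, SS]) l0 r0
  · exact in_of (by norm_num [vl, BB, SS]) (by norm_num [vl, BB, SS]) l1 r1
  · exact in_of (by norm_num [vl, BB, SS]) (by norm_num [vl, BB, SS]) l2 r2

theorem clMB : ∀ p : P, 0 ≤ p 0 → p 0 ≤ 1/10 → 9/10 ≤ p 1 → p 1 ≤ 1 → 0 ≤ p 2 → p 2 ≤ 1 →
    D 1 (D 0 (ev (CF .c3 coA pM))) p < 0 ∧ Sm (ev (CF .c3 coA pM)) p := by
  intro p l0 r0 l1 r1 l2 r2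
  refine neg_and (root_MB p ⟨?_, ?_, ?_⟩ (gN0 p) (gN0 p) (gN0 p))
  · exact in_of (by norm_num [vl, BB, SS]) (by norm_num [vl, BB, SS]) l0 r0
  · exact in_of (by norm_num [vl, BB, SS]) (by norm_num [vl, BB, SS]) l1 r1
  · exact in_of (by norm_num [vl, BB, SS]) (by norm_num [vl, BB, SS]) l2 r2

theorem clMC : ∀ p : P, 0 ≤ p 0 → p 0 ≤ 1/10 → 1/10 ≤ p 1 → p 1 ≤ 9/10 → 0 ≤ p 2 → p 2 ≤ 1 →
    0 < D 0 (ev (CF .c3 coA pM)) p ∧ Sm (ev (CF .c3 coA pM)) p := by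
  intro p l0 r0 l1 r1 l2 r2
  refine root_MC p ⟨?_, ?_, ?_⟩ (gN0 p) (gN0 p) (gN0 p)
  · exact in_of (by norm_num [vl, BB, SS]) (by norm_num [vl, BB, SS]) l0 r0
  · exact in_of (by norm_num [vl, BB, SS]) (by norm_num [vl, BB, SS]) l1 r1
  · exact in_of (by norm_num [vl, BB, SS]) (by norm_num [vl, BB, SS]) l2 r2

theorem clMD : ∀ p : P, 1/10 ≤ p 0 → p 0 ≤ 67/100 → 0 ≤ p 1 → p 1 ≤ 1/10 → 0 ≤ p 2 → p 2 ≤ 1 →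
    0 < D 1 (ev (CF .c3 coA pM)) p ∧ Sm (ev (CF .c3 coA pM)) p := by
  intro p l0 r0 l1 r1 l2 r2
  refine root_MD p ⟨?_, ?_, ?_⟩ (gN0 p) (gN0 p) (gN0 p)
  · exact in_of (by norm_num [vl, BB, SS]) (by norm_num [vl, BB, SS]) l0 r0
  · exact in_of (by norm_num [vl, BB, SS]) (by norm_num [vl, BB, SS]) l1 r1
  · exact in_of (by norm_num [vl, BB, SS]) (by norm_num [vl, BB, SS]) l2 r2

theorem clME : ∀ p : P, 1/10 ≤ p 0 → p 0 ≤ 67/100 → 9/10 ≤ p 1 → p 1 ≤ 1 → 0 ≤ p 2 → p 2 ≤ 1 →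
    Real.cos (Real.pi / 2 * p 1) * (Real.sin (Real.pi / 2 * p 0) * Real.sin (Real.pi / 2 * p 0)) -
      Real.cos (Real.pi / 2 * p 0) * (Real.cos (Real.pi / 2 * p 0) + p 2) ≤ 0 →
    D 1 (ev (CF .c3 coA pM)) p < 0 ∧ Sm (ev (CF .c3 coA pM)) p := by
  intro p l0 r0 l1 r1 l2 r2 g0
  refine neg_and (root_ME p ⟨?_, ?_, ?_⟩ (gd_gC3 g0) (gN0 p) (gN0 p))
  · exact in_of (by norm_num [vl, BB, SS]) (by norm_num [vl, BB, SS]) l0 r0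
  · exact in_of (by norm_num [vl, BB, SS]) (by norm_num [vl, BB, SS]) l1 r1
  · exact in_of (by norm_num [vl, BB, SS]) (by norm_num [vl, BB, SS]) l2 r2

theorem clMG : ∀ p : P, 1/10 ≤ p 0 → p 0 ≤ 67/100 → 1/10 ≤ p 1 → p 1 ≤ 9/10 → 0 ≤ p 2 → p 2 ≤ 1 →
    Real.cos (Real.pi / 2 * p 1) * (Real.sin (Real.pi / 2 * p 0) * Real.sin (Real.pi / 2 * p 0)) -
      Real.cos (Real.pi / 2 * p 0) * (Real.cos (Real.pi / 2 * p 0) + p 2) ≤ 0 →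
    0 < ev (CF .c3 coA pM) p ∧ Sm (ev (CF .c3 coA pM)) p := by
  intro p l0 r0 l1 r1 l2 r2 g0
  refine root_MG p ⟨?_, ?_, ?_⟩ (gd_gC3 g0) (gN0 p) (gN0 p)
  · exact in_of (by norm_num [vl, BB, SS]) (by norm_num [vl, BB, SS]) l0 r0
  · exact in_of (by norm_num [vl, BB, SS]) (by norm_num [vl, BB, SS]) l1 r1
  · exact in_of (by norm_num [vl, BB, SS]) (by norm_num [vl, BB, SS]) l2 r2

theorem clSA : ∀ p : P, 0 ≤ p 0 → p 0 ≤ 1/25 → 0 ≤ p 1 → p 1 ≤ 1/25 → 0 ≤ p 2 → p 2 ≤ 0 →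
    0 < D 1 (D 0 (ev (CF .sd coA pM))) p ∧ Sm (ev (CF .sd coA pM)) p := by
  intro p l0 r0 l1 r1 l2 r2
  refine root_SA p ⟨?_, ?_, ?_⟩ (gN0 p) (gN0 p) (gN0 p)
  · exact in_of (by norm_num [vl, BB, SS]) (by norm_num [vl, BB, SS]) l0 r0
  · exact in_of (by norm_num [vl, BB, SS]) (by norm_num [vl, BB, SS]) l1 r1
  · exact in_of (by norm_num [vl, BB, SS]) (by norm_num [vl, BB, SS]) l2 r2

theorem clSB : ∀ p : P, 0 ≤ p 0 → p 0 ≤ 1/25 → 0 ≤ p 1 → p 1 ≤ 1/25 → 0 ≤ p 2 → p 2 ≤ 1/25 →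
    0 < D 2 (D 0 (ev (CF .sd coA pM))) p ∧ Sm (ev (CF .sd coA pM)) p := by
  intro p l0 r0 l1 r1 l2 r2
  refine root_SB p ⟨?_, ?_, ?_⟩ (gN0 p) (gN0 p) (gN0 p)
  · exact in_of (by norm_num [vl, BB, SS]) (by norm_num [vl, BB, SS]) l0 r0
  · exact in_of (by norm_num [vl, BB, SS]) (by norm_num [vl, BB, SS]) l1 r1
  · exact in_of (by norm_num [vl, BB, SS]) (by norm_num [vl, BB, SS]) l2 r2

theorem clSC : ∀ p : P, 0 ≤ p 0 → p 0 ≤ 0 → 0 ≤ p 1 → p 1 ≤ 1/25 → 0 ≤ p 2 → p 2 ≤ 1/25 →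
    0 < D 2 (D 1 (ev (CF .sd coA pM))) p ∧ Sm (ev (CF .sd coA pM)) p := by
  intro p l0 r0 l1 r1 l2 r2
  refine root_SC p ⟨?_, ?_, ?_⟩ (gN0 p) (gN0 p) (gN0 p)
  · exact in_of (by norm_num [vl, BB, SS]) (by norm_num [vl, BB, SS]) l0 r0
  · exact in_of (by norm_num [vl, BB, SS]) (by norm_num [vl, BB, SS]) l1 r1
  · exact in_of (by norm_num [vl, BB, SS]) (by norm_num [vl, BB, SS]) l2 r2

theorem clSE : ∀ p : P, 1/25 ≤ p 0 → p 0 ≤ 33/100 → 0 ≤ p 1 → p 1 ≤ 3/100 → 0 ≤ p 2 → p 2 ≤ 3/100 →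
    0 < D 1 (ev (CF .sd coA pM)) p ∧ Sm (ev (CF .sd coA pM)) p := by
  intro p l0 r0 l1 r1 l2 r2
  refine root_SE p ⟨?_, ?_, ?_⟩ (gN0 p) (gN0 p) (gN0 p)
  · exact in_of (by norm_num [vl, BB, SS]) (by norm_num [vl, BB, SS]) l0 r0
  · exact in_of (by norm_num [vl, BB, SS]) (by norm_num [vl, BB, SS]) l1 r1
  · exact in_of (by norm_num [vl, BB, SS]) (by norm_num [vl, BB, SS]) l2 r2

theorem clSF : ∀ p : P, 1/25 ≤ p 0 → p 0 ≤ 33/100 → 0 ≤ p 1 → p 1 ≤ 3/100 → 0 ≤ p 2 → p 2 ≤ 3/100 →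
    0 < D 2 (ev (CF .sd coA pM)) p ∧ Sm (ev (CF .sd coA pM)) p := by
  intro p l0 r0 l1 r1 l2 r2
  refine root_SF p ⟨?_, ?_, ?_⟩ (gN0 p) (gN0 p) (gN0 p)
  · exact in_of (by norm_num [vl, BB, SS]) (by norm_num [vl, BB, SS]) l0 r0
  · exact in_of (by norm_num [vl, BB, SS]) (by norm_num [vl, BB, SS]) l1 r1
  · exact in_of (by norm_num [vl, BB, SS]) (by norm_num [vl, BB, SS]) l2 r2

theorem clS0 : ∀ p : P, 0 ≤ p 0 → p 0 ≤ 33/100 → 3/100 ≤ p 1 → p 1 ≤ 33/100 → 0 ≤ p 2 → p 2 ≤ 33/100 →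
    p 1 - p 0 ≤ 0 →
    p 2 - p 1 ≤ 0 →
    0 < ev (CF .sd coA pM) p ∧ Sm (ev (CF .sd coA pM)) p := by
  intro p l0 r0 l1 r1 l2 r2 g0 g1
  refine root_S0 p ⟨?_, ?_, ?_⟩ (gd_gXY g0) (gd_gYZ g1) (gN0 p)
  · exact in_of (by norm_num [vl, BB, SS]) (by norm_num [vl, BB, SS]) l0 r0
  · exact in_of (by norm_num [vl, BB, SS]) (by norm_num [vl, BB, SS]) l1 r1
  · exact in_of (by norm_num [vl, BB, SS]) (by norm_num [vl, BB, SS]) l2 r2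

theorem clPA : ∀ p : P, 0 ≤ p 0 → p 0 ≤ 1/10 → 0 ≤ p 1 → p 1 ≤ 1/10 → 0 ≤ p 2 → p 2 ≤ 3/20 →
    0 < D 2 (D 0 (D 1 (ev (CF .f1 coA pO000)))) p ∧ Sm (ev (CF .f1 coA pO000)) p := by
  intro p l0 r0 l1 r1 l2 r2
  refine root_PA p ⟨?_, ?_, ?_⟩ (gN0 p) (gN0 p) (gN0 p)
  · exact in_of (by norm_num [vl, BB, SS]) (by norm_num [vl, BB, SS]) l0 r0
  · exact in_of (by norm_num [vl, BB, SS]) (by norm_num [vl, BB, SS]) l1 r1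
  · exact in_of (by norm_num [vl, BB, SS]) (by norm_num [vl, BB, SS]) l2 r2

theorem clPB : ∀ p : P, 0 ≤ p 0 → p 0 ≤ 1/10 → 0 ≤ p 1 → p 1 ≤ 1/10 → 3/20 ≤ p 2 → p 2 ≤ 1 →
    0 < D 0 (D 1 (ev (CF .f1 coA pO000))) p ∧ Sm (ev (CF .f1 coA pO000)) p := by
  intro p l0 r0 l1 r1 l2 r2
  refine root_PB p ⟨?_, ?_, ?_⟩ (gN0 p) (gN0 p) (gN0 p)
  · exact in_of (by norm_num [vl, BB, SS]) (by norm_num [vl, BB, SS]) l0 r0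
  · exact in_of (by norm_num [vl, BB, SS]) (by norm_num [vl, BB, SS]) l1 r1
  · exact in_of (by norm_num [vl, BB, SS]) (by norm_num [vl, BB, SS]) l2 r2

theorem clPC : ∀ p : P, 1/10 ≤ p 0 → p 0 ≤ 1 → 0 ≤ p 1 → p 1 ≤ 1/10 → 0 ≤ p 2 → p 2 ≤ 3/20 →
    0 < D 2 (D 1 (ev (CF .f1 coA pO000))) p ∧ Sm (ev (CF .f1 coA pO000)) p := by
  intro p l0 r0 l1 r1 l2 r2
  refine root_PC p ⟨?_, ?_, ?_⟩ (gN0 p) (gN0 p) (gN0 p)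
  · exact in_of (by norm_num [vl, BB, SS]) (by norm_num [vl, BB, SS]) l0 r0
  · exact in_of (by norm_num [vl, BB, SS]) (by norm_num [vl, BB, SS]) l1 r1
  · exact in_of (by norm_num [vl, BB, SS]) (by norm_num [vl, BB, SS]) l2 r2

theorem clPD : ∀ p : P, 1/10 ≤ p 0 → p 0 ≤ 1 → 0 ≤ p 1 → p 1 ≤ 1/10 → 3/20 ≤ p 2 → p 2 ≤ 1 →
    0 < D 1 (ev (CF .f1 coA pO000)) p ∧ Sm (ev (CF .f1 coA pO000)) p := by
  intro p l0 r0 l1 r1 l2 r2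
  refine root_PD p ⟨?_, ?_, ?_⟩ (gN0 p) (gN0 p) (gN0 p)
  · exact in_of (by norm_num [vl, BB, SS]) (by norm_num [vl, BB, SS]) l0 r0
  · exact in_of (by norm_num [vl, BB, SS]) (by norm_num [vl, BB, SS]) l1 r1
  · exact in_of (by norm_num [vl, BB, SS]) (by norm_num [vl, BB, SS]) l2 r2

theorem clPE0 : ∀ p : P, 0 ≤ p 0 → p 0 ≤ 1/10 → 1/10 ≤ p 1 → p 1 ≤ 4143/10000 → 0 ≤ p 2 → p 2 ≤ 3/20 →
    p 0 * p 1 + p 1 + p 0 * p 1 * p 1 - 1 ≤ 0 →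
    0 < D 2 (D 0 (ev (CF .f1 coA pO000))) p ∧ Sm (ev (CF .f1 coA pO000)) p := by
  intro p l0 r0 l1 r1 l2 r2 g0
  refine root_PE0 p ⟨?_, ?_, ?_⟩ (gd_gT1 g0) (gN0 p) (gN0 p)
  · exact in_of (by norm_num [vl, BB, SS]) (by norm_num [vl, BB, SS]) l0 r0
  · exact in_of (by norm_num [vl, BB, SS]) (by norm_num [vl, BB, SS]) l1 r1
  · exact in_of (by norm_num [vl, BB, SS]) (by norm_num [vl, BB, SS]) l2 r2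

theorem clPE1 : ∀ p : P, 0 ≤ p 0 → p 0 ≤ 1/10 → 9/25 ≤ p 1 → p 1 ≤ 534/625 → 0 ≤ p 2 → p 2 ≤ 3/20 →
    p 0 * p 1 + p 1 + p 0 * p 1 * p 1 - 1 ≤ 0 →
    0 < D 2 (D 0 (ev (CF .f1 coA pO100))) p ∧ Sm (ev (CF .f1 coA pO100)) p := by
  intro p l0 r0 l1 r1 l2 r2 g0
  refine root_PE1 p ⟨?_, ?_, ?_⟩ (gd_gT1 g0) (gN0 p) (gN0 p)
  · exact in_of (by norm_num [vl, BB, SS]) (by norm_num [vl, BB, SS]) l0 r0
  · exact in_of (by norm_num [vl, BB, SS]) (by norm_num [vl, BB, SS]) l1 r1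
  · exact in_of (by norm_num [vl, BB, SS]) (by norm_num [vl, BB, SS]) l2 r2

theorem clPF0 : ∀ p : P, 0 ≤ p 0 → p 0 ≤ 1/10 → 1/10 ≤ p 1 → p 1 ≤ 4143/10000 → 3/20 ≤ p 2 → p 2 ≤ 1 →
    p 0 * p 1 + p 1 + p 0 * p 1 * p 1 - 1 ≤ 0 →
    0 < D 0 (ev (CF .f1 coA pO000)) p ∧ Sm (ev (CF .f1 coA pO000)) p := by
  intro p l0 r0 l1 r1 l2 r2 g0
  refine root_PF0 p ⟨?_, ?_, ?_⟩ (gd_gT1 g0) (gN0 p) (gN0 p)
  · exact in_of (by norm_num [vl, BB, SS]) (by norm_num [vl, BB, SS]) l0 r0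
  · exact in_of (by norm_num [vl, BB, SS]) (by norm_num [vl, BB, SS]) l1 r1
  · exact in_of (by norm_num [vl, BB, SS]) (by norm_num [vl, BB, SS]) l2 r2

theorem clPF1 : ∀ p : P, 0 ≤ p 0 → p 0 ≤ 1/10 → 9/25 ≤ p 1 → p 1 ≤ 534/625 → 3/20 ≤ p 2 → p 2 ≤ 1 →
    p 0 * p 1 + p 1 + p 0 * p 1 * p 1 - 1 ≤ 0 →
    0 < D 0 (ev (CF .f1 coA pO100)) p ∧ Sm (ev (CF .f1 coA pO100)) p := by
  intro p l0 r0 l1 r1 l2 r2 g0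
  refine root_PF1 p ⟨?_, ?_, ?_⟩ (gd_gT1 g0) (gN0 p) (gN0 p)
  · exact in_of (by norm_num [vl, BB, SS]) (by norm_num [vl, BB, SS]) l0 r0
  · exact in_of (by norm_num [vl, BB, SS]) (by norm_num [vl, BB, SS]) l1 r1
  · exact in_of (by norm_num [vl, BB, SS]) (by norm_num [vl, BB, SS]) l2 r2

theorem clPG0 : ∀ p : P, 1/10 ≤ p 0 → p 0 ≤ 1 → 1/10 ≤ p 1 → p 1 ≤ 4143/10000 → 0 ≤ p 2 → p 2 ≤ 3/20 →
    p 0 * p 1 + p 1 + p 0 * p 1 * p 1 - 1 ≤ 0 →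
    0 < D 2 (ev (CF .f1 coA pO000)) p ∧ Sm (ev (CF .f1 coA pO000)) p := by
  intro p l0 r0 l1 r1 l2 r2 g0
  refine root_PG0 p ⟨?_, ?_, ?_⟩ (gd_gT1 g0) (gN0 p) (gN0 p)
  · exact in_of (by norm_num [vl, BB, SS]) (by norm_num [vl, BB, SS]) l0 r0
  · exact in_of (by norm_num [vl, BB, SS]) (by norm_num [vl, BB, SS]) l1 r1
  · exact in_of (by norm_num [vl, BB, SS]) (by norm_num [vl, BB, SS]) l2 r2

theorem clPG1 : ∀ p : P, 1/10 ≤ p 0 → p 0 ≤ 1 → 6/25 ≤ p 1 → p 1 ≤ 534/625 → 0 ≤ p 2 → p 2 ≤ 3/20 →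
    p 0 * p 1 + p 1 + p 0 * p 1 * p 1 - 1 ≤ 0 →
    CG .f1 .ab rO (p 0) (p 1) (p 2) ≤ 0 →
    0 < D 2 (ev (CF .f1 coA pO100)) p ∧ Sm (ev (CF .f1 coA pO100)) p := by
  intro p l0 r0 l1 r1 l2 r2 g0 g1
  refine root_PG1 p ⟨?_, ?_, ?_⟩ (gd_gT1 g0) (gd_CG g1) (gN0 p)
  · exact in_of (by norm_num [vl, BB, SS]) (by norm_num [vl, BB, SS]) l0 r0
  · exact in_of (by norm_num [vl, BB, SS]) (by norm_num [vl, BB, SS]) l1 r1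
  · exact in_of (by norm_num [vl, BB, SS]) (by norm_num [vl, BB, SS]) l2 r2

theorem clPG2 : ∀ p : P, 1/10 ≤ p 0 → p 0 ≤ 1 → 6/25 ≤ p 1 → p 1 ≤ 534/625 → 0 ≤ p 2 → p 2 ≤ 3/20 →
    p 0 * p 1 + p 1 + p 0 * p 1 * p 1 - 1 ≤ 0 →
    CG .f1 .ba rO (p 0) (p 1) (p 2) ≤ 0 →
    0 < D 2 (ev (CF .f1 coA pO110)) p ∧ Sm (ev (CF .f1 coA pO110)) p := by
  intro p l0 r0 l1 r1 l2 r2 g0 g1
  refine root_PG2 p ⟨?_, ?_, ?_⟩ (gd_gT1 g0) (gd_CG g1) (gN0 p)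
  · exact in_of (by norm_num [vl, BB, SS]) (by norm_num [vl, BB, SS]) l0 r0
  · exact in_of (by norm_num [vl, BB, SS]) (by norm_num [vl, BB, SS]) l1 r1
  · exact in_of (by norm_num [vl, BB, SS]) (by norm_num [vl, BB, SS]) l2 r2

theorem clPH0 : ∀ p : P, 1/10 ≤ p 0 → p 0 ≤ 1 → 1/10 ≤ p 1 → p 1 ≤ 4143/10000 → 3/20 ≤ p 2 → p 2 ≤ 1 →
    p 0 * p 1 + p 1 + p 0 * p 1 * p 1 - 1 ≤ 0 →
    CG .f1 .hx rO (p 0) (p 1) (p 2) ≤ 0 →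
    0 < ev (CF .f1 coA pO000) p ∧ Sm (ev (CF .f1 coA pO000)) p := by
  intro p l0 r0 l1 r1 l2 r2 g0 g1
  refine root_PH0 p ⟨?_, ?_, ?_⟩ (gd_gT1 g0) (gd_CG g1) (gN0 p)
  · exact in_of (by norm_num [vl, BB, SS]) (by norm_num [vl, BB, SS]) l0 r0
  · exact in_of (by norm_num [vl, BB, SS]) (by norm_num [vl, BB, SS]) l1 r1
  · exact in_of (by norm_num [vl, BB, SS]) (by norm_num [vl, BB, SS]) l2 r2

theorem clPH1 : ∀ p : P, 1/10 ≤ p 0 → p 0 ≤ 1 → 1/5 ≤ p 1 → p 1 ≤ 534/625 → 3/20 ≤ p 2 → p 2 ≤ 1 →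
    p 0 * p 1 + p 1 + p 0 * p 1 * p 1 - 1 ≤ 0 →
    CG .f1 .nx rO (p 0) (p 1) (p 2) ≤ 0 →
    CG .f1 .hy rO (p 0) (p 1) (p 2) ≤ 0 →
    0 < ev (CF .f1 coA pO100) p ∧ Sm (ev (CF .f1 coA pO100)) p := by
  intro p l0 r0 l1 r1 l2 r2 g0 g1 g2
  refine root_PH1 p ⟨?_, ?_, ?_⟩ (gd_gT1 g0) (gd_CG g1) (gd_CG g2)
  · exact in_of (by norm_num [vl, BB, SS]) (by norm_num [vl, BB, SS]) l0 r0
  · exact in_of (by norm_num [vl, BB, SS]) (by norm_num [vl, BB, SS]) l1 r1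
  · exact in_of (by norm_num [vl, BB, SS]) (by norm_num [vl, BB, SS]) l2 r2

theorem clPH2 : ∀ p : P, 1/10 ≤ p 0 → p 0 ≤ 1 → 1/5 ≤ p 1 → p 1 ≤ 534/625 → 3/20 ≤ p 2 → p 2 ≤ 1 →
    p 0 * p 1 + p 1 + p 0 * p 1 * p 1 - 1 ≤ 0 →
    CG .f1 .ny rO (p 0) (p 1) (p 2) ≤ 0 →
    0 < ev (CF .f1 coA pO110) p ∧ Sm (ev (CF .f1 coA pO110)) p := by
  intro p l0 r0 l1 r1 l2 r2 g0 g1
  refine root_PH2 p ⟨?_, ?_, ?_⟩ (gd_gT1 g0) (gd_CG g1) (gN0 p)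
  · exact in_of (by norm_num [vl, BB, SS]) (by norm_num [vl, BB, SS]) l0 r0
  · exact in_of (by norm_num [vl, BB, SS]) (by norm_num [vl, BB, SS]) l1 r1
  · exact in_of (by norm_num [vl, BB, SS]) (by norm_num [vl, BB, SS]) l2 r2

theorem clZA : ∀ p : P, 0 ≤ p 0 → p 0 ≤ 1/10 → 0 ≤ p 1 → p 1 ≤ 1/10 → 0 ≤ p 2 → p 2 ≤ 1 →
    0 < D 0 (D 1 (ev (CF .f0 coA pA000))) p ∧ Sm (ev (CF .f0 coA pA000)) p := by
  intro p l0 r0 l1 r1 l2 r2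
  refine root_ZA p ⟨?_, ?_, ?_⟩ (gN0 p) (gN0 p) (gN0 p)
  · exact in_of (by norm_num [vl, BB, SS]) (by norm_num [vl, BB, SS]) l0 r0
  · exact in_of (by norm_num [vl, BB, SS]) (by norm_num [vl, BB, SS]) l1 r1
  · exact in_of (by norm_num [vl, BB, SS]) (by norm_num [vl, BB, SS]) l2 r2

theorem clZB : ∀ p : P, 1/10 ≤ p 0 → p 0 ≤ 1 → 0 ≤ p 1 → p 1 ≤ 1/10 → 0 ≤ p 2 → p 2 ≤ 1 →
    0 < D 1 (ev (CF .f0 coA pA000)) p ∧ Sm (ev (CF .f0 coA pA000)) p := by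
  intro p l0 r0 l1 r1 l2 r2
  refine root_ZB p ⟨?_, ?_, ?_⟩ (gN0 p) (gN0 p) (gN0 p)
  · exact in_of (by norm_num [vl, BB, SS]) (by norm_num [vl, BB, SS]) l0 r0
  · exact in_of (by norm_num [vl, BB, SS]) (by norm_num [vl, BB, SS]) l1 r1
  · exact in_of (by norm_num [vl, BB, SS]) (by norm_num [vl, BB, SS]) l2 r2

theorem clZC0 : ∀ p : P, 0 ≤ p 0 → p 0 ≤ 1/10 → 1/10 ≤ p 1 → p 1 ≤ 4143/10000 → 0 ≤ p 2 → p 2 ≤ 1 →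
    0 < D 0 (ev (CF .f0 coA pA000)) p ∧ Sm (ev (CF .f0 coA pA000)) p := by
  intro p l0 r0 l1 r1 l2 r2
  refine root_ZC0 p ⟨?_, ?_, ?_⟩ (gN0 p) (gN0 p) (gN0 p)
  · exact in_of (by norm_num [vl, BB, SS]) (by norm_num [vl, BB, SS]) l0 r0
  · exact in_of (by norm_num [vl, BB, SS]) (by norm_num [vl, BB, SS]) l1 r1
  · exact in_of (by norm_num [vl, BB, SS]) (by norm_num [vl, BB, SS]) l2 r2

theorem clZC1 : ∀ p : P, 0 ≤ p 0 → p 0 ≤ 1/10 → 9/25 ≤ p 1 → p 1 ≤ 191/200 → 0 ≤ p 2 → p 2 ≤ 1 →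
    0 < D 0 (ev (CF .f0 coA pA100)) p ∧ Sm (ev (CF .f0 coA pA100)) p := by
  intro p l0 r0 l1 r1 l2 r2
  refine root_ZC1 p ⟨?_, ?_, ?_⟩ (gN0 p) (gN0 p) (gN0 p)
  · exact in_of (by norm_num [vl, BB, SS]) (by norm_num [vl, BB, SS]) l0 r0
  · exact in_of (by norm_num [vl, BB, SS]) (by norm_num [vl, BB, SS]) l1 r1
  · exact in_of (by norm_num [vl, BB, SS]) (by norm_num [vl, BB, SS]) l2 r2

theorem clZD0 : ∀ p : P, 1/10 ≤ p 0 → p 0 ≤ 1 → 1/10 ≤ p 1 → p 1 ≤ 4143/10000 → 0 ≤ p 2 → p 2 ≤ 1 →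
    CG .f0 .hx rO (p 0) (p 1) (p 2) ≤ 0 →
    0 < ev (CF .f0 coA pA000) p ∧ Sm (ev (CF .f0 coA pA000)) p := by
  intro p l0 r0 l1 r1 l2 r2 g0
  refine root_ZD0 p ⟨?_, ?_, ?_⟩ (gd_CG g0) (gN0 p) (gN0 p)
  · exact in_of (by norm_num [vl, BB, SS]) (by norm_num [vl, BB, SS]) l0 r0
  · exact in_of (by norm_num [vl, BB, SS]) (by norm_num [vl, BB, SS]) l1 r1
  · exact in_of (by norm_num [vl, BB, SS]) (by norm_num [vl, BB, SS]) l2 r2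

theorem clZD1 : ∀ p : P, 1/10 ≤ p 0 → p 0 ≤ 1 → 1/5 ≤ p 1 → p 1 ≤ 191/200 → 0 ≤ p 2 → p 2 ≤ 1 →
    CG .f0 .nx rO (p 0) (p 1) (p 2) ≤ 0 →
    CG .f0 .hy rO (p 0) (p 1) (p 2) ≤ 0 →
    0 < ev (CF .f0 coA pA100) p ∧ Sm (ev (CF .f0 coA pA100)) p := by
  intro p l0 r0 l1 r1 l2 r2 g0 g1
  refine root_ZD1 p ⟨?_, ?_, ?_⟩ (gd_CG g0) (gd_CG g1) (gN0 p)
  · exact in_of (by norm_num [vl, BB, SS]) (by norm_num [vl, BB, SS]) l0 r0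
  · exact in_of (by norm_num [vl, BB, SS]) (by norm_num [vl, BB, SS]) l1 r1
  · exact in_of (by norm_num [vl, BB, SS]) (by norm_num [vl, BB, SS]) l2 r2

theorem clZD2 : ∀ p : P, 1/10 ≤ p 0 → p 0 ≤ 1 → 1/5 ≤ p 1 → p 1 ≤ 191/200 → 0 ≤ p 2 → p 2 ≤ 1 →
    CG .f0 .ny rO (p 0) (p 1) (p 2) ≤ 0 →
    CG .f0 .hz rO (p 0) (p 1) (p 2) ≤ 0 →
    0 < ev (CF .f0 coA pA110) p ∧ Sm (ev (CF .f0 coA pA110)) p := by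
  intro p l0 r0 l1 r1 l2 r2 g0 g1
  refine root_ZD2 p ⟨?_, ?_, ?_⟩ (gd_CG g0) (gd_CG g1) (gN0 p)
  · exact in_of (by norm_num [vl, BB, SS]) (by norm_num [vl, BB, SS]) l0 r0
  · exact in_of (by norm_num [vl, BB, SS]) (by norm_num [vl, BB, SS]) l1 r1
  · exact in_of (by norm_num [vl, BB, SS]) (by norm_num [vl, BB, SS]) l2 r2

theorem clZD3 : ∀ p : P, 1/10 ≤ p 0 → p 0 ≤ 1 → 2/5 ≤ p 1 → p 1 ≤ 191/200 → 0 ≤ p 2 → p 2 ≤ 1 →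
    CG .f0 .nz rO (p 0) (p 1) (p 2) ≤ 0 →
    0 < ev (CF .f0 coA pA111) p ∧ Sm (ev (CF .f0 coA pA111)) p := by
  intro p l0 r0 l1 r1 l2 r2 g0
  refine root_ZD3 p ⟨?_, ?_, ?_⟩ (gd_CG g0) (gN0 p) (gN0 p)
  · exact in_of (by norm_num [vl, BB, SS]) (by norm_num [vl, BB, SS]) l0 r0
  · exact in_of (by norm_num [vl, BB, SS]) (by norm_num [vl, BB, SS]) l1 r1
  · exact in_of (by norm_num [vl, BB, SS]) (by norm_num [vl, BB, SS]) l2 r2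

theorem clZE : ∀ p : P, 0 ≤ p 0 → p 0 ≤ 1/10 → 191/200 ≤ p 1 → p 1 ≤ 1 → 0 ≤ p 2 → p 2 ≤ 1 →
    D 0 (D 1 (ev (CF .f0 coA pA100))) p < 0 ∧ Sm (ev (CF .f0 coA pA100)) p := by
  intro p l0 r0 l1 r1 l2 r2
  refine neg_and (root_ZE p ⟨?_, ?_, ?_⟩ (gN0 p) (gN0 p) (gN0 p))
  · exact in_of (by norm_num [vl, BB, SS]) (by norm_num [vl, BB, SS]) l0 r0
  · exact in_of (by norm_num [vl, BB, SS]) (by norm_num [vl, BB, SS]) l1 r1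
  · exact in_of (by norm_num [vl, BB, SS]) (by norm_num [vl, BB, SS]) l2 r2

theorem clZF : ∀ p : P, 1/10 ≤ p 0 → p 0 ≤ 191/200 → 191/200 ≤ p 1 → p 1 ≤ 1 → 0 ≤ p 2 → p 2 ≤ 1 →
    D 1 (ev (CF .f0 coA pA111)) p < 0 ∧ Sm (ev (CF .f0 coA pA111)) p := by
  intro p l0 r0 l1 r1 l2 r2
  refine neg_and (root_ZF p ⟨?_, ?_, ?_⟩ (gN0 p) (gN0 p) (gN0 p))
  · exact in_of (by norm_num [vl, BB, SS]) (by norm_num [vl, BB, SS]) l0 r0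
  · exact in_of (by norm_num [vl, BB, SS]) (by norm_num [vl, BB, SS]) l1 r1
  · exact in_of (by norm_num [vl, BB, SS]) (by norm_num [vl, BB, SS]) l2 r2

theorem clOA : ∀ p : P, 0 ≤ p 0 → p 0 ≤ 3/50 → 0 ≤ p 1 → p 1 ≤ 3/50 → 0 ≤ p 2 → p 2 ≤ 1 →
    50 * (p 0 + p 1) - 3 ≤ 0 →
    0 < D 1 (D 0 (ev (CF .on coA pA111))) p ∧ Sm (ev (CF .on coA pA111)) p := by
  intro p l0 r0 l1 r1 l2 r2 g0
  refine root_OA p ⟨?_, ?_, ?_⟩ (gd_gO6 g0) (gN0 p) (gN0 p)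
  · exact in_of (by norm_num [vl, BB, SS]) (by norm_num [vl, BB, SS]) l0 r0
  · exact in_of (by norm_num [vl, BB, SS]) (by norm_num [vl, BB, SS]) l1 r1
  · exact in_of (by norm_num [vl, BB, SS]) (by norm_num [vl, BB, SS]) l2 r2

theorem clOB : ∀ p : P, 0 ≤ p 0 → p 0 ≤ 3/50 → 0 ≤ p 1 → p 1 ≤ 3/50 → 0 ≤ p 2 → p 2 ≤ 1 →
    50 * (p 0 + p 1) - 3 ≤ 0 →
    0 < D 1 (D 1 (ev (CF .on coA pA111))) p ∧ Sm (ev (CF .on coA pA111)) p := by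
  intro p l0 r0 l1 r1 l2 r2 g0
  refine root_OB p ⟨?_, ?_, ?_⟩ (gd_gO6 g0) (gN0 p) (gN0 p)
  · exact in_of (by norm_num [vl, BB, SS]) (by norm_num [vl, BB, SS]) l0 r0
  · exact in_of (by norm_num [vl, BB, SS]) (by norm_num [vl, BB, SS]) l1 r1
  · exact in_of (by norm_num [vl, BB, SS]) (by norm_num [vl, BB, SS]) l2 r2

theorem clQD : ∀ p : P, 13/20 ≤ p 0 → p 0 ≤ 1 → 13/20 ≤ p 1 → p 1 ≤ 1 → 0 ≤ p 2 → p 2 ≤ 1 →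
    Real.sin (Real.pi / 2 * p 0) * Real.sin (Real.pi / 2 * p 1) * Real.cos (Real.pi / 2 * p 2) -
      Real.cos (Real.pi / 2 * p 0) * Real.cos (Real.pi / 2 * p 1) ≤ 0 →
    p 0 - p 1 ≤ 0 →
    0 < D 2 (ev (CF .G coA pO111)) p ∧ Sm (ev (CF .G coA pO111)) p := by
  intro p l0 r0 l1 r1 l2 r2 g0 g1
  refine root_QD p ⟨?_, ?_, ?_⟩ (gd_gW g0) (gd_gYX g1) (gN0 p)
  · exact in_of (by norm_num [vl, BB, SS]) (by norm_num [vl, BB, SS]) l0 r0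
  · exact in_of (by norm_num [vl, BB, SS]) (by norm_num [vl, BB, SS]) l1 r1
  · exact in_of (by norm_num [vl, BB, SS]) (by norm_num [vl, BB, SS]) l2 r2

theorem clU1 : ∀ p : P, 0 ≤ p 0 → p 0 ≤ 7/100 → 0 ≤ p 1 → p 1 ≤ 3/20 → 3/10 ≤ p 2 → p 2 ≤ 1 →
    0 < D 0 (D 1 (ev (CF .R coA pO111))) p ∧ Sm (ev (CF .R coA pO111)) p := by
  intro p l0 r0 l1 r1 l2 r2
  refine root_U1 p ⟨?_, ?_, ?_⟩ (gN0 p) (gN0 p) (gN0 p)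
  · exact in_of (by norm_num [vl, BB, SS]) (by norm_num [vl, BB, SS]) l0 r0
  · exact in_of (by norm_num [vl, BB, SS]) (by norm_num [vl, BB, SS]) l1 r1
  · exact in_of (by norm_num [vl, BB, SS]) (by norm_num [vl, BB, SS]) l2 r2

theorem clU3 : ∀ p : P, 0 ≤ p 0 → p 0 ≤ 7/100 → 3/20 ≤ p 1 → p 1 ≤ 3/10 → 3/10 ≤ p 2 → p 2 ≤ 1 →
    0 < D 0 (ev (CF .R coA pO111)) p ∧ Sm (ev (CF .R coA pO111)) p := by
  intro p l0 r0 l1 r1 l2 r2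
  refine root_U3 p ⟨?_, ?_, ?_⟩ (gN0 p) (gN0 p) (gN0 p)
  · exact in_of (by norm_num [vl, BB, SS]) (by norm_num [vl, BB, SS]) l0 r0
  · exact in_of (by norm_num [vl, BB, SS]) (by norm_num [vl, BB, SS]) l1 r1
  · exact in_of (by norm_num [vl, BB, SS]) (by norm_num [vl, BB, SS]) l2 r2

theorem clU2 : ∀ p : P, 0 ≤ p 0 → p 0 ≤ 7/100 → 0 ≤ p 1 → p 1 ≤ 3/10 → 0 ≤ p 2 → p 2 ≤ 3/10 →
    0 < D 0 (D 1 (D 2 (ev (CF .R coA pO111)))) p ∧ Sm (ev (CF .R coA pO111)) p := by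
  intro p l0 r0 l1 r1 l2 r2
  refine root_U2 p ⟨?_, ?_, ?_⟩ (gN0 p) (gN0 p) (gN0 p)
  · exact in_of (by norm_num [vl, BB, SS]) (by norm_num [vl, BB, SS]) l0 r0
  · exact in_of (by norm_num [vl, BB, SS]) (by norm_num [vl, BB, SS]) l1 r1
  · exact in_of (by norm_num [vl, BB, SS]) (by norm_num [vl, BB, SS]) l2 r2

theorem clE1 : ∀ p : P, 7/100 ≤ p 0 → p 0 ≤ 13/20 → 0 ≤ p 1 → p 1 ≤ 1/10 → 0 ≤ p 2 → p 2 ≤ 1 →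
    0 < D 1 (ev (CF .E coA pO111)) p ∧ Sm (ev (CF .E coA pO111)) p := by
  intro p l0 r0 l1 r1 l2 r2
  refine root_E1 p ⟨?_, ?_, ?_⟩ (gN0 p) (gN0 p) (gN0 p)
  · exact in_of (by norm_num [vl, BB, SS]) (by norm_num [vl, BB, SS]) l0 r0
  · exact in_of (by norm_num [vl, BB, SS]) (by norm_num [vl, BB, SS]) l1 r1
  · exact in_of (by norm_num [vl, BB, SS]) (by norm_num [vl, BB, SS]) l2 r2

theorem clR2a : ∀ p : P, 7/100 ≤ p 0 → p 0 ≤ 13/20 → 47/100 ≤ p 1 → p 1 ≤ 1 → 0 ≤ p 2 → p 2 ≤ 3/10 →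
    Real.sin (Real.pi / 2 * p 0) * Real.sin (Real.pi / 2 * p 1) * Real.cos (Real.pi / 2 * p 2) -
      Real.cos (Real.pi / 2 * p 0) * Real.cos (Real.pi / 2 * p 1) ≤ 0 →
    1 - (p 0 + p 1) ≤ 0 →
    10 * p 1 + p 0 - 10 ≤ 0 →
    0 < D 2 (ev (CF .G coA pO111)) p ∧ Sm (ev (CF .G coA pO111)) p := by
  intro p l0 r0 l1 r1 l2 r2 g0 g1 g2
  refine root_R2a p ⟨?_, ?_, ?_⟩ (gd_gW g0) (gd_gS1 g1) (gd_gGb g2)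
  · exact in_of (by norm_num [vl, BB, SS]) (by norm_num [vl, BB, SS]) l0 r0
  · exact in_of (by norm_num [vl, BB, SS]) (by norm_num [vl, BB, SS]) l1 r1
  · exact in_of (by norm_num [vl, BB, SS]) (by norm_num [vl, BB, SS]) l2 r2

theorem clR2b : ∀ p : P, 7/100 ≤ p 0 → p 0 ≤ 13/20 → 47/100 ≤ p 1 → p 1 ≤ 1 → 3/10 ≤ p 2 → p 2 ≤ 1 →
    Real.sin (Real.pi / 2 * p 0) * Real.sin (Real.pi / 2 * p 1) * Real.cos (Real.pi / 2 * p 2) -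
      Real.cos (Real.pi / 2 * p 0) * Real.cos (Real.pi / 2 * p 1) ≤ 0 →
    1 - (p 0 + p 1) ≤ 0 →
    10 * p 1 + p 0 - 10 ≤ 0 →
    0 < ev (CF .G coA pO111) p ∧ Sm (ev (CF .G coA pO111)) p := by
  intro p l0 r0 l1 r1 l2 r2 g0 g1 g2
  refine root_R2b p ⟨?_, ?_, ?_⟩ (gd_gW g0) (gd_gS1 g1) (gd_gGb g2)
  · exact in_of (by norm_num [vl, BB, SS]) (by norm_num [vl, BB, SS]) l0 r0
  · exact in_of (by norm_num [vl, BB, SS]) (by norm_num [vl, BB, SS]) l1 r1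
  · exact in_of (by norm_num [vl, BB, SS]) (by norm_num [vl, BB, SS]) l2 r2

theorem clC1 : ∀ p : P, 0 ≤ p 0 → p 0 ≤ 1/10 → 9/10 ≤ p 1 → p 1 ≤ 1 → 0 ≤ p 2 → p 2 ≤ 3/10 →
    p 0 + p 1 - 1 ≤ 0 →
    0 < D 0 (D 2 (ev (CF .G coA pO100))) p ∧ Sm (ev (CF .G coA pO100)) p := by
  intro p l0 r0 l1 r1 l2 r2 g0
  refine root_C1 p ⟨?_, ?_, ?_⟩ (gd_gSp g0) (gN0 p) (gN0 p)
  · exact in_of (by norm_num [vl, BB, SS]) (by norm_num [vl, BB, SS]) l0 r0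
  · exact in_of (by norm_num [vl, BB, SS]) (by norm_num [vl, BB, SS]) l1 r1
  · exact in_of (by norm_num [vl, BB, SS]) (by norm_num [vl, BB, SS]) l2 r2

theorem clC2 : ∀ p : P, 0 ≤ p 0 → p 0 ≤ 1/10 → 9/10 ≤ p 1 → p 1 ≤ 1 → 3/10 ≤ p 2 → p 2 ≤ 93/100 →
    p 0 + p 1 - 1 ≤ 0 →
    0 < D 0 (ev (CF .G coA pO100)) p ∧ Sm (ev (CF .G coA pO100)) p := by
  intro p l0 r0 l1 r1 l2 r2 g0
  refine root_C2 p ⟨?_, ?_, ?_⟩ (gd_gSp g0) (gN0 p) (gN0 p)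
  · exact in_of (by norm_num [vl, BB, SS]) (by norm_num [vl, BB, SS]) l0 r0
  · exact in_of (by norm_num [vl, BB, SS]) (by norm_num [vl, BB, SS]) l1 r1
  · exact in_of (by norm_num [vl, BB, SS]) (by norm_num [vl, BB, SS]) l2 r2

theorem clC3 : ∀ p : P, 0 ≤ p 0 → p 0 ≤ 1/10 → 9/10 ≤ p 1 → p 1 ≤ 1 → 93/100 ≤ p 2 → p 2 ≤ 1 →
    p 0 + p 1 - 1 ≤ 0 →
    D 0 (D 2 (ev (CF .G coA pO100))) p < 0 ∧ Sm (ev (CF .G coA pO100)) p := by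
  intro p l0 r0 l1 r1 l2 r2 g0
  refine neg_and (root_C3 p ⟨?_, ?_, ?_⟩ (gd_gSp g0) (gN0 p) (gN0 p))
  · exact in_of (by norm_num [vl, BB, SS]) (by norm_num [vl, BB, SS]) l0 r0
  · exact in_of (by norm_num [vl, BB, SS]) (by norm_num [vl, BB, SS]) l1 r1
  · exact in_of (by norm_num [vl, BB, SS]) (by norm_num [vl, BB, SS]) l2 r2

theorem clSZ1 : ∀ p : P, 0 ≤ p 0 → p 0 ≤ 7/100 → 3/10 ≤ p 1 → p 1 ≤ 1 → 0 ≤ p 2 → p 2 ≤ 3/10 →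
    Real.cos (Real.pi / 2 * p 2) - p 1 ≤ 0 →
    0 < D 0 (D 2 (ev (CF .S coA pO111))) p ∧ Sm (ev (CF .S coA pO111)) p := by
  intro p l0 r0 l1 r1 l2 r2 g0
  refine root_SZ1 p ⟨?_, ?_, ?_⟩ (gd_gKs g0) (gN0 p) (gN0 p)
  · exact in_of (by norm_num [vl, BB, SS]) (by norm_num [vl, BB, SS]) l0 r0
  · exact in_of (by norm_num [vl, BB, SS]) (by norm_num [vl, BB, SS]) l1 r1
  · exact in_of (by norm_num [vl, BB, SS]) (by norm_num [vl, BB, SS]) l2 r2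

theorem clSZ2 : ∀ p : P, 0 ≤ p 0 → p 0 ≤ 7/100 → 3/10 ≤ p 1 → p 1 ≤ 1 → 3/10 ≤ p 2 → p 2 ≤ 93/100 →
    Real.cos (Real.pi / 2 * p 2) - p 1 ≤ 0 →
    0 < D 0 (ev (CF .S coA pO111)) p ∧ Sm (ev (CF .S coA pO111)) p := by
  intro p l0 r0 l1 r1 l2 r2 g0
  refine root_SZ2 p ⟨?_, ?_, ?_⟩ (gd_gKs g0) (gN0 p) (gN0 p)
  · exact in_of (by norm_num [vl, BB, SS]) (by norm_num [vl, BB, SS]) l0 r0
  · exact in_of (by norm_num [vl, BB, SS]) (by norm_num [vl, BB, SS]) l1 r1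
  · exact in_of (by norm_num [vl, BB, SS]) (by norm_num [vl, BB, SS]) l2 r2

theorem clSZ3 : ∀ p : P, 0 ≤ p 0 → p 0 ≤ 7/100 → 3/10 ≤ p 1 → p 1 ≤ 1 → 93/100 ≤ p 2 → p 2 ≤ 1 →
    Real.cos (Real.pi / 2 * p 2) - p 1 ≤ 0 →
    D 0 (D 2 (ev (CF .S coA pO111))) p < 0 ∧ Sm (ev (CF .S coA pO111)) p := by
  intro p l0 r0 l1 r1 l2 r2 g0
  refine neg_and (root_SZ3 p ⟨?_, ?_, ?_⟩ (gd_gKs g0) (gN0 p) (gN0 p))
  · exact in_of (by norm_num [vl, BB, SS]) (by norm_num [vl, BB, SS]) l0 r0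
  · exact in_of (by norm_num [vl, BB, SS]) (by norm_num [vl, BB, SS]) l1 r1
  · exact in_of (by norm_num [vl, BB, SS]) (by norm_num [vl, BB, SS]) l2 r2

theorem clSY1 : ∀ p : P, 0 ≤ p 0 → p 0 ≤ 11/100 → 1 ≤ p 1 → p 1 ≤ 2 → 0 ≤ p 2 → p 2 ≤ 3/10 →
    200 * (p 1 - Real.cos (Real.pi / 2 * p 2)) - 213 ≤ 0 →
    0 < D 0 (D 2 (ev (CF .S coA pO110))) p ∧ Sm (ev (CF .S coA pO110)) p := by
  intro p l0 r0 l1 r1 l2 r2 g0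
  refine root_SY1 p ⟨?_, ?_, ?_⟩ (gd_gK1 g0) (gN0 p) (gN0 p)
  · exact in_of (by norm_num [vl, BB, SS]) (by norm_num [vl, BB, SS]) l0 r0
  · exact in_of (by norm_num [vl, BB, SS]) (by norm_num [vl, BB, SS]) l1 r1
  · exact in_of (by norm_num [vl, BB, SS]) (by norm_num [vl, BB, SS]) l2 r2

theorem clSY2 : ∀ p : P, 0 ≤ p 0 → p 0 ≤ 11/100 → 1 ≤ p 1 → p 1 ≤ 2 → 3/10 ≤ p 2 → p 2 ≤ 93/100 →
    200 * (p 1 - Real.cos (Real.pi / 2 * p 2)) - 213 ≤ 0 →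
    0 < D 0 (ev (CF .S coA pO110)) p ∧ Sm (ev (CF .S coA pO110)) p := by
  intro p l0 r0 l1 r1 l2 r2 g0
  refine root_SY2 p ⟨?_, ?_, ?_⟩ (gd_gK1 g0) (gN0 p) (gN0 p)
  · exact in_of (by norm_num [vl, BB, SS]) (by norm_num [vl, BB, SS]) l0 r0
  · exact in_of (by norm_num [vl, BB, SS]) (by norm_num [vl, BB, SS]) l1 r1
  · exact in_of (by norm_num [vl, BB, SS]) (by norm_num [vl, BB, SS]) l2 r2

theorem clSY3 : ∀ p : P, 0 ≤ p 0 → p 0 ≤ 1/10 → 1 ≤ p 1 → p 1 ≤ 53/50 → 93/100 ≤ p 2 → p 2 ≤ 1 →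
    D 0 (D 2 (ev (CF .S coA pO110))) p < 0 ∧ Sm (ev (CF .S coA pO110)) p := by
  intro p l0 r0 l1 r1 l2 r2
  refine neg_and (root_SY3 p ⟨?_, ?_, ?_⟩ (gN0 p) (gN0 p) (gN0 p))
  · exact in_of (by norm_num [vl, BB, SS]) (by norm_num [vl, BB, SS]) l0 r0
  · exact in_of (by norm_num [vl, BB, SS]) (by norm_num [vl, BB, SS]) l1 r1
  · exact in_of (by norm_num [vl, BB, SS]) (by norm_num [vl, BB, SS]) l2 r2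

theorem claimsA : Claims coA where
  MA := clMA
  MB := clMB
  MC := clMC
  MD := clMD
  ME := clME
  MG := clMG
  SA := clSA
  SB := clSB
  SC := clSC
  SE := clSE
  SF := clSF
  S0 := clS0
  PA := clPA
  PB := clPB
  PC := clPC
  PD := clPD
  PE0 := clPE0
  PE1 := clPE1
  PF0 := clPF0
  PF1 := clPF1
  PG0 := clPG0
  PG1 := clPG1
  PG2 := clPG2
  PH0 := clPH0
  PH1 := clPH1
  PH2 := clPH2
  ZA := clZA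
  ZB := clZB
  ZC0 := clZC0
  ZC1 := clZC1
  ZD0 := clZD0
  ZD1 := clZD1
  ZD2 := clZD2
  ZD3 := clZD3
  ZE := clZE
  ZF := clZF
  OA := clOA
  OB := clOB
  QD := clQD
  U1 := clU1
  U3 := clU3
  U2 := clU2
  E1 := clE1
  R2a := clR2a
  R2b := clR2b
  C1 := clC1
  C2 := clC2
  C3 := clC3
  SZ1 := clSZ1
  SZ2 := clSZ2
  SZ3 := clSZ3
  SY1 := clSY1
  SY2 := clSY2
  SY3 := clSY3

end FX.DA
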