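import Pool.Agent.H11.FX.CoAB
import Pool.Agent.H41.FT.L1

set_option autoImplicit false

/-!
# From integral boxes to real boxes
-/

namespace FX

open H41FT

theorem in_of {c w : ℕ} {lo hi x : ℝ} (e1 : vl c - w ≤ lo * SS) (e2 : hi * SS ≤ vl c + w)
    (h1 : lo ≤ x) (h2 : x ≤ hi) : |x * SS - vl c| ≤ w := by
  have hS := SS_pos
  have k1 := mul_le_mul_of_nonneg_right h1 hS.le
  have k2 := mul_le_mul_of_nonneg_right h2 hS.le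
  rw [abs_le]; constructor <;> linarith

theorem gN0 (p : P) : ev gN p ≤ 0 := by
  show ((0 : ℕ) : ℝ) ≤ 0
  simp

theorem gd_gC3 {p : P} (h : Real.cos (Real.pi / 2 * p 1) * (Real.sin (Real.pi / 2 * p 0) *
      Real.sin (Real.pi / 2 * p 0)) -
      Real.cos (Real.pi / 2 * p 0) * (Real.cos (Real.pi / 2 * p 0) + p 2) ≤ 0) : ev gC3 p ≤ 0 := by
  exact h

theorem gd_gXY {p : P} (h : p 1 - p 0 ≤ 0) : ev gXY p ≤ 0 := by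
  exact h

theorem gd_gYZ {p : P} (h : p 2 - p 1 ≤ 0) : ev gYZ p ≤ 0 := by
  exact h

theorem gd_gYX {p : P} (h : p 0 - p 1 ≤ 0) : ev gYX p ≤ 0 := by
  exact h

theorem gd_gT1 {p : P} (h : p 0 * p 1 + p 1 + p 0 * p 1 * p 1 - 1 ≤ 0) : ev gT1 p ≤ 0 := by
  show p 0 * p 1 + p 1 + p 0 * p 1 * p 1 - ((1 : ℕ) : ℝ) ≤ 0
  push_cast; exact h

theorem gd_gW {p : P} (h : Real.sin (Real.pi / 2 * p 0) * Real.sin (Real.pi / 2 * p 1) *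
      Real.cos (Real.pi / 2 * p 2) -
      Real.cos (Real.pi / 2 * p 0) * Real.cos (Real.pi / 2 * p 1) ≤ 0) : ev gW p ≤ 0 := by
  exact h

theorem gd_gS1 {p : P} (h : 1 - (p 0 + p 1) ≤ 0) : ev gS1 p ≤ 0 := by
  show ((1 : ℕ) : ℝ) - (p 0 + p 1) ≤ 0
  push_cast; exact h

theorem gd_gO6 {p : P} (h : 50 * (p 0 + p 1) - 3 ≤ 0) : ev gO6 p ≤ 0 := by
  show ((50 : ℕ) : ℝ) * (p 0 + p 1) - ((3 : ℕ) : ℝ) ≤ 0
  push_cast; exact h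

theorem gd_gSp {p : P} (h : p 0 + p 1 - 1 ≤ 0) : ev gSp p ≤ 0 := by
  show p 0 + p 1 - ((1 : ℕ) : ℝ) ≤ 0
  push_cast; exact h

theorem gd_gGb {p : P} (h : 10 * p 1 + p 0 - 10 ≤ 0) : ev gGb p ≤ 0 := by
  show ((10 : ℕ) : ℝ) * p 1 + p 0 - ((10 : ℕ) : ℝ) ≤ 0
  push_cast; exact h

theorem gd_gKs {p : P} (h : Real.cos (Real.pi / 2 * p 2) - p 1 ≤ 0) : ev gKs p ≤ 0 := by
  exact h

theorem gd_gK1 {p : P} (h : 200 * (p 1 - Real.cos (Real.pi / 2 * p 2)) - 213 ≤ 0) :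
    ev gK1 p ≤ 0 := by
  show ((200 : ℕ) : ℝ) * (p 1 - Real.cos (Real.pi / 2 * p 2)) - ((213 : ℕ) : ℝ) ≤ 0
  push_cast; exact h

theorem gd_CG {h : Ch} {k : KG} {p : P} (e : CG h k rO (p 0) (p 1) (p 2) ≤ 0) :
    ev (CG h k) p ≤ 0 := by
  rw [ev_CG]; exact e

theorem neg_and {φ : P → ℝ} {Ψ : Prop} {p : P} (h : 0 < fO.sub (fO.nat 0) φ p ∧ Ψ) :
    φ p < 0 ∧ Ψ := ⟨neg_spec h.1, h.2⟩

end FX
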