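import Pool.Agent.H11.FX.Funs

set_option autoImplicit false

/-!
# Parametricity of the functions of the certificates
-/

namespace FX

open H41FT

variable {T : Type} {K : Set P} {o : Ops T} {ok : T → Prop} {SE : T → (P → ℝ) → Prop}

/-- related data -/
structure DR (ok : T → Prop) (SE : T → (P → ℝ) → Prop) (d : Dat T) (d' : Dat (P → ℝ)) : Prop where
  a : R ok SE d.a d'.a
  b : R ok SE d.b d'.b
  c : R ok SE d.c d'.c
  u : R ok SE d.u d'.u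
  v : R ok SE d.v d'.v
  w : R ok SE d.w d'.w
  sa : R ok SE d.sa d'.sa
  sb : R ok SE d.sb d'.sb
  sc : R ok SE d.sc d'.sc
  D2 : R ok SE d.D2 d'.D2
  gx : R ok SE d.gx d'.gx
  cx : R ok SE d.cx d'.cx
  gy : R ok SE d.gy d'.gy
  cy : R ok SE d.cy d'.cy
  gz : R ok SE d.gz d'.gz
  cz : R ok SE d.cz d'.cz

/-- related final functions -/
def KR (ok : T → Prop) (SE : T → (P → ℝ) → Prop) (K : Dat T → T)
    (K' : Dat (P → ℝ) → (P → ℝ)) : Prop :=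
  ∀ d d', DR ok SE d d' → R ok SE (K d) (K' d')

theorem sg_R (S : Sound K o ok SE) (c : Sg) {x y : T} {x' y' : P → ℝ} (h1 : R ok SE x x')
    (h2 : R ok SE y y') : R ok SE (sg o c x y) (sg fO c x' y') := by
  cases c
  · exact h1
  · exact S.radd h1 (S.rsmul _ h2)
  · exact S.rsub h1 (S.rsmul _ h2)

theorem sg0_R (S : Sound K o ok SE) (c : Sg) {y : T} {y' : P → ℝ}
    (h2 : R ok SE y y') : R ok SE (sg0 o c y) (sg0 fO c y') := by
  cases c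
  · exact S.rnat 0
  · exact S.rsmul _ h2
  · exact S.rsub (S.rnat 0) (S.rsmul _ h2)

theorem lin3_R (S : Sound K o ok SE) (c1 c2 c3 : Sg) {x y z : T} {x' y' z' : P → ℝ}
    (h1 : R ok SE x x') (h2 : R ok SE y y') (h3 : R ok SE z z') :
    R ok SE (lin3 o c1 c2 c3 x y z) (lin3 fO c1 c2 c3 x' y' z') :=
  sg_R S _ (sg_R S _ (sg0_R S _ h1) h2) h3

theorem gl_R (S : Sound K o ok SE) (co : Co) (ob hf : Bool) {s k : T} {s' k' : P → ℝ}
    (h1 : R ok SE s s') (h2 : R ok SE k k') :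
    R ok SE (gl o co ob hf s k) (gl fO co ob hf s' k') := by
  cases ob <;> cases hf
  · exact S.rsmul _ h1
  · exact S.rsub (S.rsmul _ h1) (S.rsmul _ h2)
  · exact S.rsub (S.rnat 0) (S.rsmul _ h1)
  · exact S.rsub (S.rsmul _ h2) (S.rsmul _ h1)

theorem vl_R (S : Sound K o ok SE) (co : Co) (hf : Bool) {s k : T} {s' k' : P → ℝ}
    (h1 : R ok SE s s') (h2 : R ok SE k k') : R ok SE (vl_ o co hf s k) (vl_ fO co hf s' k') := by
  cases hf
  · exact S.rsmul _ h1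
  · exact S.rsmul _ (S.radd h1 h2)

theorem hzt_R (S : Sound K o ok SE) (co : Co) (ob : Bool) {r su sv g c : T}
    {r' su' sv' g' c' : P → ℝ} (h0 : R ok SE r r') (h1 : R ok SE su su') (h2 : R ok SE sv sv')
    (h3 : R ok SE g g') (h4 : R ok SE c c') :
    R ok SE (hzt o co ob r su sv g c) (hzt fO co ob r' su' sv' g' c') := by
  unfold hzt
  refine rlt (S.rmul (S.rmul h1 h2) (S.rsub (S.rsub (S.rnat 1) h3) h4)) fun _ _ q => ?_
  cases ob
  · exact S.radd h0 (S.rsmul _ q)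
  · exact S.rsub h0 (S.rsmul _ q)

theorem vertK_R (S : Sound K o ok SE) (co : Co) (ob hf : Bool)
    {s f h p su f1 p1 sv e1 e2 e3 g c k : T} {s' f' h' p' su' f1' p1' sv' e1' e2' e3' g' c' k' : P → ℝ}
    (a1 : R ok SE s s') (a2 : R ok SE f f') (a3 : R ok SE h h') (a4 : R ok SE p p')
    (a5 : R ok SE su su') (a6 : R ok SE f1 f1') (a7 : R ok SE p1 p1') (a8 : R ok SE sv sv')
    (a9 : R ok SE e1 e1') (b1 : R ok SE e2 e2') (b2 : R ok SE e3 e3') (b3 : R ok SE g g')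
    (b4 : R ok SE c c') (b5 : R ok SE k k') :
    R ok SE (vertK o co ob hf s f h p su f1 p1 sv e1 e2 e3 g c k)
      (vertK fO co ob hf s' f' h' p' su' f1' p1' sv' e1' e2' e3' g' c' k') := by
  unfold vertK
  refine hzt_R S co ob (S.radd (S.rmul b3 ?_) (S.rmul ?_ ?_)) a5 a8 b3 b4
  · exact sg_R S _ (sg_R S _ (gl_R S co ob hf a1 b5) (S.rmul a2 a6)) (S.rmul a4 a7)
  · exact S.rsub (S.rnat 1) (S.rmul b4 b4)
  · exact S.radd (vl_R S co hf a1 b5) (S.radd (S.rmul a1 a9) (S.radd (S.rmul a2 b1) (S.rmul a3 b2)))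

theorem vert_R (S : Sound K o ok SE) (co : Co) (ob hf : Bool)
    {s f h p su l f1 p1 sv e1 e2 e3 g c : T}
    {s' f' h' p' su' l' f1' p1' sv' e1' e2' e3' g' c' : P → ℝ}
    (a1 : R ok SE s s') (a2 : R ok SE f f') (a3 : R ok SE h h') (a4 : R ok SE p p')
    (a5 : R ok SE su su') (al : R ok SE l l') (a6 : R ok SE f1 f1') (a7 : R ok SE p1 p1')
    (a8 : R ok SE sv sv')
    (a9 : R ok SE e1 e1') (b1 : R ok SE e2 e2') (b2 : R ok SE e3 e3') (b3 : R ok SE g g')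
    (b4 : R ok SE c c') :
    R ok SE (vert o co ob hf s f h p su l f1 p1 sv e1 e2 e3 g c)
      (vert fO co ob hf s' f' h' p' su' l' f1' p1' sv' e1' e2' e3' g' c') := by
  unfold vert
  exact rlt (S.rsub (S.radd a1 al) (S.rnat 1)) fun _ _ k =>
    vertK_R S co ob hf a1 a2 a3 a4 a5 a6 a7 a8 a9 b1 b2 b3 b4 k

theorem linP_R (S : Sound K o ok SE) (co : Co) (ty : Ty) (hz : Bool) {a b c : T}
    {a' b' c' : P → ℝ} (h1 : R ok SE a a') (h2 : R ok SE b b') (h3 : R ok SE c c') :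
    R ok SE (linP o co ty hz a b c) (linP fO co ty hz a' b' c') := by
  cases ty
  · exact S.rsmul _ (S.rsub h3 (S.radd (S.rsmul 3 h1) h2))
  · cases hz
    · exact S.rsmul _ (S.rsub h3 (S.radd h1 h2))
    · exact S.rsmul _ (S.rsub (S.radd h3 (S.rnat 2)) (S.rsmul 3 (S.radd h1 h2)))
  · exact S.rsmul _ (S.rsub (S.rnat 6) (S.rsmul 3 (S.radd (S.radd h1 h2) h3)))

theorem hF_R (S : Sound K o ok SE) {a b : T} {a' b' : P → ℝ} (h1 : R ok SE a a')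
    (h2 : R ok SE b b') : R ok SE (hF o a b) (hF fO a' b') :=
  S.rmul h1 (S.rsub (S.rnat 1) (S.rsmul 2 h2))

theorem FG3_R (S : Sound K o ok SE) (co : Co) (pc : Pc)
    {a b c fa fb fc ha hb hc su sv sw pa pb pc2 D2 gx cx gy cy gz cz : T}
    {a' b' c' fa' fb' fc' ha' hb' hc' su' sv' sw' pa' pb' pc2' D2' gx' cx' gy' cy' gz' cz' : P → ℝ}
    (a1 : R ok SE a a') (a2 : R ok SE b b') (a3 : R ok SE c c') (a4 : R ok SE fa fa')
    (a5 : R ok SE fb fb') (a6 : R ok SE fc fc') (a7 : R ok SE ha ha') (a8 : R ok SE hb hb')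
    (a9 : R ok SE hc hc') (b1 : R ok SE su su') (b2 : R ok SE sv sv') (b3 : R ok SE sw sw')
    (b4 : R ok SE pa pa') (b5 : R ok SE pb pb') (b6 : R ok SE pc2 pc2') (b7 : R ok SE D2 D2')
    (c1 : R ok SE gx gx') (c2 : R ok SE cx cx') (c3 : R ok SE gy gy') (c4 : R ok SE cy cy')
    (c5 : R ok SE gz gz') (c6 : R ok SE cz cz') :
    R ok SE (FG3 o co pc a b c fa fb fc ha hb hc su sv sw pa pb pc2 D2 gx cx gy cy gz cz)
      (FG3 fO co pc a' b' c' fa' fb' fc' ha' hb' hc' su' sv' sw' pa' pb' pc2' D2' gx' cx' gy' cy'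
        gz' cz') := by
  unfold FG3
  refine rlt (lin3_R S _ _ _ a2 a5 a8) fun _ _ e1 => rlt (lin3_R S _ _ _ a2 a5 a8) fun _ _ e2 =>
    rlt (lin3_R S _ _ _ a2 a5 a8) fun _ _ e3 => rlt (lin3_R S _ _ _ a3 a6 a9) fun _ _ e4 =>
    rlt (lin3_R S _ _ _ a3 a6 a9) fun _ _ e5 => rlt (lin3_R S _ _ _ a3 a6 a9) fun _ _ e6 => ?_
  exact S.radd (S.radd (linP_R S co _ _ a1 a2 a3) (S.rsmul _ b7))
    (S.radd (vert_R S co _ _ a1 a4 a7 b4 b1 a2 a5 b5 b2 e1 e2 e3 c5 c6)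
      (S.radd (vert_R S co _ _ a2 a5 a8 b5 b2 a3 a6 b6 b3 e4 e5 e6 c1 c2)
        (vert_R S co _ _ a1 a4 a7 b4 b1 a3 a6 b6 b3 e4 e5 e6 c3 c4)))

theorem FG_R (S : Sound K o ok SE) (co : Co) (pc : Pc) : KR ok SE (FG o co pc) (FG fO co pc) := by
  intro d d' h
  unfold FG
  refine rlt (S.rmul h.sa h.sa) fun _ _ fa => rlt (S.rmul h.sb h.sb) fun _ _ fb =>
    rlt (S.rmul h.sc h.sc) fun _ _ fc => rlt (S.rmul h.sa h.u) fun _ _ su =>
    rlt (S.rmul h.sb h.v) fun _ _ sv => rlt (S.rmul h.sc h.w) fun _ _ sw =>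
    rlt (hF_R S su fa) fun _ _ ha => rlt (hF_R S sv fb) fun _ _ hb =>
    rlt (hF_R S sw fc) fun _ _ hc => rlt (S.radd fa ha) fun _ _ pa =>
    rlt (S.radd fb hb) fun _ _ pb => rlt (S.radd fc hc) fun _ _ pc2 => ?_
  exact FG3_R S co pc h.a h.b h.c fa fb fc ha hb hc su sv sw pa pb pc2 h.D2 h.gx h.cx h.gy h.cy
    h.gz h.cz

theorem Khx_R (S : Sound K o ok SE) : KR ok SE (Khx o) (Khx fO) := fun _ _ h =>
  S.rsub (S.radd h.b h.c) (S.rnat 1)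
theorem Khy_R (S : Sound K o ok SE) : KR ok SE (Khy o) (Khy fO) := fun _ _ h =>
  S.rsub (S.radd h.a h.c) (S.rnat 1)
theorem Khz_R (S : Sound K o ok SE) : KR ok SE (Khz o) (Khz fO) := fun _ _ h =>
  S.rsub (S.radd h.a h.b) (S.rnat 1)
theorem Knx_R (S : Sound K o ok SE) : KR ok SE (Knx o) (Knx fO) := fun _ _ h =>
  S.rsub (S.rnat 1) (S.radd h.b h.c)
theorem Kny_R (S : Sound K o ok SE) : KR ok SE (Kny o) (Kny fO) := fun _ _ h =>
  S.rsub (S.rnat 1) (S.radd h.a h.c)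
theorem Knz_R (S : Sound K o ok SE) : KR ok SE (Knz o) (Knz fO) := fun _ _ h =>
  S.rsub (S.rnat 1) (S.radd h.a h.b)
theorem Kab_R (S : Sound K o ok SE) : KR ok SE (Kab o) (Kab fO) := fun _ _ h =>
  S.rsub (S.rnat 1) (S.radd h.a (S.rsmul 2 h.b))
theorem Kba_R (S : Sound K o ok SE) : KR ok SE (Kba o) (Kba fO) := fun _ _ h =>
  S.rsub (S.rnat 1) (S.radd h.b (S.rsmul 2 h.a))

/-! ### charts -/

variable {KK : Dat T → T} {KK' : Dat (P → ℝ) → (P → ℝ)}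

theorem gSK_R (S : Sound K o ok SE) (hK : KR ok SE KK KK') {a b ka si g : T}
    {a' b' ka' si' g' : P → ℝ} (h1 : R ok SE a a') (h2 : R ok SE b b') (kaR : R ok SE ka ka')
    (siR : R ok SE si si') (h3 : R ok SE g g') :
    R ok SE (gSK o KK a b ka si g) (gSK fO KK' a' b' ka' si' g') := by
  unfold gSK
  refine rlt (S.rcs h1) fun _ _ u => rlt (S.rsn h1) fun _ _ sa => rlt (S.rcs h2) fun _ _ v =>
    rlt (S.rsn h2) fun _ _ sb => ?_
  refine rlt (S.rmul sa v) fun _ _ sav => rlt (S.rmul sb u) fun _ _ sbu => ?_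
  refine rlt (S.rsub (S.rmul u v) (S.rmul (S.rmul sa sb) kaR)) fun _ _ w => ?_
  refine rlt (S.rmul sa siR) fun _ _ p => rlt (S.radd sbu (S.rmul sav kaR)) fun _ _ q => ?_
  refine rlt (S.rmul sb siR) fun _ _ p2 => rlt (S.radd sav (S.rmul sbu kaR)) fun _ _ q2 => ?_
  refine rlt (S.rsqrt (S.radd (S.rmul p p) (S.rmul q q))) fun _ _ sc => ?_
  refine rlt (S.rinv sc) fun _ _ q1 => ?_
  refine rlt (S.rsmul 2 (S.rat (S.rmul p (S.rinv (S.radd sc q))))) fun _ _ X => ?_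
  refine rlt (S.rsmul 2 (S.rat (S.rmul p2 (S.rinv (S.radd sc q2))))) fun _ _ Y => ?_
  refine rlt (S.rsmul 2 (S.rat (S.rmul sc (S.rinv (S.radd (S.rnat 1) w))))) fun _ _ c => ?_
  refine rlt (S.rmul sa p2) fun _ _ Dr => ?_
  exact hK _ _ ⟨h1, h2, c, u, v, w, sa, sb, sc, S.rmul Dr Dr, X, S.rmul q q1, Y, S.rmul q2 q1,
    h3, kaR⟩

theorem gG_R (S : Sound K o ok SE) (hK : KR ok SE KK KK') {a b g : T}
    {a' b' g' : P → ℝ} (h1 : R ok SE a a') (h2 : R ok SE b b') (h3 : R ok SE g g') :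
    R ok SE (gG o KK a b g) (gG fO KK' a' b' g') :=
  gSK_R S hK h1 h2 (S.rcs h3) (S.rsn h3) h3

theorem gS_R (S : Sound K o ok SE) (hK : KR ok SE KK KK') {a b g : T}
    {a' b' g' : P → ℝ} (h1 : R ok SE a a') (h2 : R ok SE b b') (h3 : R ok SE g g') :
    R ok SE (gS o KK a b g) (gS fO KK' a' b' g') :=
  rlt (S.rsub (S.rnat 1) (S.rmul h1 h2)) fun _ _ b => gSK_R S hK h1 b (S.rcs h3) (S.rsn h3) h3

theorem gR_R (S : Sound K o ok SE) (hK : KR ok SE KK KK') {a b g : T}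
    {a' b' g' : P → ℝ} (h1 : R ok SE a a') (h2 : R ok SE b b') (h3 : R ok SE g g') :
    R ok SE (gR o KK a b g) (gR fO KK' a' b' g') := by
  unfold gR
  refine rlt (S.rmul h2 h3) fun _ _ ka => ?_
  refine rlt (S.rsqrt (S.rsub (S.rnat 1) (S.rmul ka ka))) fun _ _ si => ?_
  refine rlt (S.rsub (S.rnat 1) (S.rsmul 2 (S.rat (S.rmul ka (S.rinv (S.radd (S.rnat 1) si))))))
    fun _ _ g => ?_
  exact rlt (S.rsub (S.rnat 1) (S.rmul h1 h2)) fun _ _ b => gSK_R S hK h1 b ka si g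

theorem gcore_R (S : Sound K o ok SE) (hK : KR ok SE KK KK') (ac : Bool) {rho t ka si g : T}
    {rho' t' ka' si' g' : P → ℝ} (h1 : R ok SE rho rho') (h2 : R ok SE t t')
    (h3 : R ok SE ka ka') (h4 : R ok SE si si') (h5 : R ok SE g g') :
    R ok SE (gcore o KK ac rho t ka si g) (gcore fO KK' ac rho' t' ka' si' g') := by
  unfold gcore
  refine rlt (S.rmul h2 h2) fun _ _ t2 => rlt (S.rmul (S.rmul h1 h1) t2) fun _ _ r2 => ?_
  refine rlt (S.rinv (S.radd (S.rnat 1) r2)) fun _ _ ia =>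
    rlt (S.rinv (S.radd (S.rnat 1) t2)) fun _ _ ib => ?_
  refine rlt (S.rmul (S.rsub (S.rnat 1) r2) ia) fun _ _ u =>
    rlt (S.rmul (S.rsub (S.rnat 1) t2) ib) fun _ _ v => ?_
  refine rlt (S.rsmul 2 (S.rmul h1 ia)) fun _ _ sap => rlt (S.rsmul 2 ib) fun _ _ sbp => ?_
  refine rlt (S.rmul sap v) fun _ _ sav => rlt (S.rmul sbp u) fun _ _ sbu => ?_
  refine rlt (S.rmul sap h4) fun _ _ p => rlt (S.radd sbu (S.rmul sav h3)) fun _ _ q => ?_
  refine rlt (S.rmul sbp h4) fun _ _ p2 => rlt (S.radd sav (S.rmul sbu h3)) fun _ _ q2 => ?_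
  refine rlt (S.rsqrt (S.radd (S.rmul p p) (S.rmul q q))) fun _ _ scp => ?_
  refine rlt (S.rinv scp) fun _ _ isc => ?_
  refine rlt (S.rsmul 2 (S.rat (S.rmul p (S.rinv (S.radd scp q))))) fun _ _ X => ?_
  refine rlt (S.rsmul 2 (S.rat (S.rmul p2 (S.rinv (S.radd scp q2))))) fun _ _ Y => ?_
  refine rlt (S.rsub (S.rmul u v) (S.rmul t2 (S.rmul (S.rmul sap sbp) h3))) fun _ _ w => ?_
  refine rlt (S.rmul h2 scp) fun _ _ sc => ?_
  refine rlt (S.rsmul 2 (S.rat (S.rmul sc (S.rinv (S.radd (S.rnat 1) w))))) fun _ _ c => ?_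
  refine rlt (S.rmul h2 sap) fun _ _ sa => rlt (S.rmul h2 sbp) fun _ _ sb => ?_
  refine rlt (S.rmul (S.rmul sa sb) h4) fun _ _ Dr => ?_
  refine rlt (E := R ok SE) ?_ fun _ _ cz => ?_
  · cases ac
    · exact h3
    · exact S.rsub (S.rnat 0) h3
  refine rlt (S.rsmul 2 (S.rat (S.rmul h1 h2))) fun _ _ a => rlt (S.rsmul 2 (S.rat h2))
    fun _ _ b => ?_
  exact hK _ _ ⟨a, b, c, u, v, w, sa, sb, sc, S.rmul Dr Dr, X, S.rmul q isc, Y, S.rmul q2 isc,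
    h5, cz⟩

theorem g1_R (S : Sound K o ok SE) (hK : KR ok SE KK KK') {a b g : T}
    {a' b' g' : P → ℝ} (h1 : R ok SE a a') (h2 : R ok SE b b') (h3 : R ok SE g g') :
    R ok SE (g1 o KK a b g) (g1 fO KK' a' b' g') :=
  gcore_R S hK false h1 h2 (S.rcs h3) (S.rsn h3) h3

theorem g0_R (S : Sound K o ok SE) (hK : KR ok SE KK KK') {a b g : T}
    {a' b' g' : P → ℝ} (h1 : R ok SE a a') (h2 : R ok SE b b') (h3 : R ok SE g g') :
    R ok SE (g0 o KK a b g) (g0 fO KK' a' b' g') := by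
  unfold g0
  refine rlt (S.rmul (S.rmul h3 h1) (S.rsub (S.rnat 1) (S.rmul h2 h2))) fun _ _ kz => ?_
  refine rlt (S.rsqrt (S.rsub (S.rnat 4) (S.rmul kz kz))) fun _ _ sz => ?_
  refine rlt (S.rsub (S.rnat 1) (S.rsmul 2 (S.rat (S.rmul kz (S.rinv (S.radd (S.rnat 2) sz))))))
    fun _ _ Z => ?_
  refine rlt (S.rinv (S.rnat 2)) fun _ _ hf => ?_
  exact gcore_R S hK true h1 h2 (S.rsub (S.rnat 0) (S.rmul hf kz)) (S.rmul hf sz) Z

theorem gc3_R (S : Sound K o ok SE) (hK : KR ok SE KK KK') {a b g : T}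
    {a' b' g' : P → ℝ} (h1 : R ok SE a a') (h2 : R ok SE b b') (h3 : R ok SE g g') :
    R ok SE (gc3 o KK a b g) (gc3 fO KK' a' b' g') := by
  unfold gc3
  refine rlt (S.rcs h1) fun _ _ u => rlt (S.rsn h1) fun _ _ sa => rlt (S.rcs h2) fun _ _ ka =>
    rlt (S.rsn h2) fun _ _ si => ?_
  refine rlt (S.rmul ka sa) fun _ _ y => rlt (S.radd u h3) fun _ _ un => ?_
  refine rlt (S.rsqrt (S.radd (S.rmul un un) (S.rmul y y))) fun _ _ R => rlt (S.rinv R)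
    fun _ _ iR => ?_
  refine rlt (S.rmul y iR) fun _ _ v => rlt (S.rmul un iR) fun _ _ sb => ?_
  refine rlt (S.rsub (S.rnat 1) (S.rsmul 2 (S.rat (S.rmul y (S.rinv (S.radd un R))))))
    fun _ _ b => ?_
  refine rlt (S.rmul h3 v) fun _ _ w => ?_
  refine rlt (S.rmul sa si) fun _ _ p => rlt (S.radd (S.rmul u sb) (S.rmul y v)) fun _ _ q => ?_
  refine rlt (S.rmul sb si) fun _ _ p2 =>
    rlt (S.radd (S.rmul v sa) (S.rmul (S.rmul u sb) ka)) fun _ _ q2 => ?_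
  refine rlt (S.rsqrt (S.rsub (S.rnat 1) (S.rmul w w))) fun _ _ sc => rlt (S.rinv sc)
    fun _ _ isc => ?_
  refine rlt (S.rsmul 2 (S.rat (S.rmul p (S.rinv (S.radd sc q))))) fun _ _ X => ?_
  refine rlt (S.rsmul 2 (S.rat (S.rmul p2 (S.rinv (S.radd sc q2))))) fun _ _ Y => ?_
  refine rlt (S.rsub (S.rnat 1) (S.rsmul 2 (S.rat (S.rmul w (S.rinv (S.radd (S.rnat 1) sc))))))
    fun _ _ c => ?_
  refine rlt (S.rmul sa p2) fun _ _ Dr => ?_
  exact hK _ _ ⟨h1, b, c, u, v, w, sa, sb, sc, S.rmul Dr Dr, X, S.rmul q isc, Y, S.rmul q2 isc,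
    h2, ka⟩

theorem gsdE_R (S : Sound K o ok SE) (hK : KR ok SE KK KK')
    {a b c u v w sa sb sc D2 nx ny nz : T} {a' b' c' u' v' w' sa' sb' sc' D2' nx' ny' nz' : P → ℝ}
    (h1 : R ok SE a a') (h2 : R ok SE b b') (h3 : R ok SE c c') (u1 : R ok SE u u')
    (v1 : R ok SE v v') (w1 : R ok SE w w') (s1 : R ok SE sa sa') (s2 : R ok SE sb sb')
    (s3 : R ok SE sc sc') (D : R ok SE D2 D2') (n1 : R ok SE nx nx') (n2 : R ok SE ny ny')
    (n3 : R ok SE nz nz') :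
    R ok SE (gsdE o KK a b c u v w sa sb sc D2 nx ny nz)
      (gsdE fO KK' a' b' c' u' v' w' sa' sb' sc' D2' nx' ny' nz') := by
  unfold gsdE
  refine rlt (S.rsqrt D) fun _ _ Dr => ?_
  refine rlt (S.rmul s1 s2) fun _ _ ab => rlt (S.rmul s2 s3) fun _ _ bc =>
    rlt (S.rmul s3 s1) fun _ _ ca => ?_
  refine rlt (S.rsmul 2 (S.rat (S.rmul Dr (S.rinv (S.radd bc n1))))) fun _ _ X =>
    rlt (S.rsmul 2 (S.rat (S.rmul Dr (S.rinv (S.radd ca n2))))) fun _ _ Y =>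
    rlt (S.rsmul 2 (S.rat (S.rmul Dr (S.rinv (S.radd ab n3))))) fun _ _ Z => ?_
  exact hK _ _ ⟨h1, h2, h3, u1, v1, w1, s1, s2, s3, D, X, S.rmul n1 (S.rinv bc), Y,
    S.rmul n2 (S.rinv ca), Z, S.rmul n3 (S.rinv ab)⟩

theorem gsdK_R (S : Sound K o ok SE) (hK : KR ok SE KK KK') (ac : Bool)
    {al be de u v w sa sb sc : T} {al' be' de' u' v' w' sa' sb' sc' : P → ℝ}
    (h1 : R ok SE al al') (h2 : R ok SE be be') (h3 : R ok SE de de')
    (u1 : R ok SE u u') (v1 : R ok SE v v') (w1 : R ok SE w w') (s1 : R ok SE sa sa')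
    (s2 : R ok SE sb sb') (s3 : R ok SE sc sc') :
    R ok SE (gsdK o KK ac al be de u v w sa sb sc)
      (gsdK fO KK' ac al' be' de' u' v' w' sa' sb' sc') := by
  unfold gsdK
  refine rlt (S.rmul u1 v1) fun _ _ uv => rlt (S.rmul v1 w1) fun _ _ vw =>
    rlt (S.rmul w1 u1) fun _ _ wu => ?_
  refine rlt (S.rsub (S.rsub (S.rsub (S.rnat 1) (S.rmul u1 u1)) (S.rmul v1 v1)) (S.rmul w1 w1))
    fun _ _ G0 => ?_
  refine rlt (S.rsmul 2 (S.rmul uv w1)) fun _ _ e => ?_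
  cases ac
  · exact gsdE_R S hK (S.rsub (S.rnat 1) h1) (S.rsub (S.rnat 1) h2) (S.rsub (S.rnat 1) h3)
      u1 v1 w1 s1 s2 s3 (S.rsub G0 e) (S.radd u1 vw) (S.radd v1 wu) (S.radd w1 uv)
  · exact gsdE_R S hK (S.rsub (S.rnat 1) h1) (S.rsub (S.rnat 1) h2) (S.rsub (S.rnat 1) h3)
      u1 v1 w1 s1 s2 s3 (S.radd G0 e) (S.rsub u1 vw) (S.rsub v1 wu) (S.rsub w1 uv)

theorem gsd_R (S : Sound K o ok SE) (hK : KR ok SE KK KK') (ac : Bool) {a b g : T}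
    {a' b' g' : P → ℝ} (h1 : R ok SE a a') (h2 : R ok SE b b') (h3 : R ok SE g g') :
    R ok SE (gsd o KK ac a b g) (gsd fO KK' ac a' b' g') :=
  gsdK_R S hK ac h1 h2 h3 (S.rsn h1) (S.rsn h2) (S.rsn h3) (S.rcs h1) (S.rcs h2) (S.rcs h3)

theorem gon_R (S : Sound K o ok SE) (hK : KR ok SE KK KK') {a b g : T}
    {a' b' g' : P → ℝ} (h1 : R ok SE a a') (h2 : R ok SE b b') (h3 : R ok SE g g') :
    R ok SE (gon o KK a b g) (gon fO KK' a' b' g') :=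
  gsd_R S hK true (S.radd h1 h2) h2 (S.rmul h2 h3)

theorem gE_R (S : Sound K o ok SE) (hK : KR ok SE KK KK') {a b g : T}
    {a' b' g' : P → ℝ} (h1 : R ok SE a a') (h2 : R ok SE b b') (h3 : R ok SE g g') :
    R ok SE (gE o KK a b g) (gE fO KK' a' b' g') := by
  unfold gE
  refine rlt (S.rcs h1) fun _ _ u => rlt (S.rsn h1) fun _ _ sa => rlt (S.rmul h1 h2)
    fun _ _ be => ?_
  refine rlt (S.rsn be) fun _ _ v => rlt (S.rcs be) fun _ _ sb =>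
    rlt (S.rmul be (S.rmul u h3)) fun _ _ de => rlt (S.rsn de) fun _ _ w =>
    rlt (S.rcs de) fun _ _ sc => ?_
  refine rlt (S.rmul u v) fun _ _ uv => rlt (S.rmul v w) fun _ _ vw =>
    rlt (S.rmul w u) fun _ _ wu => ?_
  exact gsdE_R S hK h1 (S.rsub (S.rnat 1) be) (S.rsub (S.rnat 1) de) u v w sa sb sc
    (S.radd (S.rsub (S.rsub (S.rmul sa sa) (S.rmul v v)) (S.rmul w w)) (S.rsmul 2 (S.rmul uv w)))
    (S.rsub u vw) (S.rsub v wu) (S.rsub uv w)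

end FX
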