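import Pool.Agent.H11.FX.Defs

set_option autoImplicit false

/-!
# FD-4: the two dimensional refinement of the bridge kernel
-/

namespace FX

open H45FT Real Finset MeasureTheory

/-- `h₁₁ T₁₁ + 2 h₁₂ T₁₂ + h₂₂ T₂₂`, `H` the Gram matrix of `D', S'` in `L²(0,1/2)` -/
noncomputable def trH (T11 T12 T22 : ℝ) : ℝ :=
  (π ^ 2 / 4 - 2) * T11 - 4 * π / 3 * T12 + π ^ 2 * T22

/-- `det H` -/
noncomputable def detH : ℝ := (π ^ 2 / 4 - 2) * π ^ 2 - (2 * π / 3) ^ 2

theorem detH_eq : detH = π ^ 2 * (π ^ 2 / 4 - 22 / 9) := by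
  unfold detH; ring

theorem detH_pos : 0 < detH := by
  rw [detH_eq]
  have h := Real.pi_gt_d2
  have h2 : 0 < π ^ 2 := by positivity
  have h3 : 0 < π ^ 2 / 4 - 22 / 9 := by nlinarith
  positivity

/-- `π² - (2π/3)²/(π²/4-2)` -/
noncomputable def NE : ℝ := detH / ND

theorem NE_pos : 0 < NE := div_pos detH_pos ND_pos

/-- `S(a) = sin 2πa` -/
noncomputable def Sfun (a : ℝ) : ℝ := sin (2 * π * a)

theorem four_sh (a : ℝ) : 4 * sh a = Sfun a := by
  have h1 : cos (π * a) = 1 - 2 * sin (π / 2 * a) ^ 2 := by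
    rw [show π * a = 2 * (π / 2 * a) by ring, cos_two_mul, cos_sq']; ring
  have h2 : sin (π * a) = 2 * sin (π / 2 * a) * cos (π / 2 * a) := by
    rw [show π * a = 2 * (π / 2 * a) by ring, sin_two_mul]
  unfold sh Sfun
  rw [show 2 * π * a = 2 * (π * a) by ring, sin_two_mul, h1, h2]
  ring

theorem sf_eq (a : ℝ) : sf a = a + Dfun a / 2 := by
  have h1 : cos (π * a) = 1 - 2 * sin (π / 2 * a) ^ 2 := by
    rw [show π * a = 2 * (π / 2 * a) by ring, cos_two_mul, cos_sq']; ring
  unfold sf Dfun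
  rw [h1]; ring

theorem Sfun_reflect (a : ℝ) : Sfun (1 - a) = -Sfun a := by
  unfold Sfun
  rw [show 2 * π * (1 - a) = 2 * π - 2 * π * a by ring, sin_two_pi_sub]

/-- the component of `S` orthogonal to `D` -/
noncomputable def Efun (a : ℝ) : ℝ := Sfun a + 2 * π / 3 / ND * Dfun a

theorem Efun_reflect (a : ℝ) : Efun (1 - a) = -Efun a := by
  unfold Efun
  rw [Sfun_reflect, Dfun_reflect]; ring

theorem integral_cos_two_pi (a : ℝ) :
    ∫ t in (0 : ℝ)..a, cos (2 * π * t) = Sfun a / (2 * π) := by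
  have hpi := Real.pi_ne_zero
  have h : ∀ t ∈ Set.uIcc 0 a,
      HasDerivAt (fun t => sin (2 * π * t) / (2 * π)) (cos (2 * π * t)) t := by
    intro t _
    have h1 : HasDerivAt (fun t => 2 * π * t) (2 * π) t := by
      simpa using (hasDerivAt_id t).const_mul (2 * π)
    have h2 : HasDerivAt (fun t => sin (2 * π * t) / (2 * π))
        (cos (2 * π * t) * (2 * π) / (2 * π)) t :=
      ((Real.hasDerivAt_sin (2 * π * t)).comp t h1).div_const (2 * π)
    refine h2.congr_deriv ?_
    field_simp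
  rw [intervalIntegral.integral_eq_sub_of_hasDerivAt h (by
    apply Continuous.intervalIntegrable; fun_prop)]
  simp [Sfun]

theorem integral_cos_two_pi_sq :
    ∫ t in (0 : ℝ)..(1 / 2), cos (2 * π * t) ^ 2 = 1 / 4 := by
  have hpi := Real.pi_ne_zero
  have h : ∀ t ∈ Set.uIcc (0 : ℝ) (1 / 2),
      HasDerivAt (fun t => t / 2 + sin (2 * (2 * π * t)) / (8 * π))
        (cos (2 * π * t) ^ 2) t := by
    intro t _
    have h1 : HasDerivAt (fun t => 2 * (2 * π * t)) (2 * (2 * π)) t := by
      simpa using ((hasDerivAt_id t).const_mul (2 * π)).const_mul 2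
    have h2 : HasDerivAt (fun t => t / 2 + sin (2 * (2 * π * t)) / (8 * π))
        (1 / 2 + cos (2 * (2 * π * t)) * (2 * (2 * π)) / (8 * π)) t :=
      ((hasDerivAt_id t).div_const 2).add
      (((Real.hasDerivAt_sin (2 * (2 * π * t))).comp t h1).div_const (8 * π))
    refine h2.congr_deriv ?_
    rw [cos_two_mul]
    field_simp
    ring
  rw [intervalIntegral.integral_eq_sub_of_hasDerivAt h (by
    apply Continuous.intervalIntegrable; fun_prop)]
  rw [show 2 * (2 * π * (1 / 2)) = 2 * π by ring, sin_two_pi]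
  simp
  norm_num

theorem integral_sin_cos :
    ∫ t in (0 : ℝ)..(1 / 2), sin (π * t) * cos (2 * π * t) = -(1 / (3 * π)) := by
  have hpi := Real.pi_ne_zero
  have h : ∀ t ∈ Set.uIcc (0 : ℝ) (1 / 2),
      HasDerivAt (fun t => (-(2 / 3) * cos (π * t) ^ 3 + cos (π * t)) / π)
        (sin (π * t) * cos (2 * π * t)) t := by
    intro t _
    have h1 : HasDerivAt (fun t => π * t) π t := by
      simpa using (hasDerivAt_id t).const_mul π
    have hc : HasDerivAt (fun t => cos (π * t)) (-sin (π * t) * π) t :=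
      (Real.hasDerivAt_cos (π * t)).comp t h1
    have h2 := (((hc.pow 3).const_mul (-(2 / 3) : ℝ)).add hc).div_const π
    refine h2.congr_deriv ?_
    rw [show 2 * π * t = 2 * (π * t) by ring, cos_two_mul]
    field_simp
    push_cast
    ring
  rw [intervalIntegral.integral_eq_sub_of_hasDerivAt h (by
    apply Continuous.intervalIntegrable; fun_prop)]
  rw [show π * (1 / 2) = π / 2 by ring, cos_pi_div_two]
  simp
  field_simp
  norm_num

theorem psdi_bridge_sub3 : PSDI (fun a b => bridge a b - Dfun a * Dfun b / ND -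
    Efun a * Efun b / NE) := by
  have hpi := Real.pi_ne_zero
  have hND := ND_pos
  let m : Set.Icc (0 : ℝ) 1 → ℝ := fun a => min (a : ℝ) (1 - a)
  have hm : ∀ a, m a ∈ Set.Icc (0 : ℝ) (1 / 2) := by
    intro a
    refine ⟨le_min a.2.1 (by linarith [a.2.2]), ?_⟩
    rcases le_total (a : ℝ) (1 / 2) with h | h
    · exact (min_le_left _ _).trans h
    · exact (min_le_right _ _).trans (by linarith)
  let v2 : ℝ → ℝ := fun t => -2 + π * sin (π * t)
  let v3 : ℝ → ℝ := fun t => 2 * π * cos (2 * π * t) + 2 * π / 3 / ND * (-2 + π * sin (π * t))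
  let v : Fin 3 → ℝ → ℝ := ![fun _ => 1, v2, v3]
  let P : Fin 3 → ℝ → ℝ := ![fun a => a, Dfun, Efun]
  let N : Fin 3 → ℝ := ![1 / 2, ND, NE]
  have c2 : Continuous v2 := by
    show Continuous (fun t => -2 + π * sin (π * t))
    fun_prop
  have c3 : Continuous v3 := by
    show Continuous (fun t => 2 * π * cos (2 * π * t) + 2 * π / 3 / ND *
      (-2 + π * sin (π * t)))
    fun_prop
  have hv : ∀ i, Continuous (v i) := by
    intro i
    fin_cases i
    · exact continuous_const
    · exact c2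
    · exact c3
  have iD : ∀ a : ℝ, ∫ t in (0 : ℝ)..a, v2 t = Dfun a := by
    intro a
    show ∫ t in (0 : ℝ)..a, (-2 + π * sin (π * t)) = Dfun a
    rw [intervalIntegral.integral_add (by simp) (by
      apply Continuous.intervalIntegrable; fun_prop), intervalIntegral.integral_const_mul,
      integral_sin_pi]
    unfold Dfun
    simp
    field_simp
    ring
  have iE : ∀ a : ℝ, ∫ t in (0 : ℝ)..a, v3 t = Efun a := by
    intro a
    have h1 : ∫ t in (0 : ℝ)..a, v3 t = 2 * π * (∫ t in (0 : ℝ)..a, cos (2 * π * t)) +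
        2 * π / 3 / ND * ∫ t in (0 : ℝ)..a, v2 t := by
      rw [← intervalIntegral.integral_const_mul, ← intervalIntegral.integral_const_mul,
        ← intervalIntegral.integral_add]
      · apply Continuous.intervalIntegrable; fun_prop
      · exact (continuous_const.mul c2).intervalIntegrable _ _
    rw [h1, iD, integral_cos_two_pi]
    unfold Efun
    field_simp
  have D0 : Dfun (1 / 2) = 0 := by
    unfold Dfun
    rw [show π * (1 / 2) = π / 2 by ring, cos_pi_div_two]; ring
  have E0 : Efun (1 / 2) = 0 := by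
    unfold Efun Sfun
    rw [D0, show 2 * π * (1 / 2) = π by ring, sin_pi]; ring
  have i22 : ∫ t in (0 : ℝ)..(1 / 2), v2 t * v2 t = ND := by
    show ∫ t in (0 : ℝ)..(1 / 2), (-2 + π * sin (π * t)) * (-2 + π * sin (π * t)) = ND
    have h1 : (fun t : ℝ => (-2 + π * sin (π * t)) * (-2 + π * sin (π * t))) =
        fun t => (4 - 4 * π * sin (π * t)) + π ^ 2 * sin (π * t) ^ 2 := by
      funext t; ring
    rw [h1, intervalIntegral.integral_add (by
      apply Continuous.intervalIntegrable; fun_prop) (by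
      apply Continuous.intervalIntegrable; fun_prop), intervalIntegral.integral_sub
      (by simp) (by apply Continuous.intervalIntegrable; fun_prop),
      intervalIntegral.integral_const_mul, intervalIntegral.integral_const_mul,
      integral_sin_pi, integral_sin_sq_half, show π * (1 / 2) = π / 2 by ring, cos_pi_div_two]
    unfold ND
    simp
    field_simp
    ring
  have iDS : ∫ t in (0 : ℝ)..(1 / 2), v2 t * (2 * π * cos (2 * π * t)) = -(2 * π / 3) := by
    show ∫ t in (0 : ℝ)..(1 / 2), (-2 + π * sin (π * t)) * (2 * π * cos (2 * π * t)) = _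
    have h1 : (fun t : ℝ => (-2 + π * sin (π * t)) * (2 * π * cos (2 * π * t))) =
        fun t => -4 * π * cos (2 * π * t) + 2 * π ^ 2 * (sin (π * t) * cos (2 * π * t)) := by
      funext t; ring
    rw [h1, intervalIntegral.integral_add (by
      apply Continuous.intervalIntegrable; fun_prop) (by
      apply Continuous.intervalIntegrable; fun_prop),
      intervalIntegral.integral_const_mul, intervalIntegral.integral_const_mul,
      integral_cos_two_pi, integral_sin_cos]
    unfold Sfun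
    rw [show 2 * π * (1 / 2) = π by ring, sin_pi]
    field_simp
    ring
  have iSS : ∫ t in (0 : ℝ)..(1 / 2), (2 * π * cos (2 * π * t)) * (2 * π * cos (2 * π * t)) =
      π ^ 2 := by
    have h1 : (fun t : ℝ => (2 * π * cos (2 * π * t)) * (2 * π * cos (2 * π * t))) =
        fun t => 4 * π ^ 2 * cos (2 * π * t) ^ 2 := by
      funext t; ring
    rw [h1, intervalIntegral.integral_const_mul, integral_cos_two_pi_sq]
    ring
  have cs : Continuous (fun t : ℝ => 2 * π * cos (2 * π * t)) := by fun_prop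
  have i23 : ∫ t in (0 : ℝ)..(1 / 2), v2 t * v3 t = 0 := by
    have h1 : (fun t : ℝ => v2 t * v3 t) = fun t => v2 t * (2 * π * cos (2 * π * t)) +
        2 * π / 3 / ND * (v2 t * v2 t) := by
      funext t
      show v2 t * (2 * π * cos (2 * π * t) + 2 * π / 3 / ND * v2 t) = _
      ring
    rw [h1, intervalIntegral.integral_add
      (by apply Continuous.intervalIntegrable; exact c2.mul cs)
      (by apply Continuous.intervalIntegrable; exact continuous_const.mul (c2.mul c2)),
      intervalIntegral.integral_const_mul, iDS, i22]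
    field_simp
    ring
  have i33 : ∫ t in (0 : ℝ)..(1 / 2), v3 t * v3 t = NE := by
    have h1 : (fun t : ℝ => v3 t * v3 t) = fun t => (2 * π * cos (2 * π * t)) *
        (2 * π * cos (2 * π * t)) + 2 * (2 * π / 3 / ND) * (v2 t * (2 * π * cos (2 * π * t))) +
        (2 * π / 3 / ND) ^ 2 * (v2 t * v2 t) := by
      funext t
      show (2 * π * cos (2 * π * t) + 2 * π / 3 / ND * v2 t) *
        (2 * π * cos (2 * π * t) + 2 * π / 3 / ND * v2 t) = _
      ring
    rw [h1, intervalIntegral.integral_add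
      (by
        apply Continuous.intervalIntegrable
        exact (cs.mul cs).add (continuous_const.mul (c2.mul cs)))
      (by apply Continuous.intervalIntegrable; exact continuous_const.mul (c2.mul c2)),
      intervalIntegral.integral_add (by apply Continuous.intervalIntegrable; exact cs.mul cs)
      (by apply Continuous.intervalIntegrable; exact continuous_const.mul (c2.mul cs)),
      intervalIntegral.integral_const_mul, intervalIntegral.integral_const_mul, iDS, i22, iSS]
    have hN : π ^ 2 / 4 - 2 = ND := rfl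
    unfold NE detH
    rw [hN]
    field_simp
    ring
  have h := min_bessel (T := 1 / 2) (by norm_num) m hm Finset.univ v hv N (by
      intro i _; fin_cases i
      · show (0 : ℝ) < 1 / 2; norm_num
      · exact ND_pos
      · exact NE_pos) (by
      intro i _ j _
      fin_cases i <;> fin_cases j
      · show ∫ t in (0 : ℝ)..(1 / 2), (1 : ℝ) * 1 = 1 / 2
        simp
      · show ∫ t in (0 : ℝ)..(1 / 2), (1 : ℝ) * v2 t = 0
        simp only [one_mul]; rw [iD, D0]
      · show ∫ t in (0 : ℝ)..(1 / 2), (1 : ℝ) * v3 t = 0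
        simp only [one_mul]; rw [iE, E0]
      · show ∫ t in (0 : ℝ)..(1 / 2), v2 t * (1 : ℝ) = 0
        simp only [mul_one]; rw [iD, D0]
      · exact i22
      · exact i23
      · show ∫ t in (0 : ℝ)..(1 / 2), v3 t * (1 : ℝ) = 0
        simp only [mul_one]; rw [iE, E0]
      · show ∫ t in (0 : ℝ)..(1 / 2), v3 t * v2 t = 0
        simp only [mul_comm (v3 _) (v2 _)]; exact i23
      · exact i33) P (by
      intro i _ a _
      fin_cases i
      · show ∫ t in (0 : ℝ)..a, (1 : ℝ) = a
        simp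
      · exact iD a
      · exact iE a)
  let sgn : Set.Icc (0 : ℝ) 1 → ℝ := fun a => if (a : ℝ) ≤ 1 / 2 then 1 else -1
  refine ((PSD.rankOne sgn).mul h).congr fun a b => ?_
  have hsum : ∑ i ∈ (Finset.univ : Finset (Fin 3)), P i (m a) * P i (m b) / N i
      = m a * m b / (1 / 2) + Dfun (m a) * Dfun (m b) / ND + Efun (m a) * Efun (m b) / NE := by
    rw [Fin.sum_univ_three]; rfl
  rw [hsum]
  show min (a : ℝ) b + max ((a : ℝ) + b - 1) 0 - 2 * a * b - Dfun a * Dfun b / ND -
    Efun a * Efun b / NE =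
    sgn a * sgn b * (min (m a) (m b) - (m a * m b / (1 / 2) + Dfun (m a) * Dfun (m b) / ND +
      Efun (m a) * Efun (m b) / NE))
  have ha1 := a.2.1
  have ha2 := a.2.2
  have hb1 := b.2.1
  have hb2 := b.2.2
  have key : ∀ a : Set.Icc (0 : ℝ) 1, (m a = a ∧ sgn a = 1 ∧ (a : ℝ) ≤ 1 / 2) ∨
      (m a = 1 - a ∧ sgn a = -1 ∧ 1 / 2 < (a : ℝ)) := by
    intro a
    by_cases h : (a : ℝ) ≤ 1 / 2
    · left; exact ⟨min_eq_left (by linarith), if_pos h, h⟩
    · right; push Not at h
      exact ⟨min_eq_right (by linarith), if_neg (not_le.mpr h), h⟩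
  rcases key a with ⟨h1, h2, h3⟩ | ⟨h1, h2, h3⟩ <;> rcases key b with ⟨h4, h5, h6⟩ | ⟨h4, h5, h6⟩ <;>
    rw [h1, h2, h4, h5]
  · rw [max_eq_right (by linarith)]; ring
  · rw [Dfun_reflect, Efun_reflect]
    rw [min_eq_left (by linarith : (a : ℝ) ≤ b)]
    rcases le_total (a : ℝ) (1 - b) with h7 | h7
    · rw [min_eq_left h7, max_eq_right (by linarith)]; ring
    · rw [min_eq_right h7, max_eq_left (by linarith)]; ring
  · rw [Dfun_reflect, Efun_reflect]
    rw [min_eq_right (by linarith : (b : ℝ) ≤ a)]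
    rcases le_total (1 - a : ℝ) b with h7 | h7
    · rw [min_eq_left h7, max_eq_left (by linarith)]; ring
    · rw [min_eq_right h7, max_eq_right (by linarith)]; ring
  · rw [Dfun_reflect, Dfun_reflect, Efun_reflect, Efun_reflect, max_eq_left (by linarith)]
    rcases le_total (a : ℝ) b with h7 | h7
    · rw [min_eq_left h7, min_eq_right (by linarith)]; ring
    · rw [min_eq_right h7, min_eq_left (by linarith)]; ring

/-- a binary quadratic form with nonnegative coefficients and determinant -/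
theorem psdi_quad (f g : ℝ → ℝ) {A B C : ℝ} (hA : 0 ≤ A) (hC : 0 ≤ C) (h : B ^ 2 ≤ A * C) :
    PSDI (fun a b => A * (f a * f b) + B * (f a * g b + g a * f b) + C * (g a * g b)) := by
  rcases hA.eq_or_lt with hA0 | hA0
  · have hB : B = 0 := by
      rw [← hA0, zero_mul] at h
      exact pow_eq_zero_iff (two_ne_zero) |>.mp (le_antisymm h (sq_nonneg B))
    refine ((PSDI.rankOne g).smul hC).congr fun a _ b _ => ?_
    rw [← hA0, hB]; ring
  · have h1 : 0 ≤ C - B ^ 2 / A := by
      rw [sub_nonneg, div_le_iff₀ hA0]; linarith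
    refine (((PSDI.rankOne (fun a => f a + B / A * g a)).smul hA).add
      ((PSDI.rankOne g).smul h1)).congr fun a _ b _ => ?_
    field_simp
    ring

/-- trace and determinant criterion relative to a positive definite form -/
theorem quad_nonneg {p q r A B C : ℝ} (hp : 0 < p) (hr : 0 < r) (hpr : q ^ 2 < p * r)
    (hdet : B ^ 2 ≤ A * C) (htr : 0 ≤ p * A + 2 * q * B + r * C) : 0 ≤ A ∧ 0 ≤ C := by
  have hAC : 0 ≤ A * C := (sq_nonneg B).trans hdet
  by_contra hcon
  rw [not_and_or, not_le, not_le] at hcon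
  have hA : A ≤ 0 := by
    rcases hcon with h | h
    · exact h.le
    · by_contra h2
      push Not at h2
      nlinarith [mul_neg_of_pos_of_neg h2 h]
  have hC : C ≤ 0 := by
    rcases hcon with h | h
    · by_contra h2
      push Not at h2
      nlinarith [mul_neg_of_neg_of_pos h h2]
    · exact h.le
  have hlt : p * A + r * C < 0 := by
    rcases hcon with h | h
    · nlinarith [mul_pos hp (neg_pos.mpr h), mul_nonneg hr.le (neg_nonneg.mpr hC)]
    · nlinarith [mul_pos hr (neg_pos.mpr h), mul_nonneg hp.le (neg_nonneg.mpr hA)]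
  have h3 : -(p * A + r * C) ≤ 2 * q * B := by linarith
  have h4 : (p * A + r * C) ^ 2 ≤ (2 * q * B) ^ 2 := by
    rw [← neg_sq]
    exact pow_le_pow_left₀ (by linarith) h3 2
  have h5 : (2 * q * B) ^ 2 ≤ 4 * q ^ 2 * (A * C) := by
    nlinarith [mul_le_mul_of_nonneg_left hdet (sq_nonneg q)]
  have h6 : 4 * (p * r) * (A * C) ≤ (p * A + r * C) ^ 2 := by
    nlinarith [sq_nonneg (p * A - r * C)]
  have h7 : A * C ≤ 0 := by
    by_contra h8
    push Not at h8
    nlinarith [mul_lt_mul_of_pos_right hpr h8]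
  have h9 : A * C = 0 := le_antisymm h7 hAC
  rw [h9] at h5
  nlinarith [mul_pos_of_neg_of_neg hlt hlt]

/-- `S = sin 2πa = 4 sh a`, `D = Dfun a` -/
theorem psdi_bridge_DS {c T11 T12 T22 : ℝ} (hc : 0 ≤ c) (h1 : trH T11 T12 T22 ≤ 2 * c)
    (h2 : 0 ≤ c ^ 2 - c * trH T11 T12 T22 + detH * (T11 * T22 - T12 ^ 2)) :
    PSDI (fun a b => c * bridge a b - (T11 * (Dfun a * Dfun b) +
      T12 * (Dfun a * (4 * sh b) + 4 * sh a * Dfun b) + T22 * (4 * sh a * (4 * sh b)))) := by
  have hpi : 0 < π := Real.pi_pos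
  have hN := ND_pos
  have hN2 : π ^ 2 / 4 - 2 = ND := rfl
  have hdet := detH_pos
  have hdet2 : detH = ND * π ^ 2 - (2 * π / 3) ^ 2 := rfl
  have hb1 : (c * (2 * π / 3) / detH - T12) ^ 2 ≤
      (c * π ^ 2 / detH - T11) * (c * ND / detH - T22) := by
    have : (c * π ^ 2 / detH - T11) * (c * ND / detH - T22) -
        (c * (2 * π / 3) / detH - T12) ^ 2 =
        (c ^ 2 - c * trH T11 T12 T22 + detH * (T11 * T22 - T12 ^ 2)) / detH := by
      unfold trH
      rw [hN2]
      have e : c ^ 2 = c ^ 2 * (ND * π ^ 2 - (2 * π / 3) ^ 2) / detH := by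
        rw [← hdet2]; field_simp
      rw [e]
      field_simp
      ring
    have h3 := div_nonneg h2 hdet.le
    rw [← this] at h3
    linarith
  have hb2 : 0 ≤ ND * (c * π ^ 2 / detH - T11) + 2 * (-(2 * π / 3)) *
      (c * (2 * π / 3) / detH - T12) + π ^ 2 * (c * ND / detH - T22) := by
    have : ND * (c * π ^ 2 / detH - T11) + 2 * (-(2 * π / 3)) *
      (c * (2 * π / 3) / detH - T12) + π ^ 2 * (c * ND / detH - T22) =
      2 * c - trH T11 T12 T22 := by
      unfold trH
      rw [hN2]
      have e : 2 * c = 2 * c * (ND * π ^ 2 - (2 * π / 3) ^ 2) / detH := by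
        rw [← hdet2]; field_simp
      rw [e]
      field_simp
      ring
    rw [this]; linarith
  obtain ⟨hA0, hC0⟩ := quad_nonneg hN (by positivity : 0 < π ^ 2) (by
    rw [neg_sq]; linarith [hdet2]) hb1 hb2
  have h3 := psdi_quad Dfun Sfun hA0 hC0 hb1
  refine ((psdi_bridge_sub3.smul hc).add h3).congr fun a _ b _ => ?_
  rw [four_sh, four_sh]
  have e1 : Efun a * Efun b / NE = ND / detH * (Sfun a * Sfun b) +
      2 * π / 3 / detH * (Sfun a * Dfun b + Dfun a * Sfun b) +
      (2 * π / 3) ^ 2 / (ND * detH) * (Dfun a * Dfun b) := by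
    unfold Efun NE
    field_simp
    ring
  have e2 : Dfun a * Dfun b / ND = (ND * π ^ 2 - (2 * π / 3) ^ 2) / (ND * detH) *
      (Dfun a * Dfun b) := by
    rw [← hdet2]
    field_simp
  rw [e1, e2]
  field_simp
  ring

theorem psdi_V {X : Cr} (hb : 0 ≤ X.bV) (hv : 0 < X.aa + 2 * X.af + X.ff)
    (h1 : trH (((X.af + X.ff) / 2) ^ 2 / (X.aa + 2 * X.af + X.ff) - X.ff / 4)
      (((X.af + X.ff) / 2) * ((X.ah + X.fh) / 4) / (X.aa + 2 * X.af + X.ff) - X.fh / 8)
      (((X.ah + X.fh) / 4) ^ 2 / (X.aa + 2 * X.af + X.ff) - X.hh / 16) ≤ 2 * X.bV)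
    (h2 : 0 ≤ X.bV ^ 2 - X.bV *
        trH (((X.af + X.ff) / 2) ^ 2 / (X.aa + 2 * X.af + X.ff) - X.ff / 4)
          (((X.af + X.ff) / 2) * ((X.ah + X.fh) / 4) / (X.aa + 2 * X.af + X.ff) - X.fh / 8)
          (((X.ah + X.fh) / 4) ^ 2 / (X.aa + 2 * X.af + X.ff) - X.hh / 16) +
      detH * ((((X.af + X.ff) / 2) ^ 2 / (X.aa + 2 * X.af + X.ff) - X.ff / 4) *
          (((X.ah + X.fh) / 4) ^ 2 / (X.aa + 2 * X.af + X.ff) - X.hh / 16) -
        (((X.af + X.ff) / 2) * ((X.ah + X.fh) / 4) / (X.aa + 2 * X.af + X.ff) - X.fh / 8) ^ 2)) :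
    PSDI (V X) := by
  have h3 := psdi_bridge_DS hb h1 h2
  have h4 := (PSDI.rankOne (fun a => (X.aa + 2 * X.af + X.ff) * a + (X.af + X.ff) / 2 * Dfun a +
    (X.ah + X.fh) / 4 * (4 * sh a))).smul (c := 1 / (X.aa + 2 * X.af + X.ff)) (by positivity)
  refine (h4.add h3).congr fun a _ b _ => ?_
  unfold V
  rw [sf_eq, sf_eq]
  have hv' := hv.ne'
  set w := X.aa + 2 * X.af + X.ff with hw
  have haa : X.aa = w - 2 * X.af - X.ff := by rw [hw]; ring
  rw [haa]
  field_simp
  ring

end FX
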