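import Pool.Agent.H11.FX.Van
import Pool.Agent.H11.FX.Clo
import Pool.Agent.H11.FX.Chf1
import Pool.Agent.H11.FX.Cmp1
import Pool.Agent.H11.FX.Cmp2

set_option autoImplicit false

/-!
# FE-8: acute triangles with `a ≤ 94/100`
-/

namespace FX

open H41FT H45FT Real Function

variable {C : Co} {a b c : ℝ}

theorem rac_zl_r0 (hG : Good C) {p : P} (h0 : p 0 = 0) {lo hi : ℝ} (hl : lo < hi) (hlo : 0 ≤ lo)
    (hhi : hi ≤ 1) (h1 : lo ≤ p 1) (h1' : p 1 ≤ hi) : Zl (ev (CF .f0 C pA000)) 1 p := by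
  refine ⟨lo, hi, hl, h1, h1', fun t ht ht' => ?_⟩
  rw [ev_CF, u10, u11, u12, h0]
  exact v_f0_r0 hG _ (by linarith) (by linarith)

theorem rac_zl_r1 (hG : Good C) {p : P} (h0 : p 0 = 0) {lo hi : ℝ} (hl : lo < hi) (hlo : 0 ≤ lo)
    (hhi : hi ≤ 1) (h1 : lo ≤ p 1) (h1' : p 1 ≤ hi) : Zl (ev (CF .f0 C pA100)) 1 p := by
  refine ⟨lo, hi, hl, h1, h1', fun t ht ht' => ?_⟩
  rw [ev_CF, u10, u11, u12, h0]
  exact v_f0_r1 hG _ (by linarith) (by linarith)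

theorem rac_ZA (hG : Good C) (H : Claims C) :
    ∀ p : P, B3 0 (1/10) 0 (1/10) 0 1 p → 0 ≤ ev (CF .f0 C pA000) p := by
  have hsm : ∀ p : P, B3 0 (1/10) 0 (1/10) 0 1 p → Sm (ev (CF .f0 C pA000)) p := fun p h =>
    (H.ZA p h.l0 h.r0 h.l1 h.r1 h.l2 h.r2).2
  have k2 : ∀ p : P, B3 0 (1/10) 0 (1/10) 0 1 p → 0 ≤ D 1 (ev (CF .f0 C pA000)) p := by
    refine pat1 (i := 0) (fun p h => h.lo0)
      (fun p h => ⟨(H.ZA p h.l0 h.r0 h.l1 h.r1 h.l2 h.r2).1.le, (hsm p h).D 1⟩)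
      (fun p h h0 => ?_)
    exact ((rac_zl_r0 hG h0 (lo := 0) (hi := 1/10) (by norm_num) le_rfl (by norm_num)
      h.l1 h.r1).D (hsm p h)).ge
  refine pat1 (i := 1) (fun p h => h.lo1) (fun p h => ⟨k2 p h, hsm p h⟩) (fun p h h0 => ?_)
  rw [ev_CF, h0]
  exact (v_f0_t0 hG _ _).ge

theorem rac_ZB (hG : Good C) (H : Claims C) :
    ∀ p : P, B3 (1/10) 1 0 (1/10) 0 1 p → 0 ≤ ev (CF .f0 C pA000) p := by
  refine pat1 (i := 1) (fun p h => h.lo1) (fun p h => ?_) (fun p h h0 => ?_)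
  · obtain ⟨a1, a2⟩ := H.ZB p h.l0 h.r0 h.l1 h.r1 h.l2 h.r2
    exact ⟨a1.le, a2⟩
  · rw [ev_CF, h0]
    exact (v_f0_t0 hG _ _).ge

theorem rac_ZC0 (hG : Good C) (H : Claims C) :
    ∀ p : P, B3 0 (1/10) (1/10) (4143/10000) 0 1 p → 0 ≤ ev (CF .f0 C pA000) p := by
  refine pat1 (i := 0) (fun p h => h.lo0) (fun p h => ?_) (fun p h h0 => ?_)
  · obtain ⟨a1, a2⟩ := H.ZC0 p h.l0 h.r0 h.l1 h.r1 h.l2 h.r2
    exact ⟨a1.le, a2⟩
  · rw [ev_CF, h0]
    exact (v_f0_r0 hG _ (by linarith [h.l1]) (by linarith [h.r1])).ge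

theorem rac_ZC1 (hG : Good C) (H : Claims C) :
    ∀ p : P, B3 0 (1/10) (9/25) (191/200) 0 1 p → 0 ≤ ev (CF .f0 C pA100) p := by
  refine pat1 (i := 0) (fun p h => h.lo0) (fun p h => ?_) (fun p h h0 => ?_)
  · obtain ⟨a1, a2⟩ := H.ZC1 p h.l0 h.r0 h.l1 h.r1 h.l2 h.r2
    exact ⟨a1.le, a2⟩
  · rw [ev_CF, h0]
    exact (v_f0_r1 hG _ (by linarith [h.l1]) (by linarith [h.r1])).ge

theorem rac_ZE (hG : Good C) (H : Claims C) :
    ∀ p : P, B3 0 (1/10) (191/200) 1 0 1 p → 0 ≤ ev (CF .f0 C pA100) p := by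
  have hsm : ∀ p : P, B3 0 (1/10) (191/200) 1 0 1 p → Sm (ev (CF .f0 C pA100)) p := fun p h =>
    (H.ZE p h.l0 h.r0 h.l1 h.r1 h.l2 h.r2).2
  have k2 : ∀ p : P, B3 0 (1/10) (191/200) 1 0 1 p → D 1 (ev (CF .f0 C pA100)) p ≤ 0 := by
    refine pat1n (i := 0) (fun p h => h.lo0)
      (fun p h => ⟨(H.ZE p h.l0 h.r0 h.l1 h.r1 h.l2 h.r2).1.le, (hsm p h).D 1⟩)
      (fun p h h0 => ?_)
    exact ((rac_zl_r1 hG h0 (lo := 191/200) (hi := 1) (by norm_num) (by norm_num) le_rfl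
      h.l1 h.r1).D (hsm p h)).le
  refine pat1' (i := 1) (fun p h => h.hi1) (fun p h => ⟨k2 p h, hsm p h⟩) (fun p h h0 => ?_)
  rw [ev_CF, h0]
  exact (v_f0_t1a hG _ h.l0 (by linarith [h.r0])).ge

theorem rac_ZF (hG : Good C) (H : Claims C) :
    ∀ p : P, B3 (1/10) (191/200) (191/200) 1 0 1 p → 0 ≤ ev (CF .f0 C pA111) p := by
  refine pat1' (i := 1) (fun p h => h.hi1) (fun p h => ?_) (fun p h h0 => ?_)
  · obtain ⟨a1, a2⟩ := H.ZF p h.l0 h.r0 h.l1 h.r1 h.l2 h.r2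
    exact ⟨a1.le, a2⟩
  · rw [ev_CF, h0]
    exact (v_f0_t1b hG _ (by linarith [h.l0]) (by linarith [h.r0])).ge

theorem rac_tan_lt {x : ℝ} (h0 : 0 ≤ x) (h1 : x < 1/10) : tan (π / 4 * x) < 955/10000 := by
  have hp := Real.pi_pos
  have hp2 : π < 3.15 := Real.pi_lt_d2
  have hy0 : 0 ≤ π / 4 * x := by positivity
  have hy1 : π / 4 * x < 8/100 := by nlinarith
  have hc : 1 - (π / 4 * x) ^ 2 / 2 ≤ cos (π / 4 * x) := Real.one_sub_sq_div_two_le_cos
  have hs : sin (π / 4 * x) ≤ π / 4 * x := Real.sin_le hy0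
  have hc0 : 99/100 ≤ cos (π / 4 * x) := by nlinarith
  rw [tan_eq_sin_div_cos, div_lt_iff₀ (by linarith)]
  nlinarith

/-- acute, `a ≤ 94/100` -/
theorem pos_ac (hG : Good C) (H : Claims C) (h0 : 0 < a) (hab : a ≤ b) (hbc : b ≤ c)
    (hc : c ≤ 1) (hs : c ≤ a + b) (ht : 0 ≤ dih 1 a b c) (ha : a ≤ 94/100) :
    0 ≤ F C.toCr 1 a b c := by
  have hb0 : 0 < b := by linarith
  have hb1 : b ≤ 1 := by linarith
  obtain ⟨τ, hτ0, hτ1, hch⟩ := ch_f0 h0 hab hbc hc hs ht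
  have hta0 : 0 < tan (π / 4 * a) := tan_q_pos h0 (by linarith)
  have htb0 : 0 < tan (π / 4 * b) := tan_q_pos hb0 hb1
  have htab : tan (π / 4 * a) ≤ tan (π / 4 * b) := tan_q_mono h0.le hab hb1
  have htb1 : tan (π / 4 * b) ≤ 1 := tan_q_le_one hb0.le hb1
  have hr0 : 0 ≤ tan (π / 4 * a) / tan (π / 4 * b) := by positivity
  have hr1 : tan (π / 4 * a) / tan (π / 4 * b) ≤ 1 := by
    rw [div_le_one htb0]; exact htab
  have hrt : tan (π / 4 * a) / tan (π / 4 * b) * tan (π / 4 * b) = tan (π / 4 * a) :=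
    div_mul_cancel₀ _ htb0.ne'
  have hev : ∀ pc : Pc, Tt C pc 1 a b c =
      ev (CF .f0 C pc) ![tan (π / 4 * a) / tan (π / 4 * b), tan (π / 4 * b), τ] := by
    intro pc
    rw [ev_CF]
    exact (hch (FG H41FT.rO C pc)).trans (CF_def .f0 C pc _ _ _).symm
  have hgd : ∀ k : KG, CG .f0 k rO (tan (π / 4 * a) / tan (π / 4 * b)) (tan (π / 4 * b)) τ =
      KGf k H41FT.rO (tdat 1 a b c) := by
    intro k
    exact (CG_def .f0 k _ _ _).trans (hch (KGf k H41FT.rO)).symm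
  have hfin : ∀ {x y z : Bool}, Fl x (b + c) → Fl y (a + c) → Fl z (a + b) →
      0 ≤ Tt C ⟨.ac, x, y, z⟩ 1 a b c → 0 ≤ F C.toCr 1 a b c := by
    intro x y z hx hy hz h
    have := closed_ac hG h0 hab hbc hc ht hx hy hz
    linarith
  rcases le_total (tan (π / 4 * b)) (1/10) with h1 | h1
  · -- `t ≤ 1/10`
    have hb2 : b ≤ 1/3 := by
      by_contra hcon
      push Not at hcon
      have := tan_ge hcon.le hb1
      linarith
    refine hfin (x := false) (y := false) (z := false) ?_ ?_ ?_ ?_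
    · show b + c ≤ 1
      linarith
    · show a + c ≤ 1
      linarith
    · show a + b ≤ 1
      linarith
    · show 0 ≤ Tt C pA000 1 a b c
      rw [hev]
      rcases le_total (tan (π / 4 * a) / tan (π / 4 * b)) (1/10) with h2 | h2
      · exact rac_ZA hG H _ ⟨hr0, h2, htb0.le, h1, hτ0, hτ1⟩
      · exact rac_ZB hG H _ ⟨h2, hr1, htb0.le, h1, hτ0, hτ1⟩
  rcases le_total (tan (π / 4 * a) / tan (π / 4 * b)) (1/10) with h2 | h2
  · -- `ρ ≤ 1/10`
    obtain ⟨x, hx⟩ := Fl.ex (b + c)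
    obtain ⟨y, hy⟩ := Fl.ex (a + c)
    obtain ⟨z, hz⟩ := Fl.ex (a + b)
    refine hfin hx hy hz (le_trans ?_ (cmp_ac hG h0 hab hbc hc hs ht hx hy hz))
    cases x
    · have hx' : b + c ≤ 1 := hx
      have h3 : tan (π / 4 * b) ≤ 4143/10000 := tan_b hb0.le (by linarith)
      show 0 ≤ Tt C pA000 1 a b c
      rw [hev]
      exact rac_ZC0 hG H _ ⟨hr0, h2, h1, h3, hτ0, hτ1⟩
    · have hx' : 1 ≤ b + c := hx
      have h3 : 36/100 ≤ tan (π / 4 * b) := tan_ge36 h0.le hb0 hb1 hab h2 (by linarith)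
      have h3' : 9/25 ≤ tan (π / 4 * b) := by linarith
      show 0 ≤ Tt C pA100 1 a b c
      rw [hev]
      rcases le_total (tan (π / 4 * b)) (191/200) with h4 | h4
      · exact rac_ZC1 hG H _ ⟨hr0, h2, h3', h4, hτ0, hτ1⟩
      · exact rac_ZE hG H _ ⟨hr0, h2, h4, htb1, hτ0, hτ1⟩
  rcases le_total (tan (π / 4 * b)) (191/200) with h3 | h3
  · -- `ρ ≥ 1/10`, `1/10 ≤ t ≤ 191/200`
    rcases le_total (b + c) 1 with k1 | k1
    · refine hfin (x := false) (y := false) (z := false) k1 (show a + c ≤ 1 by linarith)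
        (show a + b ≤ 1 by linarith) ?_
      show 0 ≤ Tt C pA000 1 a b c
      rw [hev]
      have h4 : tan (π / 4 * b) ≤ 4143/10000 := tan_b hb0.le (by linarith)
      refine (H.ZD0 _ h2 hr1 h1 h4 hτ0 hτ1 ?_).1.le
      refine (hgd .hx).le.trans ?_
      rw [td_hx]
      linarith
    have hb3 : 26/100 ≤ tan (π / 4 * b) := tan_ge (by linarith) hb1
    rcases le_total (a + c) 1 with k2 | k2
    · refine hfin (x := true) (y := false) (z := false) k1 k2 (show a + b ≤ 1 by linarith) ?_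
      show 0 ≤ Tt C pA100 1 a b c
      rw [hev]
      refine (H.ZD1 _ h2 hr1 (le_trans (by norm_num) hb3) h3 hτ0 hτ1 ?_ ?_).1.le
      · refine (hgd .nx).le.trans ?_
        rw [td_nx]
        linarith
      · refine (hgd .hy).le.trans ?_
        rw [td_hy]
        linarith
    rcases le_total (a + b) 1 with k3 | k3
    · refine hfin (x := true) (y := true) (z := false) k1 k2 k3 ?_
      show 0 ≤ Tt C pA110 1 a b c
      rw [hev]
      refine (H.ZD2 _ h2 hr1 (le_trans (by norm_num) hb3) h3 hτ0 hτ1 ?_ ?_).1.le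
      · refine (hgd .ny).le.trans ?_
        rw [td_ny]
        linarith
      · refine (hgd .hz).le.trans ?_
        rw [td_hz]
        linarith
    · refine hfin (x := true) (y := true) (z := true) k1 k2 k3 ?_
      show 0 ≤ Tt C pA111 1 a b c
      rw [hev]
      have hb4 : 41/100 ≤ tan (π / 4 * b) := tan_ge2 (by linarith) hb1
      refine (H.ZD3 _ h2 hr1 (le_trans (by norm_num) hb4) h3 hτ0 hτ1 ?_).1.le
      refine (hgd .nz).le.trans ?_
      rw [td_nz]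
      linarith
  · -- `t ≥ 191/200`
    have h4 : tan (π / 4 * a) ≤ 911/1000 := tan_a94 h0.le ha
    have h5 : tan (π / 4 * a) / tan (π / 4 * b) ≤ 191/200 := by
      rw [div_le_iff₀ htb0]
      nlinarith
    have h6 : 955/10000 ≤ tan (π / 4 * a) := by
      rw [← hrt]
      nlinarith
    have h7 : 9/10 ≤ b := b_ge_of_tan hb0.le hb1 (by linarith)
    have h8 : 1/10 ≤ a := by
      by_contra hcon
      push Not at hcon
      have := rac_tan_lt h0.le hcon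
      linarith
    refine hfin (x := true) (y := true) (z := true) (show 1 ≤ b + c by linarith)
      (show 1 ≤ a + c by linarith) (show 1 ≤ a + b by linarith) ?_
    show 0 ≤ Tt C pA111 1 a b c
    rw [hev]
    exact rac_ZF hG H _ ⟨h2, h5, h3, htb1, hτ0, hτ1⟩

end FX
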