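import Pool.Agent.H11.FX.Van
import Pool.Agent.H11.FX.Clo
import Pool.Agent.H11.FX.Chf2
import Pool.Agent.H11.FX.Cmp2

set_option autoImplicit false

/-!
# Obtuse triangles with `a + b ≤ 1 ≤ a + c`, `a` small, not nearly right-angled
-/

namespace FX

open H41FT H45FT Real Function

variable {C : Co} {a b c : ℝ}

/-- the guard of the claims `SY1`, `SY2` -/
def gSY (p : P) : Prop := 200 * (p 1 - cos (π / 2 * p 2)) - 213 ≤ 0

theorem sy_a (hG : Good C) (p : P) (s g : ℝ) (h0 : p 0 = 0) (h1 : p 1 = s) (h2 : p 2 = g) :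
    ev (CF .S C pO110) p = 0 := by
  rw [ev_CF, h0, h1, h2]
  exact v_S_a hG s g pO110 (Or.inl rfl)

/-- the region with `γ ≤ 3/10` -/
theorem sy1 (hG : Good C) (H : Claims C) :
    ∀ p : P, B3 0 (11/100) 1 2 0 (3/10) p ∧ gSY p → 0 ≤ ev (CF .S C pO110) p := by
  have hA : ∀ p : P, B3 0 (11/100) 1 2 0 (3/10) p ∧ gSY p →
      0 < D 0 (D 2 (ev (CF .S C pO110))) p ∧ Sm (ev (CF .S C pO110)) p := fun p h =>
    H.SY1 p h.1.l0 h.1.r0 h.1.l1 h.1.r1 h.1.l2 h.1.r2 h.2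
  have kA : ∀ p : P, B3 0 (11/100) 1 2 0 (3/10) p ∧ gSY p →
      0 ≤ D 2 (ev (CF .S C pO110)) p := by
    refine pat1 (i := 0) (lo := 0) (fun p h => ⟨h.1.l0, fun t h1 h2 => ⟨h.1.lo0.2 t h1 h2, ?_⟩⟩)
      (fun p h => ⟨(hA p h).1.le, (hA p h).2.D 2⟩) (fun p h h0 => ?_)
    · unfold gSY; rw [u01, u02]; exact h.2
    · refine (Zl.D ⟨p 2 - 1, p 2 + 1, by linarith, by linarith, by linarith,
        fun t _ _ => ?_⟩ (hA p h).2).ge
      exact sy_a hG _ (p 1) t (by rw [u20]; exact h0) (u21 p t) (u22 p t)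
  refine pat1 (i := 2) (lo := 0) (fun p h => ⟨h.1.l2, fun t h1 h2 => ⟨h.1.lo2.2 t h1 h2, ?_⟩⟩)
    (fun p h => ⟨kA p h, (hA p h).2⟩) (fun p h h0 => ?_)
  · have := h.2
    unfold gSY at this ⊢
    rw [u21, u22]
    have := cs_anti h1 h2 (by linarith [h.1.r2])
    linarith
  · rw [ev_CF, h0]
    exact (v_S_g0 hG h.1.l0 (by linarith [h.1.r0]) (by linarith [h.1.l1]) h.1.r1).ge

/-- the region with `3/10 ≤ γ ≤ 93/100` -/
theorem sy2 (hG : Good C) (H : Claims C) :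
    ∀ p : P, B3 0 (11/100) 1 2 (3/10) (93/100) p ∧ gSY p → 0 ≤ ev (CF .S C pO110) p := by
  have hA : ∀ p : P, B3 0 (11/100) 1 2 (3/10) (93/100) p ∧ gSY p →
      0 < D 0 (ev (CF .S C pO110)) p ∧ Sm (ev (CF .S C pO110)) p := fun p h =>
    H.SY2 p h.1.l0 h.1.r0 h.1.l1 h.1.r1 h.1.l2 h.1.r2 h.2
  refine pat1 (i := 0) (lo := 0) (fun p h => ⟨h.1.l0, fun t h1 h2 => ⟨h.1.lo0.2 t h1 h2, ?_⟩⟩)
    (fun p h => ⟨(hA p h).1.le, (hA p h).2⟩) (fun p h h0 => ?_)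
  · unfold gSY; rw [u01, u02]; exact h.2
  · exact (sy_a hG p (p 1) (p 2) h0 rfl rfl).ge

/-- obtuse, `a + b ≤ 1 ≤ a + c`, `a` small, `γ ≤ 93/100` -/
theorem pos_sy (hG : Good C) (H : Claims C) (h0 : 0 < a) (ha : a ≤ 11/100) (hab : a ≤ b)
    (hbc : b ≤ c) (hc : c ≤ 1) (hs : c ≤ a + b) (ht : dih 1 a b c ≤ 0) (h1 : a + b ≤ 1)
    (hy : 1 ≤ a + c) (hg : ang (dih 1 a b c) ≤ 93/100) : 0 ≤ F C.toCr 1 a b c := by
  have hgr : 0 ≤ gram3 1 a b c := (gram3_one_nonneg_iff h0 hab hbc hc).2 hs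
  have hd := dih_abs_le (σ := 1) (Or.inl rfl) h0 (by linarith) (by linarith) (by linarith) hgr
  have hcg := cos_ang hd
  have hsig := sig_le h0 ha hab hbc hc hs ht hy
  have e1 : 10000 * F C.toCr 1 a b c = Tt C pO110 1 a b c :=
    closed_ob hG (x := true) (y := true) (z := false) h0 hab hbc hc ht
      (show 1 ≤ b + c by linarith) (show 1 ≤ a + c by linarith) (show a + b ≤ 1 from h1)
  have e2 : Tt C pO110 1 a b c =
      ev (CF .S C pO110) ![a, (1 - b) / a, ang (dih 1 a b c)] := by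
    rw [ev_CF]
    exact ch_S (FG rO C pO110) h0 hab hbc hc hs ht
  have s1 : 1 ≤ (1 - b) / a := by rw [le_div_iff₀ h0]; linarith
  have s2 : (1 - b) / a ≤ 2 := by rw [div_le_iff₀ h0]; linarith
  have hg0 := ang_nonneg (dih 1 a b c)
  have hgs : gSY ![a, (1 - b) / a, ang (dih 1 a b c)] := by
    show 200 * ((1 - b) / a - cos (π / 2 * ang (dih 1 a b c))) - 213 ≤ 0
    rw [hcg]; exact hsig
  have key : 0 ≤ ev (CF .S C pO110) ![a, (1 - b) / a, ang (dih 1 a b c)] := by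
    rcases le_total (ang (dih 1 a b c)) (3/10) with hl | hl
    · exact sy1 hG H _ ⟨⟨h0.le, ha, s1, s2, hg0, hl⟩, hgs⟩
    · exact sy2 hG H _ ⟨⟨h0.le, ha, s1, s2, hl, hg⟩, hgs⟩
  rw [← e2, ← e1] at key
  linarith

end FX
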