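import Pool.Agent.H11.FX.Van
import Pool.Agent.H11.FX.Clo
import Pool.Agent.H11.FX.Chf1
import Pool.Agent.H11.FX.Cmp1
import Pool.Agent.H11.FX.Cmp2
import Pool.Agent.H11.FX.Rsy

set_option autoImplicit false

/-!
# `FX`, FE-10: obtuse triangles with `a + b ≤ 1` and `tan(πb/4) ≤ .8544`
-/

namespace FX

open H41FT H45FT Real Function

variable {C : Co} {a b c : ℝ}

/-! ### segments on which the functions vanish -/

theorem rf_zl1_g (hG : Good C) {p : P} (h0 : 0 ≤ p 0) (h0' : p 0 ≤ 1) (h1 : 0 ≤ p 1)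
    (h1' : p 1 ≤ 1/10) (h2 : p 2 = 0) : Zl (ev (CF .f1 C pO000)) 1 p := by
  refine ⟨0, 1/10, by norm_num, h1, h1', fun t ht ht' => ?_⟩
  rw [ev_CF, u10, u11, u12, h2]
  exact v_f1_g0 hG _ (Or.inl rfl) h0 h0' ht (by linarith)

theorem rf_zl1_r (hG : Good C) {p : P} (h0 : p 0 = 0) (h1 : 0 ≤ p 1) (h1' : p 1 ≤ 1/10) :
    Zl (ev (CF .f1 C pO000)) 1 p := by
  refine ⟨0, 1/10, by norm_num, h1, h1', fun t ht ht' => ?_⟩
  rw [ev_CF, u10, u11, u12, h0]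
  exact v_f1_r0 hG _ ht (by linarith)

theorem rf_zl0_g (hG : Good C) {p : P} (pc : Pc) (hpc : pc = pO000 ∨ pc = pO100 ∨ pc = pO110)
    (h0 : 0 ≤ p 0) (h0' : p 0 ≤ 1/10) (h1 : 0 ≤ p 1) (h1' : p 1 < 1) (h2 : p 2 = 0) :
    Zl (ev (CF .f1 C pc)) 0 p := by
  refine ⟨0, 1/10, by norm_num, h0, h0', fun t ht ht' => ?_⟩
  rw [ev_CF, u00, u01, u02, h2]
  exact v_f1_g0 hG _ hpc ht (by linarith) h1 h1'

theorem rf_t0 (hG : Good C) {p : P} (h1 : p 1 = 0) : 0 ≤ ev (CF .f1 C pO000) p := by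
  rw [ev_CF, h1]; exact (v_f1_t0 hG _ _).ge

/-! ### the regions -/

theorem rPA (hG : Good C) (H : Claims C) :
    ∀ p : P, B3 0 (1/10) 0 (1/10) 0 (3/20) p → 0 ≤ ev (CF .f1 C pO000) p := by
  have hsm : ∀ p : P, B3 0 (1/10) 0 (1/10) 0 (3/20) p → Sm (ev (CF .f1 C pO000)) p := fun p h =>
    (H.PA p h.l0 h.r0 h.l1 h.r1 h.l2 h.r2).2
  have k1 : ∀ p : P, B3 0 (1/10) 0 (1/10) 0 (3/20) p →
      0 ≤ D 0 (D 1 (ev (CF .f1 C pO000))) p := by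
    refine pat1 (i := 2) (fun p h => h.lo2) (fun p h => ?_) (fun p h h0 => ?_)
    · exact ⟨(H.PA p h.l0 h.r0 h.l1 h.r1 h.l2 h.r2).1.le, ((hsm p h).D 1).D 0⟩
    · have hz : Zl (D 1 (ev (CF .f1 C pO000))) 0 p := by
        refine ⟨0, 1/10, by norm_num, h.l0, h.r0, fun t ht ht' => ?_⟩
        have h' := h.u0 ht ht'
        exact (rf_zl1_g hG h'.l0 (by linarith [h'.r0]) h'.l1 h'.r1 (by rw [u02]; exact h0)).D
          (hsm _ h')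
      exact (hz.D ((hsm p h).D 1)).ge
  have k2 : ∀ p : P, B3 0 (1/10) 0 (1/10) 0 (3/20) p → 0 ≤ D 1 (ev (CF .f1 C pO000)) p := by
    refine pat1 (i := 0) (fun p h => h.lo0) (fun p h => ⟨k1 p h, (hsm p h).D 1⟩) (fun p h h0 => ?_)
    exact ((rf_zl1_r hG h0 h.l1 h.r1).D (hsm p h)).ge
  exact pat1 (i := 1) (fun p h => h.lo1) (fun p h => ⟨k2 p h, hsm p h⟩)
    (fun p h h0 => rf_t0 hG h0)

theorem rPB (hG : Good C) (H : Claims C) :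
    ∀ p : P, B3 0 (1/10) 0 (1/10) (3/20) 1 p → 0 ≤ ev (CF .f1 C pO000) p := by
  have hsm : ∀ p : P, B3 0 (1/10) 0 (1/10) (3/20) 1 p → Sm (ev (CF .f1 C pO000)) p := fun p h =>
    (H.PB p h.l0 h.r0 h.l1 h.r1 h.l2 h.r2).2
  have k2 : ∀ p : P, B3 0 (1/10) 0 (1/10) (3/20) 1 p → 0 ≤ D 1 (ev (CF .f1 C pO000)) p := by
    refine pat1 (i := 0) (fun p h => h.lo0) (fun p h => ⟨?_, (hsm p h).D 1⟩) (fun p h h0 => ?_)
    · exact (H.PB p h.l0 h.r0 h.l1 h.r1 h.l2 h.r2).1.le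
    · exact ((rf_zl1_r hG h0 h.l1 h.r1).D (hsm p h)).ge
  exact pat1 (i := 1) (fun p h => h.lo1) (fun p h => ⟨k2 p h, hsm p h⟩)
    (fun p h h0 => rf_t0 hG h0)

theorem rPC (hG : Good C) (H : Claims C) :
    ∀ p : P, B3 (1/10) 1 0 (1/10) 0 (3/20) p → 0 ≤ ev (CF .f1 C pO000) p := by
  have hsm : ∀ p : P, B3 (1/10) 1 0 (1/10) 0 (3/20) p → Sm (ev (CF .f1 C pO000)) p := fun p h =>
    (H.PC p h.l0 h.r0 h.l1 h.r1 h.l2 h.r2).2
  have k2 : ∀ p : P, B3 (1/10) 1 0 (1/10) 0 (3/20) p → 0 ≤ D 1 (ev (CF .f1 C pO000)) p := by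
    refine pat1 (i := 2) (fun p h => h.lo2) (fun p h => ⟨?_, (hsm p h).D 1⟩) (fun p h h0 => ?_)
    · exact (H.PC p h.l0 h.r0 h.l1 h.r1 h.l2 h.r2).1.le
    · exact ((rf_zl1_g hG (by linarith [h.l0]) h.r0 h.l1 h.r1 h0).D (hsm p h)).ge
  exact pat1 (i := 1) (fun p h => h.lo1) (fun p h => ⟨k2 p h, hsm p h⟩)
    (fun p h h0 => rf_t0 hG h0)

theorem rPD (hG : Good C) (H : Claims C) :
    ∀ p : P, B3 (1/10) 1 0 (1/10) (3/20) 1 p → 0 ≤ ev (CF .f1 C pO000) p := by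
  refine pat1 (i := 1) (fun p h => h.lo1) (fun p h => ?_) (fun p h h0 => rf_t0 hG h0)
  obtain ⟨a1, a2⟩ := H.PD p h.l0 h.r0 h.l1 h.r1 h.l2 h.r2
  exact ⟨a1.le, a2⟩

/-- the guard `a + b ≤ 1` -/
def GT1 (p : P) : Prop := p 0 * p 1 + p 1 + p 0 * p 1 * p 1 - 1 ≤ 0

theorem GT1.lo0 {p : P} {t : ℝ} (h : GT1 p) (h1 : 0 ≤ p 1) (ht : t ≤ p 0) :
    GT1 (update p 0 t) := by
  unfold GT1 at *
  rw [u00, u01]
  have e1 : t * p 1 ≤ p 0 * p 1 := mul_le_mul_of_nonneg_right ht h1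
  have e2 : t * p 1 * p 1 ≤ p 0 * p 1 * p 1 := mul_le_mul_of_nonneg_right e1 h1
  linarith

theorem GT1.u2 {p : P} {t : ℝ} (h : GT1 p) : GT1 (update p 2 t) := by
  unfold GT1 at *
  rw [u20, u21]; exact h

theorem rPE0 (hG : Good C) (H : Claims C) : ∀ p : P,
    B3 0 (1/10) (1/10) (4143/10000) 0 (3/20) p ∧ GT1 p → 0 ≤ ev (CF .f1 C pO000) p := by
  have hsm : ∀ p : P, B3 0 (1/10) (1/10) (4143/10000) 0 (3/20) p ∧ GT1 p →
      Sm (ev (CF .f1 C pO000)) p :=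
    fun p h => (H.PE0 p h.1.l0 h.1.r0 h.1.l1 h.1.r1 h.1.l2 h.1.r2 h.2).2
  have k2 : ∀ p : P, B3 0 (1/10) (1/10) (4143/10000) 0 (3/20) p ∧ GT1 p →
      0 ≤ D 0 (ev (CF .f1 C pO000)) p := by
    refine pat1 (i := 2) (lo := 0)
      (fun p h => ⟨h.1.l2, fun t ht ht' => ⟨h.1.lo2.2 t ht ht', h.2.u2⟩⟩)
      (fun p h => ⟨?_, (hsm p h).D 0⟩) (fun p h h0 => ?_)
    · exact (H.PE0 p h.1.l0 h.1.r0 h.1.l1 h.1.r1 h.1.l2 h.1.r2 h.2).1.le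
    · exact ((rf_zl0_g hG _ (Or.inl rfl) h.1.l0 h.1.r0 (by linarith [h.1.l1])
        (by linarith [h.1.r1]) h0).D (hsm p h)).ge
  refine pat1 (i := 0) (lo := 0) (fun p h => ⟨h.1.l0, fun t ht ht' => ⟨h.1.lo0.2 t ht ht',
    h.2.lo0 (by linarith [h.1.l1]) ht'⟩⟩) (fun p h => ⟨k2 p h, hsm p h⟩) (fun p h h0 => ?_)
  rw [ev_CF, h0]
  exact (v_f1_r0 hG _ (by linarith [h.1.l1]) (by linarith [h.1.r1])).ge

theorem rPE1 (hG : Good C) (H : Claims C) : ∀ p : P,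
    B3 0 (1/10) (9/25) (534/625) 0 (3/20) p ∧ GT1 p → 0 ≤ ev (CF .f1 C pO100) p := by
  have hsm : ∀ p : P, B3 0 (1/10) (9/25) (534/625) 0 (3/20) p ∧ GT1 p →
      Sm (ev (CF .f1 C pO100)) p :=
    fun p h => (H.PE1 p h.1.l0 h.1.r0 h.1.l1 h.1.r1 h.1.l2 h.1.r2 h.2).2
  have k2 : ∀ p : P, B3 0 (1/10) (9/25) (534/625) 0 (3/20) p ∧ GT1 p →
      0 ≤ D 0 (ev (CF .f1 C pO100)) p := by
    refine pat1 (i := 2) (lo := 0)
      (fun p h => ⟨h.1.l2, fun t ht ht' => ⟨h.1.lo2.2 t ht ht', h.2.u2⟩⟩)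
      (fun p h => ⟨?_, (hsm p h).D 0⟩) (fun p h h0 => ?_)
    · exact (H.PE1 p h.1.l0 h.1.r0 h.1.l1 h.1.r1 h.1.l2 h.1.r2 h.2).1.le
    · exact ((rf_zl0_g hG _ (Or.inr (Or.inl rfl)) h.1.l0 h.1.r0 (by linarith [h.1.l1])
        (by linarith [h.1.r1]) h0).D (hsm p h)).ge
  refine pat1 (i := 0) (lo := 0) (fun p h => ⟨h.1.l0, fun t ht ht' => ⟨h.1.lo0.2 t ht ht',
    h.2.lo0 (by linarith [h.1.l1]) ht'⟩⟩) (fun p h => ⟨k2 p h, hsm p h⟩) (fun p h h0 => ?_)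
  rw [ev_CF, h0]
  exact (v_f1_r1 hG _ (by linarith [h.1.l1]) (by linarith [h.1.r1])).ge

theorem rPF0 (hG : Good C) (H : Claims C) : ∀ p : P,
    B3 0 (1/10) (1/10) (4143/10000) (3/20) 1 p ∧ GT1 p → 0 ≤ ev (CF .f1 C pO000) p := by
  refine pat1 (i := 0) (lo := 0) (fun p h => ⟨h.1.l0, fun t ht ht' => ⟨h.1.lo0.2 t ht ht',
    h.2.lo0 (by linarith [h.1.l1]) ht'⟩⟩) (fun p h => ?_) (fun p h h0 => ?_)
  · obtain ⟨a1, a2⟩ := H.PF0 p h.1.l0 h.1.r0 h.1.l1 h.1.r1 h.1.l2 h.1.r2 h.2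
    exact ⟨a1.le, a2⟩
  · rw [ev_CF, h0]
    exact (v_f1_r0 hG _ (by linarith [h.1.l1]) (by linarith [h.1.r1])).ge

theorem rPF1 (hG : Good C) (H : Claims C) : ∀ p : P,
    B3 0 (1/10) (9/25) (534/625) (3/20) 1 p ∧ GT1 p → 0 ≤ ev (CF .f1 C pO100) p := by
  refine pat1 (i := 0) (lo := 0) (fun p h => ⟨h.1.l0, fun t ht ht' => ⟨h.1.lo0.2 t ht ht',
    h.2.lo0 (by linarith [h.1.l1]) ht'⟩⟩) (fun p h => ?_) (fun p h h0 => ?_)
  · obtain ⟨a1, a2⟩ := H.PF1 p h.1.l0 h.1.r0 h.1.l1 h.1.r1 h.1.l2 h.1.r2 h.2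
    exact ⟨a1.le, a2⟩
  · rw [ev_CF, h0]
    exact (v_f1_r1 hG _ (by linarith [h.1.l1]) (by linarith [h.1.r1])).ge

theorem rPG0 (hG : Good C) (H : Claims C) : ∀ p : P,
    B3 (1/10) 1 (1/10) (4143/10000) 0 (3/20) p ∧ GT1 p → 0 ≤ ev (CF .f1 C pO000) p := by
  refine pat1 (i := 2) (lo := 0)
    (fun p h => ⟨h.1.l2, fun t ht ht' => ⟨h.1.lo2.2 t ht ht', h.2.u2⟩⟩)
    (fun p h => ?_) (fun p h h0 => ?_)
  · obtain ⟨a1, a2⟩ := H.PG0 p h.1.l0 h.1.r0 h.1.l1 h.1.r1 h.1.l2 h.1.r2 h.2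
    exact ⟨a1.le, a2⟩
  · rw [ev_CF, h0]
    exact (v_f1_g0 hG _ (Or.inl rfl) (by linarith [h.1.l0]) h.1.r0 (by linarith [h.1.l1])
      (by linarith [h.1.r1])).ge

theorem rPG1 (hG : Good C) (H : Claims C) : ∀ p : P,
    B3 (1/10) 1 (6/25) (534/625) 0 (3/20) p ∧ GT1 p ∧
      CG .f1 .ab rO (p 0) (p 1) (p 2) ≤ 0 → 0 ≤ ev (CF .f1 C pO100) p := by
  refine pat1 (i := 2) (lo := 0)
    (fun p h => ⟨h.1.l2, fun t ht ht' => ⟨h.1.lo2.2 t ht ht', h.2.1.u2, ?_⟩⟩)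
    (fun p h => ?_) (fun p h h0 => ?_)
  · rw [u20, u21, CG_f1_ab _ _ _ (p 2)]; exact h.2.2
  · obtain ⟨a1, a2⟩ := H.PG1 p h.1.l0 h.1.r0 h.1.l1 h.1.r1 h.1.l2 h.1.r2 h.2.1 h.2.2
    exact ⟨a1.le, a2⟩
  · rw [ev_CF, h0]
    exact (v_f1_g0 hG _ (Or.inr (Or.inl rfl)) (by linarith [h.1.l0]) h.1.r0
      (by linarith [h.1.l1]) (by linarith [h.1.r1])).ge

theorem rPG2 (hG : Good C) (H : Claims C) : ∀ p : P,
    B3 (1/10) 1 (6/25) (534/625) 0 (3/20) p ∧ GT1 p ∧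
      CG .f1 .ba rO (p 0) (p 1) (p 2) ≤ 0 → 0 ≤ ev (CF .f1 C pO110) p := by
  refine pat1 (i := 2) (lo := 0)
    (fun p h => ⟨h.1.l2, fun t ht ht' => ⟨h.1.lo2.2 t ht ht', h.2.1.u2, ?_⟩⟩)
    (fun p h => ?_) (fun p h h0 => ?_)
  · rw [u20, u21, CG_f1_ba _ _ _ (p 2)]; exact h.2.2
  · obtain ⟨a1, a2⟩ := H.PG2 p h.1.l0 h.1.r0 h.1.l1 h.1.r1 h.1.l2 h.1.r2 h.2.1 h.2.2
    exact ⟨a1.le, a2⟩
  · rw [ev_CF, h0]
    exact (v_f1_g0 hG _ (Or.inr (Or.inr rfl)) (by linarith [h.1.l0]) h.1.r0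
      (by linarith [h.1.l1]) (by linarith [h.1.r1])).ge

/-! ### the true data -/

/-- the point of the chart -/
noncomputable def pt1 (a b c : ℝ) : P :=
  ![tan (π / 4 * a) / tan (π / 4 * b), tan (π / 4 * b), ang (dih 1 a b c)]

theorem pt1_0 : pt1 a b c 0 = tan (π / 4 * a) / tan (π / 4 * b) := rfl
theorem pt1_1 : pt1 a b c 1 = tan (π / 4 * b) := rfl
theorem pt1_2 : pt1 a b c 2 = ang (dih 1 a b c) := rfl

theorem Tt_pt1 (pc : Pc) (h0 : 0 < a) (hab : a ≤ b) (hbc : b ≤ c) (hc : c ≤ 1)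
    (hs : c ≤ a + b) (ht : dih 1 a b c ≤ 0) :
    Tt C pc 1 a b c = ev (CF .f1 C pc) (pt1 a b c) := by
  rw [ev_CF, CF_def, pt1_0, pt1_1, pt1_2, Tt]
  exact ch_f1 _ h0 hab hbc hc hs ht

theorem CG_pt1 (k : KG) (h0 : 0 < a) (hab : a ≤ b) (hbc : b ≤ c) (hc : c ≤ 1)
    (hs : c ≤ a + b) (ht : dih 1 a b c ≤ 0) :
    CG .f1 k rO (pt1 a b c 0) (pt1 a b c 1) (pt1 a b c 2) = KGf k rO (tdat 1 a b c) := by
  rw [CG_def, pt1_0, pt1_1, pt1_2]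
  exact (ch_f1 _ h0 hab hbc hc hs ht).symm

/-- obtuse, `a + b ≤ 1`, `tan(πb/4) ≤ .8544` -/
theorem pos_ob1 (hG : Good C) (H : Claims C) (h0 : 0 < a) (hab : a ≤ b)
    (hbc : b ≤ c) (hc : c ≤ 1) (hs : c ≤ a + b) (ht : dih 1 a b c ≤ 0) (h1 : a + b ≤ 1)
    (hb : tan (π / 4 * b) ≤ 8544/10000) : 0 ≤ F C.toCr 1 a b c := by
  have hb1 : b ≤ 1 := hbc.trans hc
  have hb0 : 0 < b := lt_of_lt_of_le h0 hab
  -- values in the chart
  have key : ∀ {x y : Bool}, Fl x (b + c) → Fl y (a + c) →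
      0 ≤ ev (CF .f1 C ⟨.ob, x, y, false⟩) (pt1 a b c) → 0 ≤ F C.toCr 1 a b c := by
    intro x y hx hy he
    have e := closed_ob hG h0 hab hbc hc ht hx hy (show Fl false (a + b) from h1)
    rw [Tt_pt1 _ h0 hab hbc hc hs ht] at e
    linarith
  have gx : ∀ k : KG, CG .f1 k rO (pt1 a b c 0) (pt1 a b c 1) (pt1 a b c 2) =
      KGf k rO (tdat 1 a b c) := fun k => CG_pt1 k h0 hab hbc hc hs ht
  have gT : GT1 (pt1 a b c) := by
    unfold GT1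
    rw [pt1_0, pt1_1]
    exact gT1_of h0 hab h1
  -- the box
  have htp : 0 < pt1 a b c 1 := by rw [pt1_1]; exact tan_q_pos hb0 hb1
  have htb : pt1 a b c 1 ≤ 534/625 := by rw [pt1_1]; linarith
  have hrp : 0 ≤ pt1 a b c 0 := by
    rw [pt1_0]; exact div_nonneg (tan_q_nonneg h0.le (hab.trans hb1)) (tan_q_nonneg hb0.le hb1)
  have hr1 : pt1 a b c 0 ≤ 1 := by
    rw [pt1_0, div_le_one (tan_q_pos hb0 hb1)]; exact tan_q_mono h0.le hab hb1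
  have hg0 : 0 ≤ pt1 a b c 2 := by rw [pt1_2]; exact ang_nonneg _
  have hg1 : pt1 a b c 2 ≤ 1 := by rw [pt1_2]; exact ang_le_one _
  have h36 : pt1 a b c 0 ≤ 1/10 → 1 ≤ a + 2 * b → 9/25 ≤ pt1 a b c 1 := by
    intro h h'
    rw [pt1_0] at h
    rw [pt1_1]
    have := tan_ge36 h0.le hb0 hb1 hab h h'
    linarith
  have htb' : b + c ≤ 1 → pt1 a b c 1 ≤ 4143/10000 := by
    intro h
    rw [pt1_1]; exact tan_b hb0.le (by linarith)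
  have ht3 : 1/3 ≤ b → 26/100 ≤ pt1 a b c 1 := by
    intro h
    rw [pt1_1]; exact tan_ge h hb1
  rcases le_total (pt1 a b c 1) (1/10) with t1 | t1
  · -- `t ≤ 1/10`
    have hb3 : b < 1/3 := by
      by_contra hcon
      have := ht3 (not_lt.1 hcon)
      linarith
    refine key (x := false) (y := false) (show b + c ≤ 1 by linarith)
      (show a + c ≤ 1 by linarith) ?_
    rcases le_total (pt1 a b c 0) (1/10) with r1 | r1 <;>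
      rcases le_total (pt1 a b c 2) (3/20) with g1 | g1
    · exact rPA hG H _ ⟨hrp, r1, htp.le, t1, hg0, g1⟩
    · exact rPB hG H _ ⟨hrp, r1, htp.le, t1, g1, hg1⟩
    · exact rPC hG H _ ⟨r1, hr1, htp.le, t1, hg0, g1⟩
    · exact rPD hG H _ ⟨r1, hr1, htp.le, t1, g1, hg1⟩
  rcases le_total (pt1 a b c 0) (1/10) with r1 | r1
  · -- `ρ ≤ 1/10`
    rcases le_total (a + c) 1 with hy | hy
    · rcases le_total (b + c) 1 with hx | hx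
      · refine key (x := false) (y := false) hx hy ?_
        rcases le_total (pt1 a b c 2) (3/20) with g1 | g1
        · exact rPE0 hG H _ ⟨⟨hrp, r1, t1, htb' hx, hg0, g1⟩, gT⟩
        · exact rPF0 hG H _ ⟨⟨hrp, r1, t1, htb' hx, g1, hg1⟩, gT⟩
      · refine key (x := true) (y := false) hx hy ?_
        have h9 := h36 r1 (by linarith)
        rcases le_total (pt1 a b c 2) (3/20) with g1 | g1
        · exact rPE1 hG H _ ⟨⟨hrp, r1, h9, htb, hg0, g1⟩, gT⟩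
        · exact rPF1 hG H _ ⟨⟨hrp, r1, h9, htb, g1, hg1⟩, gT⟩
    · have ha : a ≤ 11/100 := a_le_of_rho h0.le hb0 hb1 hab r1 hb
      rcases le_total (ang (dih 1 a b c)) (93/100) with hg | hg
      · exact pos_sy hG H h0 ha hab hbc hc hs ht h1 hy hg
      · have hx : 1 ≤ b + c := by linarith
        refine key (x := true) (y := true) hx hy ?_
        have h9 := h36 r1 (by linarith)
        have hY := half_le_y_ob h0 ha (by linarith) hbc hc hs ht hg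
        have hcm := cmp_ob hG hy h0 hab hbc hc hs ht hY
        rw [Tt_pt1 _ h0 hab hbc hc hs ht, Tt_pt1 _ h0 hab hbc hc hs ht] at hcm
        refine le_trans ?_ hcm
        refine rPF1 hG H _ ⟨⟨hrp, r1, h9, htb, ?_, hg1⟩, gT⟩
        rw [pt1_2]; linarith
  · -- `ρ ≥ 1/10`
    rcases le_total (b + c) 1 with hx | hx
    · have hy : a + c ≤ 1 := by linarith
      refine key (x := false) (y := false) hx hy ?_
      rcases le_total (pt1 a b c 2) (3/20) with g1 | g1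
      · exact rPG0 hG H _ ⟨⟨r1, hr1, t1, htb' hx, hg0, g1⟩, gT⟩
      · refine (H.PH0 _ r1 hr1 t1 (htb' hx) g1 hg1 gT ?_).1.le
        rw [gx, td_hx]; linarith
    · have h26 := ht3 (by linarith)
      rcases le_total (a + c) 1 with hy | hy
      · refine key (x := true) (y := false) hx hy ?_
        rcases le_total (pt1 a b c 2) (3/20) with g1 | g1
        · refine rPG1 hG H _ ⟨⟨r1, hr1, by linarith, htb, hg0, g1⟩, gT, ?_⟩
          rw [gx, td_ab]; linarith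
        · refine (H.PH1 _ r1 hr1 (by linarith) htb g1 hg1 gT ?_ ?_).1.le
          · rw [gx, td_nx]; linarith
          · rw [gx, td_hy]; linarith
      · refine key (x := true) (y := true) hx hy ?_
        rcases le_total (pt1 a b c 2) (3/20) with g1 | g1
        · refine rPG2 hG H _ ⟨⟨r1, hr1, by linarith, htb, hg0, g1⟩, gT, ?_⟩
          rw [gx, td_ba]; linarith
        · refine (H.PH2 _ r1 hr1 (by linarith) htb g1 hg1 gT ?_).1.le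
          rw [gx, td_ny]; linarith

end FX
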