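import Pool.Agent.H11.FX.Van
import Pool.Agent.H11.FX.Clo
import Pool.Agent.H11.FX.Chf2
import Pool.Agent.H11.FX.Cmp1
import Pool.Agent.H11.FX.Rsy

set_option autoImplicit false

/-!
# Obtuse triangles, `a + b ≤ 1`, `b ≥ 9/10`
-/

namespace FX

open H41FT H45FT Real Function

variable {C : Co} {a b c : ℝ}

private theorem rob2_line0 (a s g t : ℝ) : update ![a, s, g] 0 t = (![t, s, g] : P) := by
  ext i
  fin_cases i
  · exact u00 _ _
  · exact u01 _ _
  · exact u02 _ _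

private theorem rob2_zl {φ : P → ℝ} {s : ℝ} (hz : ∀ g, φ ![0, s, g] = 0) (g : ℝ)
    (hs : Sm φ ![0, s, g]) : D 2 φ ![0, s, g] = 0 := by
  refine Zl.D ⟨g - 1, g + 1, by linarith, ?_, ?_, fun t _ _ => ?_⟩ hs
  · show g - 1 ≤ g
    linarith
  · show g ≤ g + 1
    linarith
  · rw [upd_line]
    exact hz t

/-- decreasing in `γ` -/
private theorem rob2_dn {φ : P → ℝ} {a s g0 g1 : ℝ} (ha : 0 ≤ a) (h01 : g0 ≤ g1)
    (hz : ∀ g, φ ![0, s, g] = 0)
    (hD : ∀ t g, 0 ≤ t → t ≤ a → g0 ≤ g → g ≤ g1 →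
      D 0 (D 2 φ) ![t, s, g] ≤ 0 ∧ Sm φ ![t, s, g]) :
    φ ![a, s, g1] ≤ φ ![a, s, g0] := by
  have h2 : ∀ g, g0 ≤ g → g ≤ g1 → D 2 φ ![a, s, g] ≤ 0 := by
    intro g h1 h2
    have h3 := anti_line (φ := D 2 φ) (p := ![a, s, g]) (i := 0) ha
      (fun t ht ht' => by rw [rob2_line0]; exact (hD t g ht ht' h1 h2).2.D 2)
      (fun t ht ht' => by rw [rob2_line0]; exact (hD t g ht ht' h1 h2).1)
    rw [rob2_line0, rob2_line0, rob2_zl hz g (hD 0 g le_rfl ha h1 h2).2] at h3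
    exact h3
  have h4 := anti_line (φ := φ) (p := ![a, s, g0]) (i := 2) h01
    (fun t ht ht' => by rw [upd_line]; exact (hD a t ha le_rfl ht ht').2)
    (fun t ht ht' => by rw [upd_line]; exact h2 t ht ht')
  rwa [upd_line, upd_line] at h4

/-- increasing in `γ` -/
private theorem rob2_up {φ : P → ℝ} {a s g0 g1 : ℝ} (ha : 0 ≤ a) (h01 : g0 ≤ g1)
    (hz : ∀ g, φ ![0, s, g] = 0)
    (hD : ∀ t g, 0 ≤ t → t ≤ a → g0 ≤ g → g ≤ g1 →
      0 ≤ D 0 (D 2 φ) ![t, s, g] ∧ Sm φ ![t, s, g]) :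
    φ ![a, s, g0] ≤ φ ![a, s, g1] := by
  have h2 : ∀ g, g0 ≤ g → g ≤ g1 → 0 ≤ D 2 φ ![a, s, g] := by
    intro g h1 h2
    have h3 := mono_line (φ := D 2 φ) (p := ![a, s, g]) (i := 0) ha
      (fun t ht ht' => by rw [rob2_line0]; exact (hD t g ht ht' h1 h2).2.D 2)
      (fun t ht ht' => by rw [rob2_line0]; exact (hD t g ht ht' h1 h2).1)
    rw [rob2_line0, rob2_line0, rob2_zl hz g (hD 0 g le_rfl ha h1 h2).2] at h3
    exact h3
  have h4 := mono_line (φ := φ) (p := ![a, s, g0]) (i := 2) h01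
    (fun t ht ht' => by rw [upd_line]; exact (hD a t ha le_rfl ht ht').2)
    (fun t ht ht' => by rw [upd_line]; exact h2 t ht ht')
  rwa [upd_line, upd_line] at h4

private theorem rob2_evG (C : Co) (pc : Pc) (h : Ch) (x y z : ℝ) :
    ev (CF h C pc) ![x, y, z] = CF h C pc rO x y z := ev_CF h C pc ![x, y, z]

/-- flags `(1,0,0)`, `γ` near a right angle -/
private theorem rob2_C3 (hG : Good C) (H : Claims C) {a b g : ℝ} (h0 : 0 ≤ a) (ha : a ≤ 1/10)
    (hb : 9/10 ≤ b) (hb1 : b ≤ 1) (h1 : a + b ≤ 1) (hg : 93/100 ≤ g) (hg1 : g ≤ 1) :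
    CF .G C pO100 rO a b 1 ≤ CF .G C pO100 rO a b g := by
  have h2 := rob2_dn (φ := ev (CF .G C pO100)) (s := b) h0 hg1
    (fun t => by rw [rob2_evG]; exact v_G_a hG t (by linarith) hb1)
    (fun t t' k1 k2 k3 k4 => by
      have h3 := H.C3 ![t, b, t'] k1 (k2.trans ha) hb hb1 (hg.trans k3) k4
        (by show t + b - 1 ≤ 0; linarith)
      exact ⟨h3.1.le, h3.2⟩)
  rwa [rob2_evG, rob2_evG] at h2

/-- flags `(1,0,0)`, `γ ≤ 93/100` -/
private theorem rob2_C12 (hG : Good C) (H : Claims C) {a b g : ℝ} (h0 : 0 ≤ a) (ha : a ≤ 1/10)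
    (hb : 9/10 ≤ b) (hb1 : b ≤ 1) (h1 : a + b ≤ 1) (hg0 : 0 ≤ g) (hg : g ≤ 93/100) :
    0 ≤ CF .G C pO100 rO a b g := by
  rcases le_total g (3/10) with h | h
  · have h2 := rob2_up (φ := ev (CF .G C pO100)) (s := b) h0 hg0
      (fun t => by rw [rob2_evG]; exact v_G_a hG t (by linarith) hb1)
      (fun t t' k1 k2 k3 k4 => by
        have h3 := H.C1 ![t, b, t'] k1 (k2.trans ha) hb hb1 k3 (k4.trans h)
          (by show t + b - 1 ≤ 0; linarith)
        exact ⟨h3.1.le, h3.2⟩)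
    rw [rob2_evG, rob2_evG, v_G_g0 hG h0 (by linarith) (by linarith)] at h2
    exact h2
  · have h2 : ∀ t, 0 ≤ t → t ≤ a → 0 < D 0 (ev (CF .G C pO100)) ![t, b, g] ∧
        Sm (ev (CF .G C pO100)) ![t, b, g] := fun t k1 k2 =>
      H.C2 ![t, b, g] k1 (k2.trans ha) hb hb1 h hg (by show t + b - 1 ≤ 0; linarith)
    have h3 := mono_line (φ := ev (CF .G C pO100)) (p := ![a, b, g]) (i := 0) h0
      (fun t ht ht' => by rw [rob2_line0]; exact (h2 t ht ht').2)
      (fun t ht ht' => by rw [rob2_line0]; exact (h2 t ht ht').1.le)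
    rw [rob2_line0, rob2_line0, rob2_evG, rob2_evG, v_G_a hG g (by linarith) hb1] at h3
    exact h3

/-- the chart `S`, flags `(1,1,0)` -/
private theorem rob2_SY3 (hG : Good C) (H : Claims C) {a s g : ℝ} (h0 : 0 ≤ a) (ha : a ≤ 1/10)
    (hs : 1 ≤ s) (hs1 : s ≤ 106/100) (hg : 93/100 ≤ g) (hg1 : g ≤ 1) :
    CF .S C pO110 rO a s 1 ≤ CF .S C pO110 rO a s g := by
  have h2 := rob2_dn (φ := ev (CF .S C pO110)) (s := s) h0 hg1
    (fun t => by rw [rob2_evG]; exact v_S_a hG s t pO110 (Or.inl rfl))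
    (fun t t' k1 k2 k3 k4 => by
      have h3 := H.SY3 ![t, s, t'] k1 (k2.trans ha) hs (by show s ≤ 53/50; linarith)
        (hg.trans k3) k4
      exact ⟨h3.1.le, h3.2⟩)
  rwa [rob2_evG, rob2_evG] at h2

/-- the right-angled side is the shorter one -/
private theorem rob2_le (h0 : 0 < a) (ha : a ≤ 1) (hb0 : 0 < b) (hb : b ≤ 1) (hc0 : 0 ≤ c)
    (ht : dih 1 a b c ≤ 0) {c₁ : ℝ} (h1 : c₁ ≤ 1)
    (he : cos (π / 2 * c₁) = cos (π / 2 * a) * cos (π / 2 * b)) : c₁ ≤ c := by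
  by_contra hcon
  push Not at hcon
  have hp := Real.pi_pos
  have h2 : cos (π / 2 * c₁) < cos (π / 2 * c) :=
    cos_lt_cos_of_nonneg_of_le_pi_div_two (by positivity) (by nlinarith) (by nlinarith)
  unfold dih at ht
  rw [← he] at ht
  have h3 := mul_pos (sn_pos h0 ha) (sn_pos hb0 hb)
  have h4 : 0 < (1 * cos (π / 2 * c) - cos (π / 2 * c₁)) /
      (sin (π / 2 * a) * sin (π / 2 * b)) := div_pos (by linarith) h3
  linarith

/-- obtuse, `a + b ≤ 1`, `b ≥ 9/10`, given the right-angled case -/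
theorem pos_ob2 (hG : Good C) (H : Claims C) (h0 : 0 < a) (hab : a ≤ b)
    (hbc : b ≤ c) (hc : c ≤ 1) (hs : c ≤ a + b) (ht : dih 1 a b c ≤ 0) (h1 : a + b ≤ 1)
    (hb : 9/10 ≤ b)
    (H1 : ∀ c₁, b ≤ c₁ → c₁ ≤ 1 → c₁ ≤ a + b → dih 1 a b c₁ = 0 → 0 ≤ F C.toCr 1 a b c₁) :
    0 ≤ F C.toCr 1 a b c := by
  have ha1 : a ≤ 1/10 := by linarith
  have hb1 : b ≤ 1 := hbc.trans hc
  obtain ⟨c₁, k1, k2, k3, k4, k5⟩ := exists_right h0 hab hb1
  have hcc : c₁ ≤ c := rob2_le h0 (by linarith) (by linarith) hb1 (by linarith) ht k2 k5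
  have hF1 := H1 c₁ k1 k2 k3 k4
  have hg0 := ang_nonneg (dih 1 a b c)
  have hg1 := ang_le_one (dih 1 a b c)
  -- the flags `(1,0,0)` at the right angle
  have R1 : a + c₁ ≤ 1 → 0 ≤ CF .G C pO100 rO a b 1 := by
    intro h
    have e1 := closed_ob hG (x := true) (y := false) (z := false) h0 hab k1 k2 k4.le
      (show 1 ≤ b + c₁ by linarith) (show a + c₁ ≤ 1 from h) (show a + b ≤ 1 from h1)
    have e2 := ch_G (FG rO C pO100) h0 hab k1 k2 k3 k4.le
    rw [k4, ang_zero'] at e2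
    have e3 : Tt C pO100 1 a b c₁ = CF .G C pO100 rO a b 1 := e2
    have e4 : 10000 * F C.toCr 1 a b c₁ = Tt C pO100 1 a b c₁ := e1
    rw [← e3, ← e4]
    linarith
  have E1 : Tt C pO100 1 a b c = CF .G C pO100 rO a b (ang (dih 1 a b c)) :=
    ch_G (FG rO C pO100) h0 hab hbc hc hs ht
  rcases le_total (a + c) 1 with hac | hac
  · -- flags `(1,0,0)`
    have e1 : 10000 * F C.toCr 1 a b c = Tt C pO100 1 a b c :=
      closed_ob hG (x := true) (y := false) (z := false) h0 hab hbc hc ht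
        (show 1 ≤ b + c by linarith) (show a + c ≤ 1 from hac) (show a + b ≤ 1 from h1)
    have e2 : 0 ≤ CF .G C pO100 rO a b (ang (dih 1 a b c)) := by
      rcases le_total (ang (dih 1 a b c)) (93/100) with hg | hg
      · exact rob2_C12 hG H h0.le ha1 hb hb1 h1 hg0 hg
      · exact (R1 (by linarith)).trans (rob2_C3 hG H h0.le ha1 hb hb1 h1 hg hg1)
    rw [E1] at e1
    linarith
  · rcases le_total (ang (dih 1 a b c)) (93/100) with hg | hg
    · exact pos_sy hG H h0 (by linarith) hab hbc hc hs ht h1 hac hg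
    · have e1 : 10000 * F C.toCr 1 a b c = Tt C pO110 1 a b c :=
        closed_ob hG (x := true) (y := true) (z := false) h0 hab hbc hc ht
          (show 1 ≤ b + c by linarith) (show 1 ≤ a + c from hac) (show a + b ≤ 1 from h1)
      rcases le_total (a + c₁) 1 with h | h
      · have e2 := cmp_ob hG hac h0 hab hbc hc hs ht
          (half_le_y_ob h0 (by linarith) (by linarith) hbc hc hs ht hg)
        rw [E1] at e2
        have e3 := (R1 h).trans (rob2_C3 hG H h0.le ha1 hb hb1 h1 hg hg1)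
        linarith
      · have s1 := sig_le_right h0 ha1 hab k1 k2 k4 h
        have s0 : 1 ≤ (1 - b) / a := by
          rw [le_div_iff₀ h0]
          linarith
        have e2 : Tt C pO110 1 a b c = CF .S C pO110 rO a ((1 - b) / a) (ang (dih 1 a b c)) :=
          ch_S (FG rO C pO110) h0 hab hbc hc hs ht
        have e3 := ch_S (FG rO C pO110) h0 hab k1 k2 k3 k4.le
        rw [k4, ang_zero'] at e3
        have e4 : Tt C pO110 1 a b c₁ = CF .S C pO110 rO a ((1 - b) / a) 1 := e3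
        have e5 : 10000 * F C.toCr 1 a b c₁ = Tt C pO110 1 a b c₁ :=
          closed_ob hG (x := true) (y := true) (z := false) h0 hab k1 k2 k4.le
            (show 1 ≤ b + c₁ by linarith) (show 1 ≤ a + c₁ from h) (show a + b ≤ 1 from h1)
        have e6 := rob2_SY3 hG H h0.le ha1 s0 s1 hg hg1
        linarith

end FX
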