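import Pool.Agent.H11.FX.Van
import Pool.Agent.H11.FX.Clo
import Pool.Agent.H11.FX.Chf2
import Pool.Agent.H11.FX.Cmp2

set_option autoImplicit false

/-!
# FX, row 12: the obtuse region `1 ≤ a + b`, `7/100 ≤ a`
-/

namespace FX

open H41FT H45FT Real Function

variable {C : Co} {a b c : ℝ}

theorem r3_upd1 (a b s t : ℝ) : update ![a, s, b] 1 t = (![a, t, b] : P) := by
  ext i
  fin_cases i
  · exact u10 _ _
  · exact u11 _ _
  · exact u12 _ _

/-- the closed form with all flags, as `Tt` -/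
theorem r3_closed (hG : Good C) (h0 : 0 < a) (hab : a ≤ b) (hbc : b ≤ c) (hc : c ≤ 1)
    (ht : dih 1 a b c ≤ 0) (h1 : 1 ≤ a + b) :
    10000 * F C.toCr 1 a b c = Tt C pO111 1 a b c :=
  closed_ob hG (x := true) (y := true) (z := true) h0 hab hbc hc ht
    (show 1 ≤ b + c by linarith) (show 1 ≤ a + c by linarith) (show 1 ≤ a + b from h1)

/-- the closed form with all flags, in the chart `G` -/
theorem r3_G (hG : Good C) (h0 : 0 < a) (hab : a ≤ b) (hbc : b ≤ c) (hc : c ≤ 1)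
    (hs : c ≤ a + b) (ht : dih 1 a b c ≤ 0) (h1 : 1 ≤ a + b) :
    10000 * F C.toCr 1 a b c = ev (CF .G C pO111) ![a, b, ang (dih 1 a b c)] := by
  rw [r3_closed hG h0 hab hbc hc ht h1, ev_CF, CF_def]
  exact ch_G (FG rO C pO111) h0 hab hbc hc hs ht

theorem r3_hw (h0 : 0 < a) (hab : a ≤ b) (hb : b ≤ 1) (hs : 1 ≤ a + b) :
    sin (π / 2 * a) * sin (π / 2 * b) * cos (π / 2 * ang (dih 1 a b 1)) -
      cos (π / 2 * a) * cos (π / 2 * b) ≤ 0 := by
  have hd := dih_one_nonpos h0 (hab.trans hb) (by linarith) hb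
  have hg : 0 ≤ gram3 1 a b 1 := (gram3_one_nonneg_iff h0 hab hb le_rfl).2 (by linarith)
  have hd1 := dih_abs_le (σ := 1) (Or.inl rfl) h0 (hab.trans hb) (by linarith : 0 < b) hb hg
  rw [cos_ang hd1, abs_of_nonpos hd]
  unfold dih
  have hc : cos (π / 2 * 1) = 0 := by rw [mul_one, cos_pi_div_two]
  have h3 := sn_pos h0 (hab.trans hb)
  have h4 := sn_pos (by linarith : 0 < b) hb
  rw [hc]
  generalize sin (π / 2 * a) = S at *
  generalize sin (π / 2 * b) = S' at *
  have e : S * S' * -((1 * 0 - cos (π / 2 * a) * cos (π / 2 * b)) / (S * S')) =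
      cos (π / 2 * a) * cos (π / 2 * b) := by
    generalize cos (π / 2 * a) = C at *
    generalize cos (π / 2 * b) = C' at *
    field_simp
    ring
  rw [e, sub_self]

theorem r3_ang (h0 : 0 < a) (hab : a ≤ b) (hbc : b ≤ c) (hc : c ≤ 1) (hz : dih 1 a b c ≤ 0) :
    ang (dih 1 a b 1) ≤ ang (dih 1 a b c) := by
  have hb : b ≤ 1 := hbc.trans hc
  have ha : a ≤ 1 := hab.trans hb
  have hb0 : 0 < b := by linarith
  apply ang_anti
  have hd := dih_one_nonpos h0 ha hb0 hb
  rw [abs_of_nonpos hz, abs_of_nonpos hd]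
  have hc' : cos (π / 2 * 1) = 0 := by rw [mul_one, cos_pi_div_two]
  have h3 := sn_pos h0 ha
  have h4 := sn_pos hb0 hb
  have h5 := cs_nonneg (by linarith : 0 ≤ c) hc
  unfold dih
  rw [hc', neg_le_neg_iff]
  gcongr

/-- increasing in `γ` from `γ₀` -/
theorem r3_mono {φ : P → ℝ} {a b g0 g : ℝ} (h : g0 ≤ g)
    (hg : ∀ t, g0 ≤ t → t ≤ g → 0 < D 2 φ ![a, b, t] ∧ Sm φ ![a, b, t])
    (e0 : 0 ≤ φ ![a, b, g0]) : 0 ≤ φ ![a, b, g] := by
  have h3 := mono_line (φ := φ) (p := ![a, b, 0]) (i := 2) h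
    (fun t ht ht' => by rw [upd_line]; exact (hg t ht ht').2)
    (fun t ht ht' => by rw [upd_line]; exact (hg t ht ht').1.le)
  rw [upd_line, upd_line] at h3
  exact e0.trans h3

/-- obtuse, `a + b ≥ 1`, `a ≥ 7/100`, given the case `c = 1` -/
theorem pos_ob3 (hG : Good C) (H : Claims C) (h0 : 7/100 ≤ a) (hab : a ≤ b)
    (hbc : b ≤ c) (hc : c ≤ 1) (hs : c ≤ a + b) (ht : dih 1 a b c ≤ 0) (h1 : 1 ≤ a + b)
    (H0 : 0 ≤ F C.toCr 1 a b 1) : 0 ≤ F C.toCr 1 a b c := by
  have hb : b ≤ 1 := hbc.trans hc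
  have ha : a ≤ 1 := hab.trans hb
  have a0 : 0 < a := by linarith
  have b0 : 0 < b := by linarith
  have hd := dih_one_nonpos a0 ha b0 hb
  have E0 : 0 ≤ ev (CF .G C pO111) ![a, b, ang (dih 1 a b 1)] := by
    rw [← r3_G hG a0 hab hb le_rfl (by linarith) hd h1]
    linarith
  have hw := r3_hw a0 hab hb h1
  have hg0 := r3_ang a0 hab hbc hc ht
  have hg1 := ang_le_one (dih 1 a b c)
  have hgn := ang_nonneg (dih 1 a b 1)
  suffices h : 0 ≤ 10000 * F C.toCr 1 a b c by linarith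
  rcases le_total (13/20) a with ha5 | ha5
  · rw [r3_G hG a0 hab hbc hc hs ht h1]
    refine r3_mono hg0 (fun t h3 h4 => ?_) E0
    exact H.QD ![a, b, t] ha5 ha (ha5.trans hab) hb (hgn.trans h3) (h4.trans hg1)
      (gw_mono (a := a) (b := b) a0.le ha b0.le hb hgn h3 (h4.trans hg1) hw)
      (show a - b ≤ 0 by linarith)
  · rcases le_total (10 * b + a) 10 with h10 | h10
    · rw [r3_G hG a0 hab hbc hc hs ht h1]
      rcases le_total (ang (dih 1 a b c)) (3/10) with hg3 | hg3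
      · refine r3_mono hg0 (fun t h3 h4 => ?_) E0
        exact H.R2a ![a, b, t] h0 ha5 (show 47/100 ≤ b by linarith) hb (hgn.trans h3)
          (h4.trans hg3)
          (gw_mono (a := a) (b := b) a0.le ha b0.le hb hgn h3 (h4.trans hg1) hw)
          (show 1 - (a + b) ≤ 0 by linarith) (show 10 * b + a - 10 ≤ 0 by linarith)
      · exact (H.R2b ![a, b, ang (dih 1 a b c)] h0 ha5 (show 47/100 ≤ b by linarith) hb hg3 hg1
          (gw_mono (a := a) (b := b) a0.le ha b0.le hb hgn hg0 hg1 hw)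
          (show 1 - (a + b) ≤ 0 by linarith) (show 10 * b + a - 10 ≤ 0 by linarith)).1.le
    · rcases hb.eq_or_lt with hb1 | hb1
      · have hc1 : c = 1 := le_antisymm hc (by linarith)
        rw [hc1]
        linarith
      · have hs0 : 0 ≤ (1 - b) / a := div_nonneg (by linarith) a0.le
        have hs1 : (1 - b) / a ≤ 1/10 := by rw [div_le_iff₀ a0]; linarith
        obtain ⟨t0, t1⟩ := E_tau a0 (by linarith) hab hbc hc hb1 ht
        have e1 : 10000 * F C.toCr 1 a b c = ev (CF .E C pO111)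
            ![a, (1 - b) / a, (1 - c) / ((1 - b) * cos (π / 2 * a))] := by
          rw [r3_closed hG a0 hab hbc hc ht h1, ev_CF, CF_def]
          exact ch_E (FG rO C pO111) a0 (by linarith) hab hbc hc hb1 hs ht
        rw [e1]
        generalize (1 - b) / a = s at *
        generalize (1 - c) / ((1 - b) * cos (π / 2 * a)) = τ at *
        have hg : ∀ t, 0 ≤ t → t ≤ s → 0 < D 1 (ev (CF .E C pO111)) ![a, t, τ] ∧
            Sm (ev (CF .E C pO111)) ![a, t, τ] := fun t h3 h4 =>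
          H.E1 ![a, t, τ] h0 ha5 h3 (h4.trans hs1) t0 t1
        have h3 := mono_line (φ := ev (CF .E C pO111)) (p := ![a, 0, τ]) (i := 1) hs0
          (fun t ht ht' => by rw [r3_upd1]; exact (hg t ht ht').2)
          (fun t ht ht' => by rw [r3_upd1]; exact (hg t ht ht').1.le)
        rw [r3_upd1, r3_upd1] at h3
        have e2 : ev (CF .E C pO111) ![a, 0, τ] = 0 := by
          rw [ev_CF]
          exact v_E_s hG τ a0 ha
        rw [e2] at h3
        exact h3

end FX
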