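import Pool.Agent.H11.FX.Van
import Pool.Agent.H11.FX.Clo
import Pool.Agent.H11.FX.Chf2
import Pool.Agent.H11.FX.Cmp2

set_option autoImplicit false

/-!
# FX, row FE-13: obtuse triangles with `a + b ≥ 1`, `a ≤ 7/100`

`σ = (1 - b)/a`.  For `σ ≤ 3/10` the chart `R` (parameters `a, σ, κ/σ`), starting from the right
angle; for `σ ≥ 3/10` the chart `S` (parameters `a, σ, γ`), starting from the side `c = 1` and
from the right angle.
-/

namespace FX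

open H41FT H45FT Real Function

variable {C : Co} {a b c : ℝ}

namespace Rob4

/-! ### the chart `R` -/

theorem ev_R_a (hG : Good C) {p : P} (h0 : p 0 = 0) (h1 : |p 1 * p 2| ≤ 1) :
    ev (CF .R C pO111) p = 0 := by
  rw [ev_CF, h0]; exact v_R_a hG h1

theorem ev_R_s (hG : Good C) {p : P} (h1 : p 1 = 0) (h0 : 0 ≤ p 0) (h0' : p 0 ≤ 1) :
    ev (CF .R C pO111) p = 0 := by
  rw [ev_CF, h1]; exact v_R_s hG _ h0 h0'

theorem abs_mul_le {s r : ℝ} (s0 : 0 ≤ s) (s1 : s ≤ 1) (r0 : 0 ≤ r) (r1 : r ≤ 1) :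
    |s * r| ≤ 1 := by
  rw [abs_of_nonneg (mul_nonneg s0 r0)]
  nlinarith

theorem rU1 (hG : Good C) (H : Claims C) :
    ∀ p : P, B3 0 (7/100) 0 (3/20) (3/10) 1 p → 0 ≤ ev (CF .R C pO111) p := by
  have cl := fun (p : P) (h : B3 0 (7/100) 0 (3/20) (3/10) 1 p) =>
    H.U1 p h.l0 h.r0 h.l1 h.r1 h.l2 h.r2
  have key : ∀ p : P, B3 0 (7/100) 0 (3/20) (3/10) 1 p → 0 ≤ D 1 (ev (CF .R C pO111)) p := by
    refine pat1 (i := 0) (fun p h => h.lo0) (fun p h => ⟨(cl p h).1.le, (cl p h).2.D 1⟩)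
      (fun p h h0 => ?_)
    refine (Zl.D ⟨0, 3/20, by norm_num, h.l1, h.r1, fun t ht ht' => ?_⟩ (cl p h).2).ge
    refine ev_R_a hG (by rw [u10]; exact h0) ?_
    rw [u11, u12]
    exact abs_mul_le ht (by linarith) (by linarith [h.l2]) h.r2
  refine pat1 (i := 1) (fun p h => h.lo1) (fun p h => ⟨key p h, (cl p h).2⟩) (fun p h h1 => ?_)
  exact (ev_R_s hG h1 h.l0 (by linarith [h.r0])).ge

theorem rU3 (hG : Good C) (H : Claims C) :
    ∀ p : P, B3 0 (7/100) (3/20) (3/10) (3/10) 1 p → 0 ≤ ev (CF .R C pO111) p := by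
  have cl := fun (p : P) (h : B3 0 (7/100) (3/20) (3/10) (3/10) 1 p) =>
    H.U3 p h.l0 h.r0 h.l1 h.r1 h.l2 h.r2
  refine pat1 (i := 0) (fun p h => h.lo0) (fun p h => ⟨(cl p h).1.le, (cl p h).2⟩)
    (fun p h h0 => ?_)
  exact (ev_R_a hG h0 (abs_mul_le (by linarith [h.l1]) (by linarith [h.r1])
    (by linarith [h.l2]) h.r2)).ge

theorem rU2 (hG : Good C) (H : Claims C) :
    ∀ p : P, B3 0 (7/100) 0 (3/10) 0 (3/10) p → 0 ≤ D 2 (ev (CF .R C pO111)) p := by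
  have cl := fun (p : P) (h : B3 0 (7/100) 0 (3/10) 0 (3/10) p) =>
    H.U2 p h.l0 h.r0 h.l1 h.r1 h.l2 h.r2
  -- `D 2 F = 0` on the face `a = 0`
  have z2 : ∀ p : P, B3 0 (7/100) 0 (3/10) 0 (3/10) p → p 0 = 0 →
      D 2 (ev (CF .R C pO111)) p = 0 := by
    intro p h h0
    refine Zl.D ⟨0, 3/10, by norm_num, h.l2, h.r2, fun t ht ht' => ?_⟩ (cl p h).2
    refine ev_R_a hG (by rw [u20]; exact h0) ?_
    rw [u21, u22]
    exact abs_mul_le h.l1 (by linarith [h.r1]) ht (by linarith)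
  have key : ∀ p : P, B3 0 (7/100) 0 (3/10) 0 (3/10) p →
      0 ≤ D 1 (D 2 (ev (CF .R C pO111))) p := by
    refine pat1 (i := 0) (fun p h => h.lo0)
      (fun p h => ⟨(cl p h).1.le, ((cl p h).2.D 2).D 1⟩) (fun p h h0 => ?_)
    refine (Zl.D ⟨0, 3/10, by norm_num, h.l1, h.r1, fun t ht ht' => ?_⟩ ((cl p h).2.D 2)).ge
    exact z2 _ (h.u1 ht ht') (by rw [u10]; exact h0)
  refine pat1 (i := 1) (fun p h => h.lo1) (fun p h => ⟨key p h, (cl p h).2.D 2⟩)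
    (fun p h h1 => ?_)
  refine (Zl.D ⟨0, 3/10, by norm_num, h.l2, h.r2, fun t ht ht' => ?_⟩ (cl p h).2).ge
  exact ev_R_s hG (by rw [u21]; exact h1) (by rw [u20]; exact h.l0)
    (by rw [u20]; linarith [h.r0])

/-- the chart `R`: nonnegative if nonnegative at the right angle -/
theorem R_pos (hG : Good C) (H : Claims C) {s r : ℝ} (a0 : 0 ≤ a) (a1 : a ≤ 7/100) (s0 : 0 ≤ s)
    (s1 : s ≤ 3/10) (r0 : 0 ≤ r) (r1 : r ≤ 1) (e : 0 ≤ CF .R C pO111 rO a s 0) :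
    0 ≤ CF .R C pO111 rO a s r := by
  have ee : ∀ t : ℝ, ev (CF .R C pO111) ![a, s, t] = CF .R C pO111 rO a s t := fun t =>
    ev_CF .R C pO111 ![a, s, t]
  rcases le_total (3/10) r with h | h
  · rw [← ee]
    rcases le_total s (3/20) with h' | h'
    · exact rU1 hG H _ ⟨a0, a1, s0, h', h, r1⟩
    · exact rU3 hG H _ ⟨a0, a1, h', s1, h, r1⟩
  · have hb : ∀ t, 0 ≤ t → t ≤ r → B3 0 (7/100) 0 (3/10) 0 (3/10) (![a, s, t] : P) :=
      fun t h1 h2 => ⟨a0, a1, s0, s1, h1, h2.trans h⟩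
    have h3 := mono_line (φ := ev (CF .R C pO111)) (p := ![a, s, 0]) (i := 2) r0
      (fun t ht ht' => by
        rw [upd_line]
        have h := hb t ht ht'
        exact (H.U2 _ h.l0 h.r0 h.l1 h.r1 h.l2 h.r2).2)
      (fun t ht ht' => by rw [upd_line]; exact rU2 hG H _ (hb t ht ht'))
    rw [upd_line, upd_line, ee, ee] at h3
    exact e.trans h3

/-! ### the chart `S` -/

/-- the guard `κ ≤ σ` -/
def GS (p : P) : Prop := cos (π / 2 * p 2) - p 1 ≤ 0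

theorem GS.u0 {p : P} {t : ℝ} (h : GS p) : GS (update p 0 t) := by
  unfold GS at *
  rw [u01, u02]; exact h

theorem ev_S_a (hG : Good C) {p : P} (h0 : p 0 = 0) : ev (CF .S C pO111) p = 0 := by
  rw [ev_CF, h0]; exact v_S_a hG _ _ pO111 (Or.inr rfl)

theorem D2_S_a (hG : Good C) {p : P} (h0 : p 0 = 0) (hs : Sm (ev (CF .S C pO111)) p) :
    D 2 (ev (CF .S C pO111)) p = 0 := by
  refine Zl.D ⟨p 2, p 2 + 1, by linarith, le_rfl, by linarith, fun t _ _ => ?_⟩ hs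
  exact ev_S_a hG (by rw [u20]; exact h0)

theorem rSZ1 (hG : Good C) (H : Claims C) :
    ∀ p : P, B3 0 (7/100) (3/10) 1 0 (3/10) p ∧ GS p → 0 ≤ D 2 (ev (CF .S C pO111)) p := by
  have cl := fun (p : P) (h : B3 0 (7/100) (3/10) 1 0 (3/10) p ∧ GS p) =>
    H.SZ1 p h.1.l0 h.1.r0 h.1.l1 h.1.r1 h.1.l2 h.1.r2 h.2
  refine pat1 (i := 0) (fun p h => ⟨h.1.l0, fun t ht ht' => ⟨h.1.lo0.2 t ht ht', h.2.u0⟩⟩)
    (fun p h => ⟨(cl p h).1.le, (cl p h).2.D 2⟩) (fun p h h0 => ?_)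
  exact (D2_S_a hG h0 (cl p h).2).ge

theorem rSZ2 (hG : Good C) (H : Claims C) :
    ∀ p : P, B3 0 (7/100) (3/10) 1 (3/10) (93/100) p ∧ GS p → 0 ≤ ev (CF .S C pO111) p := by
  have cl := fun (p : P) (h : B3 0 (7/100) (3/10) 1 (3/10) (93/100) p ∧ GS p) =>
    H.SZ2 p h.1.l0 h.1.r0 h.1.l1 h.1.r1 h.1.l2 h.1.r2 h.2
  refine pat1 (i := 0) (fun p h => ⟨h.1.l0, fun t ht ht' => ⟨h.1.lo0.2 t ht ht', h.2.u0⟩⟩)
    (fun p h => ⟨(cl p h).1.le, (cl p h).2⟩) (fun p h h0 => ?_)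
  exact (ev_S_a hG h0).ge

theorem rSZ3 (hG : Good C) (H : Claims C) :
    ∀ p : P, B3 0 (7/100) (3/10) 1 (93/100) 1 p ∧ GS p → D 2 (ev (CF .S C pO111)) p ≤ 0 := by
  have cl := fun (p : P) (h : B3 0 (7/100) (3/10) 1 (93/100) 1 p ∧ GS p) =>
    H.SZ3 p h.1.l0 h.1.r0 h.1.l1 h.1.r1 h.1.l2 h.1.r2 h.2
  refine pat1n (i := 0) (fun p h => ⟨h.1.l0, fun t ht ht' => ⟨h.1.lo0.2 t ht ht', h.2.u0⟩⟩)
    (fun p h => ⟨(cl p h).1.le, (cl p h).2.D 2⟩) (fun p h h0 => ?_)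
  exact (D2_S_a hG h0 (cl p h).2).le

/-- the chart `S`: nonnegative if nonnegative at both ends -/
theorem S_pos (hG : Good C) (H : Claims C) {s g0 g : ℝ} (a0 : 0 ≤ a) (a1 : a ≤ 7/100)
    (s0 : 3/10 ≤ s) (s1 : s ≤ 1) (h0 : 0 ≤ g0) (h1 : g0 ≤ g) (h2 : g ≤ 1)
    (hs : cos (π / 2 * g0) ≤ s) (e0 : 0 ≤ CF .S C pO111 rO a s g0)
    (e1 : 0 ≤ CF .S C pO111 rO a s 1) : 0 ≤ CF .S C pO111 rO a s g := by
  have ee : ∀ t : ℝ, ev (CF .S C pO111) ![a, s, t] = CF .S C pO111 rO a s t := fun t =>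
    ev_CF .S C pO111 ![a, s, t]
  have gd : ∀ t, g0 ≤ t → t ≤ 1 → GS (![a, s, t] : P) := by
    intro t h3 h4
    have k : cos (π / 2 * t) - s ≤ 0 := by linarith [cs_anti h0 h3 h4]
    exact k
  rcases le_total g (3/10) with h | h
  · have hb : ∀ t, g0 ≤ t → t ≤ g → B3 0 (7/100) (3/10) 1 0 (3/10) (![a, s, t] : P) :=
      fun t h3 h4 => ⟨a0, a1, s0, s1, h0.trans h3, h4.trans h⟩
    have h3 := mono_line (φ := ev (CF .S C pO111)) (p := ![a, s, 0]) (i := 2) h1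
      (fun t ht ht' => by
        rw [upd_line]
        have k := hb t ht ht'
        exact (H.SZ1 _ k.l0 k.r0 k.l1 k.r1 k.l2 k.r2 (gd t ht (ht'.trans h2))).2)
      (fun t ht ht' => by rw [upd_line]; exact rSZ1 hG H _ ⟨hb t ht ht', gd t ht (ht'.trans h2)⟩)
    rw [upd_line, upd_line, ee, ee] at h3
    exact e0.trans h3
  rcases le_total g (93/100) with h' | h'
  · rw [← ee]
    exact rSZ2 hG H _ ⟨⟨a0, a1, s0, s1, h, h'⟩, gd g h1 h2⟩
  · have hb : ∀ t, g ≤ t → t ≤ 1 → B3 0 (7/100) (3/10) 1 (93/100) 1 (![a, s, t] : P) :=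
      fun t h3 h4 => ⟨a0, a1, s0, s1, h'.trans h3, h4⟩
    have h3 := anti_line (φ := ev (CF .S C pO111)) (p := ![a, s, 0]) (i := 2) h2
      (fun t ht ht' => by
        rw [upd_line]
        have k := hb t ht ht'
        exact (H.SZ3 _ k.l0 k.r0 k.l1 k.r1 k.l2 k.r2 (gd t (h1.trans ht) ht')).2)
      (fun t ht ht' => by rw [upd_line]; exact rSZ3 hG H _ ⟨hb t ht ht', gd t (h1.trans ht) ht'⟩)
    rw [upd_line, upd_line, ee, ee] at h3
    exact e1.trans h3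

/-! ### the region -/

/-- the closed form, all flags true -/
theorem F_O111 (hG : Good C) (h0 : 0 < a) (hab : a ≤ b) (hbc : b ≤ c) (hc : c ≤ 1)
    (ht : dih 1 a b c ≤ 0) (h1 : 1 ≤ a + b) :
    10000 * F C.toCr 1 a b c = FG rO C pO111 (tdat 1 a b c) :=
  closed_ob hG (x := true) (y := true) (z := true) h0 hab hbc hc ht
    (show 1 ≤ b + c by linarith) (show 1 ≤ a + c by linarith) (show 1 ≤ a + b from h1)

theorem F_R (hG : Good C) (h0 : 0 < a) (hab : a ≤ b) (hbc : b ≤ c) (hc : c ≤ 1) (hb : b < 1)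
    (hs : c ≤ a + b) (ht : dih 1 a b c ≤ 0) (h1 : 1 ≤ a + b) : 10000 * F C.toCr 1 a b c =
      CF .R C pO111 rO a ((1 - b) / a) (|dih 1 a b c| / ((1 - b) / a)) := by
  rw [F_O111 hG h0 hab hbc hc ht h1, CF_def]
  exact ch_R _ h0 hab hbc hc hb hs ht

theorem F_S (hG : Good C) (h0 : 0 < a) (hab : a ≤ b) (hbc : b ≤ c) (hc : c ≤ 1)
    (hs : c ≤ a + b) (ht : dih 1 a b c ≤ 0) (h1 : 1 ≤ a + b) : 10000 * F C.toCr 1 a b c =
      CF .S C pO111 rO a ((1 - b) / a) (ang (dih 1 a b c)) := by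
  rw [F_O111 hG h0 hab hbc hc ht h1, CF_def]
  exact ch_S _ h0 hab hbc hc hs ht

/-- `κ` is largest at `c = 1` -/
theorem dih_one_le (h0 : 0 < a) (ha : a ≤ 1) (hb0 : 0 < b) (hb : b ≤ 1) (hc0 : 0 ≤ c)
    (hc : c ≤ 1) (ht : dih 1 a b c ≤ 0) : |dih 1 a b c| ≤ |dih 1 a b 1| := by
  have h1 : dih 1 a b 1 ≤ dih 1 a b c := by
    unfold dih
    have hp : 0 < sin (π / 2 * a) * sin (π / 2 * b) := mul_pos (sn_pos h0 ha) (sn_pos hb0 hb)
    apply div_le_div_of_nonneg_right _ hp.le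
    have h2 := cs_anti hc0 hc le_rfl
    linarith
  rw [abs_of_nonpos ht, abs_of_nonpos (h1.trans ht)]
  linarith

end Rob4

open Rob4 in
/-- obtuse, `a + b ≥ 1`, `a ≤ 7/100`, given the right-angled case and the case `c = 1` -/
theorem pos_ob4 (hG : Good C) (H : Claims C) (h0 : 0 < a) (ha : a ≤ 7/100) (hab : a ≤ b)
    (hbc : b ≤ c) (hc : c ≤ 1) (hs : c ≤ a + b) (ht : dih 1 a b c ≤ 0) (h1 : 1 ≤ a + b)
    (H0 : 0 ≤ F C.toCr 1 a b 1)
    (H1 : ∀ c₁, b ≤ c₁ → c₁ ≤ 1 → c₁ ≤ a + b → dih 1 a b c₁ = 0 → 0 ≤ F C.toCr 1 a b c₁) :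
    0 ≤ F C.toCr 1 a b c := by
  have hb : b ≤ 1 := hbc.trans hc
  rcases hb.eq_or_lt with hb1 | hb1
  · have hc1 : c = 1 := le_antisymm hc (hb1 ▸ hbc)
    rw [hc1]; exact H0
  have ha1 : a ≤ 1 := hab.trans hb
  have hb0 : 0 < b := h0.trans_le hab
  have hc0 : 0 ≤ c := hb0.le.trans hbc
  -- the parameter `σ`
  have s0 : 0 < (1 - b) / a := div_pos (by linarith) h0
  have s1 : (1 - b) / a ≤ 1 := by rw [div_le_one h0]; linarith
  -- the right angle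
  obtain ⟨c₁, k1, k2, k3, k4, -⟩ := exists_right h0 hab hb
  have e1 := H1 c₁ k1 k2 k3 k4
  suffices h : 0 ≤ 10000 * F C.toCr 1 a b c by linarith
  rcases le_total ((1 - b) / a) (3/10) with hs3 | hs3
  · rw [F_R hG h0 hab hbc hc hb1 hs ht h1]
    refine R_pos hG H h0.le ha s0.le hs3 (div_nonneg (abs_nonneg _) s0.le) ?_ ?_
    · rw [div_le_one s0]
      exact ka_le h0 hab hb hc0 hc ht h1
    · have e := F_R hG h0 hab k1 k2 hb1 k3 k4.le h1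
      rw [k4, abs_zero, zero_div] at e
      rw [← e]; linarith
  · have t1 : dih 1 a b 1 ≤ 0 := dih_one_nonpos h0 ha1 hb0 hb
    have ks : |dih 1 a b 1| ≤ (1 - b) / a := ka_le h0 hab hb zero_le_one le_rfl t1 h1
    rw [F_S hG h0 hab hbc hc hs ht h1]
    refine S_pos hG H h0.le ha hs3 s1 (ang_nonneg (dih 1 a b 1))
      (ang_anti (dih_one_le h0 ha1 hb0 hb hc0 hc ht)) (ang_le_one _) ?_ ?_ ?_
    · rw [cos_ang (ks.trans s1)]; exact ks
    · rw [← F_S hG h0 hab hb le_rfl h1 t1 h1]; linarith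
    · have e := F_S hG h0 hab k1 k2 k3 k4.le h1
      rw [k4, ang_zero'] at e
      rw [← e]; linarith

end FX
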