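import Pool.Agent.H11.FX.Van
import Pool.Agent.H11.FX.Clo
import Pool.Agent.H11.FX.Cht

set_option autoImplicit false

/-!
# FE-7: acute triangles near the orthonormal basis (helper63)
-/

namespace FX

open H41FT H45FT Real Function Filter Topology

variable {C : Co} {a b c : ℝ}

/-! ### values at a point, with validity -/

/-- values at a point, with validity -/
noncomputable def on_vO : Ops (ℝ × Prop) where
  nat n := (n, True)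
  add x y := (x.1 + y.1, x.2 ∧ y.2)
  sub x y := (x.1 - y.1, x.2 ∧ y.2)
  mul x y := (x.1 * y.1, x.2 ∧ y.2)
  smul n x := (n * x.1, x.2)
  hm x := (x.1 * (π / 2), x.2)
  ihm x := (x.1 * (2 / π), x.2)
  inv x := (x.1⁻¹, x.2 ∧ 0 < x.1)
  sqrt x := (√x.1, x.2 ∧ 0 < x.1)
  sn x := (sin (π / 2 * x.1), x.2)
  cs x := (cos (π / 2 * x.1), x.2)
  at_ x := (2 / π * arctan x.1, x.2)

theorem on_vO_sound (q : P) : Sound {q} on_vO (fun x => x.2) (fun x f => f q = x.1 ∧ Sm f q) where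
  smooth h p hp := by rw [Set.mem_singleton_iff.1 hp]; exact h.2
  congr h e := by
    have e' := e q rfl
    exact ⟨e'.self_of_nhds.symm.trans h.1, h.2.congr e'⟩
  nat n := ⟨rfl, Sm_nat n⟩
  ok_nat := trivial
  add _ hx hy := ⟨congrArg₂ (· + ·) hx.1 hy.1, Sm_add hx.2 hy.2⟩
  sub _ hx hy := ⟨congrArg₂ (· - ·) hx.1 hy.1, Sm_sub hx.2 hy.2⟩
  mul _ hx hy := ⟨congrArg₂ (· * ·) hx.1 hy.1, Sm_mul hx.2 hy.2⟩
  smul {n} _ _ _ hx := ⟨congrArg (fun z : ℝ => (n : ℝ) * z) hx.1, Sm_smul n hx.2⟩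
  hm _ hx := ⟨congrArg (fun z : ℝ => z * (π / 2)) hx.1, Sm_hm hx.2⟩
  ihm _ hx := ⟨congrArg (fun z : ℝ => z * (2 / π)) hx.1, Sm_ihm hx.2⟩
  inv k hx := ⟨congrArg (fun z : ℝ => z⁻¹) hx.1, Sm_inv hx.2 (by rw [hx.1]; exact k.2)⟩
  sqrt k hx := ⟨congrArg (fun z : ℝ => √z) hx.1, Sm_sqrt hx.2 (by rw [hx.1]; exact k.2)⟩
  sn _ hx := ⟨congrArg (fun z : ℝ => sin (π / 2 * z)) hx.1, Sm_sn hx.2⟩
  cs _ hx := ⟨congrArg (fun z : ℝ => cos (π / 2 * z)) hx.1, Sm_cs hx.2⟩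
  at_ _ hx := ⟨congrArg (fun z : ℝ => 2 / π * arctan z) hx.1, Sm_at hx.2⟩
  inv_pos k hx p hp := by rw [Set.mem_singleton_iff.1 hp, hx.1]; exact k.2
  sqrt_pos k hx p hp := by rw [Set.mem_singleton_iff.1 hp, hx.1]; exact k.2
  ok_add h := h
  ok_sub h := h
  ok_mul h := h
  ok_smul h := h
  ok_hm h := h
  ok_ihm h := h
  ok_inv h := h.1
  ok_sqrt h := h.1
  ok_sn h := h
  ok_cs h := h
  ok_at h := h

/-! ### the final function is valid on valid data -/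

theorem V_sg (c : Sg) {x y : ℝ × Prop} (hx : x.2) (hy : y.2) : (sg on_vO c x y).2 := by
  cases c
  · exact hx
  · exact ⟨hx, hy⟩
  · exact ⟨hx, hy⟩

theorem V_sg0 (c : Sg) {y : ℝ × Prop} (hy : y.2) : (sg0 on_vO c y).2 := by
  cases c
  · exact trivial
  · exact hy
  · exact ⟨trivial, hy⟩

theorem V_lin3 (c1 c2 c3 : Sg) {x y z : ℝ × Prop} (hx : x.2) (hy : y.2) (hz : z.2) :
    (lin3 on_vO c1 c2 c3 x y z).2 :=
  V_sg _ (V_sg _ (V_sg0 _ hx) hy) hz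

theorem V_gl (C : Co) (ob hf : Bool) {s k : ℝ × Prop} (hs : s.2) (hk : k.2) :
    (gl on_vO C ob hf s k).2 := by
  cases ob <;> cases hf
  · exact hs
  · exact ⟨hs, hk⟩
  · exact ⟨trivial, hs⟩
  · exact ⟨hk, hs⟩

theorem V_vl (C : Co) (hf : Bool) {s k : ℝ × Prop} (hs : s.2) (hk : k.2) :
    (vl_ on_vO C hf s k).2 := by
  cases hf
  · exact hs
  · exact ⟨hs, hk⟩

theorem V_hzt (C : Co) (ob : Bool) {r su sv g c : ℝ × Prop} (hr : r.2) (h1 : su.2) (h2 : sv.2)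
    (h3 : g.2) (h4 : c.2) : (hzt on_vO C ob r su sv g c).2 := by
  have h : (on_vO.mul (on_vO.mul su sv) (on_vO.sub (on_vO.sub (on_vO.nat 1) g) c)).2 :=
    ⟨⟨h1, h2⟩, ⟨trivial, h3⟩, h4⟩
  cases ob
  · exact ⟨hr, h⟩
  · exact ⟨hr, h⟩

theorem V_vertK (C : Co) (ob hf : Bool) {s f h p su f1 p1 sv e1 e2 e3 g c k : ℝ × Prop}
    (a1 : s.2) (a2 : f.2) (a3 : h.2) (a4 : p.2) (a5 : su.2) (a6 : f1.2) (a7 : p1.2) (a8 : sv.2)
    (a9 : e1.2) (b1 : e2.2) (b2 : e3.2) (b3 : g.2) (b4 : c.2) (b5 : k.2) :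
    (vertK on_vO C ob hf s f h p su f1 p1 sv e1 e2 e3 g c k).2 := by
  unfold vertK
  refine V_hzt C ob ⟨⟨b3, ?_⟩, ⟨⟨trivial, b4, b4⟩, ?_⟩⟩ a5 a8 b3 b4
  · exact V_sg _ (V_sg _ (V_gl C ob hf a1 b5) ⟨a2, a6⟩) ⟨a4, a7⟩
  · exact ⟨V_vl C hf a1 b5, ⟨a1, a9⟩, ⟨a2, b1⟩, ⟨a3, b2⟩⟩

theorem V_vert (C : Co) (ob hf : Bool) {s f h p su l f1 p1 sv e1 e2 e3 g c : ℝ × Prop}
    (a1 : s.2) (a2 : f.2) (a3 : h.2) (a4 : p.2) (a5 : su.2) (al : l.2) (a6 : f1.2) (a7 : p1.2)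
    (a8 : sv.2) (a9 : e1.2) (b1 : e2.2) (b2 : e3.2) (b3 : g.2) (b4 : c.2) :
    (vert on_vO C ob hf s f h p su l f1 p1 sv e1 e2 e3 g c).2 :=
  V_vertK C ob hf a1 a2 a3 a4 a5 a6 a7 a8 a9 b1 b2 b3 b4 ⟨⟨a1, al⟩, trivial⟩

theorem V_linP (C : Co) (ty : Ty) (hz : Bool) {a b c : ℝ × Prop} (h1 : a.2) (h2 : b.2)
    (h3 : c.2) : (linP on_vO C ty hz a b c).2 := by
  cases ty
  · exact ⟨h3, h1, h2⟩
  · cases hz
    · exact ⟨h3, h1, h2⟩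
    · exact ⟨⟨h3, trivial⟩, h1, h2⟩
  · exact ⟨trivial, ⟨h1, h2⟩, h3⟩

theorem V_FG3 (C : Co) (pc : Pc)
    {a b c fa fb fc ha hb hc su sv sw pa pb pc2 D2 gx cx gy cy gz cz : ℝ × Prop}
    (a1 : a.2) (a2 : b.2) (a3 : c.2) (a4 : fa.2) (a5 : fb.2) (a6 : fc.2) (a7 : ha.2) (a8 : hb.2)
    (a9 : hc.2) (b1 : su.2) (b2 : sv.2) (b3 : sw.2) (b4 : pa.2) (b5 : pb.2) (b6 : pc2.2)
    (b7 : D2.2) (c1 : gx.2) (c2 : cx.2) (c3 : gy.2) (c4 : cy.2) (c5 : gz.2) (c6 : cz.2) :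
    (FG3 on_vO C pc a b c fa fb fc ha hb hc su sv sw pa pb pc2 D2 gx cx gy cy gz cz).2 := by
  have e1 := V_lin3 C.ta C.af C.ah a2 a5 a8
  have e2 := V_lin3 C.af C.ff C.fh a2 a5 a8
  have e3 := V_lin3 C.ah C.fh C.hh a2 a5 a8
  have e4 := V_lin3 C.ta C.af C.ah a3 a6 a9
  have e5 := V_lin3 C.af C.ff C.fh a3 a6 a9
  have e6 := V_lin3 C.ah C.fh C.hh a3 a6 a9
  exact ⟨⟨V_linP C _ _ a1 a2 a3, b7⟩, V_vert C _ _ a1 a4 a7 b4 b1 a2 a5 b5 b2 e1 e2 e3 c5 c6,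
    V_vert C _ _ a2 a5 a8 b5 b2 a3 a6 b6 b3 e4 e5 e6 c1 c2,
    V_vert C _ _ a1 a4 a7 b4 b1 a3 a6 b6 b3 e4 e5 e6 c3 c4⟩

theorem V_FG (C : Co) (pc : Pc) {d : Dat (ℝ × Prop)} (a1 : d.a.2) (a2 : d.b.2) (a3 : d.c.2)
    (u : d.u.2) (v : d.v.2) (w : d.w.2) (sa : d.sa.2) (sb : d.sb.2) (sc : d.sc.2) (D2 : d.D2.2)
    (gx : d.gx.2) (cx : d.cx.2) (gy : d.gy.2) (cy : d.cy.2) (gz : d.gz.2) (cz : d.cz.2) :
    (FG on_vO C pc d).2 := by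
  have fa : (on_vO.mul d.sa d.sa).2 := ⟨sa, sa⟩
  have fb : (on_vO.mul d.sb d.sb).2 := ⟨sb, sb⟩
  have fc : (on_vO.mul d.sc d.sc).2 := ⟨sc, sc⟩
  have su : (on_vO.mul d.sa d.u).2 := ⟨sa, u⟩
  have sv : (on_vO.mul d.sb d.v).2 := ⟨sb, v⟩
  have sw : (on_vO.mul d.sc d.w).2 := ⟨sc, w⟩
  have ha : (hF on_vO (on_vO.mul d.sa d.u) (on_vO.mul d.sa d.sa)).2 := ⟨su, trivial, fa⟩
  have hb : (hF on_vO (on_vO.mul d.sb d.v) (on_vO.mul d.sb d.sb)).2 := ⟨sv, trivial, fb⟩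
  have hc : (hF on_vO (on_vO.mul d.sc d.w) (on_vO.mul d.sc d.sc)).2 := ⟨sw, trivial, fc⟩
  exact V_FG3 C pc a1 a2 a3 fa fb fc ha hb hc su sv sw ⟨fa, ha⟩ ⟨fb, hb⟩ ⟨fc, hc⟩ D2 gx cx gy cy
    gz cz

/-! ### the acute chart of the sides near the origin -/

theorem gsd_pt {K' : Dat (P → ℝ) → (P → ℝ)} {K : Dat ℝ → ℝ} {p : P}
    (hK : ∀ d : Dat (P → ℝ), K' d p = K (d.pt p)) (x y z : P → ℝ) :
    gsd fO K' true x y z p = gsd rO K true (x p) (y p) (z p) := hK _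

theorem ev_CSa (C : Co) (p : P) : ev (CSa C) p = CSa C rO (p 0) (p 1) (p 2) :=
  gsd_pt (fun d => FG_pt C pA111 d p) (H41FT.co 0) (H41FT.co 1) (H41FT.co 2)

theorem CSa_Sm (C : Co) : Sm (ev (CSa C)) 0 := by
  have h : Enc3 (CSa C) (ev (CSa C)) (Sm (ev (CSa C))) :=
    Enc3.of_R fun S _ _ _ _ _ _ h1 h2 h3 => gsd_R S (FG_R S C pA111) true h1 h2 h3
  have hs : ∀ i : Fin 3, (H41FT.co i) 0 = ((0 : ℝ), True).1 ∧ Sm (H41FT.co i) 0 :=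
    fun i => ⟨rfl, Sm_coord i⟩
  refine (h (on_vO_sound 0) (hs 0) (hs 1) (hs 2) ?_).2 0 rfl
  apply V_FG <;> simp [on_vO]

theorem CSa_D (hG : Good C) (i : Fin 3) : D i (ev (CSa C)) 0 = 0 := by
  refine Zl.D ⟨-(1/2), 1/2, by norm_num, by norm_num, by norm_num, fun t ht ht' => ?_⟩ (CSa_Sm C)
  rw [ev_CSa]
  fin_cases i
  · show CSa C rO (update (0 : P) 0 t 0) (update (0 : P) 0 t 1) (update (0 : P) 0 t 2) = 0
    rw [u00, u01, u02]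
    exact v_sa_x hG ht ht'
  · show CSa C rO (update (0 : P) 1 t 0) (update (0 : P) 1 t 1) (update (0 : P) 1 t 2) = 0
    rw [u10, u11, u12]
    exact v_sa_y hG ht ht'
  · show CSa C rO (update (0 : P) 2 t 0) (update (0 : P) 2 t 1) (update (0 : P) 2 t 2) = 0
    rw [u20, u21, u22]
    exact v_sa_z hG ht ht'

theorem CFon_CSa (C : Co) (x y z : ℝ) :
    CF .on C pA111 rO x y z = CSa C rO (x + y) y (y * z) := rfl

theorem CSa_line (hG : Good C) {q : P} (h0 : q 0 = 0) (h1 : q 1 = 0)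
    (hs : Sm (ev (CF .on C pA111)) q) : D 1 (ev (CF .on C pA111)) q = 0 := by
  have hs' : Sm (ev (CF .on C pA111)) (update q 1 (q 1)) := by rwa [update_eq_self]
  have h2 := hasDerivAt_line hs'
  rw [update_eq_self, h1] at h2
  obtain ⟨v, hv⟩ : ∃ v : P, v = Pi.single 0 1 + Pi.single 1 1 + q 2 • Pi.single 2 1 := ⟨_, rfl⟩
  have hv0 : v 0 = 1 := by rw [hv]; simp
  have hv1 : v 1 = 1 := by rw [hv]; simp
  have hv2 : v 2 = q 2 := by rw [hv]; simp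
  have e : (fun s => ev (CF .on C pA111) (update q 1 s)) =
      fun s : ℝ => ev (CSa C) (s • v) := by
    funext s
    rw [ev_CF, ev_CSa, u10, u11, u12, h0, CFon_CSa]
    simp only [Pi.smul_apply, smul_eq_mul, hv0, hv1, hv2, zero_add, mul_one]
  have h3 : HasDerivAt (fun s : ℝ => s • v) v 0 := by
    simpa using (hasDerivAt_id (0 : ℝ)).smul_const v
  have hF : HasFDerivAt (ev (CSa C)) (fderiv ℝ (ev (CSa C)) 0) ((0 : ℝ) • v) := by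
    rw [zero_smul]; exact (CSa_Sm C).diff.hasFDerivAt
  have h4 : HasDerivAt (fun s : ℝ => ev (CSa C) (s • v)) (fderiv ℝ (ev (CSa C)) 0 v) 0 :=
    hF.comp_hasDerivAt (0 : ℝ) h3
  have h5 : fderiv ℝ (ev (CSa C)) 0 v = 0 := by
    have d0 : fderiv ℝ (ev (CSa C)) 0 (Pi.single 0 1) = 0 := CSa_D hG 0
    have d1 : fderiv ℝ (ev (CSa C)) 0 (Pi.single 1 1) = 0 := CSa_D hG 1
    have d2 : fderiv ℝ (ev (CSa C)) 0 (Pi.single 2 1) = 0 := CSa_D hG 2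
    rw [hv, map_add, map_add, map_smul, d0, d1, d2]; simp
  rw [e] at h2
  rw [h5] at h4
  exact h2.unique h4

/-- the region -/
def on_SO6 (p : P) : Prop := B3 0 (3/50) 0 (3/50) 0 1 p ∧ 50 * (p 0 + p 1) - 3 ≤ 0

theorem on_SO6.lo0 {p : P} (h : on_SO6 p) : 0 ≤ p 0 ∧ ∀ t, 0 ≤ t → t ≤ p 0 → on_SO6 (update p 0 t) := by
  refine ⟨h.1.l0, fun t h1 h2 => ⟨h.1.lo0.2 t h1 h2, ?_⟩⟩
  rw [u00, u01]; linarith [h.2]

theorem on_SO6.lo1 {p : P} (h : on_SO6 p) : 0 ≤ p 1 ∧ ∀ t, 0 ≤ t → t ≤ p 1 → on_SO6 (update p 1 t) := by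
  refine ⟨h.1.l1, fun t h1 h2 => ⟨h.1.lo1.2 t h1 h2, ?_⟩⟩
  rw [u10, u11]; linarith [h.2]

theorem on_nonneg (hG : Good C) (H : Claims C) :
    ∀ p : P, on_SO6 p → 0 ≤ ev (CF .on C pA111) p := by
  have hA : ∀ p : P, on_SO6 p → 0 < D 1 (D 0 (ev (CF .on C pA111))) p ∧
      Sm (ev (CF .on C pA111)) p := fun p h =>
    H.OA p h.1.l0 h.1.r0 h.1.l1 h.1.r1 h.1.l2 h.1.r2 h.2
  have hB : ∀ p : P, on_SO6 p → 0 < D 1 (D 1 (ev (CF .on C pA111))) p ∧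
      Sm (ev (CF .on C pA111)) p := fun p h =>
    H.OB p h.1.l0 h.1.r0 h.1.l1 h.1.r1 h.1.l2 h.1.r2 h.2
  have kA : ∀ p : P, on_SO6 p → 0 ≤ D 0 (ev (CF .on C pA111)) p := by
    refine pat1 (i := 1) (fun p h => h.lo1) (fun p h => ⟨(hA p h).1.le, (hA p h).2.D 0⟩)
      (fun p h h0 => ?_)
    refine (Zl.D ⟨0, 3/50, by norm_num, h.1.l0, h.1.r0, fun t ht ht' => ?_⟩ (hA p h).2).ge
    rw [ev_CF, u00, u01, u02, h0]
    exact v_on_b hG _ (by linarith) (by linarith)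
  have kB : ∀ p : P, on_SO6 p ∧ p 0 = 0 → 0 ≤ D 1 (ev (CF .on C pA111)) p := by
    refine pat1 (i := 1) (lo := 0) (fun p h => ⟨h.1.lo1.1, fun t h1 h2 => ⟨h.1.lo1.2 t h1 h2, ?_⟩⟩)
      (fun p h => ⟨(hB p h.1).1.le, (hB p h.1).2.D 1⟩) (fun p h h0 => ?_)
    · rw [u10]; exact h.2
    · exact (CSa_line hG h.2 h0 (hB p h.1).2).ge
  have kC : ∀ p : P, on_SO6 p ∧ p 0 = 0 → 0 ≤ ev (CF .on C pA111) p := by
    refine pat1 (i := 1) (lo := 0) (fun p h => ⟨h.1.lo1.1, fun t h1 h2 => ⟨h.1.lo1.2 t h1 h2, ?_⟩⟩)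
      (fun p h => ⟨kB p h, (hB p h.1).2⟩) (fun p h h0 => ?_)
    · rw [u10]; exact h.2
    · rw [ev_CF, h0, h.2]
      exact (v_on_b hG _ (by norm_num) (by norm_num)).ge
  exact pat1 (i := 0) (fun p h => h.lo0) (fun p h => ⟨kA p h, (hA p h).2⟩)
    (fun p h h0 => kC p ⟨h, h0⟩)

/-- acute, near the orthonormal basis -/
theorem pos_on (hG : Good C) (H : Claims C) (h0 : 0 < a) (hab : a ≤ b) (hbc : b ≤ c)
    (hc : c ≤ 1) (hs : c ≤ a + b) (ht : 0 ≤ dih 1 a b c) (ha : 94/100 ≤ a) :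
    0 ≤ F C.toCr 1 a b c := by
  have h1 := closed_ac hG (x := true) (y := true) (z := true) h0 hab hbc hc ht
    (show (1 : ℝ) ≤ b + c by linarith) (show (1 : ℝ) ≤ a + c by linarith)
    (show (1 : ℝ) ≤ a + b by linarith)
  obtain ⟨θ, t0, t1, h2⟩ := ch_on (FG rO C pA111) h0 hab hbc hc hs ht
  have h3 : 0 ≤ ev (CF .on C pA111) ![b - a, 1 - b, θ] := by
    refine on_nonneg hG H _ ⟨⟨?_, ?_, ?_, ?_, ?_, ?_⟩, ?_⟩
    · show 0 ≤ b - a; linarith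
    · show b - a ≤ 3/50; linarith
    · show 0 ≤ 1 - b; linarith
    · show 1 - b ≤ 3/50; linarith
    · exact t0
    · exact t1
    · show 50 * (b - a + (1 - b)) - 3 ≤ 0; linarith
  rw [ev_CF] at h3
  have h4 : Tt C ⟨.ac, true, true, true⟩ 1 a b c = CF .on C pA111 rO (b - a) (1 - b) θ := h2
  rw [h4] at h1
  have h5 : 0 ≤ CF .on C pA111 rO (b - a) (1 - b) θ := h3
  rw [← h1] at h5
  linarith

end FX
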