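import Pool.Agent.H11.FX.Van
import Pool.Agent.H11.FX.Clo
import Pool.Agent.H11.FX.Cht

set_option autoImplicit false

/-!
# Nonnegativity on `T_-`
-/

namespace FX

open H41FT H45FT Real Function

variable {C : Co} {a b c : ℝ}

/-! ### the chart `c3` -/

theorem c3_zl_g0 (hG : Good C) {p : P} (h0 : 0 ≤ p 0) (h0' : p 0 ≤ 1/10) (h1 : p 1 = 0)
    (h2 : 0 ≤ p 2) : Zl (ev (CF .c3 C pM)) 0 p := by
  refine ⟨0, 1/10, by norm_num, h0, h0', fun t ht ht' => ?_⟩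
  rw [ev_CF, u00, u01, u02, h1]
  exact v_c3_g0 hG ht (by linarith) h2

theorem c3_zl_g1 (hG : Good C) {p : P} (h0 : 0 ≤ p 0) (h0' : p 0 ≤ 1/10) (h1 : p 1 = 1)
    (h2 : 0 ≤ p 2) : Zl (ev (CF .c3 C pM)) 0 p := by
  refine ⟨0, 1/10, by norm_num, h0, h0', fun t ht ht' => ?_⟩
  rw [ev_CF, u00, u01, u02, h1]
  exact v_c3_g1 hG ht (by linarith) h2

theorem c3_face0 (hG : Good C) {p : P} (h0 : p 0 = 0) (h2 : 0 ≤ p 2) :
    ev (CF .c3 C pM) p = 0 := by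
  rw [ev_CF, h0]; exact v_c3_a hG _ h2

theorem rMA (hG : Good C) (H : Claims C) :
    ∀ p : P, B3 0 (1/10) 0 (1/10) 0 1 p → 0 ≤ ev (CF .c3 C pM) p := by
  have key : ∀ p : P, B3 0 (1/10) 0 (1/10) 0 1 p → 0 ≤ D 0 (ev (CF .c3 C pM)) p := by
    refine pat1 (i := 1) (fun p h => h.lo1) (fun p h => ?_) (fun p h h0 => ?_)
    · obtain ⟨k1, k2⟩ := H.MA p h.l0 h.r0 h.l1 h.r1 h.l2 h.r2
      exact ⟨k1.le, k2.D 0⟩
    · exact ((c3_zl_g0 hG h.l0 h.r0 h0 h.l2).D (H.MA p h.l0 h.r0 h.l1 h.r1 h.l2 h.r2).2).ge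
  refine pat1 (i := 0) (fun p h => h.lo0) (fun p h => ⟨key p h, ?_⟩) (fun p h h0 => ?_)
  · exact (H.MA p h.l0 h.r0 h.l1 h.r1 h.l2 h.r2).2
  · exact (c3_face0 hG h0 h.l2).ge

theorem rMB (hG : Good C) (H : Claims C) :
    ∀ p : P, B3 0 (1/10) (9/10) 1 0 1 p → 0 ≤ ev (CF .c3 C pM) p := by
  have key : ∀ p : P, B3 0 (1/10) (9/10) 1 0 1 p → 0 ≤ D 0 (ev (CF .c3 C pM)) p := by
    refine pat1' (i := 1) (fun p h => h.hi1) (fun p h => ?_) (fun p h h0 => ?_)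
    · obtain ⟨k1, k2⟩ := H.MB p h.l0 h.r0 h.l1 h.r1 h.l2 h.r2
      exact ⟨k1.le, k2.D 0⟩
    · exact ((c3_zl_g1 hG h.l0 h.r0 h0 h.l2).D (H.MB p h.l0 h.r0 h.l1 h.r1 h.l2 h.r2).2).ge
  refine pat1 (i := 0) (fun p h => h.lo0) (fun p h => ⟨key p h, ?_⟩) (fun p h h0 => ?_)
  · exact (H.MB p h.l0 h.r0 h.l1 h.r1 h.l2 h.r2).2
  · exact (c3_face0 hG h0 h.l2).ge

theorem rMC (hG : Good C) (H : Claims C) :
    ∀ p : P, B3 0 (1/10) (1/10) (9/10) 0 1 p → 0 ≤ ev (CF .c3 C pM) p := by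
  refine pat1 (i := 0) (fun p h => h.lo0) (fun p h => ?_) (fun p h h0 => ?_)
  · obtain ⟨k1, k2⟩ := H.MC p h.l0 h.r0 h.l1 h.r1 h.l2 h.r2
    exact ⟨k1.le, k2⟩
  · exact (c3_face0 hG h0 h.l2).ge

theorem rMD (hG : Good C) (H : Claims C) :
    ∀ p : P, B3 (1/10) (67/100) 0 (1/10) 0 1 p → 0 ≤ ev (CF .c3 C pM) p := by
  refine pat1 (i := 1) (fun p h => h.lo1) (fun p h => ?_) (fun p h h0 => ?_)
  · obtain ⟨k1, k2⟩ := H.MD p h.l0 h.r0 h.l1 h.r1 h.l2 h.r2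
    exact ⟨k1.le, k2⟩
  · rw [ev_CF, h0]
    exact (v_c3_g0 hG (by linarith [h.l0]) (by linarith [h.r0]) h.l2).ge

/-- the guard of the chart `c3` -/
def Gd3 (p : P) : Prop := cos (π / 2 * p 1) * (sin (π / 2 * p 0) * sin (π / 2 * p 0)) -
      cos (π / 2 * p 0) * (cos (π / 2 * p 0) + p 2) ≤ 0

theorem Gd3.up {p : P} {t : ℝ} (h : Gd3 p) (h0 : 0 ≤ p 1) (h1 : p 1 ≤ t) (h2 : t ≤ 1) :
    Gd3 (update p 1 t) := by
  unfold Gd3 at *
  rw [u10, u11, u12]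
  have := mul_le_mul_of_nonneg_right (cs_anti h0 h1 h2) (mul_self_nonneg (sin (π / 2 * p 0)))
  linarith

theorem rME (hG : Good C) (H : Claims C) :
    ∀ p : P, B3 (1/10) (67/100) (9/10) 1 0 1 p ∧ Gd3 p → 0 ≤ ev (CF .c3 C pM) p := by
  refine pat1' (i := 1) (hi := 1)
    (fun p h => ⟨h.1.r1, fun t ht ht' => ⟨h.1.hi1.2 t ht ht', h.2.up ?_ ht ht'⟩⟩)
    (fun p h => ?_) (fun p h h0 => ?_)
  · linarith [h.1.l1]
  · obtain ⟨k1, k2⟩ := H.ME p h.1.l0 h.1.r0 h.1.l1 h.1.r1 h.1.l2 h.1.r2 h.2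
    exact ⟨k1.le, k2⟩
  · rw [ev_CF, h0]
    exact (v_c3_g1 hG (by linarith [h.1.l0]) (by linarith [h.1.r0]) h.1.l2).ge

theorem r_c3 (hG : Good C) (H : Claims C) {p : P} (a0 : 0 ≤ p 0) (a1 : p 0 ≤ 67/100)
    (g0 : 0 ≤ p 1) (g1 : p 1 ≤ 1) (n0 : 0 ≤ p 2) (n1 : p 2 ≤ 1) (hg : Gd3 p) :
    0 ≤ ev (CF .c3 C pM) p := by
  rcases le_total (p 0) (1/10) with h | h
  · rcases le_total (p 1) (1/10) with h' | h'
    · exact rMA hG H _ ⟨a0, h, g0, h', n0, n1⟩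
    · rcases le_total (p 1) (9/10) with h'' | h''
      · exact rMC hG H _ ⟨a0, h, h', h'', n0, n1⟩
      · exact rMB hG H _ ⟨a0, h, h'', g1, n0, n1⟩
  · rcases le_total (p 1) (1/10) with h' | h'
    · exact rMD hG H _ ⟨h, a1, g0, h', n0, n1⟩
    · rcases le_total (p 1) (9/10) with h'' | h''
      · exact (H.MG p h a1 h' h'' n0 n1 hg).1.le
      · exact rME hG H _ ⟨⟨h, a1, h'', g1, n0, n1⟩, hg⟩

theorem pos_c3 (hG : Good C) (H : Claims C) {a g n : ℝ} (a0 : 0 ≤ a) (a1 : a ≤ 67/100)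
    (g0 : 0 ≤ g) (g1 : g ≤ 1) (n0 : 0 ≤ n) (n1 : n ≤ 1)
    (hg : cos (π / 2 * g) * (sin (π / 2 * a) * sin (π / 2 * a)) -
      cos (π / 2 * a) * (cos (π / 2 * a) + n) ≤ 0) : 0 ≤ CF .c3 C pM rO a g n := by
  have h := r_c3 hG H (p := ![a, g, n]) a0 a1 g0 g1 n0 n1 hg
  rwa [ev_CF] at h

/-! ### the chart of the sides -/

theorem sd_zl0 (hG : Good C) {p : P} (h0 : -(1/2) ≤ p 0) (h0' : p 0 ≤ 1/2) (h1 : p 1 = 0)
    (h2 : p 2 = 0) : Zl (ev (CF .sd C pM)) 0 p := by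
  refine ⟨-(1/2), 1/2, by norm_num, h0, h0', fun t ht ht' => ?_⟩
  rw [ev_CF, u00, u01, u02, h1, h2]
  exact v_sd_x hG ht ht'

theorem sd_zl1 (hG : Good C) {p : P} (h0 : -(1/2) ≤ p 1) (h0' : p 1 ≤ 1/2) (h1 : p 0 = 0)
    (h2 : p 2 = 0) : Zl (ev (CF .sd C pM)) 1 p := by
  refine ⟨-(1/2), 1/2, by norm_num, h0, h0', fun t ht ht' => ?_⟩
  rw [ev_CF, u10, u11, u12, h1, h2]
  exact v_sd_y hG ht ht'

theorem rSA (hG : Good C) (H : Claims C) :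
    ∀ p : P, B3 0 (1/25) 0 (1/25) 0 (1/25) p → 0 ≤ ev (CF .sd C pM) p := by
  have hsm : ∀ p : P, B3 0 (1/25) 0 (1/25) 0 (1/25) p → Sm (ev (CF .sd C pM)) p := fun p h =>
    (H.SB p h.l0 h.r0 h.l1 h.r1 h.l2 h.r2).2
  -- `∂₀F ≥ 0` on `δ = 0`
  have k1 : ∀ p : P, B3 0 (1/25) 0 (1/25) 0 (1/25) p ∧ p 2 = 0 →
      0 ≤ D 0 (ev (CF .sd C pM)) p := by
    refine pat1 (i := 1) (lo := 0) (fun p h => ⟨h.1.l1, fun t ht ht' => ⟨h.1.lo1.2 t ht ht', ?_⟩⟩)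
      (fun p h => ?_) (fun p h h0 => ?_)
    · rw [u12]; exact h.2
    · obtain ⟨a1, a2⟩ := H.SA p h.1.l0 h.1.r0 h.1.l1 h.1.r1 h.1.l2 h.2.le
      exact ⟨a1.le, a2.D 0⟩
    · exact ((sd_zl0 hG (by linarith [h.1.l0]) (by linarith [h.1.r0]) h0 h.2).D (hsm p h.1)).ge
  have k2 : ∀ p : P, B3 0 (1/25) 0 (1/25) 0 (1/25) p → 0 ≤ D 0 (ev (CF .sd C pM)) p := by
    refine pat1 (i := 2) (fun p h => h.lo2) (fun p h => ?_) (fun p h h0 => k1 p ⟨h, h0⟩)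
    obtain ⟨a1, a2⟩ := H.SB p h.l0 h.r0 h.l1 h.r1 h.l2 h.r2
    exact ⟨a1.le, a2.D 0⟩
  -- `∂₁F ≥ 0` on `α = 0`
  have k3 : ∀ p : P, B3 0 (1/25) 0 (1/25) 0 (1/25) p ∧ p 0 = 0 →
      0 ≤ D 1 (ev (CF .sd C pM)) p := by
    refine pat1 (i := 2) (lo := 0) (fun p h => ⟨h.1.l2, fun t ht ht' => ⟨h.1.lo2.2 t ht ht', ?_⟩⟩)
      (fun p h => ?_) (fun p h h0 => ?_)
    · rw [u20]; exact h.2
    · obtain ⟨a1, a2⟩ := H.SC p h.1.l0 h.2.le h.1.l1 h.1.r1 h.1.l2 h.1.r2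
      exact ⟨a1.le, a2.D 1⟩
    · exact ((sd_zl1 hG (by linarith [h.1.l1]) (by linarith [h.1.r1]) h.2 h0).D (hsm p h.1)).ge
  have k4 : ∀ p : P, B3 0 (1/25) 0 (1/25) 0 (1/25) p ∧ p 0 = 0 → 0 ≤ ev (CF .sd C pM) p := by
    refine pat1 (i := 1) (lo := 0) (fun p h => ⟨h.1.l1, fun t ht ht' => ⟨h.1.lo1.2 t ht ht', ?_⟩⟩)
      (fun p h => ⟨k3 p h, hsm p h.1⟩) (fun p h h0 => ?_)
    · rw [u10]; exact h.2
    · rw [ev_CF, h.2, h0]
      exact (v_sd_z hG (by linarith [h.1.l2]) (by linarith [h.1.r2])).ge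
  exact pat1 (i := 0) (fun p h => h.lo0) (fun p h => ⟨k2 p h, hsm p h⟩) (fun p h h0 => k4 p ⟨h, h0⟩)

theorem rSE (hG : Good C) (H : Claims C) :
    ∀ p : P, B3 (1/25) (33/100) 0 (3/100) 0 (3/100) p → 0 ≤ ev (CF .sd C pM) p := by
  have k4 : ∀ p : P, B3 (1/25) (33/100) 0 (3/100) 0 (3/100) p ∧ p 1 = 0 →
      0 ≤ ev (CF .sd C pM) p := by
    refine pat1 (i := 2) (lo := 0) (fun p h => ⟨h.1.l2, fun t ht ht' => ⟨h.1.lo2.2 t ht ht', ?_⟩⟩)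
      (fun p h => ?_) (fun p h h0 => ?_)
    · rw [u21]; exact h.2
    · obtain ⟨a1, a2⟩ := H.SF p h.1.l0 h.1.r0 h.1.l1 h.1.r1 h.1.l2 h.1.r2
      exact ⟨a1.le, a2⟩
    · rw [ev_CF, h.2, h0]
      exact (v_sd_x hG (by linarith [h.1.l0]) (by linarith [h.1.r0])).ge
  refine pat1 (i := 1) (fun p h => h.lo1) (fun p h => ?_) (fun p h h0 => k4 p ⟨h, h0⟩)
  obtain ⟨a1, a2⟩ := H.SE p h.l0 h.r0 h.l1 h.r1 h.l2 h.r2
  exact ⟨a1.le, a2⟩

theorem r_sd (hG : Good C) (H : Claims C) {p : P} (h0 : 0 ≤ p 2) (h1 : p 2 ≤ p 1)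
    (h2 : p 1 ≤ p 0) (h3 : p 0 ≤ 33/100) : 0 ≤ ev (CF .sd C pM) p := by
  rcases le_total (3/100) (p 1) with h' | h'
  · exact (H.S0 p (by linarith) h3 h' (by linarith) h0 (by linarith) (by linarith)
      (by linarith)).1.le
  · rcases le_total (p 0) (1/25) with h | h
    · exact rSA hG H _ ⟨by linarith, h, by linarith, by linarith, h0, by linarith⟩
    · exact rSE hG H _ ⟨h, h3, by linarith, h', h0, by linarith⟩

theorem pos_sd (hG : Good C) (H : Claims C) {x y z : ℝ} (h0 : 0 ≤ z) (h1 : z ≤ y) (h2 : y ≤ x)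
    (h3 : x ≤ 33/100) : 0 ≤ CF .sd C pM rO x y z := by
  have h := r_sd hG H (p := ![x, y, z]) h0 h1 h2 h3
  rwa [ev_CF] at h

/-! ### the degenerate case `b = c = 1` -/

theorem tdat_one (h0 : 0 ≤ a) (h1 : a ≤ 1) : tdat (-1) a 1 1 =
    ⟨a, 1, 1, cos (π / 2 * a), 0, 0, sin (π / 2 * a), 1, 1, sin (π / 2 * a) ^ 2, a,
      cos (π / 2 * a), 1, 0, 1, 0⟩ := by
  have hp := Real.pi_pos
  have hc : cos (π / 2 * 1) = 0 := by rw [mul_one, cos_pi_div_two]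
  have hs : sin (π / 2 * 1) = 1 := by rw [mul_one, sin_pi_div_two]
  have hA := cs_nonneg h0 h1
  have hx : dih (-1) 1 1 a = -cos (π / 2 * a) := by unfold dih; rw [hc, hs]; ring
  have hy : dih (-1) 1 a 1 = 0 := by unfold dih; rw [hc]; simp
  have hz : dih (-1) a 1 1 = 0 := by unfold dih; rw [hc]; simp
  have ha : ang (-cos (π / 2 * a)) = a := by
    unfold ang
    rw [abs_neg, abs_of_nonneg hA, arccos_cos (by positivity) (by nlinarith)]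
    field_simp
  have hg : gram3 (-1) a 1 1 = sin (π / 2 * a) ^ 2 := by
    unfold gram3
    rw [hc]
    have := sin_sq_add_cos_sq (π / 2 * a)
    nlinarith
  unfold tdat
  rw [hx, hy, hz, ha, hc, hs, hg, ang_zero', abs_zero, abs_neg, abs_of_nonneg hA]

theorem sg_rO (c : Sg) (x y : ℝ) : sg rO c x y = x + c.r * y := by
  cases c
  · simp [sg, Sg.r]
  · simp [sg, Sg.r, rO]
  · simp [sg, Sg.r, rO]; ring

theorem sg0_rO (c : Sg) (y : ℝ) : sg0 rO c y = c.r * y := by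
  cases c
  · simp [sg0, Sg.r, rO]
  · simp [sg0, Sg.r, rO]
  · simp [sg0, Sg.r, rO]

theorem Tt_one (hG : Good C) (h0 : 0 ≤ a) (h1 : a ≤ 1) : Tt C pM (-1) a 1 1 = 0 := by
  unfold Tt
  rw [tdat_one h0 h1]
  have e5 := sin_sq_add_cos_sq (π / 2 * a)
  obtain ⟨g1, g2, g4, g5⟩ := hG
  generalize sin (π / 2 * a) = s at *
  generalize cos (π / 2 * a) = u at *
  simp only [FG, FG3, H41FT.lt, pM, linP, vert, vertK, hzt, gl, vl_, hF, lin3, sg_rO, sg0_rO,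
    Ty.oz, Ty.oxy]
  simp only [rO, Nat.add_eq, Nat.mul_eq, Nat.cast_add, Nat.cast_mul, Nat.cast_ofNat, Nat.cast_one]
  generalize C.ta.r = ta at *
  generalize C.af.r = af at *
  generalize C.ah.r = ah at *
  generalize C.ff.r = ff at *
  generalize C.fh.r = fh at *
  generalize C.hh.r = hh at *
  generalize C.G1.r = G1 at *
  generalize C.G2.r = G2 at *
  generalize (C.bW : ℝ) = bW at *
  generalize (C.bV : ℝ) = bV at *
  generalize (C.k : ℝ) = k at *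
  generalize (C.x : ℝ) = x at *
  linear_combination a * (3 * g2 + 3 * g1 - g4) + s ^ 2 * g4 - (2 * bV + ta + 2 * af + ff) * e5 +
    (2 * s * u - 4 * s ^ 3 * u) * g5

theorem pos_tm (hG : Good C) (H : Claims C) (h0 : 0 < a) (hab : a ≤ b) (hbc : b ≤ c)
    (hc : c ≤ 1) (hs : 2 ≤ a + b + c) : 0 ≤ F C.toCr (-1) a b c := by
  have e := closed_tm hG h0 hab hbc hc hs
  have key : 0 ≤ Tt C pM (-1) a b c := by
    by_cases h : 1 - a ≤ 33/100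
    · have e1 := ch_sd (FG rO C pM) h0 hab hbc hc hs
      unfold Tt
      rw [e1]
      exact pos_sd hG H (by linarith) (by linarith) (by linarith) h
    · push Not at h
      rcases (hbc.trans hc).eq_or_lt with hb | hb
      · have hc1 : c = 1 := le_antisymm hc (by linarith)
        subst hb; subst hc1
        exact (Tt_one hG h0.le hab).ge
      · have e1 := ch_c3 (FG rO C pM) h0 hab hbc hc hb hs
        unfold Tt
        rw [e1]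
        have hgr : 0 ≤ gram3 (-1) a b c := (gram3_neg_nonneg_iff h0 hab hbc hc).2 hs
        have hcb : 0 < cos (π / 2 * b) :=
          cos_pos_of_mem_Ioo ⟨by nlinarith [Real.pi_pos], by nlinarith [Real.pi_pos]⟩
        have hcc : 0 ≤ cos (π / 2 * c) := cs_nonneg (by linarith) hc
        refine pos_c3 hG H h0.le (by linarith) (ang_nonneg _) (ang_le_one _) (by positivity) ?_ ?_
        · rw [div_le_one hcb]; exact cs_anti (by linarith) hbc hc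
        · have hd := dih_abs_le (σ := -1) (Or.inr rfl) h0 (by linarith) (by linarith : 0 < b)
            (by linarith) hgr
          rw [cos_ang hd]
          have := c3_guard h0 hab hbc hc hb hs
          rw [← sq]
          linarith
  linarith

end FX
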