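import Pool.Agent.H11.FX.Clo
import Pool.Agent.H11.FX.Cmp2
import Pool.Agent.H11.FX.Rtm
import Pool.Agent.H11.FX.Ron
import Pool.Agent.H11.FX.Rac
import Pool.Agent.H11.FX.Rf1
import Pool.Agent.H11.FX.Rob2
import Pool.Agent.H11.FX.Rob3
import Pool.Agent.H11.FX.Rob4

set_option autoImplicit false

/-!
# The pointwise inequality from the claims
-/

namespace FX

open H41FT H45FT Real Function

variable {C : Co} {a b c : ℝ}

theorem pw_of_claims (hG : Good C) (H : Claims C) : PW C.toCr := by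
  have hac : ∀ a b c : ℝ, 0 < a → a ≤ b → b ≤ c → c ≤ 1 → c ≤ a + b → 0 ≤ dih 1 a b c →
      0 ≤ F C.toCr 1 a b c := by
    intro a b c h0 hab hbc hc hs ht
    rcases le_total a (94/100) with h | h
    · exact pos_ac hG H h0 hab hbc hc hs ht h
    · exact pos_on hG H h0 hab hbc hc hs ht h
  refine pw_of_ranges _ ?_ fun a b c h0 hab hbc hc hs => pos_tm hG H h0 hab hbc hc hs
  intro a b c h0 hab hbc hc hs
  rcases le_total 0 (dih 1 a b c) with ht | ht
  · exact hac a b c h0 hab hbc hc hs ht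
  have H1 : ∀ c₁, b ≤ c₁ → c₁ ≤ 1 → c₁ ≤ a + b → dih 1 a b c₁ = 0 → 0 ≤ F C.toCr 1 a b c₁ :=
    fun c₁ h1 h2 h3 h4 => hac a b c₁ h0 hab h1 h2 h3 h4.ge
  have hb : b ≤ 1 := hbc.trans hc
  rcases le_total (a + b) 1 with h | h
  · by_cases hb' : tan (π / 4 * b) ≤ 8544/10000
    · exact pos_ob1 hG H h0 hab hbc hc hs ht h hb'
    · exact pos_ob2 hG H h0 hab hbc hc hs ht h
        (b_ge_of_tan (by linarith) hb (not_le.1 hb')) H1
  · have H0 : 0 ≤ F C.toCr 1 a b 1 := by
      rw [F_one _ h0.le (by linarith) (by linarith) hb]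
      exact pos_tm hG H h0 hab hb le_rfl (by linarith)
    rcases le_total a (7/100) with h' | h'
    · exact pos_ob4 hG H h0 h' hab hbc hc hs ht h H0 H1
    · exact pos_ob3 hG H h' hab hbc hc hs ht h H0

end FX
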