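import Pool.Agent.H11.FX.Bs
import Pool.Agent.H41.FT.L3

set_option autoImplicit false

/-!
# The functions vanish on the degenerate faces (FE-1)
-/

namespace FX

open H41FT H45FT Real Function

variable {C : Co} {a b c : ℝ}

namespace Van

/-! ### master lemmas -/

theorem sg_r (c : Sg) (x y : ℝ) : sg rO c x y = x + c.r * y := by
  cases c <;> simp [sg, rO, Sg.r]
  ring

theorem sg0_r (c : Sg) (y : ℝ) : sg0 rO c y = c.r * y := by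
  cases c <;> simp [sg0, rO, Sg.r]

theorem lin3_r (c1 c2 c3 : Sg) (l f h : ℝ) :
    lin3 rO c1 c2 c3 l f h = c1.r * l + c2.r * f + c3.r * h := by
  simp only [lin3, sg_r, sg0_r]

/-- the real value of the factor of `γ`, linear part -/
theorem gl_ff (s k : ℝ) : gl rO C false false s k = (2 * C.bW + C.bV) * s := by
  simp only [gl, rO, Nat.add_eq]; push_cast; ring
theorem gl_ft (s k : ℝ) : gl rO C false true s k = (2 * C.bW + C.bV) * s - C.bV * k := by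
  simp only [gl, rO, Nat.add_eq]; push_cast; ring
theorem gl_tf (s k : ℝ) : gl rO C true false s k = -(C.bV * s) := by
  simp only [gl, rO]; push_cast; ring
theorem gl_tt (s k : ℝ) : gl rO C true true s k = (2 * C.bW + C.bV) * k - C.bV * s := by
  simp only [gl, rO, Nat.add_eq]; push_cast; ring
theorem vl_f (s k : ℝ) : vl_ rO C false s k = C.bV * s := rfl
theorem vl_t (s k : ℝ) : vl_ rO C true s k = C.bV * (s + k) := rfl

theorem hzt_f (r su sv g c : ℝ) :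
    hzt rO C false r su sv g c = r + 4 * C.x * (su * sv * (1 - g - c)) := by
  simp only [hzt, rO, H41FT.lt, Nat.mul_eq]; push_cast; ring
theorem hzt_t (r su sv g c : ℝ) :
    hzt rO C true r su sv g c = r - 4 * C.x * (su * sv * (1 - g - c)) := by
  simp only [hzt, rO, H41FT.lt, Nat.mul_eq]; push_cast; ring
/-- the product term vanishes -/
theorem hzt_0 (ob : Bool) (r su sv g c : ℝ) (h : su * sv * (1 - g - c) = 0) :
    hzt rO C ob r su sv g c = r := by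
  cases ob
  · rw [hzt_f, h]; ring
  · rw [hzt_t, h]; ring

theorem linP_ac (hz : Bool) : linP rO C .ac hz a b c = (C.bW + C.bV) * (c - (3 * a + b)) := by
  simp only [linP, rO, Nat.add_eq]; push_cast; ring
theorem linP_obf : linP rO C .ob false a b c = (C.bW + C.bV) * (c - (a + b)) := by
  simp only [linP, rO, Nat.add_eq]; push_cast; ring
theorem linP_obt : linP rO C .ob true a b c = (C.bW + C.bV) * (c + 2 - 3 * (a + b)) := by
  simp only [linP, rO, Nat.add_eq]; push_cast; ring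
theorem linP_tm (hz : Bool) :
    linP rO C .tm hz a b c = (C.bW + C.bV) * (6 - 3 * (a + b + c)) := by
  simp only [linP, rO, Nat.add_eq]; push_cast; ring

/-- one vertex -/
theorem vert_r (ob hf : Bool) (s f h p su l f' p' sv e1 e2 e3 g c : ℝ) :
    vert rO C ob hf s f h p su l f' p' sv e1 e2 e3 g c =
      hzt rO C ob (g * (gl rO C ob hf s (s + l - 1) + C.G1.r * (f * f') + C.G2.r * (p * p')) +
        (1 - c * c) * (vl_ rO C hf s (s + l - 1) + (s * e1 + (f * e2 + h * e3)))) su sv g c := by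
  simp only [vert, vertK, H41FT.lt, sg_r]
  simp only [rO, Nat.cast_one]

/-- the angle is zero -/
theorem vert_0 (ob hf : Bool) (s f h p su l f' p' sv e1 e2 e3 : ℝ) :
    vert rO C ob hf s f h p su l f' p' sv e1 e2 e3 0 1 = 0 := by
  rw [vert_r, hzt_0] <;> ring

/-- the short side is zero -/
theorem vert_s0 (ob hf : Bool) (l f' p' sv e1 e2 e3 g c : ℝ) (h : hf = false ∨ l = 1) :
    vert rO C ob hf 0 0 0 0 0 l f' p' sv e1 e2 e3 g c = 0 := by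
  rw [vert_r, hzt_0 _ _ _ _ _ _ (by ring)]
  rcases h with h | h
  · subst h
    cases ob
    · rw [gl_ff, vl_f]; ring
    · rw [gl_tf, vl_f]; ring
  · subst h
    cases ob <;> cases hf
    · rw [gl_ff, vl_f]; ring
    · rw [gl_ft, vl_t]; ring
    · rw [gl_tf, vl_f]; ring
    · rw [gl_tt, vl_t]; ring

theorem FG_r (pc : Pc) (d : Dat ℝ) : FG rO C pc d =
    FG3 rO C pc d.a d.b d.c (d.sa * d.sa) (d.sb * d.sb) (d.sc * d.sc)
      (d.sa * d.u * (1 - 2 * (d.sa * d.sa))) (d.sb * d.v * (1 - 2 * (d.sb * d.sb)))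
      (d.sc * d.w * (1 - 2 * (d.sc * d.sc))) (d.sa * d.u) (d.sb * d.v) (d.sc * d.w)
      (d.sa * d.sa + d.sa * d.u * (1 - 2 * (d.sa * d.sa)))
      (d.sb * d.sb + d.sb * d.v * (1 - 2 * (d.sb * d.sb)))
      (d.sc * d.sc + d.sc * d.w * (1 - 2 * (d.sc * d.sc)))
      d.D2 d.gx d.cx d.gy d.cy d.gz d.cz := by
  simp only [FG, H41FT.lt, hF]
  simp only [rO, Nat.cast_one, Nat.cast_ofNat]

theorem FG3_r (pc : Pc)
    (a b c fa fb fc ha hb hc su sv sw pa pb pc' D2 gx cx gy cy gz cz : ℝ) :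
    FG3 rO C pc a b c fa fb fc ha hb hc su sv sw pa pb pc' D2 gx cx gy cy gz cz =
      linP rO C pc.ty pc.hz a b c + 6 * C.k * D2 +
        (vert rO C pc.ty.oz pc.hz a fa ha pa su b fb pb sv (C.ta.r * b + C.af.r * fb + C.ah.r * hb)
          (C.af.r * b + C.ff.r * fb + C.fh.r * hb) (C.ah.r * b + C.fh.r * fb + C.hh.r * hb) gz cz +
        (vert rO C pc.ty.oxy pc.hx b fb hb pb sv c fc pc' sw
          (C.ta.r * c + C.af.r * fc + C.ah.r * hc)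
          (C.af.r * c + C.ff.r * fc + C.fh.r * hc) (C.ah.r * c + C.fh.r * fc + C.hh.r * hc) gx cx +
        vert rO C pc.ty.oxy pc.hy a fa ha pa su c fc pc' sw
          (C.ta.r * c + C.af.r * fc + C.ah.r * hc)
          (C.af.r * c + C.ff.r * fc + C.fh.r * hc) (C.ah.r * c + C.fh.r * fc + C.hh.r * hc) gy cy)) := by
  simp only [FG3, H41FT.lt, lin3_r]
  simp only [rO, Nat.mul_eq]
  push_cast
  ring

/-- all sides are zero -/
theorem Vt0 (ty : Ty) (d : Dat ℝ) (ht : ty = .ac ∨ ty = .ob) (ha : d.a = 0) (hb : d.b = 0)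
    (hc : d.c = 0) (hsa : d.sa = 0) (hsb : d.sb = 0) (hD : d.D2 = 0) :
    FG rO C ⟨ty, false, false, false⟩ d = 0 := by
  rw [FG_r, FG3_r, ha, hb, hc, hsa, hsb, hD]
  simp only [zero_mul, mul_zero, add_zero]
  rw [vert_s0 _ _ _ _ _ _ _ _ _ _ _ (Or.inl rfl), vert_s0 _ _ _ _ _ _ _ _ _ _ _ (Or.inl rfl),
    vert_s0 _ _ _ _ _ _ _ _ _ _ _ (Or.inl rfl)]
  rcases ht with h | h
  · subst h; rw [linP_ac]; ring
  · subst h; rw [linP_obf]; ring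

/-- `a = 0`, `b = c` -/
theorem V0 (pc : Pc) (d : Dat ℝ) (ha : d.a = 0) (hbc : d.c = d.b) (hsa : d.sa = 0)
    (hD : d.D2 = 0) (hg : d.gx = 0) (hcx : d.cx = 1)
    (hf : d.b = 1 ∨ (pc.hy = false ∧ pc.hz = false ∧ (pc.ty = .ac ∨ pc.ty = .ob))) :
    FG rO C pc d = 0 := by
  rw [FG_r, FG3_r, ha, hbc, hsa, hD, hg, hcx, vert_0]
  simp only [zero_mul, mul_zero, add_zero]
  have h1 : pc.hz = false ∨ d.b = 1 := by tauto
  have h2 : pc.hy = false ∨ d.b = 1 := by tauto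
  rw [vert_s0 _ _ _ _ _ _ _ _ _ _ _ h1, vert_s0 _ _ _ _ _ _ _ _ _ _ _ h2]
  obtain ⟨ty, hx, hy, hz⟩ := pc
  dsimp only at *
  cases ty
  · rw [linP_ac]; ring
  · cases hz
    · rw [linP_obf]; ring
    · have : d.b = 1 := by simpa using hf
      rw [linP_obt, this]; ring
  · have : d.b = 1 := by simpa using hf
    rw [linP_tm, this]; ring

/-- all angles are zero -/
theorem V1 (pc : Pc) (d : Dat ℝ) (hD : d.D2 = 0) (hx : d.gx = 0) (hcx : d.cx = 1)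
    (hy : d.gy = 0) (hcy : d.cy = 1) (hz : d.gz = 0) (hcz : d.cz = 1)
    (hf : (pc.ty = .tm ∧ d.a + d.b + d.c = 2) ∨ (pc.ty = .ob ∧ pc.hz = false ∧ d.c = d.a + d.b)) :
    FG rO C pc d = 0 := by
  rw [FG_r, FG3_r, hD, hx, hcx, hy, hcy, hz, hcz, vert_0, vert_0, vert_0]
  rcases hf with ⟨h1, h2⟩ | ⟨h1, h2, h3⟩
  · rw [h1, linP_tm, h2]; ring
  · rw [h1, h2, linP_obf, h3]; ring

/-- `b = c = 1` -/
theorem V2x (hG : Good C) (pc : Pc) (d : Dat ℝ) (hpc : pc = ⟨.tm, true, true, true⟩ ∨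
      pc = ⟨pc.ty, true, pc.hy, pc.hz⟩ ∧ (pc.ty = .ac ∨ pc.ty = .ob)) (hb : d.b = 1) (hc : d.c = 1)
    (hv : d.v = 0) (hw : d.w = 0) (hsb : d.sb = 1) (hsc : d.sc = 1) (hgy : d.gy = 1)
    (hcy : d.cy = 0) (hgz : d.gz = 1) (hcz : d.cz = 0) (hgx : d.gx = d.a) (hcx : d.cx = d.u)
    (hD : d.D2 = d.sa * d.sa) (hu : d.sa * d.sa + d.u * d.u = 1) :
    FG rO C pc d = 0 := by
  rw [FG_r, FG3_r, hb, hc, hv, hw, hsb, hsc, hgy, hcy, hgz, hcz, hgx, hcx, hD, vert_r, vert_r,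
    vert_r, hzt_0 _ _ _ _ _ _ (by ring), hzt_0 _ _ _ _ _ _ (by ring),
    hzt_0 _ _ _ _ _ _ (by ring)]
  have e1 := hG.e1
  have e2 := hG.e2
  have e4 := hG.e4
  have e5 := hG.e5
  have hu' : d.u * d.u = 1 - d.sa * d.sa := by linarith
  rw [hu']
  clear hb hc hv hw hsb hsc hgy hcy hgz hcz hgx hcx hD hG hu hu'
  rcases hpc with h | ⟨h, h2⟩
  · rw [h]
    simp only [Ty.oz, Ty.oxy, linP_tm, gl_tt, vl_t]
    linear_combination (3 * d.a) * e1 + (3 * d.a) * e2 - (d.a) * e4 + (d.sa * d.sa) * e4 +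
      2 * (d.sa * d.u * (1 - 2 * (d.sa * d.sa))) * e5
  · obtain ⟨ty, hx', hy, hz⟩ := pc
    have h1 : hx' = true := by simpa using h
    clear h
    subst h1
    rcases h2 with h2 | h2 <;> dsimp only at h2 <;> subst h2 <;> cases hy <;> cases hz <;>
      simp only [Ty.oz, Ty.oxy, linP_ac, linP_obf, linP_obt, gl_ff, gl_ft, gl_tf, gl_tt,
        vl_f, vl_t] <;>
      linear_combination (3 * d.a) * e1 + (3 * d.a) * e2 - (d.a) * e4 + (d.sa * d.sa) * e4 +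
        2 * (d.sa * d.u * (1 - 2 * (d.sa * d.sa))) * e5

/-- `a = c = 1` -/
theorem V2y (hG : Good C) (ty : Ty) (hty : ty = .tm ∨ ty = .ac) (d : Dat ℝ) (ha : d.a = 1)
    (hc : d.c = 1) (hu : d.u = 0) (hw : d.w = 0) (hsa : d.sa = 1) (hsc : d.sc = 1) (hgx : d.gx = 1)
    (hcx : d.cx = 0) (hgz : d.gz = 1) (hcz : d.cz = 0) (hgy : d.gy = d.b) (hcy : d.cy = d.v)
    (hD : d.D2 = d.sb * d.sb) (hv : d.sb * d.sb + d.v * d.v = 1) :
    FG rO C ⟨ty, true, true, true⟩ d = 0 := by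
  rw [FG_r, FG3_r, ha, hc, hu, hw, hsa, hsc, hgy, hcy, hgz, hcz, hgx, hcx, hD, vert_r, vert_r,
    vert_r, hzt_0 _ _ _ _ _ _ (by ring), hzt_0 _ _ _ _ _ _ (by ring),
    hzt_0 _ _ _ _ _ _ (by ring)]
  have e1 := hG.e1
  have e2 := hG.e2
  have e4 := hG.e4
  have e5 := hG.e5
  have hv' : d.v * d.v = 1 - d.sb * d.sb := by linarith
  rw [hv']
  clear ha hc hu hw hsa hsc hgy hcy hgz hcz hgx hcx hD hG hv hv'
  rcases hty with h | h <;> subst h <;>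
    simp only [Ty.oz, Ty.oxy, linP_ac, linP_tm, gl_ft, gl_tt, vl_t] <;>
    linear_combination (3 * d.b) * e1 + (3 * d.b) * e2 - (d.b) * e4 + (d.sb * d.sb) * e4 +
      2 * (d.sb * d.v * (1 - 2 * (d.sb * d.sb))) * e5

/-- `a = b = 1` -/
theorem V2z (hG : Good C) (ty : Ty) (hty : ty = .tm ∨ ty = .ac) (d : Dat ℝ) (ha : d.a = 1)
    (hb : d.b = 1) (hu : d.u = 0) (hv : d.v = 0) (hsa : d.sa = 1) (hsb : d.sb = 1) (hgx : d.gx = 1)
    (hcx : d.cx = 0) (hgy : d.gy = 1) (hcy : d.cy = 0) (hgz : d.gz = d.c) (hcz : d.cz = d.w)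
    (hD : d.D2 = d.sc * d.sc) (hw : d.sc * d.sc + d.w * d.w = 1) :
    FG rO C ⟨ty, true, true, true⟩ d = 0 := by
  rw [FG_r, FG3_r, ha, hb, hu, hv, hsa, hsb, hgy, hcy, hgz, hcz, hgx, hcx, hD, vert_r, vert_r,
    hzt_0 _ _ _ _ _ _ (by ring), hzt_0 _ _ _ _ _ _ (by ring)]
  have e1 := hG.e1
  have e2 := hG.e2
  have e4 := hG.e4
  have e5 := hG.e5
  have hw' : d.w * d.w = 1 - d.sc * d.sc := by linarith
  rw [hw']
  clear ha hb hu hv hsa hsb hgy hcy hgz hcz hgx hcx hD hG hw hw'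
  rcases hty with h | h <;> subst h <;>
    simp only [Ty.oz, Ty.oxy, linP_ac, linP_tm, gl_ft, gl_tt, vl_t] <;>
    linear_combination (3 * d.c) * e1 + (3 * d.c) * e2 - (d.c) * e4 + (d.sc * d.sc) * e4 +
      2 * (d.sc * d.w * (1 - 2 * (d.sc * d.sc))) * e5

/-! ### the data of the charts on the faces, for any final function -/

section ev

variable (K : Dat ℝ → ℝ)

theorem ev_SK_a0 (ka si g : ℝ) {b : ℝ} (h0 : 0 < b) (h1 : b ≤ 1) :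
    gSK rO K 0 b ka si g = K ⟨0, b, b, 1, cos (π / 2 * b), cos (π / 2 * b), 0, sin (π / 2 * b),
      sin (π / 2 * b), 0, 0, 1,
      2 * (2 / π * arctan (sin (π / 2 * b) * si * (sin (π / 2 * b) + sin (π / 2 * b) * ka)⁻¹)),
      sin (π / 2 * b) * ka * (sin (π / 2 * b))⁻¹, g, ka⟩ := by
  have hs : 0 < sin (π / 2 * b) := sn_pos h0 h1
  have h1 : √(sin (π / 2 * b) * sin (π / 2 * b)) = sin (π / 2 * b) := Real.sqrt_mul_self hs.le
  have h2 : sin (π / 2 * b) * (sin (π / 2 * b))⁻¹ = 1 := mul_inv_cancel₀ hs.ne'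
  have h3 := at_half (x := b) (by linarith) (by linarith)
  simp [gSK, H41FT.lt, rO, h1, h2, h3]

theorem ev_SK_g0 (g : ℝ) {a b : ℝ} (h0 : 0 < a + b) (h1 : a + b < 2) :
    gSK rO K a b 1 0 g = K ⟨a, b, a + b, cos (π / 2 * a), cos (π / 2 * b),
      cos (π / 2 * (a + b)), sin (π / 2 * a), sin (π / 2 * b), sin (π / 2 * (a + b)), 0, 0, 1, 0, 1,
      g, 1⟩ := by
  have hp := Real.pi_pos
  have hs : 0 < sin (π / 2 * (a + b)) := sin_pos_of_pos_of_lt_pi (by positivity) (by nlinarith)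
  have e1 : sin (π / 2 * b) * cos (π / 2 * a) + sin (π / 2 * a) * cos (π / 2 * b) =
      sin (π / 2 * (a + b)) := by rw [mul_add, sin_add]; ring
  have e1' : sin (π / 2 * a) * cos (π / 2 * b) + sin (π / 2 * b) * cos (π / 2 * a) =
      sin (π / 2 * (a + b)) := by rw [mul_add, sin_add]; ring
  have e2 : cos (π / 2 * a) * cos (π / 2 * b) - sin (π / 2 * a) * sin (π / 2 * b) =
      cos (π / 2 * (a + b)) := by rw [mul_add, cos_add]
  have h2 : √(sin (π / 2 * (a + b)) * sin (π / 2 * (a + b))) = sin (π / 2 * (a + b)) :=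
    Real.sqrt_mul_self hs.le
  have h3 : sin (π / 2 * (a + b)) * (sin (π / 2 * (a + b)))⁻¹ = 1 := mul_inv_cancel₀ hs.ne'
  have h4 := at_half (x := a + b) (by linarith) (by linarith)
  simp only [gSK, H41FT.lt, rO, mul_zero, zero_mul, zero_add, mul_one, Nat.cast_one, e1, e1', e2,
    h2, h3, arctan_zero, Nat.cast_ofNat, h4]

theorem ev_SK_g1 (g : ℝ) {a : ℝ} (h0 : 0 ≤ a) (h1 : a ≤ 1) :
    gSK rO K a 1 0 1 g = K ⟨a, 1, 1, cos (π / 2 * a), 0, 0, sin (π / 2 * a), 1, 1,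
      sin (π / 2 * a) * sin (π / 2 * a), a, cos (π / 2 * a), 1, 0, g, 0⟩ := by
  have h4 := at_half (x := a) (by linarith) (by linarith)
  have h5 := sin_sq_add_cos_sq (π / 2 * a)
  have h6 : sin (π / 2 * a) * sin (π / 2 * a) + cos (π / 2 * a) * cos (π / 2 * a) = 1 := by
    linarith
  simp [gSK, H41FT.lt, rO, h4, h6, at_one']

theorem ev_c3_a (g : ℝ) {n : ℝ} (hn : 0 ≤ n) : chart .c3 rO K 0 g n =
    K ⟨0, 1, 1, 1, 0, 0, 0, 1, 1, 0, 0, 1,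
      2 * (2 / π * arctan (sin (π / 2 * g) * (1 + cos (π / 2 * g))⁻¹)), cos (π / 2 * g), g,
      cos (π / 2 * g)⟩ := by
  have h1 : 0 < 1 + n := by linarith
  have h2 : √((1 + n) * (1 + n)) = 1 + n := Real.sqrt_mul_self h1.le
  have h3 : (1 + n) * (1 + n)⁻¹ = 1 := mul_inv_cancel₀ h1.ne'
  simp [chart, gc3, H41FT.lt, rO, h2, h3]

theorem ev_c3_g1 {a n : ℝ} (h0 : 0 ≤ a) (h1 : a < 1) (hn : 0 ≤ n) :
    chart .c3 rO K a 1 n = K ⟨a, 1, 1, cos (π / 2 * a), 0, 0, sin (π / 2 * a), 1, 1,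
      sin (π / 2 * a) * sin (π / 2 * a), a, cos (π / 2 * a), 1, 0, 1, 0⟩ := by
  have hp := Real.pi_pos
  have hu : 0 < cos (π / 2 * a) := cos_pos_of_mem_Ioo ⟨by nlinarith, by nlinarith⟩
  have h1 : 0 < cos (π / 2 * a) + n := by linarith
  have h2 : √((cos (π / 2 * a) + n) * (cos (π / 2 * a) + n)) = cos (π / 2 * a) + n :=
    Real.sqrt_mul_self h1.le
  have h3 : (cos (π / 2 * a) + n) * (cos (π / 2 * a) + n)⁻¹ = 1 := mul_inv_cancel₀ h1.ne'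
  have h4 := at_half (x := a) (by linarith) (by linarith)
  simp [chart, gc3, H41FT.lt, rO, h2, h3, h4, at_one']

theorem ev_sd_x (ac : Bool) {x : ℝ} (h1 : -1 < x) (h2 : x < 1) :
    gsd rO K ac x 0 0 = K ⟨1 - x, 1, 1, sin (π / 2 * x), 0, 0, cos (π / 2 * x), 1, 1,
      1 - sin (π / 2 * x) * sin (π / 2 * x), 1 - x, sin (π / 2 * x), 1, 0, 1, 0⟩ := by
  have e1 := sqrt_ax h1 h2
  have e2 := at_ax h1 h2
  have e3 : cos (π / 2 * x) * (cos (π / 2 * x))⁻¹ = 1 := mul_inv_cancel₀ (cos_pos' h1 h2).ne'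
  cases ac
  · simp [gsd, gsdK, gsdE, H41FT.lt, rO, e1, e2, e3, at_one']
  · simp [gsd, gsdK, gsdE, H41FT.lt, rO, e1, e2, e3, at_one']

theorem ev_sd_y (ac : Bool) {x : ℝ} (h1 : -1 < x) (h2 : x < 1) :
    gsd rO K ac 0 x 0 = K ⟨1, 1 - x, 1, 0, sin (π / 2 * x), 0, 1, cos (π / 2 * x), 1,
      1 - sin (π / 2 * x) * sin (π / 2 * x), 1, 0, 1 - x, sin (π / 2 * x), 1, 0⟩ := by
  have e1 := sqrt_ax h1 h2
  have e2 := at_ax h1 h2
  have e3 : cos (π / 2 * x) * (cos (π / 2 * x))⁻¹ = 1 := mul_inv_cancel₀ (cos_pos' h1 h2).ne'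
  cases ac
  · simp [gsd, gsdK, gsdE, H41FT.lt, rO, e1, e2, e3, at_one']
  · simp [gsd, gsdK, gsdE, H41FT.lt, rO, e1, e2, e3, at_one']

theorem ev_sd_z (ac : Bool) {x : ℝ} (h1 : -1 < x) (h2 : x < 1) :
    gsd rO K ac 0 0 x = K ⟨1, 1, 1 - x, 0, 0, sin (π / 2 * x), 1, 1, cos (π / 2 * x),
      1 - sin (π / 2 * x) * sin (π / 2 * x), 1, 0, 1, 0, 1 - x, sin (π / 2 * x)⟩ := by
  have e1 := sqrt_ax h1 h2
  have e2 := at_ax h1 h2
  have e3 : cos (π / 2 * x) * (cos (π / 2 * x))⁻¹ = 1 := mul_inv_cancel₀ (cos_pos' h1 h2).ne'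
  cases ac
  · simp [gsd, gsdK, gsdE, H41FT.lt, rO, e1, e2, e3, at_one']
  · simp [gsd, gsdK, gsdE, H41FT.lt, rO, e1, e2, e3, at_one']

theorem ev_core_t0 (ac : Bool) (rho ka si g : ℝ) : ∃ X cX Y cY cZ : ℝ,
    gcore rO K ac rho 0 ka si g = K ⟨0, 0, 0, 1, 1, 1, 0, 0, 0, 0, X, cX, Y, cY, g, cZ⟩ := by
  refine ⟨2 * (2 / π * arctan (2 * rho * si *
                  (√(2 * rho * si * (2 * rho * si) + (2 + 2 * rho * ka) * (2 + 2 * rho * ka)) +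
                    (2 + 2 * rho * ka))⁻¹)),
    (2 + 2 * rho * ka) *
      (√(2 * rho * si * (2 * rho * si) + (2 + 2 * rho * ka) * (2 + 2 * rho * ka)))⁻¹,
    2 * (2 / π * arctan (2 * si *
                  (√(2 * rho * si * (2 * rho * si) + (2 + 2 * rho * ka) * (2 + 2 * rho * ka)) +
                    (2 * rho + 2 * ka))⁻¹)),
    (2 * rho + 2 * ka) *
      (√(2 * rho * si * (2 * rho * si) + (2 + 2 * rho * ka) * (2 + 2 * rho * ka)))⁻¹,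
    match ac with
      | true => -ka
      | false => ka, ?_⟩
  cases ac
  · simp [gcore, H41FT.lt, rO]
  · simp [gcore, H41FT.lt, rO]

theorem ev_core_r0 (ac : Bool) (t ka si g : ℝ) : ∃ b v sb Y cY cZ : ℝ,
    gcore rO K ac 0 t ka si g = K ⟨0, b, b, 1, v, v, 0, sb, sb, 0, 0, 1, Y, cY, g, cZ⟩ := by
  have h1 : 0 < 1 + t * t := by nlinarith [mul_self_nonneg t]
  have h2 : √(2 * (1 + t * t)⁻¹ * (2 * (1 + t * t)⁻¹)) = 2 * (1 + t * t)⁻¹ :=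
    Real.sqrt_mul_self (by positivity)
  have h3 : t * (2 * (1 + t * t)⁻¹) * (1 + (1 - t * t) * (1 + t * t)⁻¹)⁻¹ = t := by
    field_simp; ring
  have h4 : 2 * (1 + t * t)⁻¹ * (2 * (1 + t * t)⁻¹)⁻¹ = 1 := mul_inv_cancel₀ (by positivity)
  refine ⟨2 * (2 / π * arctan t), (1 - t * t) * (1 + t * t)⁻¹, t * (2 * (1 + t * t)⁻¹),
    2 * (2 / π * arctan (2 * (1 + t * t)⁻¹ * si * (2 * (1 + t * t)⁻¹ + 2 * (1 + t * t)⁻¹ * ka)⁻¹)),
    2 * (1 + t * t)⁻¹ * ka * (2 * (1 + t * t)⁻¹)⁻¹,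
    match ac with
      | true => ((0 : ℕ) : ℝ) - ka
      | false => ka, ?_⟩
  cases ac
  · simp only [gcore, H41FT.lt, rO, mul_zero, zero_mul, add_zero, zero_add, sub_zero, Nat.cast_one,
      mul_one, one_mul, inv_one, Nat.cast_ofNat, h2, h3, h4, arctan_zero]
  · simp only [gcore, H41FT.lt, rO, mul_zero, zero_mul, add_zero, zero_add, sub_zero, Nat.cast_one,
      mul_one, one_mul, inv_one, Nat.cast_ofNat, h2, h3, h4, arctan_zero]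

theorem ev_core_t1 (r g : ℝ) : gcore rO K true r 1 0 1 g =
    K ⟨2 * (2 / π * arctan r), 1, 1, (1 - r * r) * (1 + r * r)⁻¹, 0, 0,
      2 * (r * (1 + r * r)⁻¹), 1, 1, 2 * (r * (1 + r * r)⁻¹) * (2 * (r * (1 + r * r)⁻¹)),
      2 * (2 / π * arctan r), (1 - r * r) * (1 + r * r)⁻¹, 1, 0, g, 0⟩ := by
  have h1 : 0 < 1 + r * r := by nlinarith [mul_self_nonneg r]
  obtain ⟨u, hu⟩ : ∃ u, u = (1 - r * r) * (1 + r * r)⁻¹ := ⟨_, rfl⟩
  obtain ⟨s, hs⟩ : ∃ s, s = 2 * (r * (1 + r * r)⁻¹) := ⟨_, rfl⟩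
  have h5 : s * s + u * u = 1 := by rw [hs, hu]; field_simp; ring
  have h6 : s * (1 + u)⁻¹ = r := by rw [hs, hu]; field_simp; ring
  have h8 : (2 : ℝ) * (1 + 1)⁻¹ = 1 := by norm_num
  simp [gcore, H41FT.lt, rO, ← hu, ← hs, h5, h6, h8, at_one']

theorem ev_E_s (τ : ℝ) {a : ℝ} (h0 : 0 < a) (h1 : a ≤ 1) :
    chart .E rO K a 0 τ = K ⟨a, 1, 1, cos (π / 2 * a), 0, 0, sin (π / 2 * a), 1, 1,
      sin (π / 2 * a) * sin (π / 2 * a), a, cos (π / 2 * a), 1, 0, 1, 0⟩ := by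
  have hs : 0 < sin (π / 2 * a) := sn_pos h0 h1
  have h2 : √(sin (π / 2 * a) * sin (π / 2 * a)) = sin (π / 2 * a) := Real.sqrt_mul_self hs.le
  have h3 : sin (π / 2 * a) * (sin (π / 2 * a))⁻¹ = 1 := mul_inv_cancel₀ hs.ne'
  have h4 := at_half (x := a) (by linarith) (by linarith)
  simp [chart, gE, gsdE, H41FT.lt, rO, h2, h3, h4, at_one']

theorem lt_eq {A B : Type} (e : A) (f : A → B) : H41FT.lt e f = f e := rfl

theorem g0_eq (r t τ : ℝ) : ∃ kz sz Z : ℝ, kz = τ * r * (1 - t * t) ∧ sz = √(4 - kz * kz) ∧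
    Z = 1 - 2 * (2 / π * arctan (kz * (2 + sz)⁻¹)) ∧
    chart .f0 rO K r t τ = gcore rO K true r t (0 - 2⁻¹ * kz) (2⁻¹ * sz) Z := by
  refine ⟨_, _, _, rfl, rfl, rfl, ?_⟩
  show g0 rO K r t τ = _
  rw [g0, lt_eq, lt_eq, lt_eq, lt_eq]
  have e1 : rO.mul (rO.mul τ r) (rO.sub (rO.nat 1) (rO.mul t t)) = τ * r * (1 - t * t) := by
    simp only [rO, Nat.cast_one]
  rw [e1]
  generalize τ * r * (1 - t * t) = kz
  have e2 : rO.sqrt (rO.sub (rO.nat 4) (rO.mul kz kz)) = √(4 - kz * kz) := by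
    simp only [rO, Nat.cast_ofNat]
  rw [e2]
  generalize √(4 - kz * kz) = sz
  have e3 : rO.sub (rO.nat 1) (rO.smul 2 (rO.at_ (rO.mul kz (rO.inv (rO.add (rO.nat 2) sz))))) =
      1 - 2 * (2 / π * arctan (kz * (2 + sz)⁻¹)) := by
    simp only [rO, Nat.cast_ofNat, Nat.cast_one]
  have e4 : rO.sub (rO.nat 0) (rO.mul (rO.inv (rO.nat 2)) kz) = 0 - 2⁻¹ * kz := by
    simp only [rO, Nat.cast_ofNat, Nat.cast_zero]
  have e5 : rO.mul (rO.inv (rO.nat 2)) sz = 2⁻¹ * sz := by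
    simp only [rO, Nat.cast_ofNat]
  rw [e3, e4, e5]

theorem gS_eq (a s g : ℝ) : chart .S rO K a s g =
    gSK rO K a (1 - a * s) (cos (π / 2 * g)) (sin (π / 2 * g)) g := by
  show gS rO K a s g = _
  rw [gS, lt_eq]
  have e1 : rO.sub (rO.nat 1) (rO.mul a s) = 1 - a * s := by simp only [rO, Nat.cast_one]
  have e2 : rO.cs g = cos (π / 2 * g) := rfl
  have e3 : rO.sn g = sin (π / 2 * g) := rfl
  rw [e1, e2, e3]

theorem gG_eq (a b g : ℝ) : chart .G rO K a b g =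
    gSK rO K a b (cos (π / 2 * g)) (sin (π / 2 * g)) g := by
  show gG rO K a b g = _
  rw [gG]
  have e2 : rO.cs g = cos (π / 2 * g) := rfl
  have e3 : rO.sn g = sin (π / 2 * g) := rfl
  rw [e2, e3]

theorem gR_eq (a s r : ℝ) : ∃ g : ℝ,
    g = 1 - 2 * (2 / π * arctan (s * r * (1 + √(1 - s * r * (s * r)))⁻¹)) ∧
    chart .R rO K a s r = gSK rO K a (1 - a * s) (s * r) √(1 - s * r * (s * r)) g := by
  refine ⟨_, rfl, ?_⟩
  show gR rO K a s r = _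
  rw [gR, lt_eq, lt_eq, lt_eq, lt_eq]
  have e0 : rO.mul s r = s * r := rfl
  rw [e0]
  generalize s * r = ka
  have e2 : rO.sqrt (rO.sub (rO.nat 1) (rO.mul ka ka)) = √(1 - ka * ka) := by
    simp only [rO, Nat.cast_one]
  rw [e2]
  generalize √(1 - ka * ka) = si
  have e3 : rO.sub (rO.nat 1) (rO.smul 2 (rO.at_ (rO.mul ka (rO.inv (rO.add (rO.nat 1) si))))) =
      1 - 2 * (2 / π * arctan (ka * (1 + si)⁻¹)) := by
    simp only [rO, Nat.cast_ofNat, Nat.cast_one]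
  have e1 : rO.sub (rO.nat 1) (rO.mul a s) = 1 - a * s := by simp only [rO, Nat.cast_one]
  rw [e3, e1]

theorem f1_eq (r t g : ℝ) : chart .f1 rO K r t g =
    gcore rO K false r t (cos (π / 2 * g)) (sin (π / 2 * g)) g := by
  show g1 rO K r t g = _
  rw [g1]
  have e2 : rO.cs g = cos (π / 2 * g) := rfl
  have e3 : rO.sn g = sin (π / 2 * g) := rfl
  rw [e2, e3]

theorem ev_f0_t1 (r τ : ℝ) : chart .f0 rO K r 1 τ =
    K ⟨2 * (2 / π * arctan r), 1, 1, (1 - r * r) * (1 + r * r)⁻¹, 0, 0,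
      2 * (r * (1 + r * r)⁻¹), 1, 1, 2 * (r * (1 + r * r)⁻¹) * (2 * (r * (1 + r * r)⁻¹)),
      2 * (2 / π * arctan r), (1 - r * r) * (1 + r * r)⁻¹, 1, 0, 1, 0⟩ := by
  obtain ⟨kz, sz, Z, h1, h2, h3, h⟩ := g0_eq K r 1 τ
  have k1 : kz = 0 := by rw [h1]; ring
  have h4 : √(4 : ℝ) = 2 := by
    rw [show (4 : ℝ) = 2 * 2 by norm_num]; exact Real.sqrt_mul_self (by norm_num)
  have k2 : sz = 2 := by rw [h2, k1, mul_zero, sub_zero, h4]
  have k3 : Z = 1 := by rw [h3, k1, zero_mul, arctan_zero, mul_zero, mul_zero, sub_zero]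
  have k4 : (0 : ℝ) - 2⁻¹ * 0 = 0 := by norm_num
  have k5 : (2⁻¹ : ℝ) * 2 = 1 := by norm_num
  rw [h, k1, k2, k3, k4, k5]
  exact ev_core_t1 K r 1

theorem ev_f1_g0 {ρ t : ℝ} (h1 : 0 ≤ ρ) (h2 : ρ ≤ 1) (h3 : 0 ≤ t) (h4 : t < 1) :
    ∃ a b u v w sa sb sc : ℝ,
    chart .f1 rO K ρ t 0 = K ⟨a, b, a + b, u, v, w, sa, sb, sc, 0, 0, 1, 0, 1, 0, 1⟩ := by
  have hr : 0 ≤ ρ * ρ * (t * t) := by positivity
  have ht1 : t * t < 1 := by nlinarith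
  have hρ1 : ρ * ρ ≤ 1 := by nlinarith
  have hr1 : ρ * ρ * (t * t) < 1 := by nlinarith [mul_nonneg h3 h3]
  have k1 : 0 < 1 + ρ * ρ * (t * t) := by positivity
  have k2 : 0 < 1 + t * t := by positivity
  have k3 : ρ * t * t < 1 := by nlinarith
  have k4 : 0 < 1 - ρ * t * t := by linarith
  obtain ⟨q, hq⟩ : ∃ q, q = 2 * (1 + t * t)⁻¹ * ((1 - ρ * ρ * (t * t)) * (1 + ρ * ρ * (t * t))⁻¹) +
      2 * (ρ * (1 + ρ * ρ * (t * t))⁻¹) * ((1 - t * t) * (1 + t * t)⁻¹) := ⟨_, rfl⟩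
  have hq0 : 0 < q := by
    rw [hq]
    have : 0 < 1 - ρ * ρ * (t * t) := by linarith
    have : 0 < 1 - t * t := by linarith
    positivity
  have hq' : 2 * (ρ * (1 + ρ * ρ * (t * t))⁻¹) * ((1 - t * t) * (1 + t * t)⁻¹) +
      2 * (1 + t * t)⁻¹ * ((1 - ρ * ρ * (t * t)) * (1 + ρ * ρ * (t * t))⁻¹) = q := by rw [hq]; ring
  have e1 : √(q * q) = q := Real.sqrt_mul_self hq0.le
  have e2 : q * q⁻¹ = 1 := mul_inv_cancel₀ hq0.ne'
  have e3 : t * q * (1 + ((1 - ρ * ρ * (t * t)) * (1 + ρ * ρ * (t * t))⁻¹ *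
      ((1 - t * t) * (1 + t * t)⁻¹) - t * t * (2 * (ρ * (1 + ρ * ρ * (t * t))⁻¹) *
      (2 * (1 + t * t)⁻¹))))⁻¹ = (ρ * t + t) / (1 - ρ * t * t) := by
    have e4 : 1 + ((1 - ρ * ρ * (t * t)) * (1 + ρ * ρ * (t * t))⁻¹ *
      ((1 - t * t) * (1 + t * t)⁻¹) - t * t * (2 * (ρ * (1 + ρ * ρ * (t * t))⁻¹) *
      (2 * (1 + t * t)⁻¹))) = 2 * (1 - ρ * t * t) ^ 2 *
      ((1 + ρ * ρ * (t * t))⁻¹ * (1 + t * t)⁻¹) := by
      field_simp; ring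
    have e6 : q = 2 * (1 + ρ) * (1 - ρ * t * t) *
        ((1 + ρ * ρ * (t * t))⁻¹ * (1 + t * t)⁻¹) := by
      rw [hq]; field_simp; ring
    have hK : 0 < (1 + ρ * ρ * (t * t))⁻¹ * (1 + t * t)⁻¹ := by positivity
    rw [e4, e6]
    clear e4 e6 hq' hq hq0 e1 e2
    generalize (1 + ρ * ρ * (t * t))⁻¹ * (1 + t * t)⁻¹ = K at *
    generalize 1 - ρ * t * t = Q at *
    field_simp
    ring
  have e5 : arctan ((ρ * t + t) / (1 - ρ * t * t)) = arctan (ρ * t) + arctan t :=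
    (arctan_add k3).symm
  have e6 : 2 * (2 / π * (arctan (ρ * t) + arctan t)) =
    2 * (2 / π * arctan (ρ * t)) + 2 * (2 / π * arctan t) := by ring
  simp only [chart, g1, gcore, H41FT.lt, rO, mul_zero, sin_zero, cos_zero, zero_mul,
    arctan_zero, Nat.cast_one, mul_one, Nat.cast_ofNat, zero_add]
  rw [← hq, hq', e1, e2, e3, e5, e6]
  exact ⟨2 * (2 / π * arctan (ρ * t)), 2 * (2 / π * arctan t), _, _, _, _, _, _, rfl⟩

theorem ev_c3_g0 {a n : ℝ} (ha0 : 0 ≤ a) (ha : a < 1) (hn : 0 ≤ n) : ∃ b c u v w sa sb sc : ℝ,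
    a + b + c = 2 ∧
    chart .c3 rO K a 0 n = K ⟨a, b, c, u, v, w, sa, sb, sc, 0, 0, 1, 0, 1, 0, 1⟩ := by
  have hp := Real.pi_pos
  have hu : 0 < cos (π / 2 * a) := cos_pos_of_mem_Ioo ⟨by nlinarith, by nlinarith⟩
  have hs : 0 ≤ sin (π / 2 * a) := sin_nonneg_of_nonneg_of_le_pi (by positivity) (by nlinarith)
  have h5 := sin_sq_add_cos_sq (π / 2 * a)
  have hA0 : 0 ≤ π / 2 * a := by positivity
  have hA1 : π / 2 * a < π / 2 := by nlinarith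
  simp only [chart, gc3, H41FT.lt, rO, mul_zero, sin_zero, cos_zero, one_mul, zero_mul,
    arctan_zero, Nat.cast_one, mul_one, Nat.cast_ofNat]
  generalize hAA : π / 2 * a = A at *
  have hR0 : 0 < (cos A + n) * (cos A + n) + sin A * sin A := by nlinarith [mul_self_nonneg (sin A)]
  have hR : 0 < √((cos A + n) * (cos A + n) + sin A * sin A) := Real.sqrt_pos.2 hR0
  have hR2 := Real.mul_self_sqrt hR0.le
  generalize √((cos A + n) * (cos A + n) + sin A * sin A) = R at *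
  -- abbreviations
  obtain ⟨v, hv⟩ : ∃ v, v = sin A * R⁻¹ := ⟨_, rfl⟩
  obtain ⟨sb, hsb⟩ : ∃ sb, sb = (cos A + n) * R⁻¹ := ⟨_, rfl⟩
  have hRi : R * R⁻¹ = 1 := mul_inv_cancel₀ hR.ne'
  have hv0 : 0 ≤ v := by rw [hv]; positivity
  have hsb0 : 0 < sb := by rw [hsb]; positivity
  have hvs : v ^ 2 + sb ^ 2 = 1 := by
    rw [hv, hsb]
    field_simp
    linarith
  have hw : n * v = sin A * sb - cos A * v := by rw [hv, hsb]; ring
  have hq0 : 0 < cos A * sb + sin A * v := by positivity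
  have hq : 1 - n * v * (n * v) = (cos A * sb + sin A * v) * (cos A * sb + sin A * v) := by
    rw [hw]
    linear_combination (-(v ^ 2 + sb ^ 2)) * h5 - hvs
  have hsc : √(1 - n * v * (n * v)) = cos A * sb + sin A * v := by
    rw [hq]; exact Real.sqrt_mul_self hq0.le
  rw [← hv, ← hsb, hsc]
  -- β
  have hb1 : cos (arccos sb) = sb := cos_arccos (by linarith) (by nlinarith)
  have hb2 : sin (arccos sb) = v := by
    rw [sin_arccos, show 1 - sb ^ 2 = v ^ 2 by linarith, Real.sqrt_sq hv0]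
  have hb3 : arccos sb ≤ π / 2 := arccos_le_pi_div_two.2 hsb0.le
  have hb4 := arccos_nonneg sb
  generalize arccos sb = B at *
  have e1 : sin A * (cos A + n + R)⁻¹ = v * (1 + sb)⁻¹ := by
    rw [hv, hsb]
    have : 0 < cos A + n + R := by linarith
    have h2 : 0 < R + (cos A + n) := by linarith
    field_simp
    ring
  have e2 := at_two (θ := B) (by linarith) (by linarith) hb2.symm hb1.symm
  have e3 := at_two (θ := A - B) (s := n * v) (c := cos A * sb + sin A * v) (by linarith)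
    (by linarith) (by rw [hw, sin_sub, hb1, hb2]) (by rw [cos_sub, hb1, hb2])
  have e4 : (cos A * sb + sin A * v) * (cos A * sb + sin A * v)⁻¹ = 1 := mul_inv_cancel₀ hq0.ne'
  have e5 : v * sin A + cos A * sb = cos A * sb + sin A * v := by ring
  rw [e1, e2, e3, e5, e4]
  have e6 : 2 / π * A = a := by rw [← hAA]; field_simp
  have e7 : 2 / π * (A - B) = a - 2 / π * B := by rw [mul_sub, e6]
  rw [e7]
  exact ⟨_, _, _, _, _, _, _, _, by ring, rfl⟩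

end ev

theorem sc1 (x : ℝ) : sin x * sin x + cos x * cos x = 1 := by
  have := sin_sq_add_cos_sq x; linarith

theorem cs1 (x : ℝ) : cos x * cos x + sin x * sin x = 1 := by
  have := sin_sq_add_cos_sq x; linarith
theorem cs2 (x : ℝ) : 1 - sin x * sin x = cos x * cos x := by
  have := sin_sq_add_cos_sq x; linarith

theorem rr1 (r : ℝ) : 2 * (r * (1 + r * r)⁻¹) * (2 * (r * (1 + r * r)⁻¹)) +
    (1 - r * r) * (1 + r * r)⁻¹ * ((1 - r * r) * (1 + r * r)⁻¹) = 1 := by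
  have h1 : 0 < 1 + r * r := by nlinarith [mul_self_nonneg r]
  field_simp
  ring

theorem csz : cos (π / 2 * 0) = 1 := by rw [mul_zero, cos_zero]
theorem snz : sin (π / 2 * 0) = 0 := by rw [mul_zero, sin_zero]

end Van

/-! ### the faces -/

open Van

theorem v_c3_a (_ : Good C) (g : ℝ) {n : ℝ} (hn : 0 ≤ n) : CF .c3 C pM rO 0 g n = 0 := by
  rw [CF_def, ev_c3_a _ _ hn]
  exact V0 pM _ rfl rfl rfl rfl rfl rfl (Or.inl rfl)

theorem v_c3_g0 (_ : Good C) {a n : ℝ} (h0 : 0 ≤ a) (h1 : a < 1) (hn : 0 ≤ n) :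
    CF .c3 C pM rO a 0 n = 0 := by
  obtain ⟨b, c, u, v, w, sa, sb, sc, hs, h⟩ := ev_c3_g0 (FG rO C pM) h0 h1 hn
  rw [CF_def, h]
  exact V1 pM _ rfl rfl rfl rfl rfl rfl rfl (Or.inl ⟨rfl, hs⟩)

theorem v_c3_g1 (hG : Good C) {a n : ℝ} (h0 : 0 ≤ a) (h1 : a < 1) (hn : 0 ≤ n) :
    CF .c3 C pM rO a 1 n = 0 := by
  rw [CF_def, ev_c3_g1 _ h0 h1 hn]
  exact V2x hG pM _ (Or.inl rfl) rfl rfl rfl rfl rfl rfl rfl rfl rfl rfl rfl rfl rfl (sc1 _)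

theorem v_sd_x (hG : Good C) {x : ℝ} (h0 : -(1/2) ≤ x) (h1 : x ≤ 1/2) :
    CF .sd C pM rO x 0 0 = 0 := by
  show gsd rO (FG rO C pM) false x 0 0 = 0
  rw [ev_sd_x _ _ (by linarith) (by linarith)]
  exact V2x hG pM _ (Or.inl rfl) rfl rfl rfl rfl rfl rfl rfl rfl rfl rfl rfl rfl (cs2 _) (cs1 _)
theorem v_sd_y (hG : Good C) {x : ℝ} (h0 : -(1/2) ≤ x) (h1 : x ≤ 1/2) :
    CF .sd C pM rO 0 x 0 = 0 := by
  show gsd rO (FG rO C pM) false 0 x 0 = 0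
  rw [ev_sd_y _ _ (by linarith) (by linarith)]
  exact V2y hG .tm (Or.inl rfl) _ rfl rfl rfl rfl rfl rfl rfl rfl rfl rfl rfl rfl (cs2 _) (cs1 _)
theorem v_sd_z (hG : Good C) {x : ℝ} (h0 : -(1/2) ≤ x) (h1 : x ≤ 1/2) :
    CF .sd C pM rO 0 0 x = 0 := by
  show gsd rO (FG rO C pM) false 0 0 x = 0
  rw [ev_sd_z _ _ (by linarith) (by linarith)]
  exact V2z hG .tm (Or.inl rfl) _ rfl rfl rfl rfl rfl rfl rfl rfl rfl rfl rfl rfl (cs2 _) (cs1 _)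

/-- the acute sides chart -/
def CSa (C : Co) {T : Type} (o : Ops T) (x y z : T) : T := gsd o (FG o C pA111) true x y z

theorem v_sa_x (hG : Good C) {x : ℝ} (h0 : -(1/2) ≤ x) (h1 : x ≤ 1/2) :
    CSa C rO x 0 0 = 0 := by
  unfold CSa
  rw [ev_sd_x _ _ (by linarith) (by linarith)]
  exact V2x hG pA111 _ (Or.inr ⟨rfl, Or.inl rfl⟩) rfl rfl rfl rfl rfl rfl rfl rfl rfl rfl rfl rfl
    (cs2 _) (cs1 _)
theorem v_sa_y (hG : Good C) {x : ℝ} (h0 : -(1/2) ≤ x) (h1 : x ≤ 1/2) :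
    CSa C rO 0 x 0 = 0 := by
  unfold CSa
  rw [ev_sd_y _ _ (by linarith) (by linarith)]
  exact V2y hG .ac (Or.inr rfl) _ rfl rfl rfl rfl rfl rfl rfl rfl rfl rfl rfl rfl (cs2 _) (cs1 _)
theorem v_sa_z (hG : Good C) {x : ℝ} (h0 : -(1/2) ≤ x) (h1 : x ≤ 1/2) :
    CSa C rO 0 0 x = 0 := by
  unfold CSa
  rw [ev_sd_z _ _ (by linarith) (by linarith)]
  exact V2z hG .ac (Or.inr rfl) _ rfl rfl rfl rfl rfl rfl rfl rfl rfl rfl rfl rfl (cs2 _) (cs1 _)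

theorem v_on_b (hG : Good C) {x : ℝ} (θ : ℝ) (h0 : -(1/2) ≤ x) (h1 : x ≤ 1/2) :
    CF .on C pA111 rO x 0 θ = 0 := by
  show gsd rO (FG rO C pA111) true (rO.add x 0) 0 (rO.mul 0 θ) = 0
  have e1 : rO.add x 0 = x := by simp only [rO, add_zero]
  have e2 : rO.mul 0 θ = 0 := by simp only [rO, zero_mul]
  rw [e1, e2]
  exact v_sa_x hG h0 h1

theorem v_f0_t0 (_ : Good C) (r τ : ℝ) : CF .f0 C pA000 rO r 0 τ = 0 := by
  obtain ⟨kz, sz, Z, _, _, _, h⟩ := g0_eq (FG rO C pA000) r 0 τ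
  rw [CF_def, h]
  obtain ⟨X, cX, Y, cY, cZ, h⟩ := ev_core_t0 (FG rO C pA000) true r (0 - 2⁻¹ * kz) (2⁻¹ * sz) Z
  rw [h]
  exact Vt0 .ac _ (Or.inl rfl) rfl rfl rfl rfl rfl rfl

theorem v_f0_r0 (_ : Good C) {t : ℝ} (τ : ℝ) (_h0 : 0 ≤ t) (_h1 : t ≤ 1) :
    CF .f0 C pA000 rO 0 t τ = 0 := by
  obtain ⟨kz, sz, Z, _, _, _, h⟩ := g0_eq (FG rO C pA000) 0 t τ
  rw [CF_def, h]
  obtain ⟨b, v, sb, Y, cY, cZ, h⟩ :=
    ev_core_r0 (FG rO C pA000) true t (0 - 2⁻¹ * kz) (2⁻¹ * sz) Z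
  rw [h]
  exact V0 pA000 _ rfl rfl rfl rfl rfl rfl (Or.inr ⟨rfl, rfl, Or.inl rfl⟩)

theorem v_f0_r1 (_ : Good C) {t : ℝ} (τ : ℝ) (_h0 : 0 ≤ t) (_h1 : t ≤ 1) :
    CF .f0 C pA100 rO 0 t τ = 0 := by
  obtain ⟨kz, sz, Z, _, _, _, h⟩ := g0_eq (FG rO C pA100) 0 t τ
  rw [CF_def, h]
  obtain ⟨b, v, sb, Y, cY, cZ, h⟩ :=
    ev_core_r0 (FG rO C pA100) true t (0 - 2⁻¹ * kz) (2⁻¹ * sz) Z
  rw [h]
  exact V0 pA100 _ rfl rfl rfl rfl rfl rfl (Or.inr ⟨rfl, rfl, Or.inl rfl⟩)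

theorem v_f0_t1a (hG : Good C) {r : ℝ} (τ : ℝ) (_h0 : 0 ≤ r) (_h1 : r ≤ 1) :
    CF .f0 C pA100 rO r 1 τ = 0 := by
  rw [CF_def, ev_f0_t1]
  exact V2x hG pA100 _ (Or.inr ⟨rfl, Or.inl rfl⟩) rfl rfl rfl rfl rfl rfl rfl rfl rfl rfl rfl rfl
    rfl (rr1 r)
theorem v_f0_t1b (hG : Good C) {r : ℝ} (τ : ℝ) (_h0 : 0 ≤ r) (_h1 : r ≤ 1) :
    CF .f0 C pA111 rO r 1 τ = 0 := by
  rw [CF_def, ev_f0_t1]
  exact V2x hG pA111 _ (Or.inr ⟨rfl, Or.inl rfl⟩) rfl rfl rfl rfl rfl rfl rfl rfl rfl rfl rfl rfl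
    rfl (rr1 r)

theorem v_f1_t0 (_ : Good C) (r g : ℝ) : CF .f1 C pO000 rO r 0 g = 0 := by
  rw [CF_def, f1_eq]
  obtain ⟨X, cX, Y, cY, cZ, h⟩ := ev_core_t0 (FG rO C pO000) false r (cos (π / 2 * g))
    (sin (π / 2 * g)) g
  rw [h]
  exact Vt0 .ob _ (Or.inr rfl) rfl rfl rfl rfl rfl rfl
theorem v_f1_r0 (_ : Good C) {t : ℝ} (g : ℝ) (_h0 : 0 ≤ t) (_h1 : t ≤ 1) :
    CF .f1 C pO000 rO 0 t g = 0 := by
  rw [CF_def, f1_eq]
  obtain ⟨b, v, sb, Y, cY, cZ, h⟩ :=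
    ev_core_r0 (FG rO C pO000) false t (cos (π / 2 * g)) (sin (π / 2 * g)) g
  rw [h]
  exact V0 pO000 _ rfl rfl rfl rfl rfl rfl (Or.inr ⟨rfl, rfl, Or.inr rfl⟩)
theorem v_f1_r1 (_ : Good C) {t : ℝ} (g : ℝ) (_h0 : 0 ≤ t) (_h1 : t ≤ 1) :
    CF .f1 C pO100 rO 0 t g = 0 := by
  rw [CF_def, f1_eq]
  obtain ⟨b, v, sb, Y, cY, cZ, h⟩ :=
    ev_core_r0 (FG rO C pO100) false t (cos (π / 2 * g)) (sin (π / 2 * g)) g
  rw [h]
  exact V0 pO100 _ rfl rfl rfl rfl rfl rfl (Or.inr ⟨rfl, rfl, Or.inr rfl⟩)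
/-- `γ = 0` -/
theorem v_f1_g0 (_ : Good C) {r t : ℝ} (pc : Pc) (hpc : pc = pO000 ∨ pc = pO100 ∨ pc = pO110)
    (hr0 : 0 ≤ r) (hr1 : r ≤ 1) (ht0 : 0 ≤ t) (ht1 : t < 1) : CF .f1 C pc rO r t 0 = 0 := by
  obtain ⟨a, b, u, v, w, sa, sb, sc, h⟩ := ev_f1_g0 (FG rO C pc) hr0 hr1 ht0 ht1
  rw [CF_def, h]
  refine V1 pc _ rfl rfl rfl rfl rfl rfl rfl (Or.inr ⟨?_, ?_, rfl⟩)
  · rcases hpc with h | h | h <;> subst h <;> rfl
  · rcases hpc with h | h | h <;> subst h <;> rfl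

theorem v_G_a (_ : Good C) {b : ℝ} (g : ℝ) (h0 : 0 < b) (h1 : b ≤ 1) :
    CF .G C pO100 rO 0 b g = 0 := by
  rw [CF_def, gG_eq, ev_SK_a0 _ _ _ _ h0 h1]
  exact V0 pO100 _ rfl rfl rfl rfl rfl rfl (Or.inr ⟨rfl, rfl, Or.inr rfl⟩)
theorem v_G_g0 (_ : Good C) {a b : ℝ} (h0 : 0 ≤ a) (h1 : 0 < b) (h2 : a + b < 2) :
    CF .G C pO100 rO a b 0 = 0 := by
  rw [CF_def, gG_eq, csz, snz, ev_SK_g0 _ _ (by linarith) h2]
  exact V1 pO100 _ rfl rfl rfl rfl rfl rfl rfl (Or.inr ⟨rfl, rfl, rfl⟩)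
theorem v_S_a (_ : Good C) (s g : ℝ) (pc : Pc) (_hpc : pc = pO110 ∨ pc = pO111) :
    CF .S C pc rO 0 s g = 0 := by
  rw [CF_def, gS_eq, show (1 : ℝ) - 0 * s = 1 by ring, ev_SK_a0 _ _ _ _ one_pos le_rfl]
  exact V0 pc _ rfl rfl rfl rfl rfl rfl (Or.inl rfl)
/-- `γ = 0`; here `b = 1 - a s` -/
theorem v_S_g0 (_ : Good C) {a s : ℝ} (h0 : 0 ≤ a) (h1 : a < 1/2) (h2 : 0 ≤ s) (h3 : s ≤ 2) :
    CF .S C pO110 rO a s 0 = 0 := by
  have k1 : a * s < 1 := by nlinarith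
  have k2 : 0 ≤ a * s := mul_nonneg h0 h2
  rw [CF_def, gS_eq, csz, snz, ev_SK_g0 _ _ (by linarith) (by linarith)]
  exact V1 pO110 _ rfl rfl rfl rfl rfl rfl rfl (Or.inr ⟨rfl, rfl, rfl⟩)
theorem v_R_a (_ : Good C) {s r : ℝ} (_h : |s * r| ≤ 1) : CF .R C pO111 rO 0 s r = 0 := by
  obtain ⟨g, _, h⟩ := gR_eq (FG rO C pO111) 0 s r
  rw [CF_def, h, show (1 : ℝ) - 0 * s = 1 by ring, ev_SK_a0 _ _ _ _ one_pos le_rfl]
  exact V0 pO111 _ rfl rfl rfl rfl rfl rfl (Or.inl rfl)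
/-- `s = 0`: `b = 1`, `κ = 0`, a right angle -/
theorem v_R_s (hG : Good C) {a : ℝ} (r : ℝ) (h0 : 0 ≤ a) (h1 : a ≤ 1) :
    CF .R C pO111 rO a 0 r = 0 := by
  obtain ⟨g, hg, h⟩ := gR_eq (FG rO C pO111) a 0 r
  have e1 : (1 : ℝ) - 0 * r * (0 * r) = 1 := by ring
  have e2 : (0 : ℝ) * r = 0 := zero_mul r
  have e3 : g = 1 := by
    rw [hg, e2, zero_mul, arctan_zero, mul_zero, mul_zero, sub_zero]
  rw [CF_def, h, e1, Real.sqrt_one, e2, e3, show (1 : ℝ) - a * 0 = 1 by ring,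
    ev_SK_g1 _ _ h0 h1]
  exact V2x hG pO111 _ (Or.inr ⟨rfl, Or.inr rfl⟩) rfl rfl rfl rfl rfl rfl rfl rfl rfl rfl rfl rfl
    rfl (sc1 _)
theorem v_E_s (hG : Good C) {a : ℝ} (τ : ℝ) (h0 : 0 < a) (h1 : a ≤ 1) :
    CF .E C pO111 rO a 0 τ = 0 := by
  rw [CF_def, ev_E_s _ _ h0 h1]
  exact V2x hG pO111 _ (Or.inr ⟨rfl, Or.inr rfl⟩) rfl rfl rfl rfl rfl rfl rfl rfl rfl rfl rfl rfl
    rfl (sc1 _)

end FX
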